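import Pool.Agent.Lib_MP_af4de1_f1.GLem

set_option autoImplicit false

open Real SokalF1G

namespace SokalV3O

/-- the quadratic in `m` between its values at two points -/
theorem OLR_chord {A B C u v m : ℝ} (hu : u ≤ m) (hv : m ≤ v)
    (h0 : A ≤ 0) (h1 : 0 ≤ A * u ^ 2 + B * u + C) (h2 : 0 ≤ A * v ^ 2 + B * v + C) :
    0 ≤ A * m ^ 2 + B * m + C := by
  rcases eq_or_lt_of_le (hu.trans hv) with h | h
  · have : m = u := le_antisymm (h ▸ hv) hu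
    rw [this]
    exact h1
  have e : (v - u) * (A * m ^ 2 + B * m + C) = (v - m) * (A * u ^ 2 + B * u + C) +
      (m - u) * (A * v ^ 2 + B * v + C) + (v - u) * ((-A) * ((m - u) * (v - m))) := by
    ring
  have a1 := mul_nonneg (sub_nonneg.2 hv) h1
  have a2 := mul_nonneg (sub_nonneg.2 hu) h2
  have a3 := mul_nonneg (sub_pos.2 h).le (mul_nonneg (neg_nonneg.2 h0)
    (mul_nonneg (sub_nonneg.2 hu) (sub_nonneg.2 hv)))
  have : 0 ≤ (v - u) * (A * m ^ 2 + B * m + C) := by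
    rw [e]
    linarith
  exact nonneg_of_mul_nonneg_right this (sub_pos.2 h)

/-- the same for a convex quadratic with room `K (v-u)^2/4 ≤ value at the ends` -/
theorem OLR_chord' {A B C K u v m : ℝ} (hu : u ≤ m) (hv : m ≤ v)
    (h0 : A ≤ K) (hK : 0 ≤ K) (h1 : K * (v - u) ^ 2 / 4 ≤ A * u ^ 2 + B * u + C)
    (h2 : K * (v - u) ^ 2 / 4 ≤ A * v ^ 2 + B * v + C) :
    0 ≤ A * m ^ 2 + B * m + C := by
  rcases eq_or_lt_of_le (hu.trans hv) with h | h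
  · have : m = u := le_antisymm (h ▸ hv) hu
    rw [this]
    rw [← h] at h1
    linarith
  have e : (v - u) * (A * m ^ 2 + B * m + C) = (v - m) * (A * u ^ 2 + B * u + C) +
      (m - u) * (A * v ^ 2 + B * v + C) - (v - u) * (A * ((m - u) * (v - m))) := by
    ring
  have a1 := mul_le_mul_of_nonneg_left h1 (sub_nonneg.2 hv)
  have a2 := mul_le_mul_of_nonneg_left h2 (sub_nonneg.2 hu)
  have a4 : 0 ≤ (m - u) * (v - m) := mul_nonneg (sub_nonneg.2 hu) (sub_nonneg.2 hv)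
  have a5 : (m - u) * (v - m) ≤ (v - u) ^ 2 / 4 := by nlinarith [sq_nonneg (m - u - (v - m))]
  have a3 : (v - u) * (A * ((m - u) * (v - m))) ≤ (v - u) * (K * ((v - u) ^ 2 / 4)) :=
    mul_le_mul_of_nonneg_left ((mul_le_mul_of_nonneg_right h0 a4).trans
      (mul_le_mul_of_nonneg_left a5 hK)) (sub_pos.2 h).le
  have : 0 ≤ (v - u) * (A * m ^ 2 + B * m + C) := by
    rw [e]
    nlinarith
  exact nonneg_of_mul_nonneg_right this (sub_pos.2 h)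

/-- the squared inequality -/
theorem OLR_key {x n : ℝ} (hx : 0 ≤ x) (h0 : 0 ≤ n) (h1 : n ≤ 53 / 100) (hT : n ≤ 4 / 5 * x) :
    ((1 + x) ^ 2 + 1) ^ 2 * ((1 - n) ^ 2 + x ^ 2) ≤
      529 / 100 * ((1 + x) * (1 - n) + x ^ 2 * (2 + x) / 2) ^ 2 := by
  suffices H : 0 ≤ (529 / 100 * (1 + x) ^ 2 - ((1 + x) ^ 2 + 1) ^ 2) * n ^ 2 +
      (-(529 / 50 * (1 + x) * ((1 + x) + x ^ 2 * (2 + x) / 2)) + 2 * ((1 + x) ^ 2 + 1) ^ 2) * n +
      (529 / 100 * ((1 + x) + x ^ 2 * (2 + x) / 2) ^ 2 -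
        ((1 + x) ^ 2 + 1) ^ 2 * (1 + x ^ 2)) by
    have e : 529 / 100 * ((1 + x) * (1 - n) + x ^ 2 * (2 + x) / 2) ^ 2 -
        ((1 + x) ^ 2 + 1) ^ 2 * ((1 - n) ^ 2 + x ^ 2) =
        (529 / 100 * (1 + x) ^ 2 - ((1 + x) ^ 2 + 1) ^ 2) * n ^ 2 +
      (-(529 / 50 * (1 + x) * ((1 + x) + x ^ 2 * (2 + x) / 2)) + 2 * ((1 + x) ^ 2 + 1) ^ 2) * n +
      (529 / 100 * ((1 + x) + x ^ 2 * (2 + x) / 2) ^ 2 -
        ((1 + x) ^ 2 + 1) ^ 2 * (1 + x ^ 2)) := by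
      ring
    linarith
  -- value at `n = 0`
  have E0 : 529 / 100 * ((1 + x) + x ^ 2 * (2 + x) / 2) ^ 2 - ((1 + x) ^ 2 + 1) ^ 2 * (1 + x ^ 2) =
      129 / 100 + 129 / 50 * x + 387 / 100 * x ^ 2 + 387 / 100 * x ^ 3 + 79 / 50 * x ^ 4 +
      129 / 100 * x ^ 5 + 129 / 400 * x ^ 6 := by ring
  have V0 : 129 / 100 + 129 / 50 * x ≤ 529 / 100 * ((1 + x) + x ^ 2 * (2 + x) / 2) ^ 2 -
      ((1 + x) ^ 2 + 1) ^ 2 * (1 + x ^ 2) := by
    rw [E0]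
    have : 0 ≤ 387 / 100 * x ^ 2 + 387 / 100 * x ^ 3 + 79 / 50 * x ^ 4 +
      129 / 100 * x ^ 5 + 129 / 400 * x ^ 6 := by positivity
    linarith
  rcases le_total x (53 / 80) with hxs | hxl
  · -- small `x`
    have L0 : 0 ≤ 529 / 100 * (1 + x) ^ 2 - ((1 + x) ^ 2 + 1) ^ 2 := by
      nlinarith [mul_nonneg hx hx, mul_nonneg (mul_nonneg hx hx) hx, mul_nonneg hx (sub_nonneg.2 hxs),
        mul_nonneg (mul_nonneg hx hx) (sub_nonneg.2 hxs),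
        mul_nonneg (mul_nonneg (mul_nonneg hx hx) hx) (sub_nonneg.2 hxs)]
    have L1 : 529 / 100 * (1 + x) ^ 2 - ((1 + x) ^ 2 + 1) ^ 2 ≤ 9 / 5 := by
      nlinarith [sq_nonneg ((1 + x) ^ 2 + 1 - 529 / 200)]
    refine OLR_chord' (u := 0) (v := 4 / 5 * x) h0 hT le_rfl L0 ?_ ?_
    · have h2 := mul_le_mul_of_nonneg_right L1 (sq_nonneg (4 / 5 * x - 0))
      nlinarith [mul_nonneg hx (sub_nonneg.2 hxs)]
    · have e : (529 / 100 * (1 + x) ^ 2 - ((1 + x) ^ 2 + 1) ^ 2) * (4 / 5 * x) ^ 2 +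
          (-(529 / 50 * (1 + x) * ((1 + x) + x ^ 2 * (2 + x) / 2)) +
            2 * ((1 + x) ^ 2 + 1) ^ 2) * (4 / 5 * x) +
          (529 / 100 * ((1 + x) + x ^ 2 * (2 + x) / 2) ^ 2 -
            ((1 + x) ^ 2 + 1) ^ 2 * (1 + x ^ 2)) -
          (529 / 100 * (1 + x) ^ 2 - ((1 + x) ^ 2 + 1) ^ 2) * (4 / 5 * x - 0) ^ 2 / 4 =
          129 / 100 + 129 / 250 * x + 903 / 2500 * x ^ 2 + 2451 / 2500 * x ^ 3 -
            7521 / 1250 * x ^ 4 - 1631 / 500 * x ^ 5 - 63 / 400 * x ^ 6 := by ring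
      have x2 : 0 ≤ x ^ 2 := by positivity
      have x3 : 0 ≤ x ^ 3 := by positivity
      have x4 : x ^ 4 ≤ 53 / 80 * x ^ 3 := by nlinarith [mul_nonneg x3 (sub_nonneg.2 hxs)]
      have x5 : x ^ 5 ≤ (53 / 80) ^ 2 * x ^ 3 := by
        nlinarith [mul_nonneg (mul_nonneg x3 hx) (sub_nonneg.2 hxs)]
      have x6 : x ^ 6 ≤ (53 / 80) ^ 3 * x ^ 3 := by
        nlinarith [mul_nonneg (mul_nonneg (mul_nonneg x3 hx) hx) (sub_nonneg.2 hxs)]
      have y3 : x ^ 3 ≤ (53 / 80) ^ 3 := pow_le_pow_left₀ hx hxs 3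
      have y2 : x ^ 3 ≤ 53 / 80 * x ^ 2 := by nlinarith [mul_nonneg x2 (sub_nonneg.2 hxs)]
      nlinarith [mul_nonneg hx (sub_nonneg.2 hxs)]
  · have L1 : 529 / 100 * (1 + x) ^ 2 - ((1 + x) ^ 2 + 1) ^ 2 ≤ 1 / 2 := by
      obtain ⟨t, rfl⟩ : ∃ t, x = 53 / 80 + t := ⟨x - 53 / 80, by ring⟩
      have ht : 0 ≤ t := by linarith
      nlinarith [mul_nonneg ht ht, mul_nonneg (mul_nonneg ht ht) ht,
        mul_nonneg (mul_nonneg ht ht) (mul_nonneg ht ht)]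
    refine OLR_chord' (K := 1 / 2) (u := 0) (v := 53 / 100) h0 h1 L1 (by norm_num) ?_ ?_
    · norm_num
      nlinarith
    · obtain ⟨t, rfl⟩ : ∃ t, x = 53 / 80 + t := ⟨x - 53 / 80, by ring⟩
      have ht : 0 ≤ t := by linarith
      have e : (529 / 100 * (1 + (53 / 80 + t)) ^ 2 - ((1 + (53 / 80 + t)) ^ 2 + 1) ^ 2) *
            (53 / 100) ^ 2 +
          (-(529 / 50 * (1 + (53 / 80 + t)) * ((1 + (53 / 80 + t)) +
            (53 / 80 + t) ^ 2 * (2 + (53 / 80 + t)) / 2)) +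
            2 * ((1 + (53 / 80 + t)) ^ 2 + 1) ^ 2) * (53 / 100) +
          (529 / 100 * ((1 + (53 / 80 + t)) + (53 / 80 + t) ^ 2 * (2 + (53 / 80 + t)) / 2) ^ 2 -
            ((1 + (53 / 80 + t)) ^ 2 + 1) ^ 2 * (1 + (53 / 80 + t) ^ 2)) =
          54384877454441 / 104857600000000 + (106067739919 / 655360000000 * t ^ 1 + 3455174803 / 3276800000 * t ^ 2 + 252646497 / 51200000 * t ^ 3 + 15236439 / 2560000 * t ^ 4 + 41151 / 16000 * t ^ 5 + 129 / 400 * t ^ 6) := by ring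
      have p : 0 ≤ 106067739919 / 655360000000 * t ^ 1 + 3455174803 / 3276800000 * t ^ 2 + 252646497 / 51200000 * t ^ 3 + 15236439 / 2560000 * t ^ 4 + 41151 / 16000 * t ^ 5 + 129 / 400 * t ^ 6 := by
        positivity
      rw [e]
      norm_num
      linarith

/-- steepness, right side; true supremum `1.1194` (at `x = .6625`, `n = .53`) -/
theorem lR {x n : ℝ} (hx : 0 ≤ x) (h0 : 0 ≤ n) (h1 : n ≤ 53 / 100) (hT : n ≤ 4 / 5 * x) :
    (1 + (1 / (1 + x)) ^ 2) * √((1 - n) ^ 2 + x ^ 2) ≤ 2 * (23 / 20) * Qf x (-n) := by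
  have hX : 0 < 1 + x := by linarith
  have hW : 0 ≤ (1 + x) * (1 - n) + x ^ 2 * (2 + x) / 2 := by
    have : 0 ≤ 1 - n := by linarith
    positivity
  have key := OLR_key hx h0 h1 hT
  have hQ : Qf x (-n) = ((1 + x) * (1 - n) + x ^ 2 * (2 + x) / 2) / (1 + x) ^ 2 := by
    unfold Qf
    field_simp
    ring
  have hc : 1 + (1 / (1 + x)) ^ 2 = ((1 + x) ^ 2 + 1) / (1 + x) ^ 2 := by
    field_simp
  rw [hQ, hc, div_mul_eq_mul_div, mul_div_assoc', div_le_div_iff_of_pos_right (by positivity)]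
  have h2 : √((1 - n) ^ 2 + x ^ 2) ≤
      2 * (23 / 20) * ((1 + x) * (1 - n) + x ^ 2 * (2 + x) / 2) / ((1 + x) ^ 2 + 1) := by
    rw [Real.sqrt_le_iff]
    refine ⟨by positivity, ?_⟩
    rw [div_pow, le_div_iff₀ (by positivity)]
    nlinarith
  rw [le_div_iff₀ (by positivity)] at h2
  linarith

/-- true supremum `.41` -/
theorem gR {x n : ℝ} (hx : 0 ≤ x) (h0 : 0 ≤ n) (h1 : n ≤ 53 / 100) (hT : n ≤ 4 / 5 * x) :
    (1 / (1 + x)) ^ 2 * (√(x ^ 2 + n ^ 2) * exp (-n)) ≤ 9 / 20 * Qf x (-n) := by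
  have hX : 0 < 1 + x := by linarith
  have hQ : Qf x (-n) = ((1 + x) * (1 - n) + x ^ 2 * (2 + x) / 2) / (1 + x) ^ 2 := by
    unfold Qf
    field_simp
    ring
  have hk : √(x ^ 2 + n ^ 2) ≤ x + 2 / 5 * n := by
    rw [Real.sqrt_le_iff]
    refine ⟨by positivity, ?_⟩
    nlinarith [mul_nonneg h0 (sub_nonneg.2 hT)]
  have he : exp (-n) * (1 + n) ≤ 1 := by
    have h2 := Real.add_one_le_exp n
    have h3 := mul_le_mul_of_nonneg_left h2 (exp_pos (-n)).le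
    rw [← Real.exp_add, neg_add_cancel, Real.exp_zero] at h3
    linarith
  have hpoly : x + 2 / 5 * n ≤ 9 / 20 * ((1 + n) * ((1 + x) * (1 - n) + x ^ 2 * (2 + x) / 2)) := by
    suffices H : 0 ≤ (-(9 / 20 * (1 + x))) * n ^ 2 + (9 / 20 * (x ^ 2 * (2 + x) / 2) - 2 / 5) * n +
        (9 / 20 * ((1 + x) + x ^ 2 * (2 + x) / 2) - x) by
      nlinarith
    have hA : -(9 / 20 * (1 + x)) ≤ 0 := by linarith
    have hz : 0 ≤ 9 / 20 * ((1 + x) + x ^ 2 * (2 + x) / 2) - x := by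
      nlinarith [sq_nonneg (x - 11 / 18), mul_nonneg hx (mul_nonneg hx hx)]
    rcases le_total x (53 / 80) with hxs | hxl
    · refine OLR_chord (u := 0) (v := 4 / 5 * x) h0 hT hA ?_ ?_
      · simpa using hz
      · nlinarith [mul_nonneg hx (mul_nonneg hx hx), mul_nonneg hx hx,
          mul_nonneg (mul_nonneg hx hx) (mul_nonneg hx hx)]
    · refine OLR_chord (u := 0) (v := 53 / 100) h0 h1 hA ?_ ?_
      · simpa using hz
      · obtain ⟨t, rfl⟩ : ∃ t, x = 53 / 80 + t := ⟨x - 53 / 80, by ring⟩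
        have ht : 0 ≤ t := by linarith
        nlinarith [mul_nonneg ht ht, mul_nonneg (mul_nonneg ht ht) ht]
  rw [hQ, mul_div_assoc', div_pow, one_pow, one_div, inv_mul_eq_div,
    div_le_div_iff_of_pos_right (by positivity)]
  have hW : 0 ≤ (1 + x) * (1 - n) + x ^ 2 * (2 + x) / 2 := by
    have : 0 ≤ 1 - n := by linarith
    positivity
  have hex := exp_pos (-n)
  calc √(x ^ 2 + n ^ 2) * exp (-n) ≤ (x + 2 / 5 * n) * exp (-n) :=
        mul_le_mul_of_nonneg_right hk hex.le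
    _ ≤ (9 / 20 * ((1 + n) * ((1 + x) * (1 - n) + x ^ 2 * (2 + x) / 2))) * exp (-n) :=
        mul_le_mul_of_nonneg_right hpoly hex.le
    _ = 9 / 20 * ((1 + x) * (1 - n) + x ^ 2 * (2 + x) / 2) * (exp (-n) * (1 + n)) := by ring
    _ ≤ 9 / 20 * ((1 + x) * (1 - n) + x ^ 2 * (2 + x) / 2) * 1 :=
        mul_le_mul_of_nonneg_left he (by positivity)
    _ = 9 / 20 * ((1 + x) * (1 - n) + x ^ 2 * (2 + x) / 2) := by ring

end SokalV3O
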