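import Pool.Agent.Lib_MP_af4de1_v3o.ONum
import Pool.Agent.Lib_MP_af4de1_v3o.OLR
import Pool.Agent.Lib_MP_af4de1_f1.MainS1
import Pool.Agent.Lib_MP_af4de1_f1.MainS4

/-!
# The core `|s| ≤ 3/2`
-/

set_option autoImplicit false

open Complex MeasureTheory Set SokalPG

namespace SokalV3O

theorem cq_le {c B g κ : ℝ} (hB : 0 < B) (hc : 0 ≤ c) (hg : c ^ 2 / B ≤ g)
    (h : Real.pi * g ≤ κ ^ 2) (hκ : 0 ≤ κ) : c * √(Real.pi / B) ≤ κ := by
  have hp := Real.pi_pos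
  have h1 : (c * √(Real.pi / B)) ^ 2 ≤ κ ^ 2 := by
    rw [mul_pow, Real.sq_sqrt (by positivity)]
    calc c ^ 2 * (Real.pi / B) = Real.pi * (c ^ 2 / B) := by ring
      _ ≤ Real.pi * g := by gcongr
      _ ≤ κ ^ 2 := h
  exact (sq_le_sq₀ (by positivity) hκ).1 h1

/-- the middle part -/
theorem mid_int {C A : ℝ} {F : ℝ → ℝ} (hFi : IntervalIntegrable F volume 1 (3 / 2))
    (hF : ∀ s : ℝ, 1 ≤ s → s ≤ 3 / 2 → F s ≤ C * A) :
    ∫ s in (1 : ℝ)..(3 / 2), F s ≤ 1 / 2 * (C * A) := by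
  have h := intervalIntegral.integral_mono_on (by norm_num : (1 : ℝ) ≤ 3 / 2) hFi
    (intervalIntegrable_const (c := C * A)) fun s hs => hF s hs.1 hs.2
  rw [intervalIntegral.integral_const, smul_eq_mul] at h
  linarith

/-- The four parts of the core. -/
noncomputable def coreS (F : ℝ → ℝ) : ℝ :=
  (∫ s in (0 : ℝ)..1, F s) + (∫ s in (1 : ℝ)..(3 / 2), F s) +
    ((∫ s in (0 : ℝ)..1, F (-s)) + ∫ s in (1 : ℝ)..(3 / 2), F (-s))

theorem D_pos {x y : ℝ} (hy : -1 < y) : 0 < √((1 + y) ^ 2 + x ^ 2) := by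
  apply Real.sqrt_pos.2
  have : 0 < (1 + y) ^ 2 := by
    have : 0 < 1 + y := by linarith
    positivity
  positivity

/-- The core, `y ≥ 0`. -/
theorem coreL {x y δ r t w : ℝ} {j : ℕ} {F : ℝ → ℝ} (hx : 0 ≤ x) (hy : 0 ≤ y)
    (hy1 : y ≤ 18 / 25) (hδ : 0 < δ) (hr : 499 / 10 ≤ r)
    (hrd : r * δ = √(x ^ 2 + y ^ 2) * Real.exp y) (hj : j ≤ 1) (hFi : Integrable F)
    (t0 : 0 < t) (t1 : t ≤ 1) (hw : Real.exp (-w) ≤ t * √t)
    (h1 : ∀ s : ℝ, 0 ≤ s → s ≤ 1 → F s ≤ √(1 + ((1 + x)⁻¹) ^ 2) *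
      (Real.exp (j * ((1 + x)⁻¹ * s)) *
        Real.exp (-(w + t * (10 / 11 * (SokalF1G.Qf x y / δ) * s ^ 2)))))
    (h2 : ∀ v : ℝ, 0 ≤ v → v ≤ 1 → F (-v) ≤ √(1 + ((1 + x)⁻¹) ^ 2) *
      Real.exp (-(0 + 1 * ((SokalF1G.Qf x y / δ) * ((1 - 3 / 10 * v) * v ^ 2)))))
    (h3 : ∀ s : ℝ, 1 ≤ s → s ≤ 3 / 2 → F s ≤ √(1 + ((1 + x)⁻¹) ^ 2) *
      (Real.exp 1 * Real.exp (-(11 / 20 * (SokalF1G.Qf x y / δ)))))
    (h4 : ∀ v : ℝ, 1 ≤ v → v ≤ 3 / 2 → F (-v) ≤ √(1 + ((1 + x)⁻¹) ^ 2) *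
      Real.exp (-(11 / 20 * (SokalF1G.Qf x y / δ)))) :
    coreS F ≤ 1124 / 1000 * Gn x y δ := by
  have hp1 := Real.pi_gt_d4
  have hp2 := Real.pi_lt_d4
  have hp := Real.pi_pos
  have hr0 : 0 < r := by linarith
  have hX : 0 < 1 + x := by linarith
  have hc : 0 ≤ (1 + x)⁻¹ := by positivity
  have hc1 : (1 + x)⁻¹ ≤ 1 := inv_le_one_of_one_le₀ (by linarith)
  have hQ : 0 < SokalF1G.Qf x y := by
    have hb := SokalF1B.s1_B hx hy hy1
    rw [← hrd] at hb
    have : 0 < r * δ := by positivity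
    linarith
  have hbB := SokalF1B.s1_B hx hy hy1
  have hbg := SokalF1B.s1_gam hx hy hy1
  have hbl := SokalF1B.s1_l hx hy hy1
  rw [← hrd] at hbB hbg
  obtain ⟨B, hB⟩ : ∃ B, B = SokalF1G.Qf x y / δ := ⟨_, rfl⟩
  rw [← hB] at h1 h2 h3 h4
  have hBQ : B * δ = SokalF1G.Qf x y := by
    rw [hB]
    field_simp
  have hB1 : 11088 / 1000 ≤ B := by
    rw [hB, le_div_iff₀ hδ]
    have : 499 / 10 * δ ≤ r * δ := by gcongr
    linarith
  have hB0 : 0 < B := by linarith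
  set c := (1 + x)⁻¹ with hcd
  set C := √(1 + c ^ 2) with hCd
  set q := √(Real.pi / B) with hqd
  have hC : 0 < C := Real.sqrt_pos.2 (by positivity)
  have hq : 0 < q := Real.sqrt_pos.2 (by positivity)
  have hqq : q ^ 2 = Real.pi / B := Real.sq_sqrt (by positivity)
  have hcB : c ^ 2 / B ≤ 9 / 499 := by
    rw [div_le_iff₀ hB0]
    have e : c ^ 2 * (r * δ) ≤ 9 / 10 * (B * δ) := by
      rw [hBQ]
      rw [one_div] at hbg
      exact hbg
    have e2 : c ^ 2 * (499 / 10) * δ ≤ 9 / 10 * B * δ := by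
      have : c ^ 2 * (499 / 10) * δ ≤ c ^ 2 * r * δ := by gcongr
      linarith
    have := le_of_mul_le_mul_right e2 hδ
    linarith
  have hcq : c * q ≤ 23805 / 100000 := cq_le hB0 hc hcB (by linarith) (by norm_num)
  have hq1 : q ≤ 5323 / 10000 := by
    have : q ^ 2 ≤ (5323 / 10000) ^ 2 := by
      rw [hqq, div_le_iff₀ hB0]
      linarith
    exact (sq_le_sq₀ hq.le (by norm_num)).1 this
  have hV : C * q ≤ 101 / 100 * Gn x y δ :=
    V_le hδ hQ hB (D_pos (by linarith)) (hbl.trans (by nlinarith)) (by norm_num)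
  have hG : 0 ≤ Gn x y δ := Real.sqrt_nonneg _
  have hj0 : (0 : ℝ) ≤ j := Nat.cast_nonneg j
  have hj1 : (j : ℝ) ≤ 1 := by exact_mod_cast hj
  -- right half
  have a1 := half_r' (F := F) (b := 10 / 11 * B) hC (by positivity) hc hc1 hj t0 t1 hw
    hFi.intervalIntegrable h1
  have n1 : Ab (10 / 11 * B) (j * c) (j * (18 / 25 * c ^ 2)) ≤ 5699 / 10000 * q := by
    refine Ab_num (ν := 10489 / 10000) hB0 (by norm_num) (by norm_num) (by norm_num)
      (by positivity) ?_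
    rw [← hqd]
    have e1 : (j : ℝ) * c * q / (2 * Real.pi * (10 / 11)) ≤ 41677 / 1000000 := by
      rw [div_le_iff₀ (by positivity)]
      have : (j : ℝ) * c * q ≤ 1 * (c * q) := by
        rw [mul_assoc]
        exact mul_le_mul_of_nonneg_right hj1 (by positivity)
      linarith
    have e2 : (j : ℝ) * (18 / 25 * c ^ 2) * (10489 / 10000) / (4 * (10 / 11) * B) ≤
        3746 / 1000000 := by
      have : (j : ℝ) * (18 / 25 * c ^ 2) * (10489 / 10000) / (4 * (10 / 11) * B) =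
          j * (18 / 25 * (10489 / 10000) / (4 * (10 / 11)) * (c ^ 2 / B)) := by
        field_simp
      rw [this]
      have h5 : 18 / 25 * (10489 / 10000) / (4 * (10 / 11)) * (c ^ 2 / B) ≤
          18 / 25 * (10489 / 10000) / (4 * (10 / 11)) * (9 / 499) := by gcongr
      have h6 : 0 ≤ 18 / 25 * (10489 / 10000) / (4 * (10 / 11)) * (c ^ 2 / B) := by positivity
      have h7 := mul_le_mul_of_nonneg_right hj1 h6
      norm_num at h5 h7 ⊢
      linarith
    linarith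
  -- left half
  have a2 := half_L (F := fun v => F (-v)) (b := B) hC hB0 one_pos le_rfl
    (by simp) hFi.comp_neg.intervalIntegrable h2
  have n2 : Ab B (3 / 10) (2 / 5) ≤ 5345 / 10000 * q := by
    rw [← one_mul B]
    refine Ab_num (ν := 1) hB0 one_pos zero_le_one (by norm_num) (by norm_num) ?_
    rw [← hqd]
    have e1 : 3 / 10 * q / (2 * Real.pi * 1) ≤ 25417 / 1000000 := by
      rw [div_le_iff₀ (by positivity)]
      linarith
    have e2 : 2 / 5 * 1 / (4 * 1 * B) ≤ 9019 / 1000000 := by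
      rw [div_le_iff₀ (by positivity)]
      linarith
    linarith
  -- middle
  have hm := mid_num (B := B) (by linarith)
  rw [← hqd] at hm
  have a3 := mid_int (F := F) hFi.intervalIntegrable h3
  have a4' := mid_int (F := fun v => F (-v)) hFi.comp_neg.intervalIntegrable h4
  have he : Real.exp 1 ≤ 27183 / 10000 := by
    have := Real.exp_one_lt_d9
    linarith
  have hep := Real.exp_pos (-(11 / 20 * B))
  have b3 : Real.exp 1 * Real.exp (-(11 / 20 * B)) ≤ 27183 / 10000 * (45 / 10000 * q) := by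
    gcongr
  unfold coreS
  have s1 := mul_le_mul_of_nonneg_left n1 hC.le
  have s2 := mul_le_mul_of_nonneg_left n2 hC.le
  have s3 := mul_le_mul_of_nonneg_left b3 hC.le
  have s4 := mul_le_mul_of_nonneg_left hm hC.le
  have hCq : 0 < C * q := by positivity
  have tot : (∫ s in (0 : ℝ)..1, F s) + (∫ s in (1 : ℝ)..(3 / 2), F s) +
      ((∫ s in (0 : ℝ)..1, F (-s)) + ∫ s in (1 : ℝ)..(3 / 2), F (-s)) ≤
      11128 / 10000 * (C * q) := by
    linarith
  refine tot.trans ?_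
  linarith

/-- The core, `y = -n ≤ 0`. -/
theorem coreR {x n δ r t w t' w' : ℝ} {j : ℕ} {F : ℝ → ℝ} (hx : 0 ≤ x) (hn : 0 ≤ n)
    (hn1 : n ≤ 53 / 100) (hT : n ≤ 4 / 5 * x) (hD : 13 / 20 ≤ (1 - n) ^ 2 + x ^ 2)
    (hδ : 0 < δ) (hr : 499 / 10 ≤ r)
    (hrd : r * δ = √(x ^ 2 + n ^ 2) * Real.exp (-n)) (hj : j ≤ 1) (hFi : Integrable F)
    (t0 : 0 < t) (t1 : t ≤ 1) (hw : Real.exp (-w) ≤ t * √t)
    (t0' : 0 < t') (t1' : t' ≤ 1) (hw' : Real.exp (-w') ≤ t' * √t')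
    (h1 : ∀ s : ℝ, 0 ≤ s → s ≤ 1 → F s ≤ √(1 + ((1 + x)⁻¹) ^ 2) *
      (Real.exp (j * ((1 + x)⁻¹ * s)) *
        Real.exp (-(w + t * (9 / 10 * (SokalF1G.Qf x (-n) / δ) * s ^ 2)))))
    (h2 : ∀ v : ℝ, 0 ≤ v → v ≤ 1 → F (-v) ≤ √(1 + ((1 + x)⁻¹) ^ 2) *
      Real.exp (-(w' + t' * ((SokalF1G.Qf x (-n) / δ) *
        ((1 - 14 / 25 * v + v ^ 2 / 10) * v ^ 2)))))
    (h3 : ∀ s : ℝ, 1 ≤ s → s ≤ 3 / 2 → F s ≤ √(1 + ((1 + x)⁻¹) ^ 2) *
      (Real.exp 1 * Real.exp (-(2 / 5 * (SokalF1G.Qf x (-n) / δ)))))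
    (h4 : ∀ v : ℝ, 1 ≤ v → v ≤ 3 / 2 → F (-v) ≤ √(1 + ((1 + x)⁻¹) ^ 2) *
      Real.exp (-(2 / 5 * (SokalF1G.Qf x (-n) / δ)))) :
    coreS F ≤ 6 / 5 * Gn x (-n) δ := by
  have hp1 := Real.pi_gt_d4
  have hp2 := Real.pi_lt_d4
  have hp := Real.pi_pos
  have hr0 : 0 < r := by linarith
  have hX : 0 < 1 + x := by linarith
  have hc : 0 ≤ (1 + x)⁻¹ := by positivity
  have hc1 : (1 + x)⁻¹ ≤ 1 := inv_le_one_of_one_le₀ (by linarith)
  have hN : SokalF1B.NegF x (-n) := SokalF1B.negF_small hx (by linarith) (by linarith)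
    (by linarith) (by rw [← sub_eq_add_neg]; exact hD)
  have hQ := hN.q
  have hbB := hN.B
  rw [neg_sq, ← hrd] at hbB
  have hbg := gR hx hn hn1 hT
  have hbl := lR hx hn hn1 hT
  rw [← hrd] at hbg
  obtain ⟨B, hB⟩ : ∃ B, B = SokalF1G.Qf x (-n) / δ := ⟨_, rfl⟩
  rw [← hB] at h1 h2 h3 h4
  have hBQ : B * δ = SokalF1G.Qf x (-n) := by
    rw [hB]
    field_simp
  have hB1 : 2376 / 100 ≤ B := by
    rw [hB, le_div_iff₀ hδ]
    have : 499 / 10 * δ ≤ r * δ := by gcongr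
    linarith
  have hB0 : 0 < B := by linarith
  set c := (1 + x)⁻¹ with hcd
  set C := √(1 + c ^ 2) with hCd
  set q := √(Real.pi / B) with hqd
  have hC : 0 < C := Real.sqrt_pos.2 (by positivity)
  have hq : 0 < q := Real.sqrt_pos.2 (by positivity)
  have hqq : q ^ 2 = Real.pi / B := Real.sq_sqrt (by positivity)
  have hcB : c ^ 2 / B ≤ 9 / 998 := by
    rw [div_le_iff₀ hB0]
    have e : c ^ 2 * (r * δ) ≤ 9 / 20 * (B * δ) := by
      rw [hBQ]
      rw [one_div] at hbg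
      exact hbg
    have e2 : c ^ 2 * (499 / 10) * δ ≤ 9 / 20 * B * δ := by
      have : c ^ 2 * (499 / 10) * δ ≤ c ^ 2 * r * δ := by gcongr
      linarith
    have := le_of_mul_le_mul_right e2 hδ
    linarith
  have hcq : c * q ≤ 16832 / 100000 := cq_le hB0 hc hcB (by linarith) (by norm_num)
  have hq1 : q ≤ 36364 / 100000 := by
    have : q ^ 2 ≤ (36364 / 100000) ^ 2 := by
      rw [hqq, div_le_iff₀ hB0]
      linarith
    exact (sq_le_sq₀ hq.le (by norm_num)).1 this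
  have hV : C * q ≤ 10724 / 10000 * Gn x (-n) δ := by
    refine V_le hδ hQ hB (D_pos (by linarith)) ?_ (by norm_num)
    rw [← sub_eq_add_neg]
    exact hbl.trans (by nlinarith)
  have hG : 0 ≤ Gn x (-n) δ := Real.sqrt_nonneg _
  have hj0 : (0 : ℝ) ≤ j := Nat.cast_nonneg j
  have hj1 : (j : ℝ) ≤ 1 := by exact_mod_cast hj
  -- right half
  have a1 := half_r' (F := F) (b := 9 / 10 * B) hC (by positivity) hc hc1 hj t0 t1 hw
    hFi.intervalIntegrable h1
  have n1 : Ab (9 / 10 * B) (j * c) (j * (18 / 25 * c ^ 2)) ≤ 5588 / 10000 * q := by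
    refine Ab_num (ν := 10541 / 10000) hB0 (by norm_num) (by norm_num) (by norm_num)
      (by positivity) ?_
    rw [← hqd]
    have e1 : (j : ℝ) * c * q / (2 * Real.pi * (9 / 10)) ≤ 29767 / 1000000 := by
      rw [div_le_iff₀ (by positivity)]
      have : (j : ℝ) * c * q ≤ 1 * (c * q) := by
        rw [mul_assoc]
        exact mul_le_mul_of_nonneg_right hj1 (by positivity)
      linarith
    have e2 : (j : ℝ) * (18 / 25 * c ^ 2) * (10541 / 10000) / (4 * (9 / 10) * B) ≤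
        1902 / 1000000 := by
      have : (j : ℝ) * (18 / 25 * c ^ 2) * (10541 / 10000) / (4 * (9 / 10) * B) =
          j * (18 / 25 * (10541 / 10000) / (4 * (9 / 10)) * (c ^ 2 / B)) := by
        field_simp
      rw [this]
      have h5 : 18 / 25 * (10541 / 10000) / (4 * (9 / 10)) * (c ^ 2 / B) ≤
          18 / 25 * (10541 / 10000) / (4 * (9 / 10)) * (9 / 998) := by gcongr
      have h6 : 0 ≤ 18 / 25 * (10541 / 10000) / (4 * (9 / 10)) * (c ^ 2 / B) := by positivity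
      have h7 := mul_le_mul_of_nonneg_right hj1 h6
      norm_num at h5 h7 ⊢
      linarith
    linarith
  -- left half
  have a2 := half_R (F := fun v => F (-v)) (b := B) hC hB0 t0' t1' hw'
    hFi.comp_neg.intervalIntegrable h2
  have n2 : Ab B (14 / 25) (42 / 25) ≤ 5502 / 10000 * q := by
    rw [← one_mul B]
    refine Ab_num (ν := 1) hB0 one_pos zero_le_one (by norm_num) (by norm_num) ?_
    rw [← hqd]
    have e1 : 14 / 25 * q / (2 * Real.pi * 1) ≤ 32412 / 1000000 := by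
      rw [div_le_iff₀ (by positivity)]
      linarith
    have e2 : 42 / 25 * 1 / (4 * 1 * B) ≤ 17678 / 1000000 := by
      rw [div_le_iff₀ (by positivity)]
      linarith
    linarith
  -- middle
  have hm : Real.exp (-(2 / 5 * B)) ≤ 5278 / 1000000 * q := by
    have h5 := mid_num (B := 8 / 11 * B) (by linarith)
    have h6 : √(Real.pi / (8 / 11 * B)) ≤ 11727 / 10000 * q := by
      rw [Real.sqrt_le_left (by positivity), mul_pow, hqq, div_le_iff₀ (by positivity)]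
      have : (11727 / 10000) ^ 2 * (Real.pi / B) * (8 / 11 * B) =
          (11727 / 10000) ^ 2 * (8 / 11) * Real.pi := by
        field_simp
      rw [this]
      linarith
    have h7 : -(11 / 20 * (8 / 11 * B)) = -(2 / 5 * B) := by ring
    rw [h7] at h5
    linarith
  have a3 := mid_int (F := F) hFi.intervalIntegrable h3
  have a4' := mid_int (F := fun v => F (-v)) hFi.comp_neg.intervalIntegrable h4
  have he : Real.exp 1 ≤ 27183 / 10000 := by
    have := Real.exp_one_lt_d9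
    linarith
  have hep := Real.exp_pos (-(2 / 5 * B))
  have b3 : Real.exp 1 * Real.exp (-(2 / 5 * B)) ≤ 27183 / 10000 * (5278 / 1000000 * q) := by
    gcongr
  unfold coreS
  have s1 := mul_le_mul_of_nonneg_left n1 hC.le
  have s2 := mul_le_mul_of_nonneg_left n2 hC.le
  have s3 := mul_le_mul_of_nonneg_left b3 hC.le
  have s4 := mul_le_mul_of_nonneg_left hm hC.le
  have hCq : 0 < C * q := by positivity
  have tot : (∫ s in (0 : ℝ)..1, F s) + (∫ s in (1 : ℝ)..(3 / 2), F s) +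
      ((∫ s in (0 : ℝ)..1, F (-s)) + ∫ s in (1 : ℝ)..(3 / 2), F (-s)) ≤
      111883 / 100000 * (C * q) := by
    linarith
  refine tot.trans ?_
  linarith

end SokalV3O
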