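import Pool.Agent.Lib_MP_af4de1_v3o.OWt
import Pool.Agent.Lib_MP_af4de1_v3.Own1s

/-!
# The parameters of the left side satisfy `FL`
-/

set_option autoImplicit false

open Complex MeasureTheory Set SokalU SokalPG SokalF1 SokalF1S SokalF1M SokalV3

namespace SokalV3O

theorem ogl_num {y : ℝ} (hy : 0 ≤ y) (h1 : y ≤ 14 / 25) :
    (1 + y + y ^ 2 / 2 + y ^ 3 / 5) * (5411 / 5000 + 2809 / 5000 * y) ≤
      3 / 2 + 41 / 16 * y ^ 2 * (1 + y + y ^ 2 / 2) ^ 2 * (1 / 2 + y / 2 - y ^ 2 / 6) := by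
  have e1 : 0 ≤ 1 / 2 + y / 2 - y ^ 2 / 6 := by nlinarith
  have e2 : 1 + 2 * y + 2 * y ^ 2 ≤ (1 + y + y ^ 2 / 2) ^ 2 := by
    have : 0 ≤ y ^ 3 := by positivity
    have : 0 ≤ y ^ 4 := by positivity
    nlinarith
  have e3 : 1 / 2 + 3 / 2 * y + 11 / 6 * y ^ 2 ≤
      (1 + 2 * y + 2 * y ^ 2) * (1 / 2 + y / 2 - y ^ 2 / 6) := by
    have h3 : 0 ≤ y ^ 3 := by positivity
    have : 0 ≤ y ^ 3 * (2 / 3 - y / 3) := mul_nonneg h3 (by linarith)
    nlinarith
  have e4 : (1 / 2 + 3 / 2 * y + 11 / 6 * y ^ 2) ≤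
      (1 + y + y ^ 2 / 2) ^ 2 * (1 / 2 + y / 2 - y ^ 2 / 6) :=
    e3.trans (mul_le_mul_of_nonneg_right e2 e1)
  have e5 : 41 / 16 * y ^ 2 * (1 / 2 + 3 / 2 * y + 11 / 6 * y ^ 2) ≤
      41 / 16 * y ^ 2 * ((1 + y + y ^ 2 / 2) ^ 2 * (1 / 2 + y / 2 - y ^ 2 / 6)) :=
    mul_le_mul_of_nonneg_left e4 (by positivity)
  have e6 : (1 + y + y ^ 2 / 2 + y ^ 3 / 5) * (5411 / 5000 + 2809 / 5000 * y) ≤
      3 / 2 + 41 / 16 * y ^ 2 * (1 / 2 + 3 / 2 * y + 11 / 6 * y ^ 2) := by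
    nlinarith [mul_nonneg hy (sq_nonneg (y - 31 / 100)), sq_nonneg (y ^ 2 - 961 / 10000),
      sq_nonneg (y - 627 / 2000)]
  linarith

theorem ogl_exp_le {y : ℝ} (hy : 0 ≤ y) (h1 : y ≤ 14 / 25) :
    Real.exp y ≤ 1 + y + y ^ 2 / 2 + y ^ 3 / 5 := by
  have h := Real.exp_bound' hy (by linarith) (n := 4) (by norm_num)
  simp only [Finset.sum_range_succ, Finset.sum_range_zero, Nat.factorial] at h
  have h3 : 0 ≤ y ^ 3 := by positivity
  have : 0 ≤ y ^ 3 * (14 / 25 - y) := mul_nonneg h3 (by linarith)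
  norm_num at h
  nlinarith

theorem ogl_exp_neg_ge {y : ℝ} (hy : 0 ≤ y) (h1 : y ≤ 14 / 25) :
    1 - y + y ^ 2 / 2 - y ^ 3 / 6 ≤ Real.exp (-y) := by
  have h := Real.exp_bound' hy (by linarith) (n := 4) (by norm_num)
  simp only [Finset.sum_range_succ, Finset.sum_range_zero, Nat.factorial] at h
  norm_num at h
  have h2 := exp_mul_neg y
  have h3 := Real.exp_pos (-y)
  have h4 : 0 ≤ 1 - y + y ^ 2 / 2 - y ^ 3 / 6 := by nlinarith [pow_nonneg hy 3]
  have h5 : (1 - y + y ^ 2 / 2 - y ^ 3 / 6) * Real.exp y ≤ 1 := by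
    refine (mul_le_mul_of_nonneg_left h h4).trans ?_
    have h6 : 0 ≤ y ^ 4 := by positivity
    have h7 : 0 ≤ y ^ 4 * y := by positivity
    have h8 : 0 ≤ y ^ 4 * y ^ 2 := by positivity
    have h9 : 0 ≤ y ^ 4 * y ^ 3 := by positivity
    nlinarith
  calc 1 - y + y ^ 2 / 2 - y ^ 3 / 6
      = (1 - y + y ^ 2 / 2 - y ^ 3 / 6) * Real.exp y * Real.exp (-y) := by
        rw [mul_assoc, h2, mul_one]
    _ ≤ 1 * Real.exp (-y) := mul_le_mul_of_nonneg_right h5 h3.le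
    _ = Real.exp (-y) := one_mul _

/-- angle from the slope -/
theorem ogl_psi {p : ℝ} (h2 : p ≤ Real.pi / 2)
    (hT : Real.sin p ≤ 4 / 5 * Real.cos p) : p ≤ 27 / 40 := by
  by_contra hc
  push Not at hc
  have hp := Real.pi_gt_d2
  have h3 : Real.sin (27 / 40) ≤ Real.sin p :=
    Real.sin_le_sin_of_le_of_le_pi_div_two (by linarith) h2 hc.le
  have h4 : Real.cos p ≤ Real.cos (27 / 40) :=
    Real.cos_le_cos_of_nonneg_of_le_pi (by norm_num) (by linarith) hc.le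
  have h5 := SokalF1G.sin_ge7 (x := 27 / 40) (by norm_num)
  have h6 := SokalF1G.cos_le4 (x := 27 / 40) (by norm_num)
  norm_num at h5 h6
  linarith

theorem ogl_cos {p : ℝ} (hc : 0 ≤ Real.cos p)
    (hT : Real.sin p ≤ 4 / 5 * Real.cos p) (hs : 0 ≤ Real.sin p) : 39 / 50 ≤ Real.cos p := by
  have h1 := Real.sin_sq_add_cos_sq p
  nlinarith

/-- `η ≤ 3/2 y (ρ + 1/ρ)` (left side) -/
theorem eta_le_y {ρ y : ℝ} (hD : Dom ρ y) (h0 : 0 ≤ y) (h1 : y ≤ 14 / 25)
    (hT : y ≤ 4 / 5 * sx ρ y) : sE ρ y ≤ 3 / 2 * y * (ρ + 1 / ρ) := by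
  have hρ := hD.1
  have hs := hD.sin
  have hc := hD.cos
  have hE := Real.exp_pos y
  have hE' := Real.exp_pos (-y)
  have hEE := exp_mul_neg y
  have hx := sx_nonneg ρ y
  have hψ0 := sP_nonneg (y := y) hρ h0
  have hψ1 := (abs_le.1 (sP_abs_le ρ y)).2
  have hs0 : 0 ≤ Real.sin (sP ρ y) := by rw [hs]; positivity
  have hc0 : 0 ≤ Real.cos (sP ρ y) := by rw [hc]; positivity
  have hT' : Real.sin (sP ρ y) ≤ 4 / 5 * Real.cos (sP ρ y) := by
    rw [hs, hc]
    have : y * Real.exp y / ρ ≤ (4 / 5 * sx ρ y) * Real.exp y / ρ := by gcongr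
    linarith [this, (by ring : (4 / 5 * sx ρ y) * Real.exp y / ρ =
      4 / 5 * (sx ρ y * Real.exp y / ρ))]
  have hψ := ogl_psi hψ1 hT'
  have hcl := ogl_cos hc0 hT' hs0
  have hsρ : ρ * Real.sin (sP ρ y) = y * Real.exp y := by
    rw [hs]; field_simp
  have hcρ : sx ρ y = ρ * Real.exp (-y) * Real.cos (sP ρ y) := sx_eq hD
  have hks : ρ * Real.exp (-y) * Real.sin (sP ρ y) = y := by
    have : ρ * Real.exp (-y) * Real.sin (sP ρ y) =
        (ρ * Real.sin (sP ρ y)) * Real.exp (-y) := by ring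
    rw [this, hsρ, mul_assoc, hEE, mul_one]
  -- the angle against its sine
  have hψs : sP ρ y ≤ 5411 / 5000 * Real.sin (sP ρ y) := by
    have h3 := SokalF1G.sin_ge3 hψ0
    have h4 : sP ρ y ^ 3 ≤ (27 / 40) ^ 2 * sP ρ y := by
      have : sP ρ y ^ 2 ≤ (27 / 40) ^ 2 := pow_le_pow_left₀ hψ0 hψ 2
      have := mul_le_mul_of_nonneg_right this hψ0
      linarith [(by ring : sP ρ y ^ 3 = sP ρ y ^ 2 * sP ρ y)]
    nlinarith
  have hsq := Real.sin_sq_add_cos_sq (sP ρ y)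
  have h1c : 1 - Real.cos (sP ρ y) ≤ 50 / 89 * Real.sin (sP ρ y) ^ 2 := by
    have h5 : Real.cos (sP ρ y) ≤ 1 := Real.cos_le_one _
    nlinarith
  have hkx : ρ * Real.exp (-y) - sx ρ y ≤ 50 / 89 * (y * Real.sin (sP ρ y)) := by
    have h5 := mul_le_mul_of_nonneg_left h1c (mul_nonneg hρ.le hE'.le)
    have e : ρ * Real.exp (-y) * (50 / 89 * Real.sin (sP ρ y) ^ 2) =
        50 / 89 * ((ρ * Real.exp (-y) * Real.sin (sP ρ y)) * Real.sin (sP ρ y)) := by ring
    rw [e, hks] at h5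
    linarith
  -- all multiplied by ρ
  have hmain : ρ * sE ρ y ≤ 5411 / 5000 * (y * Real.exp y) + ρ ^ 2 * (1 - Real.exp (-y)) +
      50 / 89 * (y * (y * Real.exp y)) := by
    have h6 := mul_le_mul_of_nonneg_left hψs hρ.le
    have h7 := mul_le_mul_of_nonneg_left hkx hρ.le
    have e1 : ρ * (5411 / 5000 * Real.sin (sP ρ y)) =
        5411 / 5000 * (ρ * Real.sin (sP ρ y)) := by ring
    have e2 : ρ * (50 / 89 * (y * Real.sin (sP ρ y))) =
        50 / 89 * (y * (ρ * Real.sin (sP ρ y))) := by ring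
    rw [e1, hsρ] at h6
    rw [e2, hsρ] at h7
    have e3 : ρ * sE ρ y = ρ * sP ρ y + ρ ^ 2 * (1 - Real.exp (-y)) +
      ρ * (ρ * Real.exp (-y) - sx ρ y) := by
      unfold sE; ring
    linarith
  have hexpn := ogl_exp_neg_ge h0 h1
  have hexp := ogl_exp_le h0 h1
  have hexpl := Real.quadratic_le_exp_of_nonneg h0
  have hρ2 : 41 / 16 * y ^ 2 * (1 + y + y ^ 2 / 2) ^ 2 ≤ ρ ^ 2 := by
    have h8 := sx_sq_add hD
    have h9 : (25 / 16) * y ^ 2 ≤ sx ρ y ^ 2 := by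
      have : y ^ 2 ≤ (4 / 5 * sx ρ y) ^ 2 := pow_le_pow_left₀ h0 hT 2
      nlinarith
    have h10 : ρ ^ 2 = (ρ * Real.exp (-y)) ^ 2 * Real.exp y ^ 2 := by
      have : (ρ * Real.exp (-y)) ^ 2 * Real.exp y ^ 2 =
        ρ ^ 2 * (Real.exp y * Real.exp (-y)) ^ 2 := by ring
      rw [this, hEE]; ring
    have h11 : 41 / 16 * y ^ 2 ≤ (ρ * Real.exp (-y)) ^ 2 := by linarith
    have h12 : (1 + y + y ^ 2 / 2) ^ 2 ≤ Real.exp y ^ 2 :=
      pow_le_pow_left₀ (by positivity) hexpl 2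
    rw [h10]
    exact mul_le_mul h11 h12 (by positivity) (by positivity)
  have hnum := ogl_num h0 h1
  have hq : 0 ≤ 1 / 2 + y / 2 - y ^ 2 / 6 := by nlinarith
  have h13 := mul_le_mul_of_nonneg_right hρ2 hq
  have h14 : Real.exp y * (5411 / 5000 + 50 / 89 * y) ≤
      3 / 2 + ρ ^ 2 * (1 / 2 + y / 2 - y ^ 2 / 6) := by
    have h15 : Real.exp y * (5411 / 5000 + 50 / 89 * y) ≤
        (1 + y + y ^ 2 / 2 + y ^ 3 / 5) * (5411 / 5000 + 2809 / 5000 * y) := by
      refine mul_le_mul hexp ?_ (by positivity) (by positivity)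
      nlinarith
    linarith
  have h16 : ρ ^ 2 * (1 - Real.exp (-y)) ≤ ρ ^ 2 * (y * (1 - y / 2 + y ^ 2 / 6)) := by
    refine mul_le_mul_of_nonneg_left ?_ (by positivity)
    nlinarith
  have h17 := mul_le_mul_of_nonneg_left h14 h0
  have h18 : ρ * sE ρ y ≤ 3 / 2 * y * (ρ ^ 2 + 1) := by
    nlinarith
  have h19 : ρ * (3 / 2 * y * (ρ + 1 / ρ)) = 3 / 2 * y * (ρ ^ 2 + 1) := by
    field_simp
  refine le_of_mul_le_mul_left ?_ hρ
  rw [h19]
  exact h18

theorem ogl_hst {N : ℕ} (hN : 3 ≤ N) : hst N ≤ 2 * Real.pi / 3 := by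
  unfold hst
  have hN3 : (3 : ℝ) ≤ N := by exact_mod_cast hN
  have := Real.pi_pos
  gcongr

theorem ogl_hst_pos {N : ℕ} (hN : 3 ≤ N) : 0 < hst N := by
  unfold hst
  have hN3 : (3 : ℝ) ≤ N := by exact_mod_cast hN
  have := Real.pi_pos
  positivity

theorem ogl_om1 (N : ℕ) (r δ : ℝ) : 1 / 10 ≤ om1 N r δ := by
  unfold om1
  split_ifs <;> norm_num

/-- the height of the saddle against the width, from `η R ≤ 3/2 y ρ ...` -/
theorem ogl_w {N : ℕ} {r δ y : ℝ} (hR : Reg1 N r δ)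
    (h : eo1 N r δ ≤ 3 / 2 * y * (r * δ + 1 / (r * δ))) :
    5 / 4 * δ ≤ y ∧ (r * δ ≤ 17 / 10 → 4 * δ ≤ y) := by
  have hδ := hR.d0
  have hr : 0 < r := by linarith [hR.r0]
  have hρ : 0 < r * δ := mul_pos hr hδ
  have hh := ogl_hst hR.N3
  have hh0 := ogl_hst_pos hR.N3
  have hRR : 0 < RR r δ := by unfold RR; positivity
  have hG := hR.G
  have hp := Real.pi_lt_d2
  have hGe : Gm N r δ * RR r δ = r * hst N ^ 2 := by
    unfold Gm
    field_simp
  -- (1/2 + om) h ρ ≤ 3/2 y R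
  have h1 : (1 / 2 + om1 N r δ) * hst N * (r * δ) ≤ 3 / 2 * y * RR r δ := by
    have h2 := mul_le_mul_of_nonneg_right h hρ.le
    have e : 3 / 2 * y * (r * δ + 1 / (r * δ)) * (r * δ) = 3 / 2 * y * RR r δ := by
      unfold RR
      field_simp
      ring
    rw [e] at h2
    exact h2
  have hom : 0 < 1 / 2 + om1 N r δ := by linarith [ogl_om1 N r δ]
  -- `y/δ ≥ 2/3 (1/2+om) g`, `g = r h/R`
  have h2 : 2 / 3 * (1 / 2 + om1 N r δ) * (r * hst N / RR r δ) * δ ≤ y := by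
    have e : 2 / 3 * (1 / 2 + om1 N r δ) * (r * hst N / RR r δ) * δ =
        2 / 3 * ((1 / 2 + om1 N r δ) * hst N * (r * δ)) / RR r δ := by ring
    rw [e, div_le_iff₀ hRR]
    linarith
  have hg0 : 0 < r * hst N / RR r δ := by positivity
  have key : ∀ c : ℝ, c ≤ 2 / 3 * (1 / 2 + om1 N r δ) * (r * hst N / RR r δ) → c * δ ≤ y :=
    fun c hc => (mul_le_mul_of_nonneg_right hc hδ.le).trans h2
  have hGg : Gm N r δ = r * hst N / RR r δ * hst N := by
    unfold Gm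
    ring
  refine ⟨key _ ?_, fun hρ1 => key _ ?_⟩
  · -- Gm ≤ g * 2.1
    have h3 : Gm N r δ ≤ r * hst N / RR r δ * (21 / 10) := by
      rw [hGg]
      refine mul_le_mul_of_nonneg_left ?_ hg0.le
      linarith
    have h3' : Gm N r δ ≤ r * hst N / RR r δ * (2 * (315 / 100) / 3) := by
      rw [hGg]
      refine mul_le_mul_of_nonneg_left ?_ hg0.le
      linarith
    unfold om1
    split_ifs with h4 h5
    · nlinarith
    · nlinarith
    · nlinarith
  · have hR2 : RR r δ ≤ 389 / 100 := by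
      unfold RR
      nlinarith
    have hgg : (r * hst N / RR r δ) ^ 2 = Gm N r δ * (r / RR r δ) := by
      unfold Gm
      field_simp
    have hrR : 1282 / 100 ≤ r / RR r δ := by
      rw [le_div_iff₀ hRR]
      have := hR.r0
      nlinarith
    have h6 : ∀ G : ℝ, 0 < G → G ≤ Gm N r δ → G * (1282 / 100) ≤ (r * hst N / RR r δ) ^ 2 := by
      intro G hG0 hG1
      rw [hgg]
      exact mul_le_mul hG1 hrR (by norm_num) (by linarith)
    unfold om1
    split_ifs with h4 h5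
    · have h7 := h6 (27 / 5) (by norm_num) hG
      have : 8 ≤ r * hst N / RR r δ := by
        by_contra hc
        push Not at hc
        nlinarith
      linarith
    · have h7 := h6 10 (by norm_num) (by linarith)
      have : 10 ≤ r * hst N / RR r δ := by
        by_contra hc
        push Not at hc
        nlinarith
      linarith
    · have h7 := h6 10 (by norm_num) (by linarith)
      have : 10 ≤ r * hst N / RR r δ := by
        by_contra hc
        push Not at hc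
        nlinarith
      linarith

/-- the shift of the path is small -/
theorem ogl_tau {ρ x h : ℝ} (hx : 0 < x) (hh : h ^ 2 ≤ 11 / 10 * (1 + ρ ^ 2))
    (hρ : ρ ^ 2 ≤ 6 * x ^ 2) : 2 / 5 * h ≤ 1 / 2 * (1 + x + x ^ 2) := by
  refine abs_le_of_sq_le_sq' ?_ (by positivity) |>.2
  have h1 : 0 ≤ x ^ 3 := by positivity
  have h2 : 0 ≤ x ^ 4 := by positivity
  have h3 : 0 ≤ x * (2 - 306 / 250 * x + 2 * x ^ 2) := by
    refine mul_nonneg hx.le ?_
    nlinarith [sq_nonneg (x - 3 / 10)]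
  nlinarith

/-- glue, left side -/
theorem glueL {N : ℕ} {r δ y ζ : ℝ} (hR : Reg1 N r δ) (hA : At r δ y (eo1 N r δ))
    (hS : Sad1 N r δ y) (h0 : 0 ≤ ζ) (h1 : ζ ≤ ei1 N r δ) :
    0 < y ∧ ∃ z τ k ψ : ℝ, z + τ = ζ ∧ FL (sx (r * δ) y) y z τ k ψ (r * δ) r δ := by
  have hδ := hR.d0
  have hr : 0 < r := by linarith [hR.r0]
  have hρ : 0 < r * δ := mul_pos hr hδ
  have hh := ogl_hst hR.N3
  have hh0 := ogl_hst_pos hR.N3
  have hRR : 0 < RR r δ := by unfold RR; positivity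
  have hp := Real.pi_lt_d2
  have hp0 := Real.pi_pos
  have hom := ogl_om1 N r δ
  have hD := hA.dom
  have heo : 0 < eo1 N r δ := by
    unfold eo1
    have : 0 < 1 / 2 + om1 N r δ := by linarith
    positivity
  have hy0 := hA.y_nonneg_own heo.le
  have hy : 0 < y := by
    rcases hy0.lt_or_eq with h | h
    · exact h
    · exfalso
      have h2 := hA.eta
      rw [← h, sE_zero hρ] at h2
      linarith
  have hy1 : y ≤ 14 / 25 := by
    rcases hS with h | h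
    · linarith [h.2.hi]
    · linarith [h.2.hi]
  have hx0 := sx_nonneg (r * δ) y
  have hT : y ≤ 4 / 5 * sx (r * δ) y := by
    rcases hS with h | h
    · have := h.2.T
      rw [abs_of_nonneg hy0] at this
      linarith
    · have := h.2.T
      rw [abs_of_nonneg hy0] at this
      linarith
  have hx : 0 < sx (r * δ) y := by linarith
  have hE := Real.exp_pos y
  have hE' := Real.exp_pos (-y)
  have hEE := exp_mul_neg y
  have hs := hD.sin
  have hc := hD.cos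
  have hψ0 := sP_nonneg (y := y) hρ hy0
  have hψ1 := (abs_le.1 (sP_abs_le (r * δ) y)).2
  have hT' : Real.sin (sP (r * δ) y) ≤ 4 / 5 * Real.cos (sP (r * δ) y) := by
    rw [hs, hc]
    have : y * Real.exp y / (r * δ) ≤ (4 / 5 * sx (r * δ) y) * Real.exp y / (r * δ) := by gcongr
    linarith [this, (by ring : (4 / 5 * sx (r * δ) y) * Real.exp y / (r * δ) =
      4 / 5 * (sx (r * δ) y * Real.exp y / (r * δ)))]
  have hψ := ogl_psi hψ1 hT'
  have heta := hA.eta
  have hyη := eta_le_y hD hy0 hy1 hT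
  rw [heta] at hyη
  obtain ⟨w1, w2⟩ := ogl_w hR hyη
  have hζ : ζ ≤ 2 / 5 * hst N := by
    unfold ei1 at h1
    nlinarith
  have hρx : (r * δ) ^ 2 ≤ 6 * sx (r * δ) y ^ 2 := by
    have h8 := sx_sq_add hD
    have h9 : y ^ 2 ≤ (4 / 5 * sx (r * δ) y) ^ 2 := pow_le_pow_left₀ hy0 hT 2
    have h10 : (r * δ) ^ 2 = (r * δ * Real.exp (-y)) ^ 2 * Real.exp y ^ 2 := by
      have : (r * δ * Real.exp (-y)) ^ 2 * Real.exp y ^ 2 =
        (r * δ) ^ 2 * (Real.exp y * Real.exp (-y)) ^ 2 := by ring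
      rw [this, hEE]; ring
    have h11 : Real.exp y ≤ 19 / 10 := by
      have := ogl_exp_le hy0 hy1
      have h3 : y ^ 2 ≤ (14 / 25) ^ 2 := pow_le_pow_left₀ hy0 hy1 2
      have h4 : y ^ 3 ≤ (14 / 25) ^ 3 := pow_le_pow_left₀ hy0 hy1 3
      norm_num at h3 h4
      linarith
    have h12 : Real.exp y ^ 2 ≤ (361 / 100 : ℝ) := by nlinarith
    rw [h10, ← h8]
    have h13 : 0 ≤ sx (r * δ) y ^ 2 + y ^ 2 := by positivity
    have h14 := mul_le_mul_of_nonneg_left h12 h13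
    nlinarith
  have hS0 : 0 < 1 + sx (r * δ) y + sx (r * δ) y ^ 2 := by positivity
  have hI := hR.I
  unfold RR at hI
  have hτ := ogl_tau hx hI hρx
  refine ⟨hy, sx (r * δ) y * (1 + sx (r * δ) y) * (ζ / (1 + sx (r * δ) y + sx (r * δ) y ^ 2)),
    ζ / (1 + sx (r * δ) y + sx (r * δ) y ^ 2), r * δ * Real.exp (-y), sP (r * δ) y, ?_, ?_⟩
  · field_simp
    ring
  · have hzτ : sx (r * δ) y * (1 + sx (r * δ) y) *
        (ζ / (1 + sx (r * δ) y + sx (r * δ) y ^ 2)) +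
        ζ / (1 + sx (r * δ) y + sx (r * δ) y ^ 2) = ζ := by
      field_simp
      ring
    have hηe : sP (r * δ) y + r * δ - sx (r * δ) y = eo1 N r δ := heta
    refine
      { sh :=
        { x0 := hx
          y0 := hy0
          y1 := hy1
          T := hT
          z0 := by positivity
          τ0 := by positivity
          zτ := rfl
          ζ := ?_
          τ1 := ?_
          k0 := by positivity
          ψ0 := hψ0
          ψ1 := hψ
          hx := ?_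
          hy := ?_ }
        rho := ?_
        r0 := hR.r0
        del := ?_
        G := ?_
        η := ?_
        ηζ := ?_
        w1 := w1
        w2 := w2
        yx := ?_ }
    · rw [hzτ]
      linarith
    · rw [div_le_iff₀ hS0]
      linarith
    · exact sx_eq hD
    · rw [hs]
      field_simp
      linarith
    · rw [mul_assoc, mul_comm (Real.exp (-y)), hEE, mul_one]
    · field_simp
    · have h2 := hR.G
      unfold Gm at h2
      rw [le_div_iff₀ hRR] at h2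
      refine h2.trans ?_
      refine mul_le_mul_of_nonneg_left ?_ hr.le
      exact pow_le_pow_left₀ hh0.le hh 2
    · rw [hηe]
      exact eo1_le hR.N3
    · rw [hηe, hzτ]
      have h2 : eo1 N r δ + ei1 N r δ = hst N := by
        unfold eo1 ei1
        ring
      linarith
    · have h3 := K_mul_y_le hD hA.y1.le
      rw [heta, abs_of_nonneg hy0, abs_of_nonneg heo.le] at h3
      have h4 := eo1_le (r := r) (δ := δ) hR.N3
      have h5 : eo1 N r δ * (1 + y) ≤ Real.pi / 2 * (1 + 14 / 25) := by gcongr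
      nlinarith

end SokalV3O
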