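import Pool.Agent.Lib_MP_af4de1_v3o.OWt
import Pool.Agent.Lib_MP_af4de1_v3.Own1s

/-!
# The parameters of the right side satisfy `FR`
-/

set_option autoImplicit false

open Complex MeasureTheory Set SokalU SokalPG SokalF1 SokalF1S SokalF1M SokalV3

namespace SokalV3O

private theorem psi_le_ogr {ψ : ℝ} (h1 : ψ ≤ Real.pi / 2)
    (h : Real.sin ψ ≤ 4 / 5 * Real.cos ψ) : ψ ≤ 27 / 40 := by
  by_contra hcon
  push Not at hcon
  have hp := Real.pi_lt_d4
  have hp0 := Real.pi_gt_three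
  have hs := Real.sin_sub (Real.pi / 4) ψ
  have hc := Real.cos_sub (Real.pi / 4) ψ
  rw [Real.sin_pi_div_four, Real.cos_pi_div_four] at hs hc
  set u : ℝ := Real.pi / 4 - ψ with hu
  have h2 : 0 < √2 / 2 := by positivity
  -- `cos u ≤ 9 sin u`
  have h3 : Real.cos u ≤ 9 * Real.sin u := by
    rw [hs, hc]
    have := mul_le_mul_of_nonneg_left h h2.le
    linarith
  have h4 : u < 1104 / 10000 := by rw [hu]; linarith
  rcases le_total u 0 with h5 | h5
  · have h6 : 0 < Real.cos u :=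
      Real.cos_pos_of_mem_Ioo ⟨by rw [hu]; linarith, by linarith⟩
    have h7 : Real.sin u ≤ 0 := Real.sin_nonpos_of_nonpos_of_neg_pi_le h5 (by rw [hu]; linarith)
    linarith
  · have h6 : Real.sin u ≤ u := Real.sin_le h5
    have h7 := Real.one_sub_sq_div_two_le_cos (x := u)
    have h8 : u ^ 2 ≤ (1104 / 10000) ^ 2 := pow_le_pow_left₀ h5 h4.le 2
    linarith

private theorem psi_cos_ogr {ψ : ℝ} (h0 : 0 ≤ ψ) (h1 : ψ < Real.pi / 2) :
    ψ * Real.cos ψ ≤ Real.sin ψ := by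
  have h2 : 0 < Real.cos ψ := Real.cos_pos_of_mem_Ioo ⟨by linarith [Real.pi_pos], h1⟩
  have h3 := Real.le_tan h0 h1
  rwa [Real.tan_eq_sin_div_cos, le_div_iff₀ h2] at h3

private theorem exp_ub_ogr {n : ℝ} (h0 : 0 ≤ n) (h1 : n ≤ 53 / 100) :
    Real.exp n ≤ 1 + 3 / 2 * n := by
  have h := Real.exp_bound' h0 (by linarith) (n := 3) (by norm_num)
  simp only [Finset.sum_range_succ, Finset.sum_range_zero, pow_zero, pow_one, Nat.factorial] at h
  norm_num at h
  have h2 : n ^ 2 ≤ 53 / 100 * n := by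
    rw [sq]
    exact mul_le_mul_of_nonneg_right h1 h0
  have h3 : n ^ 3 ≤ (53 / 100) ^ 2 * n := by
    have : n ^ 3 = n ^ 2 * n := by ring
    rw [this]
    exact mul_le_mul_of_nonneg_right (pow_le_pow_left₀ h0 h1 2) h0
  linarith

/-- the polar form of the saddle point, right side -/
private theorem pol_ogr {ρ y : ℝ} (hD : Dom ρ y) (h0 : y < 0) (hT : -y ≤ 4 / 5 * sx ρ y) :
    0 < sx ρ y ∧ 0 < ρ * Real.exp (-y) ∧ 0 ≤ -sP ρ y ∧ -sP ρ y < Real.pi / 2 ∧
      -sP ρ y ≤ 27 / 40 ∧ sx ρ y = ρ * Real.exp (-y) * Real.cos (-sP ρ y) ∧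
      -y = ρ * Real.exp (-y) * Real.sin (-sP ρ y) := by
  have hx : 0 < sx ρ y := by linarith
  have hk : 0 < ρ * Real.exp (-y) := mul_pos hD.1 (Real.exp_pos _)
  have hψ := sP_nonpos hD.1 h0.le
  have hψ2 := (abs_le.1 (sP_abs_le ρ y)).1
  have e1 := sx_eq hD
  have e2 := y_eq hD
  have e1' : sx ρ y = ρ * Real.exp (-y) * Real.cos (-sP ρ y) := by rw [Real.cos_neg]; exact e1
  have e2' : -y = ρ * Real.exp (-y) * Real.sin (-sP ρ y) := by
    rw [Real.sin_neg]
    linarith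
  have hc : 0 < Real.cos (-sP ρ y) := by
    by_contra hcon
    push Not at hcon
    have := mul_nonpos_of_nonneg_of_nonpos hk.le hcon
    linarith
  have hlt : -sP ρ y < Real.pi / 2 := by
    rcases (show -sP ρ y ≤ Real.pi / 2 by linarith).eq_or_lt with h | h
    · rw [h, Real.cos_pi_div_two] at hc
      exact absurd hc (lt_irrefl 0)
    · exact h
  refine ⟨hx, hk, by linarith, hlt, psi_le_ogr hlt.le ?_, e1', e2'⟩
  have h3 : ρ * Real.exp (-y) * Real.sin (-sP ρ y) ≤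
      ρ * Real.exp (-y) * (4 / 5 * Real.cos (-sP ρ y)) := by
    rw [← e2']
    have : ρ * Real.exp (-y) * (4 / 5 * Real.cos (-sP ρ y)) = 4 / 5 * sx ρ y := by
      rw [e1']
      ring
    rw [this]
    exact hT
  exact le_of_mul_le_mul_left h3 hk

/-- `-η ≤ 3/2 |y| (ρ + 1/ρ)` (right side) -/
theorem eta_le_n {ρ y : ℝ} (hD : Dom ρ y) (h0 : y ≤ 0) (h1 : -(53 / 100) ≤ y)
    (hT : -y ≤ 4 / 5 * sx ρ y) (hD2 : 13 / 20 ≤ sD2 ρ y) :
    -sE ρ y ≤ 3 / 2 * -y * (ρ + 1 / ρ) := by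
  have hρ := hD.1
  rcases h0.eq_or_lt with h | h
  · rw [h, sE_zero hρ]
    simp
  obtain ⟨hx, hk, hψ0, hψ1, -, e1, e2⟩ := pol_ogr hD h hT
  have hsq := sx_sq_add hD
  have he := exp_ub_ogr (n := -y) (by linarith) (by linarith)
  have he1 : 1 ≤ Real.exp (-y) := Real.one_le_exp (by linarith)
  have hc := psi_cos_ogr hψ0 hψ1
  have hxk := sx_le hD
  set k : ℝ := ρ * Real.exp (-y) with hkd
  -- `ρ ≤ 3/2 x`
  have hρk : ρ ≤ k := by
    rw [hkd]
    exact le_mul_of_one_le_right hρ.le he1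
  have hkx : k ≤ 3 / 2 * sx ρ y := by
    refine abs_le_of_sq_le_sq' ?_ (by linarith) |>.2
    have h3 : (-y) ^ 2 ≤ (4 / 5 * sx ρ y) ^ 2 := pow_le_pow_left₀ (by linarith) hT 2
    have h4 : 0 ≤ sx ρ y ^ 2 := sq_nonneg _
    rw [← hsq]
    linarith
  -- `ψ x ≤ n`
  have hψx : -sP ρ y * sx ρ y ≤ -y := by
    have h3 := mul_le_mul_of_nonneg_left hc hk.le
    rw [← e2] at h3
    have h4 : -sP ρ y * sx ρ y = k * (-sP ρ y * Real.cos (-sP ρ y)) := by
      conv_lhs => rw [e1]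
      ring
    rw [h4]
    exact h3
  have hψρ : -sP ρ y ≤ 3 / 2 * -y * (1 / ρ) := by
    rw [mul_one_div, le_div_iff₀ hρ]
    have h3 : -sP ρ y * ρ ≤ -sP ρ y * (3 / 2 * sx ρ y) :=
      mul_le_mul_of_nonneg_left (hρk.trans hkx) hψ0
    linarith
  have hxρ : sx ρ y - ρ ≤ 3 / 2 * -y * ρ := by
    have h3 : k ≤ ρ * (1 + 3 / 2 * -y) := by
      rw [hkd]
      exact mul_le_mul_of_nonneg_left he hρ.le
    linarith
  have : -sE ρ y = -sP ρ y + (sx ρ y - ρ) := by
    unfold sE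
    ring
  rw [this, mul_add]
  linarith

/-- glue, right side -/
theorem glueR {N : ℕ} {r δ y ζ : ℝ} (hR : Reg1 N r δ) (hA : At r δ y (-eo1 N r δ))
    (hS : Sad1 N r δ y) (h0 : ζ ≤ 0) (h1 : -ei1 N r δ ≤ ζ) :
    y < 0 ∧ ∃ z τ k ψ : ℝ, z + τ = -ζ ∧ FR (sx (r * δ) y) (-y) z τ k ψ (r * δ) r δ := by
  have hr := hR.r0
  have hδ := hR.d0
  have hr0 : 0 < r := by linarith
  have hD := hA.dom
  have hρ := hD.1
  have hN3 := hR.N3
  have hp := Real.pi_pos
  have hp1 := Real.pi_gt_three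
  have hp2 := Real.pi_lt_d4
  have hh : hst N ≤ 2 * Real.pi / 3 := by
    unfold hst
    have hN3' : (3 : ℝ) ≤ N := by exact_mod_cast hN3
    gcongr
  have hh0 : 0 < hst N := by
    unfold hst
    have hN3' : (3 : ℝ) ≤ N := by exact_mod_cast hN3
    positivity
  -- the window
  have hom : 1 / 10 ≤ om1 N r δ ∧ om1 N r δ ≤ 1 / 4 ∧
      81 / 20 ≤ (1 / 2 + om1 N r δ) * Gm N r δ ∧
      243 / 80 ≤ (1 / 2 + om1 N r δ) ^ 2 * Gm N r δ := by
    have hG := hR.G
    unfold om1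
    split_ifs with g1 g2
    · exact ⟨by norm_num, by norm_num, by linarith, by linarith⟩
    · push Not at g1
      exact ⟨by norm_num, by norm_num, by linarith, by linarith⟩
    · push Not at g1 g2
      exact ⟨by norm_num, by norm_num, by linarith, by linarith⟩
  obtain ⟨ho0, ho1, hoG, hoG2⟩ := hom
  set om : ℝ := om1 N r δ with homd
  set h : ℝ := hst N with hhd
  have heo : eo1 N r δ = (1 / 2 + om) * h := rfl
  have hei : ei1 N r δ = (1 / 2 - om) * h := rfl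
  have heo0 : 0 < eo1 N r δ := by
    rw [heo]
    exact mul_pos (by linarith) hh0
  -- the sign
  have hy : y < 0 := by
    by_contra hcon
    push Not at hcon
    have h2 := two_y_le hD hcon
    rw [hA.eta] at h2
    have h3 := sq_nonneg y
    linarith
  have hlo : -(53 / 100) ≤ y := by
    rcases hS with h | h
    · linarith [h.2.lo]
    · linarith [h.2.lo]
  have habs : |y| = -y := abs_of_neg hy
  have hT : -y ≤ 4 / 5 * sx (r * δ) y := by
    have hx := sx_nonneg (r * δ) y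
    rcases hS with h | h
    · have := h.2.T
      rw [habs] at this
      linarith
    · have := h.2.T
      rwa [habs] at this
  have hD2 : 13 / 20 ≤ sD2 (r * δ) y := by
    rcases hS with h | h
    · linarith [h.2.D]
    · exact h.2.D
  obtain ⟨hx, hk, hψ0, hψ1, hψ2, e1, e2⟩ := pol_ogr hD hy hT
  have heta := eta_le_n hD hy.le hlo hT hD2
  rw [hA.eta, neg_neg] at heta
  have hsE : -sP (r * δ) y + sx (r * δ) y - r * δ = eo1 N r δ := by
    have := hA.eta
    unfold sE at this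
    linarith
  have hyx := K_mul_y_le hD hA.y1.le
  rw [hA.eta, habs, abs_neg, abs_of_pos heo0] at hyx
  have hpi2 := eo1_le (r := r) (δ := δ) hN3
  -- `R`
  set ρ : ℝ := r * δ with hρd
  have hRR : RR r δ = 1 + ρ ^ 2 := rfl
  have hRR0 : 0 < 1 + ρ ^ 2 := by positivity
  have hGm : Gm N r δ * (1 + ρ ^ 2) = r * h ^ 2 := by
    unfold Gm
    rw [hRR]
    exact div_mul_cancel₀ _ hRR0.ne'
  -- `η ρ ≤ 3/2 n R`
  have hηR : eo1 N r δ * ρ ≤ 3 / 2 * -y * (1 + ρ ^ 2) := by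
    have h3 := mul_le_mul_of_nonneg_right heta hρ.le
    have h4 : 3 / 2 * -y * (ρ + 1 / ρ) * ρ = 3 / 2 * -y * (1 + ρ ^ 2) := by
      field_simp
      ring
    rwa [h4] at h3
  have hk1 : ρ * Real.exp (-y) * Real.exp y = ρ := by
    rw [mul_assoc, mul_comm (Real.exp (-y)), exp_mul_neg, mul_one]
  -- `c R ≤ r η` gives `c δ ≤ 3/2 n`
  have hw : ∀ c : ℝ, c * (1 + ρ ^ 2) ≤ r * eo1 N r δ → c * δ ≤ 3 / 2 * -y := by
    intro c hc
    have h3 : c * δ * (r * (1 + ρ ^ 2)) ≤ 3 / 2 * -y * (r * (1 + ρ ^ 2)) := by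
      have h4 := mul_le_mul_of_nonneg_right hc hρ.le
      have h5 := mul_le_mul_of_nonneg_left hηR hr0.le
      have h6 : c * δ * (r * (1 + ρ ^ 2)) = c * (1 + ρ ^ 2) * ρ := by rw [hρd]; ring
      rw [h6]
      linarith
    exact le_of_mul_le_mul_right h3 (by positivity)
  set x : ℝ := sx ρ y with hxd
  set n : ℝ := -y with hnd
  have hxx : 0 < 1 + x + x ^ 2 := by positivity
  refine ⟨hy, x * (1 + x) * (-ζ / (1 + x + x ^ 2)), -ζ / (1 + x + x ^ 2), ρ * Real.exp n, -sP ρ y,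
    ?_, ?_⟩
  · field_simp
    ring
  have hζ1 : -ζ ≤ (1 / 2 - om) * h := by
    rw [← hei]
    linarith
  have hzt : x * (1 + x) * (-ζ / (1 + x + x ^ 2)) + -ζ / (1 + x + x ^ 2) = -ζ := by
    field_simp
    ring
  have hsh : ShR x n (x * (1 + x) * (-ζ / (1 + x + x ^ 2))) (-ζ / (1 + x + x ^ 2))
      (ρ * Real.exp n) (-sP ρ y) := by
    have hτ0 : 0 ≤ -ζ / (1 + x + x ^ 2) := div_nonneg (by linarith) hxx.le
    refine ⟨hx, by linarith, by linarith, hT, by positivity, hτ0, rfl, ?_, ?_, hk, hψ0, hψ2, e1, e2⟩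
    · rw [hzt]
      have h3 : (1 / 2 - om) * h ≤ 2 / 5 * (2 * Real.pi / 3) :=
        mul_le_mul (by linarith) hh hh0.le (by norm_num)
      linarith
    · rw [div_le_iff₀ hxx]
      -- `ei1 ≤ 2/3 eo1`
      have h3 : (1 / 2 - om) * h ≤ 2 / 3 * ((1 / 2 + om) * h) := by
        have : 0 ≤ (om - 1 / 10) * h := mul_nonneg (by linarith) hh0.le
        linarith
      rw [heo] at hsE
      have h4 : 1 / 4 * x ≤ ρ := by
        have h5 : x ≤ ρ * Real.exp n := sx_le hD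
        have h6 : Real.exp n ≤ 2 := by
          have := exp_ub_ogr (n := n) (by linarith) (by linarith)
          linarith
        have h7 := mul_le_mul_of_nonneg_left h6 hρ.le
        linarith
      have h5 : 0 ≤ x ^ 2 := sq_nonneg x
      linarith
  refine ⟨hsh, ?_, hr, ?_, ?_, ?_, ?_, ?_, ?_, ?_, ?_⟩
  · rw [hnd, neg_neg, hk1]
  · rw [hρd]
    field_simp
  · have h3 : sD2 ρ y = (1 - n) ^ 2 + x ^ 2 := by
      unfold sD2
      rw [hnd]
      ring
    rw [← h3]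
    exact hD2
  · have h3 : 27 / 5 * (1 + ρ ^ 2) ≤ Gm N r δ * (1 + ρ ^ 2) :=
      mul_le_mul_of_nonneg_right hR.G hRR0.le
    rw [hGm] at h3
    have h4 : r * h ^ 2 ≤ r * (2 * Real.pi / 3) ^ 2 :=
      mul_le_mul_of_nonneg_left (pow_le_pow_left₀ hh0.le hh 2) hr0.le
    exact h3.trans h4
  · rw [hsE]
    exact hpi2
  · rw [hzt, hsE, heo]
    have : (1 / 2 + om) * h + (1 / 2 - om) * h = h := by ring
    linarith
  · -- `15/8 R ≤ r η`
    have h3 := hw (15 / 8) (by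
      rw [heo]
      -- multiply by `h`
      have h4 : 15 / 8 * (1 + ρ ^ 2) * h ≤ r * ((1 / 2 + om) * h) * h := by
        have h5 : r * ((1 / 2 + om) * h) * h = (1 / 2 + om) * Gm N r δ * (1 + ρ ^ 2) := by
          have : r * ((1 / 2 + om) * h) * h = (1 / 2 + om) * (r * h ^ 2) := by ring
          rw [this, ← hGm]
          ring
        rw [h5]
        have h6 : 81 / 20 * (1 + ρ ^ 2) ≤ (1 / 2 + om) * Gm N r δ * (1 + ρ ^ 2) :=
          mul_le_mul_of_nonneg_right hoG hRR0.le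
        have h7 : 15 / 8 * (1 + ρ ^ 2) * h ≤ 15 / 8 * (1 + ρ ^ 2) * (216 / 100) :=
          mul_le_mul_of_nonneg_left (by linarith) (by positivity)
        linarith
      exact le_of_mul_le_mul_right h4 hh0)
    linarith
  · intro hρ1
    have h3 := hw 6 (by
      have hη0 : 0 ≤ r * eo1 N r δ := by positivity
      refine abs_le_of_sq_le_sq' ?_ hη0 |>.2
      have h4 : (r * eo1 N r δ) ^ 2 = r * ((1 / 2 + om) ^ 2 * Gm N r δ) * (1 + ρ ^ 2) := by
        have : (r * eo1 N r δ) ^ 2 = r * (1 / 2 + om) ^ 2 * (r * h ^ 2) := by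
          rw [heo]
          ring
        rw [this, ← hGm]
        ring
      rw [h4]
      have h5 : 499 / 10 * (243 / 80) ≤ r * ((1 / 2 + om) ^ 2 * Gm N r δ) :=
        mul_le_mul hr hoG2 (by norm_num) hr0.le
      have h6 := mul_le_mul_of_nonneg_right h5 hRR0.le
      have h7 : 1 + ρ ^ 2 ≤ 389 / 100 := by
        have : ρ ^ 2 ≤ (17 / 10) ^ 2 := pow_le_pow_left₀ hρ.le hρ1 2
        linarith
      have h8 := mul_le_mul_of_nonneg_right h7 hRR0.le
      have h9 : (6 * (1 + ρ ^ 2)) ^ 2 = 36 * ((1 + ρ ^ 2) * (1 + ρ ^ 2)) := by ring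
      rw [h9]
      linarith)
    linarith
  · have h3 : eo1 N r δ * (1 + n) ≤ 158 / 100 * (153 / 100) :=
      mul_le_mul (by linarith) (by linarith) (by linarith) (by norm_num)
    linarith

end SokalV3O
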