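import Pool.Agent.Lib_MP_af4de1_v3o.ODef

set_option autoImplicit false

namespace SokalV3O

open Real SokalF1G

private theorem oml_P_c {p q u v : ℝ} (hp : 0 ≤ p) (hq : 0 ≤ q) (hu : 0 ≤ u) (hv : 0 ≤ v) :
    0 ≤ (1 / 10) * q ^ 9 * v ^ 2 +
      (3 / 10) * q ^ 9 * u * v +
      (9 / 40) * q ^ 9 * u ^ 2 +
      (7 / 10) * p * q ^ 8 * v ^ 2 +
      (21 / 10) * p * q ^ 8 * u * v +
      (63 / 40) * p * q ^ 8 * u ^ 2 +
      (407 / 250) * p ^ 2 * q ^ 7 * v ^ 2 +
      (969 / 250) * p ^ 2 * q ^ 7 * u * v +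
      (2823 / 1000) * p ^ 2 * q ^ 7 * u ^ 2 +
      (432 / 125) * p ^ 3 * q ^ 6 * v ^ 2 +
      (372 / 125) * p ^ 3 * q ^ 6 * u * v +
      (18 / 25) * p ^ 3 * q ^ 6 * u ^ 2 +
      (523 / 50) * p ^ 4 * q ^ 5 * v ^ 2 +
      (477 / 50) * p ^ 4 * q ^ 5 * u * v +
      (171 / 200) * p ^ 4 * q ^ 5 * u ^ 2 +
      (1057 / 50) * p ^ 5 * q ^ 4 * v ^ 2 +
      (1491 / 50) * p ^ 5 * q ^ 4 * u * v +
      (2121 / 200) * p ^ 5 * q ^ 4 * u ^ 2 +
      (229 / 10) * p ^ 6 * q ^ 3 * v ^ 2 +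
      (2007 / 50) * p ^ 6 * q ^ 3 * u * v +
      (3753 / 200) * p ^ 6 * q ^ 3 * u ^ 2 +
      (1601 / 125) * p ^ 7 * q ^ 2 * v ^ 2 +
      (3207 / 125) * p ^ 7 * q ^ 2 * u * v +
      (6849 / 500) * p ^ 7 * q ^ 2 * u ^ 2 +
      (402 / 125) * p ^ 8 * q * v ^ 2 +
      (912 / 125) * p ^ 8 * q * u * v +
      (219 / 50) * p ^ 8 * q * u ^ 2 +
      (1 / 5) * p ^ 9 * v ^ 2 +
      (3 / 5) * p ^ 9 * u * v +
      (9 / 20) * p ^ 9 * u ^ 2 := by
  positivity

private theorem oml_P {c y : ℝ} (h1 : 0 ≤ c) (h2 : c ≤ 1) (h3 : 1 ≤ y) (h4 : y ≤ 3 / 2) :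
    0 ≤ (21 / 25) * (c ^ 2 * (1 - c) * (4 / 5 * (1 + y * c) - y)) +
      1 / 20 * (y ^ 2 * (c ^ 2 + (1 - c) ^ 2 * (1 + c) / 2) * (1 - c + c ^ 2)) := by
  have h := oml_P_c (sub_nonneg.2 h1) (sub_nonneg.2 h2) (sub_nonneg.2 h3) (sub_nonneg.2 h4)
  refine le_of_le_of_eq h ?_
  ring


private theorem oml_dom {x y z τ k ψ : ℝ} (h : ShL x y z τ k ψ) : DomG x y := by
  have hx := h.x0
  have hy := h.y0
  have hy1 := h.y1
  refine ⟨hx.le, by linarith, by linarith, ?_⟩
  nlinarith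

private theorem oml_pa {x s : ℝ} (hx : 0 < x) (h1 : s ≤ 4) :
    pa x s = min 1 (s / (1 + x)) := by
  unfold pa a4
  have h2 : s / (1 + x) ≤ 4 / (1 + x) := by
    apply div_le_div_of_nonneg_right h1
    linarith
  rw [min_comm 1 (4 / (1 + x)), ← min_assoc, min_eq_left h2, min_comm]

/-- `1 ≤ |s| ≤ 3/2`, left side, `s > 0` (true `.668`) -/
theorem mLr {x y z τ k ψ s : ℝ} (h : ShL x y z τ k ψ) (h0 : 1 ≤ s) (h1 : s ≤ 3 / 2) :
    11 / 20 * Qf x y * s ^ 2 ≤ Hc x y z τ (pa x s) s := by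
  have hx := h.x0
  have hy := h.y0
  have hT := h.T
  have hz := h.z0
  have hτ := h.τ0
  have hτ1 := h.τ1
  have hζ := h.ζ
  have hzτ := h.zτ
  have hs0 : 0 ≤ s := by linarith
  have hx1 : 0 < 1 + x := by linarith
  have hD := oml_dom h
  have g2 := G2 hD h0 h1
  have hpa := oml_pa (s := s) hx (by linarith)
  have hq0 : 0 ≤ s / (1 + x) := by positivity
  have hga : ga x s = pa x s := by
    rw [hpa]
    unfold ga
    rw [max_eq_right]
    exact le_trans (by norm_num) (le_min zero_le_one hq0)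
  unfold Hf at g2
  rw [hga] at g2
  obtain ⟨a, ha⟩ : ∃ a, a = pa x s := ⟨_, rfl⟩
  rw [← ha] at g2 hpa ⊢
  have ha0 : 0 ≤ a := by rw [hpa]; exact le_min zero_le_one hq0
  have hdiff : Hc x y z τ a s = Ha x y a s +
      (-(a - y) * z + exp a * (x * (cos s - cos (s + τ)) + y * (sin (s + τ) - sin s))) := by
    unfold Hc Ha
    ring
  have e1 : cos s - cos (s + τ) = 2 * sin (s + τ / 2) * sin (τ / 2) := by
    rw [cos_sub_cos, show (s + (s + τ)) / 2 = s + τ / 2 by ring,
      show (s - (s + τ)) / 2 = -(τ / 2) by ring, sin_neg]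
    ring
  have e2 : sin (s + τ) - sin s = 2 * cos (s + τ / 2) * sin (τ / 2) := by
    rw [sin_sub_sin, show (s + τ + s) / 2 = s + τ / 2 by ring,
      show (s + τ - s) / 2 = τ / 2 by ring]
    ring
  have hθ0 : 1 ≤ s + τ / 2 := by linarith
  have hθ1 : s + τ / 2 ≤ 7 / 4 := by linarith
  have hB : 41 / 50 * x ≤ x * sin (s + τ / 2) + y * cos (s + τ / 2) := by
    rcases le_total 0 (cos (s + τ / 2)) with hc | hc
    · have h2 : 41 / 50 ≤ sin (s + τ / 2) := by
        refine le_trans ?_ (sin_ge3 (by linarith : (0 : ℝ) ≤ s + τ / 2))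
        obtain ⟨t, ht⟩ : ∃ t, t = s + τ / 2 := ⟨_, rfl⟩
        rw [← ht] at hθ0 hθ1 ⊢
        nlinarith [mul_nonneg (sub_nonneg.2 hθ0) (sub_nonneg.2 hθ1),
          mul_nonneg (mul_nonneg (sub_nonneg.2 hθ0) (sub_nonneg.2 hθ1)) (by linarith : (0:ℝ) ≤ t)]
      have h3 := mul_le_mul_of_nonneg_left h2 hx.le
      have h4 := mul_nonneg hy hc
      linarith
    · have h2 : -(9 / 50) ≤ cos (s + τ / 2) := by
        rw [← sin_pi_div_two_sub]
        rcases le_total 0 (π / 2 - (s + τ / 2)) with h5 | h5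
        · have : 0 ≤ sin (π / 2 - (s + τ / 2)) := by
            apply sin_nonneg_of_nonneg_of_le_pi h5
            linarith [pi_pos]
          linarith
        · have h6 := sin_le1 (x := -(π / 2 - (s + τ / 2))) (by linarith)
          rw [sin_neg] at h6
          have h7 := pi_gt_d2
          norm_num at h7
          linarith
      have hs0' : 0 ≤ sin (s + τ / 2) := by
        apply sin_nonneg_of_nonneg_of_le_pi (by linarith)
        have h7 := pi_gt_three
        linarith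
      have h3 : 49 / 50 ≤ sin (s + τ / 2) := by
        have h8 := sin_sq_add_cos_sq (s + τ / 2)
        by_contra hn
        push Not at hn
        nlinarith
      have h4 : 49 / 50 * x ≤ x * sin (s + τ / 2) := by
        have := mul_le_mul_of_nonneg_left h3 hx.le
        linarith
      have h5 : -(9 / 50) * y ≤ y * cos (s + τ / 2) := by
        have := mul_le_mul_of_nonneg_left h2 hy
        linarith
      linarith
  have hw : 989 / 1000 * τ ≤ 2 * sin (τ / 2) := by
    have h2 := sin_ge3 (by linarith : (0 : ℝ) ≤ τ / 2)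
    have h3 : τ * τ ^ 2 ≤ τ * (1 / 4) := by
      apply mul_le_mul_of_nonneg_left _ hτ
      nlinarith
    nlinarith
  have hbr : 4 / 5 * (x * τ) ≤ x * (cos s - cos (s + τ)) + y * (sin (s + τ) - sin s) := by
    rw [e1, e2]
    have h2 : 989 / 1000 * τ * (41 / 50 * x) ≤
        2 * sin (τ / 2) * (x * sin (s + τ / 2) + y * cos (s + τ / 2)) :=
      mul_le_mul hw hB (by positivity) (le_trans (by positivity) hw)
    have h3 : 0 ≤ x * τ := by positivity
    linarith
  have hxτ : 0 ≤ x * τ := by positivity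
  have he : (1 + a) * (4 / 5 * (x * τ)) ≤
      exp a * (x * (cos s - cos (s + τ)) + y * (sin (s + τ) - sin s)) :=
    mul_le_mul (by linarith [add_one_le_exp a]) hbr (by positivity) (exp_pos a).le
  have hyz : 0 ≤ y * z := mul_nonneg hy hz
  obtain ⟨k1, k2, k3⟩ := c_facts hx.le
  obtain ⟨c, hc⟩ : ∃ c, c = 1 / (1 + x) := ⟨_, rfl⟩
  rw [← hc] at k1 k2 k3
  have hQ : Qf x y = (1 + y) * c + x * (1 - c ^ 2) / 2 := by
    unfold Qf
    rw [hc]
    ring
  have hq : c * Qf x y = c ^ 2 * (1 + y) + (1 - c) ^ 2 * (1 + c) / 2 := by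
    rw [hQ]
    linear_combination ((1 - c ^ 2) / 2) * k3
  have hQ0 : 0 ≤ Qf x y := by
    have : 0 ≤ c * Qf x y := by
      rw [hq]
      have : 0 ≤ 1 - c := by linarith
      positivity
    exact nonneg_of_mul_nonneg_right this k1
  have hQs : 0 ≤ Qf x y * s ^ 2 := by positivity
  have main : -(1 / 20 * (Qf x y * s ^ 2)) ≤ -a * z + (1 + a) * (4 / 5 * (x * τ)) := by
    rcases le_total (s / (1 + x)) 1 with hs1 | hs1
    · have ha1 : a = s * c := by rw [hpa, min_eq_right hs1, hc]; ring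
      have haz : a * z = s * (x * τ) := by
        have : c * (1 + x) = 1 := by rw [hc]; field_simp
        rw [ha1, hzτ]
        linear_combination (s * x * τ) * this
      rcases le_total 0 (4 / 5 * (1 + s * c) - s) with hb | hb
      · have h2 := mul_nonneg hxτ hb
        rw [neg_mul, haz, ha1]
        linarith
      · have hP := oml_P k1.le k2 h0 h1
        have hN : c ^ 2 * (1 + x + x ^ 2) = 1 - c + c ^ 2 := by
          linear_combination (c * x + 1) * k3
        have hτN : (1 + x + x ^ 2) * τ ≤ 21 / 25 := by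
          rw [hzτ] at hζ
          linarith
        have h3 : 21 / 25 * (c ^ 2 * (1 - c) * (4 / 5 * (1 + s * c) - s)) ≤
            ((1 + x + x ^ 2) * τ) * (c ^ 2 * (1 - c) * (4 / 5 * (1 + s * c) - s)) := by
          apply mul_le_mul_of_nonpos_right hτN
          apply mul_nonpos_of_nonneg_of_nonpos _ hb
          have : 0 ≤ 1 - c := by linarith
          positivity
        have h4 : (c ^ 2 + (1 - c) ^ 2 * (1 + c) / 2) * (1 - c + c ^ 2) * s ^ 2 ≤
            (c * Qf x y) * (1 - c + c ^ 2) * s ^ 2 := by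
          apply mul_le_mul_of_nonneg_right _ (sq_nonneg s)
          apply mul_le_mul_of_nonneg_right
          · rw [hq]
            have : 0 ≤ c ^ 2 * y := by positivity
            linarith
          · nlinarith [sq_nonneg (c - 1 / 2)]
        have h5 : 0 ≤ (c * (c ^ 2 * (1 + x + x ^ 2))) *
            (1 / 20 * (Qf x y * s ^ 2) + x * τ * (4 / 5 * (1 + s * c) - s)) := by
          have e5 : (c * (c ^ 2 * (1 + x + x ^ 2))) *
            (1 / 20 * (Qf x y * s ^ 2) + x * τ * (4 / 5 * (1 + s * c) - s)) =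
            1 / 20 * ((c * Qf x y) * (1 - c + c ^ 2) * s ^ 2) +
            ((1 + x + x ^ 2) * τ) * (c ^ 2 * (1 - c) * (4 / 5 * (1 + s * c) - s)) := by
            linear_combination (1 / 20 * c * Qf x y * s ^ 2) * hN +
              ((1 + x + x ^ 2) * τ * c ^ 2 * (4 / 5 * (1 + s * c) - s)) * k3
          rw [e5]
          linarith
        have h6 : 0 < c * (c ^ 2 * (1 + x + x ^ 2)) := by positivity
        have h7 := nonneg_of_mul_nonneg_right h5 h6
        rw [neg_mul, haz, ha1]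
        linarith
    · have ha1 : a = 1 := by rw [hpa, min_eq_left hs1]
      have h2 : 1 + x ≤ s := by
        rwa [le_div_iff₀ hx1, one_mul] at hs1
      have h3 : x * τ * (1 + x) ≤ x * τ * (3 / 2) :=
        mul_le_mul_of_nonneg_left (by linarith) hxτ
      rw [ha1, hzτ]
      linarith
  rw [hdiff]
  linarith

/-- left side, `s = -v < 0` (true `.608`) -/
theorem mLl {x y z τ k ψ v : ℝ} (h : ShL x y z τ k ψ) (h0 : 1 ≤ v) (h1 : v ≤ 3 / 2) :
    11 / 20 * Qf x y * v ^ 2 ≤ Hc x y z τ (-(pa x v)) (-v) := by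
  have hx := h.x0
  have hy := h.y0
  have hz := h.z0
  have hτ := h.τ0
  have hτ1 := h.τ1
  have hzτ := h.zτ
  have hs0 : 0 ≤ v := by linarith
  have hx1 : 0 < 1 + x := by linarith
  have hD := oml_dom h
  have g3 := G3_pos hD hy (s := -v) (by linarith) (by linarith)
  have hpa := oml_pa (s := v) hx (by linarith)
  have hq0 : 0 ≤ v / (1 + x) := by positivity
  have hga : ga x (-v) = -(pa x v) := by
    rw [hpa]
    unfold ga
    rw [neg_div, min_eq_right (by linarith), ← max_neg_neg]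
  unfold Hf at g3
  rw [hga] at g3
  obtain ⟨b, hb⟩ : ∃ b, b = pa x v := ⟨_, rfl⟩
  rw [← hb] at g3 hpa ⊢
  have hb0 : 0 ≤ b := by rw [hpa]; exact le_min zero_le_one hq0
  have hb1 : 1 ≤ b * (1 + x) := by
    rcases le_total (v / (1 + x)) 1 with hs1 | hs1
    · rw [hpa, min_eq_right hs1, div_mul_cancel₀ _ hx1.ne']
      exact h0
    · rw [hpa, min_eq_left hs1]
      linarith
  have hdiff : Hc x y z τ (-b) (-v) = Ha x y (-b) (-v) +
      ((b + y) * z + exp (-b) * (x * (cos v - cos (v - τ)) + y * (sin v - sin (v - τ)))) := by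
    unfold Hc Ha
    rw [show -v + τ = -(v - τ) by ring, cos_neg, cos_neg, sin_neg, sin_neg]
    ring
  have e1 : cos v - cos (v - τ) = -(2 * sin (v - τ / 2) * sin (τ / 2)) := by
    rw [cos_sub_cos, show (v + (v - τ)) / 2 = v - τ / 2 by ring,
      show (v - (v - τ)) / 2 = τ / 2 by ring]
    ring
  have e2 : sin v - sin (v - τ) = 2 * sin (τ / 2) * cos (v - τ / 2) := by
    rw [sin_sub_sin, show (v + (v - τ)) / 2 = v - τ / 2 by ring,
      show (v - (v - τ)) / 2 = τ / 2 by ring]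
  have hw1 : sin (τ / 2) ≤ τ / 2 := sin_le1 (by linarith)
  have hw0 : 0 ≤ sin (τ / 2) := by
    apply sin_nonneg_of_nonneg_of_le_pi (by linarith)
    linarith [pi_gt_three]
  have h2 : -τ ≤ cos v - cos (v - τ) := by
    rw [e1]
    have h3 : sin (v - τ / 2) * sin (τ / 2) ≤ 1 * (τ / 2) :=
      mul_le_mul (sin_le_one _) hw1 hw0 zero_le_one
    linarith
  have h3 : 0 ≤ sin v - sin (v - τ) := by
    rw [e2]
    have : 0 ≤ cos (v - τ / 2) := by
      apply cos_nonneg_of_neg_pi_div_two_le_of_le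
      · linarith [pi_gt_three]
      · have := pi_gt_three
        linarith
    positivity
  have h4 : -(x * τ) ≤ exp (-b) * (x * (cos v - cos (v - τ)) + y * (sin v - sin (v - τ))) := by
    have h5 : -(x * τ) ≤ x * (cos v - cos (v - τ)) + y * (sin v - sin (v - τ)) := by
      have h6 := mul_le_mul_of_nonneg_left h2 hx.le
      have h7 := mul_nonneg hy h3
      linarith
    have h6 : exp (-b) ≤ 1 := exp_le_one_iff.2 (by linarith)
    have h7 := mul_le_mul_of_nonneg_left h5 (exp_pos (-b)).le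
    have h8 : exp (-b) * (x * τ) ≤ 1 * (x * τ) :=
      mul_le_mul_of_nonneg_right h6 (by positivity)
    linarith
  have h5 : x * τ ≤ b * z := by
    rw [hzτ]
    have := mul_le_mul_of_nonneg_left hb1 (by positivity : 0 ≤ x * τ)
    linarith
  have hyz : 0 ≤ y * z := mul_nonneg hy hz
  have hQ0 : 0 ≤ Qf x y := by
    unfold Qf
    have : (1 / (1 + x)) ^ 2 ≤ 1 := by
      apply pow_le_one₀ (by positivity)
      rw [div_le_one hx1]
      linarith
    have h9 : 0 ≤ 1 - (1 / (1 + x)) ^ 2 := by linarith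
    positivity
  have hQs : 0 ≤ Qf x y * v ^ 2 := by positivity
  have h6 : 11 / 20 * (Qf x y * v ^ 2) ≤ (1 + 3 / 10 * -v) * (Qf x y * v ^ 2) := by
    apply mul_le_mul_of_nonneg_right _ hQs
    linarith
  rw [hdiff]
  have e6 : (1 + 3 / 10 * -v) * Qf x y * (-v) ^ 2 = (1 + 3 / 10 * -v) * (Qf x y * v ^ 2) := by ring
  rw [e6] at g3
  linarith

end SokalV3O
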