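import Pool.Agent.Lib_MP_af4de1_v3o.ODef
import Pool.Agent.Lib_MP_af4de1_f1.PolBox

set_option autoImplicit false

namespace SokalV3O

open Real SokalF1G SokalPB

/-! ### polynomials in `c = 1/(1+x)` and `s` -/

private def eT : E := .mul .X .Y
private def eE : E :=
  .add (.add (.add (.add (.c 1) eT) (.dv (.pow eT 2) 2)) (.dv (.pow eT 3) 6)) (.dv (.pow eT 4) 17)
private def eN4 : E :=
  .add (.sub (.add (.sub (.c 1) eT) (.dv (.pow eT 2) 2)) (.dv (.pow eT 3) 6)) (.dv (.pow eT 4) 24)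
private def eN3 : E := .sub (.add (.sub (.c 1) eT) (.dv (.pow eT 2) 2)) (.dv (.pow eT 3) 6)
private def eC : E := .add (.sub (.c 1) (.dv (.pow .Y 2) 2)) (.dv (.pow .Y 4) 24)
private def eS5 : E := .add (.sub .Y (.dv (.pow .Y 3) 6)) (.dv (.pow .Y 5) 120)
private def eS3 : E := .sub .Y (.dv (.pow .Y 3) 6)
private def eD : E := .add (.sub (.c 1) .X) (.pow .X 2)
private def eU : E := .sub (.c 1) .X

private def eK : E := .sub (.sub (.add (.c 1) eT) (.mul eE eC))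
  (.dv (.mul (.sub (.c 1) (.pow .X 2)) (.pow .Y 2)) 4)
private def eB : E := .sub (.mul eE eS5) .Y
private def eR0 : E := .add (.dv (.pow eT 2) 2) (.mul eU eK)
private def eR1 : E := .add (.sub eR0 (.dv (.mul (.mul (.c 4) eU) eB) 5))
  (.dv (.mul (.mul (.mul (.c 2) .X) eU) (.pow .Y 2)) 5)
private def eR2 : E := .dv (.mul (.mul (.mul (.c 21) (.pow .X 2)) eU) eB) 25
private def eR01 : E := .sub (.mul eD eR0) eR2
private def eR11 : E := .sub (.mul eD eR1) eR2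

private def eKl : E := .sub (.sub (.sub (.c 1) eT) (.mul eN4 eC))
  (.dv (.mul (.sub (.c 1) (.pow .X 2)) (.pow .Y 2)) 5)
private def eM : E := .sub (.sub .Y (.mul eN3 eS3)) (.dv (.mul (.mul (.c 2) .X) (.pow .Y 2)) 5)
private def eBl : E := .sub .Y (.mul eN3 (.sub (.dv (.mul (.c 19) eS3) 20) (.dv (.c 1) 5)))
private def eL0 : E := .add (.dv (.mul (.c 3) (.pow eT 2)) 5) (.mul eU eKl)
private def eL1 : E := .sub eL0 (.dv (.mul (.mul (.c 53) .X) eM) 100)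
private def eL01 : E := .sub (.mul eD eL0) (.dv (.mul (.mul (.mul (.c 21) eU) (.pow .X 2)) eBl) 25)
private def eL11 : E := .add (.sub (.mul eD eL1)
  (.dv (.mul (.mul (.mul (.c 21) eU) (.pow .X 2)) eBl) 25)) (.dv (.mul (.mul (.c 1113) eU) .X) 2500)

/-- clamped, `x = |s| - 1` -/
private def eP2 : E := .add (.sub .Y (.dv (.pow .Y 2) 2)) (.mul (.sub .Y (.c 1))
  (.sub (.add (.dv (.c (-259)) 250) (.dv (.mul (.c 4) .Y) 5)) (.dv (.mul (.c 68) eC) 25)))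
private def eP4 : E := .add (.sub .Y (.dv (.mul (.c 2) (.pow .Y 2)) 5)) (.mul (.sub .Y (.c 1))
  (.sub (.add (.sub (.dv (.c (-3)) 4) (.dv (.mul (.c 37) eC) 100)) (.dv (.mul (.c 7) (.pow .Y 2)) 45))
    (.dv (.mul (.c 4) (.sub (.sub .Y (.dv (.c 1) 4)) (.dv (.mul (.c 4) (.pow .Y 2)) 15))) 5)))

private theorem rP2 : runQ eP2.toQ 6 0 101 100 100 151 100 = true := by decide +kernel
private theorem rP4 : runQ eP4.toQ 6 0 101 100 100 151 100 = true := by decide +kernel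
private theorem rR0 : runQ eR0.toQ 6 0 101 100 100 151 100 = true := by decide +kernel
private theorem rR1 : runQ eR1.toQ 6 0 101 100 100 151 100 = true := by decide +kernel
private theorem rR01 : runQ eR01.toQ 6 0 101 100 100 151 100 = true := by decide +kernel
private theorem rR11 : runQ eR11.toQ 6 0 101 100 100 151 100 = true := by decide +kernel
private theorem rL0 : runQ eL0.toQ 6 0 101 100 100 151 100 = true := by decide +kernel
private theorem rL1 : runQ eL1.toQ 6 0 101 100 100 151 100 = true := by decide +kernel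
private theorem rL01 : runQ eL01.toQ 6 0 101 100 100 151 100 = true := by decide +kernel
private theorem rL11 : runQ eL11.toQ 6 0 101 100 100 151 100 = true := by decide +kernel

private theorem box {e : E} (he : runQ e.toQ 6 0 101 100 100 151 100 = true) {c s : ℝ}
    (h1 : 0 ≤ c) (h2 : c ≤ 1) (h3 : 1 ≤ s) (h4 : s ≤ 3 / 2) : 0 ≤ e.eval c s := by
  refine e.nonneg 6 (by norm_num) (by norm_num) he ?_ ?_ ?_ ?_ <;> push_cast <;> linarith

private theorem pR {c s N W : ℝ} (h1 : 0 ≤ c) (h2 : c ≤ 1) (h3 : 1 ≤ s) (h4 : s ≤ 3 / 2)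
    (hN0 : 0 ≤ N) (hN1 : N ≤ 4 / 5 * (1 - c)) (hW0 : 0 ≤ W)
    (hW1 : (1 - c + c ^ 2) * W ≤ 21 / 25 * c ^ 2 * (1 - c)) :
    0 ≤ c ^ 2 * s ^ 2 + W * s + N * s + (1 - c) * (1 + c * s) -
      (1 - c) * ((1 + c * s + (c * s) ^ 2 / 2 + (c * s) ^ 3 / 6 + (c * s) ^ 4 / 17) *
        (1 - s ^ 2 / 2 + s ^ 4 / 24)) -
      (W + N) * ((1 + c * s + (c * s) ^ 2 / 2 + (c * s) ^ 3 / 6 + (c * s) ^ 4 / 17) *
        (s - s ^ 3 / 6 + s ^ 5 / 120)) -
      1 / 2 * s ^ 2 * (c ^ 2 - c * N + (1 - c) ^ 2 * (1 + c) / 2) := by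
  have q0 := box rR0 h1 h2 h3 h4
  have q1 := box rR1 h1 h2 h3 h4
  have q01 := box rR01 h1 h2 h3 h4
  have q11 := box rR11 h1 h2 h3 h4
  simp only [eR11, eR01, eR1, eR0, eR2, eK, eB, eU, eD, eS5, eC, eE, eT, E.eval] at q0 q1 q01 q11
  push_cast at q0 q1 q01 q11
  obtain ⟨u, hu⟩ : ∃ u, u = 1 + c * s + (c * s) ^ 2 / 2 + (c * s) ^ 3 / 6 + (c * s) ^ 4 / 17 :=
    ⟨_, rfl⟩
  rw [← hu] at q0 q1 q01 q11 ⊢
  obtain ⟨v, hv⟩ : ∃ v, v = u * (1 - s ^ 2 / 2 + s ^ 4 / 24) := ⟨_, rfl⟩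
  obtain ⟨w, hw⟩ : ∃ w, w = u * (s - s ^ 3 / 6 + s ^ 5 / 120) := ⟨_, rfl⟩
  rw [← hv, ← hw] at q1 q01 q11 ⊢
  rw [← hv] at q0
  have hD : 0 < 1 - c + c ^ 2 := by nlinarith [sq_nonneg (c - 1 / 2)]
  have a0 : 0 ≤ (c ^ 2 * s ^ 2 + (1 - c) * (1 + c * s) - (1 - c) * v -
      1 / 2 * s ^ 2 * (c ^ 2 + (1 - c) ^ 2 * (1 + c) / 2)) + (s - w + 1 / 2 * c * s ^ 2) * N :=
    aff (z0 := 0) (z1 := 4 / 5 * (1 - c)) (q0.trans_eq (by ring)) (q1.trans_eq (by ring)) hN0 hN1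
  have a1 : 0 ≤ ((1 - c + c ^ 2) * (c ^ 2 * s ^ 2 + (1 - c) * (1 + c * s) - (1 - c) * v -
      1 / 2 * s ^ 2 * (c ^ 2 + (1 - c) ^ 2 * (1 + c) / 2)) -
      21 / 25 * c ^ 2 * (1 - c) * (w - s)) +
      (1 - c + c ^ 2) * (s - w + 1 / 2 * c * s ^ 2) * N :=
    aff (z0 := 0) (z1 := 4 / 5 * (1 - c)) (q01.trans_eq (by ring)) (q11.trans_eq (by ring))
      hN0 hN1
  have a2 : 0 ≤ (1 - c + c ^ 2) * ((c ^ 2 * s ^ 2 + (1 - c) * (1 + c * s) - (1 - c) * v -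
      1 / 2 * s ^ 2 * (c ^ 2 + (1 - c) ^ 2 * (1 + c) / 2)) + (s - w + 1 / 2 * c * s ^ 2) * N) +
      (s - w) * ((1 - c + c ^ 2) * W) :=
    aff (z0 := 0) (z1 := 21 / 25 * c ^ 2 * (1 - c)) (by
      rw [mul_zero, add_zero]
      exact mul_nonneg hD.le a0) (a1.trans_eq (by ring)) (by positivity) hW1
  have a3 : 0 ≤ (1 - c + c ^ 2) * (c ^ 2 * s ^ 2 + W * s + N * s + (1 - c) * (1 + c * s) -
      (1 - c) * v - (W + N) * w - 1 / 2 * s ^ 2 * (c ^ 2 - c * N + (1 - c) ^ 2 * (1 + c) / 2)) :=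
    a2.trans_eq (by ring)
  exact nonneg_of_mul_nonneg_right a3 hD

private theorem pL {c v n θ : ℝ} (h1 : 0 ≤ c) (h2 : c ≤ 1) (h3 : 1 ≤ v) (h4 : v ≤ 3 / 2)
    (hn0 : 0 ≤ n) (hn1 : n ≤ 53 / 100) (hθ0 : 0 ≤ θ) (hθ1 : θ ≤ 21 / 25) :
    0 ≤ (1 - c + c ^ 2) * (3 / 5 * c ^ 2 * v ^ 2 + (1 - c) *
      (1 - c * v - (1 - c * v + (c * v) ^ 2 / 2 - (c * v) ^ 3 / 6 + (c * v) ^ 4 / 24) *
        (1 - v ^ 2 / 2 + v ^ 4 / 24) - (1 - c ^ 2) * v ^ 2 / 5) -
      c * n * (v - (1 - c * v + (c * v) ^ 2 / 2 - (c * v) ^ 3 / 6) * (v - v ^ 3 / 6) -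
        2 / 5 * c * v ^ 2)) -
      (1 - c) * c ^ 2 * θ * (v - (1 - c * v + (c * v) ^ 2 / 2 - (c * v) ^ 3 / 6) *
        (19 / 20 * (v - v ^ 3 / 6) - 1 / 5)) + n * (1 - c) * c * θ := by
  have q0 := box rL0 h1 h2 h3 h4
  have q1 := box rL1 h1 h2 h3 h4
  have q01 := box rL01 h1 h2 h3 h4
  have q11 := box rL11 h1 h2 h3 h4
  simp only [eL11, eL01, eL1, eL0, eKl, eM, eBl, eU, eD, eS3, eC, eN3, eN4, eT, E.eval]
    at q0 q1 q01 q11
  push_cast at q0 q1 q01 q11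
  obtain ⟨a, ha⟩ : ∃ a, a = (1 - c * v + (c * v) ^ 2 / 2 - (c * v) ^ 3 / 6 + (c * v) ^ 4 / 24) *
        (1 - v ^ 2 / 2 + v ^ 4 / 24) := ⟨_, rfl⟩
  obtain ⟨b, hb⟩ : ∃ b, b = (1 - c * v + (c * v) ^ 2 / 2 - (c * v) ^ 3 / 6) * (v - v ^ 3 / 6) :=
    ⟨_, rfl⟩
  obtain ⟨d, hd⟩ : ∃ d, d = (1 - c * v + (c * v) ^ 2 / 2 - (c * v) ^ 3 / 6) *
        (19 / 20 * (v - v ^ 3 / 6) - 1 / 5) := ⟨_, rfl⟩
  have hd' : (1 - c * v + (c * v) ^ 2 / 2 - (c * v) ^ 3 / 6) *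
        (19 * (v - v ^ 3 / 6) / 20 - 1 / 5) = d := by
    rw [hd]
    ring
  rw [← ha, ← hb] at q1 q11
  rw [← ha] at q0 q01
  rw [hd'] at q01 q11
  rw [← ha, ← hb, ← hd]
  have hD : 0 < 1 - c + c ^ 2 := by nlinarith [sq_nonneg (c - 1 / 2)]
  have a0 : 0 ≤ (3 / 5 * c ^ 2 * v ^ 2 + (1 - c) * (1 - c * v - a - (1 - c ^ 2) * v ^ 2 / 5)) +
      (-c * (v - b - 2 / 5 * c * v ^ 2)) * n :=
    aff (z0 := 0) (z1 := 53 / 100) (q0.trans_eq (by ring)) (q1.trans_eq (by ring)) hn0 hn1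
  have a1 : 0 ≤ ((1 - c + c ^ 2) * (3 / 5 * c ^ 2 * v ^ 2 +
      (1 - c) * (1 - c * v - a - (1 - c ^ 2) * v ^ 2 / 5)) -
      (1 - c) * c ^ 2 * (21 / 25) * (v - d)) +
      ((1 - c + c ^ 2) * (-c * (v - b - 2 / 5 * c * v ^ 2)) + (1 - c) * c * (21 / 25)) * n :=
    aff (z0 := 0) (z1 := 53 / 100) (q01.trans_eq (by ring)) (q11.trans_eq (by ring)) hn0 hn1
  have a2 : 0 ≤ (1 - c + c ^ 2) * ((3 / 5 * c ^ 2 * v ^ 2 +
      (1 - c) * (1 - c * v - a - (1 - c ^ 2) * v ^ 2 / 5)) +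
      (-c * (v - b - 2 / 5 * c * v ^ 2)) * n) +
      (n * (1 - c) * c - (1 - c) * c ^ 2 * (v - d)) * θ :=
    aff (z0 := 0) (z1 := 21 / 25) (by
      rw [mul_zero, add_zero]
      exact mul_nonneg hD.le a0) (a1.trans_eq (by ring)) hθ0 hθ1
  exact a2.trans_eq (by ring)

private theorem omr_pa {x s : ℝ} (hx : 0 < x) (h1 : s ≤ 4) :
    pa x s = min 1 (s / (1 + x)) := by
  unfold pa a4
  have h2 : s / (1 + x) ≤ 4 / (1 + x) := by
    apply div_le_div_of_nonneg_right h1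
    linarith
  rw [min_comm 1 (4 / (1 + x)), ← min_assoc, min_eq_left h2, min_comm]

private theorem omr_Q {x n c : ℝ} (hx : 0 ≤ x) (hc : c = 1 / (1 + x)) :
    c * Qf x (-n) = c ^ 2 * (1 - n) + (1 - c) ^ 2 * (1 + c) / 2 := by
  obtain ⟨k1, k2, k3⟩ := c_facts hx
  rw [← hc] at k1 k2 k3
  have hQ : Qf x (-n) = (1 + -n) * c + x * (1 - c ^ 2) / 2 := by
    unfold Qf
    rw [hc]
    ring
  rw [hQ]
  linear_combination ((1 - c ^ 2) / 2) * k3

/-- facts on `τ` -/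
private theorem omr_τ {x z τ c : ℝ} (hx : 0 ≤ x) (hc : c = 1 / (1 + x))
    (hzτ : z = x * (1 + x) * τ) (hζ : z + τ ≤ 21 / 25) :
    (1 - c + c ^ 2) * τ ≤ 21 / 25 * c ^ 2 ∧ c ^ 2 * z = (1 - c) * τ ∧ c * z = x * τ := by
  obtain ⟨k1, k2, k3⟩ := c_facts hx
  rw [← hc] at k1 k2 k3
  have k4 : c * (1 + x) = 1 := by linarith
  have hN : c ^ 2 * (1 + x + x ^ 2) = 1 - c + c ^ 2 := by
    linear_combination (c * x + 1) * k3
  have hτN : (1 + x + x ^ 2) * τ ≤ 21 / 25 := by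
    rw [hzτ] at hζ
    linarith
  refine ⟨?_, ?_, ?_⟩
  · rw [← hN]
    have := mul_le_mul_of_nonneg_left hτN (sq_nonneg c)
    linarith
  · rw [hzτ]
    linear_combination (x * c * τ) * k4 + τ * k3
  · rw [hzτ]
    linear_combination (x * τ) * k4

private theorem pP2 {s : ℝ} (h3 : 1 ≤ s) (h4 : s ≤ 3 / 2) :
    0 ≤ (s - s ^ 2 / 2) + (-259 / 250 + 4 / 5 * s - 68 / 25 * (1 - s ^ 2 / 2 + s ^ 4 / 24)) *
      (s - 1) := by
  have q := box (c := 0) rP2 le_rfl zero_le_one h3 h4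
  simp only [eP2, eC, E.eval] at q
  push_cast at q
  exact q.trans_eq (by ring)

private theorem pP4 {v : ℝ} (h3 : 1 ≤ v) (h4 : v ≤ 3 / 2) :
    0 ≤ (v - 2 / 5 * v ^ 2) + (-3 / 4 - 37 / 100 * (1 - v ^ 2 / 2 + v ^ 4 / 24) + 7 / 45 * v ^ 2 -
      4 / 5 * (v - 1 / 4 - 4 / 15 * v ^ 2)) * (v - 1) := by
  have q := box (c := 0) rP4 le_rfl zero_le_one h3 h4
  simp only [eP4, eC, E.eval] at q
  push_cast at q
  exact q.trans_eq (by ring)

/-- facts in the clamped case -/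
private theorem omr_cl {x n c s : ℝ} (hx : 0 ≤ x) (hn : 0 ≤ n) (hc : c = 1 / (1 + x))
    (h1 : s ≤ 3 / 2) (hcs : 1 ≤ c * s) :
    x ≤ s - 1 ∧ 2 / 3 ≤ c ∧ Qf x (-n) ≤ 1 - 7 / 18 * x - c * n := by
  obtain ⟨k1, k2, k3⟩ := c_facts hx
  rw [← hc] at k1 k2 k3
  have k4 : c * (1 + x) = 1 := by linarith
  have b1 : x ≤ s - 1 := by
    have h2 := mul_le_mul_of_nonneg_right hcs (by linarith : (0:ℝ) ≤ 1 + x)
    have h3 : c * s * (1 + x) = s := by
      linear_combination s * k4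
    linarith
  have b2 : 2 / 3 ≤ c := by
    have := mul_le_mul_of_nonneg_left h1 k1.le
    linarith
  refine ⟨b1, b2, ?_⟩
  have hQ : Qf x (-n) = (1 + -n) * c + x * (1 - c ^ 2) / 2 := by
    unfold Qf
    rw [hc]
    ring
  have h4 : (2 / 3) ^ 2 ≤ c ^ 2 := pow_le_pow_left₀ (by norm_num) b2 2
  have h5 : 7 / 9 ≤ c ^ 2 + 2 * c - 1 := by linarith
  have h6 := mul_le_mul_of_nonneg_left h5 hx
  rw [hQ]
  have h7 : (1 + -n) * c + x * (1 - c ^ 2) / 2 = 1 - c * n - x * (c ^ 2 + 2 * c - 1) / 2 := by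
    linear_combination k4
  rw [h7]
  linarith

/-- `1 ≤ |s| ≤ 3/2`, right side, `s > 0` (true `.668`) -/
theorem mRr {x n z τ k ψ s : ℝ} (h : ShR x n z τ k ψ) (h0 : 1 ≤ s) (h1 : s ≤ 3 / 2) :
    1 / 2 * Qf x (-n) * s ^ 2 ≤ Hc x (-n) (-z) (-τ) (pa x s) s := by
  have hx := h.x0
  have hn := h.y0
  have hT := h.T
  have hz := h.z0
  have hτ := h.τ0
  have hτ1 := h.τ1
  have hs0 : 0 ≤ s := by linarith
  have hx1 : 0 < 1 + x := by linarith
  have hpa := omr_pa (s := s) hx (by linarith)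
  obtain ⟨k1, k2, k3⟩ := c_facts hx.le
  obtain ⟨c, hc⟩ : ∃ c, c = 1 / (1 + x) := ⟨_, rfl⟩
  obtain ⟨t1, t2, t3⟩ := omr_τ hx.le hc h.zτ h.ζ
  have hq := omr_Q (n := n) hx.le hc
  rw [← hc] at k1 k2 k3
  have hcs : 0 ≤ c * s := mul_nonneg k1.le hs0
  have hcs2 : c * s ≤ 3 / 2 := by nlinarith
  have hpi := pi_gt_three
  have hcos : cos (s + -τ) ≤ cos s + τ * sin s := by
    have e : cos (s + -τ) = cos s * cos τ + sin s * sin τ := by
      rw [← sub_eq_add_neg, cos_sub]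
    have c0 : 0 ≤ cos s := cos_nonneg_of_neg_pi_div_two_le_of_le (by linarith) (by linarith)
    have s0 : 0 ≤ sin s := sin_nonneg_of_nonneg_of_le_pi hs0 (by linarith)
    have e1 := mul_le_mul_of_nonneg_left (cos_le_one τ) c0
    have e2 := mul_le_mul_of_nonneg_left (sin_le1 hτ) s0
    rw [e]
    linarith
  have hsin : sin (s + -τ) ≤ sin s :=
    sin_le_sin_of_le_of_le_pi_div_two (by linarith) (by linarith) (by linarith)
  have hD : 0 < 1 - c + c ^ 2 := by nlinarith [sq_nonneg (c - 1 / 2)]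
  rcases le_total (c * s) 1 with hcs1 | hcs1
  · have ha : pa x s = c * s := by
      rw [hpa, hc]
      have e : s / (1 + x) = 1 / (1 + x) * s := by ring
      rw [e, ← hc, min_eq_right hcs1]
    rw [ha]
    have A1 := ec_le hs0 h1 (e_le3' hcs hcs2)
    have A2 := es_le hs0 h1 (e_le3' hcs hcs2)
    have hN0 : 0 ≤ c * n := mul_nonneg k1.le hn
    have hN1 : c * n ≤ 4 / 5 * (1 - c) := by
      have := mul_le_mul_of_nonneg_left hT k1.le
      linarith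
    have hW0 : 0 ≤ (1 - c) * τ := mul_nonneg (by linarith) hτ
    have hW1 : (1 - c + c ^ 2) * ((1 - c) * τ) ≤ 21 / 25 * c ^ 2 * (1 - c) := by
      have := mul_le_mul_of_nonneg_right t1 (sub_nonneg.2 k2)
      linarith
    have hP := pR k1.le k2 h0 h1 hN0 hN1 hW0 hW1
    obtain ⟨E, hE⟩ : ∃ E, E = 1 + c * s + (c * s) ^ 2 / 2 + (c * s) ^ 3 / 6 + (c * s) ^ 4 / 17 :=
      ⟨_, rfl⟩
    rw [← hE] at A1 A2 hP
    have B1 := mul_le_mul_of_nonneg_left A1 (sub_nonneg.2 k2)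
    have B2 := mul_le_mul_of_nonneg_left A2 (add_nonneg hW0 hN0)
    have B3 : exp (c * s) * ((1 - c) * cos (s + -τ) + c * n * sin (s + -τ)) ≤
        exp (c * s) * ((1 - c) * (cos s + τ * sin s) + c * n * sin s) := by
      refine mul_le_mul_of_nonneg_left ?_ (exp_pos _).le
      exact add_le_add (mul_le_mul_of_nonneg_left hcos (sub_nonneg.2 k2))
        (mul_le_mul_of_nonneg_left hsin hN0)
    have hNz : 0 ≤ c * n * z := mul_nonneg hN0 hz
    have key : 0 ≤ c * (Hc x (-n) (-z) (-τ) (c * s) s - 1 / 2 * Qf x (-n) * s ^ 2) := by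
      have e : c * (Hc x (-n) (-z) (-τ) (c * s) s - 1 / 2 * Qf x (-n) * s ^ 2) =
          c ^ 2 * s ^ 2 + s * (c ^ 2 * z) + c * n * s + c * n * z + (c * x) * (1 + c * s) -
            exp (c * s) * ((c * x) * cos (s + -τ) + c * n * sin (s + -τ)) -
            1 / 2 * s ^ 2 * (c * Qf x (-n)) := by
        unfold Hc
        ring
      rw [e, t2, k3, hq]
      linarith
    have := nonneg_of_mul_nonneg_right key k1
    linarith
  · have ha : pa x s = 1 := by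
      rw [hpa]
      have e : s / (1 + x) = c * s := by rw [hc]; ring
      rw [e, min_eq_left hcs1]
    rw [ha]
    obtain ⟨b1, b2, b3⟩ := omr_cl (n := n) hx.le hn hc h1 hcs1
    have hs2 : 0 ≤ s ^ 2 := sq_nonneg s
    have hQ1 : 1 / 2 * Qf x (-n) * s ^ 2 ≤ s ^ 2 / 2 := by
      have h2 : Qf x (-n) ≤ 1 := by linarith [mul_nonneg k1.le hn]
      have := mul_le_mul_of_nonneg_right h2 hs2
      linarith
    have he1 : exp 1 ≤ 68 / 25 := by
      have := exp_one_lt_d9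
      linarith
    have he0 : 0 ≤ exp 1 := (exp_pos _).le
    obtain ⟨C, hC⟩ : ∃ C, C = 1 - s ^ 2 / 2 + s ^ 4 / 24 := ⟨_, rfl⟩
    have hC0 : 0 ≤ C := by rw [hC]; exact C4_nonneg hs0 h1
    have hcC : cos s ≤ C := by rw [hC]; exact cos_le4 hs0
    have hcC2 : cos (s + -τ) ≤ C + τ := by
      have := mul_le_mul_of_nonneg_left (sin_le_one s) hτ
      linarith
    have hsn : sin (s + -τ) ≤ 1 := sin_le_one _
    have hzx : x * τ ≤ z := by
      rw [h.zτ]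
      have : 0 ≤ x * x * τ := by positivity
      linarith
    have hnz : 0 ≤ n * z := mul_nonneg hn hz
    have hxτ : 0 ≤ x * τ := mul_nonneg hx.le hτ
    have hxτ2 : x * τ ≤ x * (1 / 2) := mul_le_mul_of_nonneg_left hτ1 hx.le
    -- products with `exp 1`
    have m1 : exp 1 * (x * cos (s + -τ) + n * sin (s + -τ)) ≤ 68 / 25 * (x * C + x * τ + n) := by
      have e1 := mul_le_mul_of_nonneg_left hcC2 hx.le
      have e2 := mul_le_mul_of_nonneg_left hsn hn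
      have e3 : x * cos (s + -τ) + n * sin (s + -τ) ≤ x * C + x * τ + n := by linarith
      have e4 : 0 ≤ x * C + x * τ + n := by positivity
      exact (mul_le_mul_of_nonneg_left e3 he0).trans (mul_le_mul_of_nonneg_right he1 e4)
    have m2 : n * (68 / 25 - s) ≤ 4 / 5 * x * (68 / 25 - s) :=
      mul_le_mul_of_nonneg_right hT (by linarith)
    have hP := aff (z0 := 0) (z1 := s - 1) (z := x) (A := s - s ^ 2 / 2)
      (B := -259 / 250 + 4 / 5 * s - 68 / 25 * (1 - s ^ 2 / 2 + s ^ 4 / 24))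
      (by nlinarith) (pP2 h0 h1) hx.le b1
    rw [← hC] at hP
    have e : Hc x (-n) (-z) (-τ) 1 s = s + z + n * s + n * z + 2 * x -
        exp 1 * (x * cos (s + -τ) + n * sin (s + -τ)) := by
      unfold Hc
      ring
    rw [e]
    linarith

/-- right side, `s = -v < 0` (true `.503`) -/
theorem mRl {x n z τ k ψ v : ℝ} (h : ShR x n z τ k ψ) (h0 : 1 ≤ v) (h1 : v ≤ 3 / 2) :
    2 / 5 * Qf x (-n) * v ^ 2 ≤ Hc x (-n) (-z) (-τ) (-(pa x v)) (-v) := by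
  have hx := h.x0
  have hn := h.y0
  have hn1 := h.y1
  have hT := h.T
  have hz := h.z0
  have hτ := h.τ0
  have hτ1 := h.τ1
  have hv0 : 0 ≤ v := by linarith
  have hx1 : 0 < 1 + x := by linarith
  have hpa := omr_pa (s := v) hx (by linarith)
  obtain ⟨k1, k2, k3⟩ := c_facts hx.le
  obtain ⟨c, hc⟩ : ∃ c, c = 1 / (1 + x) := ⟨_, rfl⟩
  obtain ⟨t1, t2, t3⟩ := omr_τ hx.le hc h.zτ h.ζ
  have hq := omr_Q (n := n) hx.le hc
  rw [← hc] at k1 k2 k3
  have hcs : 0 ≤ c * v := mul_nonneg k1.le hv0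
  have hcs2 : c * v ≤ 3 / 2 := by nlinarith
  have hpi := pi_gt_three
  have c0 : 0 ≤ cos v := cos_nonneg_of_neg_pi_div_two_le_of_le (by linarith) (by linarith)
  have s0 : 0 ≤ sin v := sin_nonneg_of_nonneg_of_le_pi hv0 (by linarith)
  have sτ0 : 19 / 20 * τ ≤ sin τ := by
    have h2 := sin_ge3 hτ
    have h3 : τ * τ ^ 2 ≤ τ * (1 / 4) := by
      apply mul_le_mul_of_nonneg_left _ hτ
      nlinarith
    nlinarith
  have sτ1 : 0 ≤ sin τ := le_trans (by positivity) sτ0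
  have cτ0 : 1 - τ / 4 ≤ cos τ := by
    have h2 := cos_ge2 (x := τ)
    nlinarith
  have hcos : cos (v + τ) ≤ cos v - 19 / 20 * τ * sin v := by
    rw [cos_add]
    have e1 := mul_le_mul_of_nonneg_left (cos_le_one τ) c0
    have e2 := mul_le_mul_of_nonneg_left sτ0 s0
    linarith
  have hsin : sin v - τ / 4 ≤ sin (v + τ) := by
    rw [sin_add]
    have e1 := mul_le_mul_of_nonneg_left cτ0 s0
    have e2 := mul_nonneg c0 sτ1
    have e3 := mul_le_mul_of_nonneg_right (sin_le_one v) (by positivity : 0 ≤ τ / 4)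
    linarith
  have hD : 0 < 1 - c + c ^ 2 := by nlinarith [sq_nonneg (c - 1 / 2)]
  have hC : cos (-v + -τ) = cos (v + τ) := by
    rw [← cos_neg]
    congr 1
    ring
  have hS : sin (-v + -τ) = -sin (v + τ) := by
    rw [← sin_neg]
    congr 1
    ring
  rcases le_total (c * v) 1 with hcs1 | hcs1
  · have ha : pa x v = c * v := by
      rw [hpa, hc]
      have e : v / (1 + x) = 1 / (1 + x) * v := by ring
      rw [e, ← hc, min_eq_right hcs1]
    rw [ha]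
    have A1 := ec_le hv0 h1 (en_le4 hcs)
    have g3 := en_ge3 hcs
    have g30 := en3_nonneg hcs hcs2
    have s3 := sin_ge3 hv0
    have s30 := S3_nonneg hv0 h1
    have hN0 : 0 ≤ c * n := mul_nonneg k1.le hn
    have hN1 : c * n ≤ 4 / 5 * (1 - c) := by
      have := mul_le_mul_of_nonneg_left hT k1.le
      linarith
    have hW0 : 0 ≤ (1 - c) * τ := mul_nonneg (by linarith) hτ
    obtain ⟨θ, hθ⟩ : ∃ θ, θ = (1 - c + c ^ 2) * τ / c ^ 2 := ⟨_, rfl⟩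
    have hθc : c ^ 2 * θ = (1 - c + c ^ 2) * τ := by
      rw [hθ]
      field_simp
    have hθ0 : 0 ≤ θ := by rw [hθ]; positivity
    have hθ1 : θ ≤ 21 / 25 := by
      rw [hθ, div_le_iff₀ (by positivity)]
      exact t1
    have hP := pL k1.le k2 h0 h1 hn hn1 hθ0 hθ1
    obtain ⟨F, hF⟩ : ∃ F, F =
        (1 - c * v + (c * v) ^ 2 / 2 - (c * v) ^ 3 / 6 + (c * v) ^ 4 / 24) *
        (1 - v ^ 2 / 2 + v ^ 4 / 24) := ⟨_, rfl⟩
    rw [← hF] at A1 hP
    obtain ⟨E, hE⟩ : ∃ E, E = 1 - c * v + (c * v) ^ 2 / 2 - (c * v) ^ 3 / 6 := ⟨_, rfl⟩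
    rw [← hE] at g3 g30 hP
    -- products
    have P1 : E * (v - v ^ 3 / 6) ≤ exp (-(c * v)) * sin v :=
      mul_le_mul g3 s3 s30 (exp_pos _).le
    have P2 : E * (19 / 20 * (v - v ^ 3 / 6) - 1 / 5) ≤
        exp (-(c * v)) * (19 / 20 * sin v - 1 / 5) := by
      refine mul_le_mul g3 (by linarith) ?_ (exp_pos _).le
      nlinarith
    have B0 : c * n * τ ≤ 4 / 5 * ((1 - c) * τ) := by
      have := mul_le_mul_of_nonneg_right hN1 hτ
      linarith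
    have B1 := mul_le_mul_of_nonneg_left A1 (sub_nonneg.2 k2)
    have B2 := mul_le_mul_of_nonneg_left P1 hN0
    have B3 := mul_le_mul_of_nonneg_left P2 hW0
    have B4 : exp (-(c * v)) * ((1 - c) * cos (v + τ) - c * n * sin (v + τ)) ≤
        exp (-(c * v)) * ((1 - c) * cos v - (1 - c) * τ * (19 / 20 * sin v - 1 / 5) -
          c * n * sin v) := by
      refine mul_le_mul_of_nonneg_left ?_ (exp_pos _).le
      have e1 := mul_le_mul_of_nonneg_left hcos (sub_nonneg.2 k2)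
      have e2 := mul_le_mul_of_nonneg_left hsin hN0
      linarith
    have hP2 : 0 ≤ 3 / 5 * c ^ 2 * v ^ 2 + (1 - c) * (1 - c * v - F - (1 - c ^ 2) * v ^ 2 / 5) -
      c * n * (v - E * (v - v ^ 3 / 6) - 2 / 5 * c * v ^ 2) -
      (1 - c) * τ * (v - E * (19 / 20 * (v - v ^ 3 / 6) - 1 / 5)) + c * n * z := by
      have e0 : (1 - c + c ^ 2) * (c * n * z) = n * (1 - c) * c * θ := by
        have : c * ((1 - c + c ^ 2) * (c * n * z)) = c * (n * (1 - c) * c * θ) := by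
          linear_combination (n * (1 - c + c ^ 2)) * t2 - n * (1 - c) * hθc
        exact mul_left_cancel₀ k1.ne' this
      have e1 : (1 - c + c ^ 2) * (3 / 5 * c ^ 2 * v ^ 2 +
        (1 - c) * (1 - c * v - F - (1 - c ^ 2) * v ^ 2 / 5) -
        c * n * (v - E * (v - v ^ 3 / 6) - 2 / 5 * c * v ^ 2) -
        (1 - c) * τ * (v - E * (19 / 20 * (v - v ^ 3 / 6) - 1 / 5)) + c * n * z) =
        (1 - c + c ^ 2) * (3 / 5 * c ^ 2 * v ^ 2 +
        (1 - c) * (1 - c * v - F - (1 - c ^ 2) * v ^ 2 / 5) -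
        c * n * (v - E * (v - v ^ 3 / 6) - 2 / 5 * c * v ^ 2)) -
        (1 - c) * c ^ 2 * θ * (v - E * (19 / 20 * (v - v ^ 3 / 6) - 1 / 5)) +
        n * (1 - c) * c * θ := by
        linear_combination e0 + (1 - c) * (v - E * (19 / 20 * (v - v ^ 3 / 6) - 1 / 5)) * hθc
      rw [← e1] at hP
      exact nonneg_of_mul_nonneg_right hP hD
    obtain ⟨ex, hex⟩ : ∃ ex, ex = exp (-(c * v)) := ⟨_, rfl⟩
    rw [← hex] at A1 g3 P1 P2 B1 B2 B3 B4
    have key : 0 ≤ c * (Hc x (-n) (-z) (-τ) (-(c * v)) (-v) - 2 / 5 * Qf x (-n) * v ^ 2) := by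
      have e : c * (Hc x (-n) (-z) (-τ) (-(c * v)) (-v) - 2 / 5 * Qf x (-n) * v ^ 2) =
          c ^ 2 * v ^ 2 - v * (c ^ 2 * z) - c * n * v + c * n * z + (c * x) * (1 - c * v) -
            exp (-(c * v)) * ((c * x) * cos (v + τ) - c * n * sin (v + τ)) -
            2 / 5 * v ^ 2 * (c * Qf x (-n)) := by
        unfold Hc
        rw [hC, hS]
        ring
      rw [e, t2, k3, hq, ← hex]
      obtain ⟨a1, ha1⟩ : ∃ a1, a1 = ex * cos v := ⟨_, rfl⟩
      obtain ⟨a2, ha2⟩ : ∃ a2, a2 = ex * sin v := ⟨_, rfl⟩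
      have B5 : ex * ((1 - c) * cos v - (1 - c) * τ * (19 / 20 * sin v - 1 / 5) -
          c * n * sin v) = (1 - c) * a1 - (1 - c) * τ * (19 / 20 * a2 - 1 / 5 * ex) -
          c * n * a2 := by
        rw [ha1, ha2]
        ring
      have B6 : ex * (19 / 20 * sin v - 1 / 5) = 19 / 20 * a2 - 1 / 5 * ex := by
        rw [ha2]
        ring
      rw [B5] at B4
      rw [B6] at B3
      rw [← ha1] at B1
      rw [← ha2] at B2
      linarith
    have := nonneg_of_mul_nonneg_right key k1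
    linarith
  · have ha : pa x v = 1 := by
      rw [hpa]
      have e : v / (1 + x) = c * v := by rw [hc]; ring
      rw [e, min_eq_left hcs1]
    rw [ha]
    obtain ⟨b1, b2, b3⟩ := omr_cl (n := n) hx.le hn hc h1 hcs1
    have hs2 : 0 ≤ v ^ 2 := sq_nonneg v
    have hs3 : v ^ 2 ≤ 9 / 4 := by nlinarith
    have hQ1 : 2 / 5 * Qf x (-n) * v ^ 2 ≤ 2 / 5 * v ^ 2 - 7 / 45 * v ^ 2 * x -
        4 / 15 * v ^ 2 * n := by
      have h2 : Qf x (-n) ≤ 1 - 7 / 18 * x - 2 / 3 * n := by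
        linarith [mul_le_mul_of_nonneg_right b2 hn]
      have := mul_le_mul_of_nonneg_right h2 hs2
      linarith
    have he1 : exp (-1) ≤ 37 / 100 := by
      rw [exp_neg, inv_le_comm₀ (exp_pos _) (by norm_num)]
      have := exp_one_gt_d9
      linarith
    have he2 : 9 / 25 ≤ exp (-1) := by
      rw [exp_neg, le_inv_comm₀ (by norm_num) (exp_pos _)]
      have := exp_one_lt_d9
      linarith
    have he0 : 0 ≤ exp (-1) := (exp_pos _).le
    obtain ⟨C, hCC⟩ : ∃ C, C = 1 - v ^ 2 / 2 + v ^ 4 / 24 := ⟨_, rfl⟩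
    have hC0 : 0 ≤ C := by rw [hCC]; exact C4_nonneg hv0 h1
    have hcC : cos v ≤ C := by rw [hCC]; exact cos_le4 hv0
    have hcC2 : cos (v + τ) ≤ C := by
      have := mul_nonneg hτ s0
      linarith
    have hsn : 7 / 10 ≤ sin (v + τ) := by
      have h2 := sin_ge3 hv0
      have h3 : 5 / 6 ≤ v - v ^ 3 / 6 := by nlinarith [mul_nonneg (sub_nonneg.2 h0) (sub_nonneg.2 h1)]
      linarith
    have hzx : z ≤ 3 / 4 * x := by
      rw [h.zτ]
      have h2 : (1 + x) * τ ≤ 3 / 2 * (1 / 2) :=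
        mul_le_mul (by linarith) hτ1 hτ (by norm_num)
      have := mul_le_mul_of_nonneg_left h2 hx.le
      linarith
    have hnz : 0 ≤ n * z := mul_nonneg hn hz
    -- products with `exp (-1)`
    have m1 : exp (-1) * (x * cos (v + τ) - n * sin (v + τ)) ≤ 37 / 100 * (x * C) - 1 / 4 * n := by
      have e1 := mul_le_mul_of_nonneg_left hcC2 hx.le
      have e2 := mul_le_mul_of_nonneg_left hsn hn
      have e3 : exp (-1) * (x * cos (v + τ)) ≤ 37 / 100 * (x * C) :=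
        (mul_le_mul_of_nonneg_left e1 he0).trans
          (mul_le_mul_of_nonneg_right he1 (mul_nonneg hx.le hC0))
      have e4 : 9 / 25 * (n * (7 / 10)) ≤ exp (-1) * (n * sin (v + τ)) :=
        mul_le_mul he2 e2 (by positivity) he0
      have e5 : exp (-1) * (x * cos (v + τ) - n * sin (v + τ)) =
        exp (-1) * (x * cos (v + τ)) - exp (-1) * (n * sin (v + τ)) := by ring
      rw [e5]
      linarith
    have m2 : n * (v - 1 / 4 - 4 / 15 * v ^ 2) ≤ 4 / 5 * x * (v - 1 / 4 - 4 / 15 * v ^ 2) :=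
      mul_le_mul_of_nonneg_right hT (by nlinarith)
    have hP := aff (z0 := 0) (z1 := v - 1) (z := x) (A := v - 2 / 5 * v ^ 2)
      (B := -3 / 4 - 37 / 100 * (1 - v ^ 2 / 2 + v ^ 4 / 24) + 7 / 45 * v ^ 2 -
      4 / 5 * (v - 1 / 4 - 4 / 15 * v ^ 2))
      (by nlinarith) (pP4 h0 h1) hx.le b1
    rw [← hCC] at hP
    have e : Hc x (-n) (-z) (-τ) (-1) (-v) = v - z - n * v + n * z -
        exp (-1) * (x * cos (v + τ) - n * sin (v + τ)) := by
      unfold Hc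
      rw [hC, hS]
      ring
    rw [e]
    linarith

end SokalV3O
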