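import Pool.Agent.Lib_MP_af4de1_v3o.ODef

set_option autoImplicit false

namespace SokalV3O

open Real SokalF1G

private theorem hc_ha (x y z τ a s : ℝ) : Hc x y z τ a s = Ha x y a s + (z * (y - a) +
    exp a * (x * (cos s - cos (s + τ)) + y * (sin (s + τ) - sin s))) := by
  unfold Hc Ha
  ring

/-- core `|s| ≤ 1`, left side, `s ≥ 0` -/
theorem dLr {x y z τ k ψ s : ℝ} (h : ShL x y z τ k ψ) (h0 : 0 ≤ s) (h1 : s ≤ 1) :
    Ha x y (s / (1 + x)) s + 3 / 10 * (y * (z + τ)) - z / (6 * (1 + x)) * s ^ 2 ≤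
      Hc x y z τ (s / (1 + x)) s := by
  obtain ⟨x0, y0, y1, T, z0, τ0, zτ, ζ, τ1, k0, ψ0, ψ1, hx, hy⟩ := h
  have hx1 : 0 < 1 + x := by linarith
  have e1 : z * (s / (1 + x)) = x * τ * s := by
    rw [zτ]
    field_simp
  have e2 : z / (6 * (1 + x)) * s ^ 2 = x * τ * s ^ 2 / 6 := by
    rw [zτ]
    field_simp
  have he : 1 ≤ exp (s / (1 + x)) := by
    rw [one_le_exp_iff]
    positivity
  have hC : τ * s - τ * s ^ 2 / 6 ≤ cos s - cos (s + τ) := by
    have h2 := sin_ge3 h0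
    have h3 := sin_ge3 τ0
    have h4 := cos_ge2 (x := s)
    have h5 := cos_le4 τ0
    have h6 : cos s - cos (s + τ) = sin s * sin τ + cos s * (1 - cos τ) := by
      rw [cos_add]
      ring
    have hs2 : s ^ 2 ≤ 1 := by nlinarith
    have hτ2 : τ ^ 2 ≤ 1 / 4 := by nlinarith
    have h7 : 0 ≤ s - s ^ 3 / 6 := by nlinarith
    have h8 : 0 ≤ τ - τ ^ 3 / 6 := by nlinarith
    have h9 : (s - s ^ 3 / 6) * (τ - τ ^ 3 / 6) ≤ sin s * sin τ :=
      mul_le_mul h2 h3 h8 (h7.trans h2)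
    have h10 : 0 ≤ τ ^ 2 / 2 - τ ^ 4 / 24 := by nlinarith [sq_nonneg τ, sq_nonneg (τ ^ 2)]
    have h11 : 1 / 2 * (τ ^ 2 / 2 - τ ^ 4 / 24) ≤ cos s * (1 - cos τ) :=
      mul_le_mul (by linarith) (by linarith) h10 (by linarith)
    have h12 : 0 ≤ s ^ 2 * τ * (1 - s) := by
      have : 0 ≤ 1 - s := by linarith
      positivity
    have h13 : 0 ≤ s ^ 3 * τ ^ 3 := by positivity
    have h14 : 0 ≤ τ ^ 2 * (1 - τ * s) := by
      have : τ * s ≤ 1 := by nlinarith
      exact mul_nonneg (sq_nonneg _) (by linarith)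
    have h15 : 0 ≤ τ ^ 2 * (1 / 4 - τ ^ 2) := mul_nonneg (sq_nonneg _) (by linarith)
    have h16 : s * τ ^ 3 = τ ^ 2 * (τ * s) := by ring
    rw [h6]
    nlinarith
  have hS : 3 / 10 * τ ≤ sin (s + τ) - sin s := by
    have h2 : sin (s + τ) - sin s = 2 * sin (τ / 2) * cos (s + τ / 2) := by
      rw [sin_sub_sin]
      congr 3
      · ring
      · ring
    have h3 := sin_ge3 (x := τ / 2) (by linarith)
    have h4 : 31 / 100 ≤ cos (5 / 4) := by
      have := cos_ge6 (x := 5 / 4) (by norm_num)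
      norm_num at this ⊢
      linarith
    have h5 : cos (5 / 4) ≤ cos (s + τ / 2) := by
      apply cos_le_cos_of_nonneg_of_le_pi (by linarith) _ (by linarith)
      have := pi_gt_three
      linarith
    have hτ2 : τ ^ 2 ≤ 1 / 4 := by nlinarith
    have h6 : 98 / 200 * τ ≤ sin (τ / 2) := by nlinarith
    have h7 : 98 / 200 * τ * (31 / 100) ≤ sin (τ / 2) * cos (s + τ / 2) :=
      mul_le_mul h6 (by linarith) (by norm_num) (by linarith [mul_nonneg (by norm_num : (0:ℝ) ≤ 98/200) τ0])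
    rw [h2]
    linarith
  have hxC : x * (τ * s - τ * s ^ 2 / 6) ≤ x * (cos s - cos (s + τ)) :=
    mul_le_mul_of_nonneg_left hC x0.le
  have hyS : y * (3 / 10 * τ) ≤ y * (sin (s + τ) - sin s) := mul_le_mul_of_nonneg_left hS y0
  have hp1 : 0 ≤ x * (τ * s - τ * s ^ 2 / 6) := by
    have : 0 ≤ τ * s * (1 - s / 6) := by
      have : 0 ≤ 1 - s / 6 := by linarith
      positivity
    nlinarith
  have hp2 : 0 ≤ y * (3 / 10 * τ) := by positivity
  have hE : x * (cos s - cos (s + τ)) + y * (sin (s + τ) - sin s) ≤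
      exp (s / (1 + x)) * (x * (cos s - cos (s + τ)) + y * (sin (s + τ) - sin s)) :=
    le_mul_of_one_le_left (by linarith) he
  have hzy : 0 ≤ z * y := mul_nonneg z0 y0
  rw [hc_ha, e2, mul_sub, e1]
  nlinarith

/-- core, left side, `s = -v ≤ 0` -/
theorem dLl {x y z τ k ψ v : ℝ} (h : ShL x y z τ k ψ) (h0 : 0 ≤ v) (h1 : v ≤ 1) :
    Ha x y (-(v / (1 + x))) (-v) ≤ Hc x y z τ (-(v / (1 + x))) (-v) := by
  obtain ⟨x0, y0, y1, T, z0, τ0, zτ, ζ, τ1, k0, ψ0, ψ1, hx, hy⟩ := h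
  have hx1 : 0 < 1 + x := by linarith
  have e1 : z * -(v / (1 + x)) = -(x * τ * v) := by
    rw [zτ]
    field_simp
  have he : exp (-(v / (1 + x))) ≤ 1 := by
    rw [exp_le_one_iff]
    have : 0 ≤ v / (1 + x) := by positivity
    linarith
  have he0 := exp_pos (-(v / (1 + x)))
  have hC : -(τ * v) ≤ cos (-v) - cos (-v + τ) := by
    have h2 : cos (-v) - cos (-v + τ) = 2 * sin (τ / 2) * sin (τ / 2 - v) := by
      rw [cos_sub_cos]
      have e3 : (-v + (-v + τ)) / 2 = τ / 2 - v := by ring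
      have e4 : (-v - (-v + τ)) / 2 = -(τ / 2) := by ring
      rw [e3, e4, sin_neg]
      ring
    have h3 : sin (τ / 2) ≤ τ / 2 := sin_le (by linarith)
    have hpi := pi_gt_three
    have h4 : 0 ≤ sin (τ / 2) := sin_nonneg_of_nonneg_of_le_pi (by linarith) (by linarith)
    rw [h2]
    rcases le_total v (τ / 2) with h5 | h5
    · have h6 : 0 ≤ sin (τ / 2 - v) := sin_nonneg_of_nonneg_of_le_pi (by linarith) (by linarith)
      have h7 : 0 ≤ sin (τ / 2) * sin (τ / 2 - v) := mul_nonneg h4 h6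
      have h8 : 0 ≤ τ * v := mul_nonneg τ0 h0
      linarith
    · have h6 : sin (v - τ / 2) ≤ v - τ / 2 := sin_le (by linarith)
      have h7 : sin (τ / 2 - v) = -sin (v - τ / 2) := by
        rw [← sin_neg]
        congr 1
        ring
      have h8 : 0 ≤ sin (v - τ / 2) := sin_nonneg_of_nonneg_of_le_pi (by linarith) (by linarith)
      have h9 : sin (τ / 2) * sin (v - τ / 2) ≤ τ / 2 * v :=
        mul_le_mul h3 (by linarith) h8 (by linarith)
      rw [h7]
      linarith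
  have hS : 0 ≤ sin (-v + τ) - sin (-v) := by
    have h2 : sin (-v + τ) - sin (-v) = 2 * sin (τ / 2) * cos (τ / 2 - v) := by
      rw [sin_sub_sin]
      congr 3
      · ring
      · ring
    have hpi := pi_gt_three
    have h4 : 0 ≤ sin (τ / 2) := sin_nonneg_of_nonneg_of_le_pi (by linarith) (by linarith)
    have h5 : 0 ≤ cos (τ / 2 - v) := cos_nonneg_of_neg_pi_div_two_le_of_le (by linarith) (by linarith)
    rw [h2]
    positivity
  have h8 : 0 ≤ τ * v := mul_nonneg τ0 h0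
  have hE : -(τ * v) ≤ exp (-(v / (1 + x))) * (cos (-v) - cos (-v + τ)) := by
    rcases le_total 0 (cos (-v) - cos (-v + τ)) with h9 | h9
    · have := mul_nonneg he0.le h9
      linarith
    · nlinarith
  have hxE : -(x * τ * v) ≤ exp (-(v / (1 + x))) * (x * (cos (-v) - cos (-v + τ))) := by
    have := mul_le_mul_of_nonneg_left hE x0.le
    nlinarith
  have hyE : 0 ≤ exp (-(v / (1 + x))) * (y * (sin (-v + τ) - sin (-v))) :=
    mul_nonneg he0.le (mul_nonneg y0 hS)
  have hzy : 0 ≤ z * y := mul_nonneg z0 y0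
  rw [hc_ha, mul_sub, e1, mul_add]
  linarith

end SokalV3O
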