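import Pool.Agent.Lib_MP_af4de1_v3o.OWt
import Pool.Agent.Lib_MP_af4de1_v3o.ODL

set_option autoImplicit false

open Real SokalF1G

namespace SokalV3O

/-- core, left side, `s ≥ 0`: `t = 1 - 11/10 z/(6 (1+x) Q)`, `w = 3/10 y (z+τ)/δ` -/
theorem shLr {x y z τ k ψ ρ r δ : ℝ} (h : FL x y z τ k ψ ρ r δ) :
    ∃ t w : ℝ, 0 < t ∧ t ≤ 1 ∧ 0 ≤ w ∧ exp (-w) ≤ t * √t ∧ ∀ s : ℝ, 0 ≤ s → s ≤ 1 →
      w + t * (10 / 11 * (Qf x y / δ) * s ^ 2) ≤ Hc x y z τ (s / (1 + x)) s / δ := by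
  have hsh := h.sh
  obtain ⟨x0, y0, y1, T, z0, τ0, zτ, ζ, τ1, k0, ψ0, ψ1, hx, hy⟩ := h.sh
  have hx1 : 0 < 1 + x := by linarith
  have hρ : 0 < ρ := by
    rw [h.rho]
    exact mul_pos k0 (exp_pos _)
  have hr : 0 < r := by linarith [h.r0]
  have hδ : 0 < δ := by
    rw [h.del]
    exact div_pos hρ hr
  -- the coefficient `Q`
  obtain ⟨Q, hQ⟩ : ∃ Q, Q = Qf x y := ⟨_, rfl⟩
  have hQc : 1 / (1 + x) ≤ Q := by
    have h1 : (1 / (1 + x)) ^ 2 ≤ 1 := by
      have h2 : 1 / (1 + x) ≤ 1 := by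
        rw [div_le_one hx1]
        linarith
      have h3 : 0 ≤ 1 / (1 + x) := by positivity
      exact pow_le_one₀ h3 h2
    have h4 : 0 ≤ x * (1 - (1 / (1 + x)) ^ 2) / 2 := by
      have : 0 ≤ 1 - (1 / (1 + x)) ^ 2 := by linarith
      positivity
    have h5 : 1 / (1 + x) ≤ (1 + y) / (1 + x) := by
      gcongr
      linarith
    rw [hQ]
    unfold Qf
    linarith
  have hQ0 : 0 < Q := lt_of_lt_of_le (by positivity) hQc
  have hQ1 : 1 ≤ Q * (1 + x) := by
    rwa [div_le_iff₀ hx1] at hQc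
  -- `u`
  obtain ⟨u, hu⟩ : ∃ u, u = 11 * (x * τ) / (60 * Q) := ⟨_, rfl⟩
  have hu0 : 0 ≤ u := by
    rw [hu]
    positivity
  have huQ : u * (60 * Q) = 11 * (x * τ) := by
    rw [hu]
    field_simp
  have hζ : τ * (1 + x + x ^ 2) ≤ 21 / 25 := by
    have e : τ * (1 + x + x ^ 2) = z + τ := by
      rw [zτ]
      ring
    rw [e]
    exact ζ
  -- `x τ ≤ 21/25 Q`
  have hxτ : x * τ ≤ 21 / 25 * Q := by
    have h1 : x * τ * (1 + x) ≤ 21 / 25 := by nlinarith
    have h2 : x * τ * (1 + x) ≤ 21 / 25 * (Q * (1 + x)) := by linarith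
    have h3 : x * τ * (1 + x) ≤ 21 / 25 * Q * (1 + x) := by linarith
    exact le_of_mul_le_mul_right h3 hx1
  have hu1 : u ≤ 77 / 500 := by
    rw [hu, div_le_iff₀ (by positivity)]
    linarith
  -- the second inequality
  obtain ⟨w, hw⟩ : ∃ w, w = 3 / 10 * (y * (z + τ)) / δ := ⟨_, rfl⟩
  have hw1 : 3 / 8 * (z + τ) ≤ w := by
    rw [hw, le_div_iff₀ hδ]
    have h1 := mul_le_mul_of_nonneg_right h.w1 (by linarith : 0 ≤ z + τ)
    linarith
  have hw0 : 0 ≤ w := by
    have : 0 ≤ z + τ := by linarith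
    linarith
  have hwu : 2 * u ≤ w := by
    refine le_trans ?_ hw1
    rw [hu, ← mul_div_assoc, div_le_iff₀ (by positivity)]
    have h1 : x * τ ≤ z + τ := by
      have e : z + τ - x * τ = τ * (1 + x ^ 2) := by
        rw [zτ]
        ring
      have : 0 ≤ τ * (1 + x ^ 2) := by positivity
      linarith
    have e : z + τ = τ * (1 + x + x ^ 2) := by
      rw [zτ]
      ring
    -- `22 x τ ≤ 45/2 Q (z+τ)`
    have h2 : x * τ ≤ (z + τ) * Q := by
      have h3 : x * (1 + x) * τ ≤ (z + τ) * (Q * (1 + x)) := by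
        have h4 : (z + τ) * 1 ≤ (z + τ) * (Q * (1 + x)) :=
          mul_le_mul_of_nonneg_left hQ1 (by linarith)
        have h5 : x * (1 + x) * τ ≤ z + τ := by rw [← zτ]; linarith
        linarith
      have h6 : x * τ * (1 + x) ≤ (z + τ) * Q * (1 + x) := by linarith
      exact le_of_mul_le_mul_right h6 hx1
    have h7 : 0 ≤ (z + τ) * Q := by
      have : 0 ≤ z + τ := by linarith
      positivity
    linarith
  have ht0 : 0 < 1 - u := by linarith
  refine ⟨1 - u, w, ht0, by linarith, hw0, ?_, ?_⟩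
  · have h1 : exp (-(u / (1 - u))) ≤ 1 - u := by
      rw [exp_neg, inv_le_comm₀ (exp_pos _) ht0]
      have h2 := add_one_le_exp (u / (1 - u))
      have e : (1 - u)⁻¹ = u / (1 - u) + 1 := by
        field_simp
        ring
      rw [e]
      exact h2
    have h3 : exp (-(u / (1 - u)) / 2) ≤ √(1 - u) := by
      rw [exp_half]
      exact sqrt_le_sqrt h1
    have h4 : exp (-w) ≤ exp (-(u / (1 - u))) * exp (-(u / (1 - u)) / 2) := by
      rw [← exp_add]
      apply exp_le_exp.2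
      have h5 : u / (1 - u) ≤ 4 / 3 * u := by
        rw [div_le_iff₀ ht0]
        nlinarith
      linarith
    exact h4.trans (mul_le_mul h1 h3 (exp_pos _).le ht0.le)
  · intro s h0 h1
    have hD := dLr hsh h0 h1
    have hG : DomG x y := by
      refine ⟨x0.le, by linarith, by linarith, ?_⟩
      nlinarith
    have hg := G1_pos hG y0 h0 h1
    obtain ⟨k1, k2, k3⟩ := c_facts x0.le
    have e0 : Hf x y s = Ha x y (s / (1 + x)) s := by
      unfold Hf
      have e1 : 1 / (1 + x) * s = s / (1 + x) := by ring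
      have h3 : 1 / (1 + x) * s ≤ 1 := mul_le_one₀ k2 h0 h1
      have h4 : 0 ≤ 1 / (1 + x) * s := mul_nonneg k1.le h0
      rw [ga_mid rfl (by linarith) h3, e1]
    rw [e0, ← hQ] at hg
    have h5 : 10 / 11 * (Q * s ^ 2) ≤ (1 - s ^ 2 / 11) * Q * s ^ 2 := by
      have h6 : s ^ 2 ≤ 1 := pow_le_one₀ h0 h1
      have h7 : 0 ≤ (1 - s ^ 2) * (Q * s ^ 2) := by
        have : 0 ≤ 1 - s ^ 2 := by linarith
        positivity
      linarith
    have h8 : u * (10 / 11 * (Q * s ^ 2)) = z / (6 * (1 + x)) * s ^ 2 := by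
      have e2 : z / (6 * (1 + x)) = x * τ / 6 := by
        rw [zτ]
        field_simp
      rw [e2]
      linear_combination (s ^ 2 / 66) * huQ
    rw [← hQ, le_div_iff₀ hδ]
    have e3 : (w + (1 - u) * (10 / 11 * (Q / δ) * s ^ 2)) * δ =
        w * δ + (1 - u) * (10 / 11 * (Q * s ^ 2)) := by
      field_simp
    have e4 : w * δ = 3 / 10 * (y * (z + τ)) := by
      rw [hw]
      field_simp
    rw [e3, e4]
    linarith

end SokalV3O
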