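import Pool.Agent.Lib_MP_af4de1_v3o.ODef

set_option autoImplicit false

namespace SokalV3O

open Real SokalF1G

private theorem hc_haR (x n z τ a s : ℝ) : Hc x (-n) (-z) (-τ) a s = Ha x (-n) a s + (z * (a + n) +
    exp a * (x * (cos s - cos (s - τ)) + n * (sin s - sin (s - τ)))) := by
  unfold Hc Ha
  rw [← sub_eq_add_neg s τ]
  ring

private theorem cosR {τ s : ℝ} (τ0 : 0 ≤ τ) (τ1 : τ ≤ 1 / 2) (h0 : 0 ≤ s) (h1 : s ≤ 1) :
    τ * s - τ * s ^ 2 / 6 ≤ cos s - cos (s + τ) := by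
  have h2 := sin_ge3 h0
  have h3 := sin_ge3 τ0
  have h4 := cos_ge2 (x := s)
  have h5 := cos_le4 τ0
  have h6 : cos s - cos (s + τ) = sin s * sin τ + cos s * (1 - cos τ) := by
    rw [cos_add]
    ring
  have hs2 : s ^ 2 ≤ 1 := by nlinarith
  have hτ2 : τ ^ 2 ≤ 1 / 4 := by nlinarith
  have h7 : 0 ≤ s - s ^ 3 / 6 := by nlinarith
  have h8 : 0 ≤ τ - τ ^ 3 / 6 := by nlinarith
  have h9 : (s - s ^ 3 / 6) * (τ - τ ^ 3 / 6) ≤ sin s * sin τ :=
    mul_le_mul h2 h3 h8 (h7.trans h2)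
  have h10 : 0 ≤ τ ^ 2 / 2 - τ ^ 4 / 24 := by nlinarith [sq_nonneg τ, sq_nonneg (τ ^ 2)]
  have h11 : 1 / 2 * (τ ^ 2 / 2 - τ ^ 4 / 24) ≤ cos s * (1 - cos τ) :=
    mul_le_mul (by linarith) (by linarith) h10 (by linarith)
  have h12 : 0 ≤ s ^ 2 * τ * (1 - s) := by
    have : 0 ≤ 1 - s := by linarith
    positivity
  have h13 : 0 ≤ s ^ 3 * τ ^ 3 := by positivity
  have h14 : 0 ≤ τ ^ 2 * (1 - τ * s) := by
    have : τ * s ≤ 1 := by nlinarith
    exact mul_nonneg (sq_nonneg _) (by linarith)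
  have h15 : 0 ≤ τ ^ 2 * (1 / 4 - τ ^ 2) := mul_nonneg (sq_nonneg _) (by linarith)
  have h16 : s * τ ^ 3 = τ ^ 2 * (τ * s) := by ring
  rw [h6]
  nlinarith

/-- `e^(c s) - 1 ≤ (e^c - 1) s` -/
private theorem exp_chord {c s : ℝ} (h0 : 0 ≤ s) (h1 : s ≤ 1) :
    exp (s * c) - 1 ≤ (exp c - 1) * s := by
  have h := convexOn_exp.2 (Set.mem_univ (0 : ℝ)) (Set.mem_univ c)
    (show 0 ≤ 1 - s by linarith) h0 (by ring)
  simp only [smul_eq_mul, mul_zero, zero_add, exp_zero, mul_one] at h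
  linarith

/-- core `|s| ≤ 1`, right side, `s ≥ 0` -/
theorem dRr {x n z τ k ψ s : ℝ} (h : ShR x n z τ k ψ) (h0 : 0 ≤ s) (h1 : s ≤ 1) :
    Ha x (-n) (s / (1 + x)) s + n * (z + τ / 2) -
      1 / (1 + x) * (exp (1 / (1 + x)) - 1) * z * s ^ 2 ≤ Hc x (-n) (-z) (-τ) (s / (1 + x)) s := by
  obtain ⟨x0, y0, y1, T, z0, τ0, zτ, ζ, τ1, k0, ψ0, ψ1, hx, hy⟩ := h
  have hx1 : 0 < 1 + x := by linarith
  have e1 : z * (s / (1 + x)) = x * τ * s := by
    rw [zτ]
    field_simp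
  have e2 : 1 / (1 + x) * (exp (1 / (1 + x)) - 1) * z * s ^ 2 =
      x * τ * s * ((exp (1 / (1 + x)) - 1) * s) := by
    rw [zτ]
    field_simp
  have he : 1 ≤ exp (s / (1 + x)) := by
    rw [one_le_exp_iff]
    positivity
  have hch : exp (s / (1 + x)) - 1 ≤ (exp (1 / (1 + x)) - 1) * s := by
    have h2 := exp_chord (c := 1 / (1 + x)) h0 h1
    rwa [mul_one_div] at h2
  have hpi := pi_gt_three
  have hs2 : 0 ≤ sin (τ / 2) := sin_nonneg_of_nonneg_of_le_pi (by linarith) (by linarith)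
  have hs3 : sin (τ / 2) ≤ τ / 2 := sin_le (by linarith)
  have hC : -(τ * s) ≤ cos s - cos (s - τ) := by
    have h2 : cos s - cos (s - τ) = -(2 * sin (s - τ / 2) * sin (τ / 2)) := by
      rw [cos_sub_cos]
      have e3 : (s + (s - τ)) / 2 = s - τ / 2 := by ring
      have e4 : (s - (s - τ)) / 2 = τ / 2 := by ring
      rw [e3, e4]
      ring
    rw [h2]
    rcases le_total s (τ / 2) with h5 | h5
    · have h6 : 0 ≤ sin (τ / 2 - s) := sin_nonneg_of_nonneg_of_le_pi (by linarith) (by linarith)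
      have h7 : sin (s - τ / 2) = -sin (τ / 2 - s) := by
        rw [← sin_neg]
        congr 1
        ring
      have h8 : 0 ≤ sin (τ / 2 - s) * sin (τ / 2) := mul_nonneg h6 hs2
      have h9 : 0 ≤ τ * s := mul_nonneg τ0 h0
      rw [h7]
      linarith
    · have h6 : sin (s - τ / 2) ≤ s - τ / 2 := sin_le (by linarith)
      have h7 : 0 ≤ sin (s - τ / 2) := sin_nonneg_of_nonneg_of_le_pi (by linarith) (by linarith)
      have h9 : sin (s - τ / 2) * sin (τ / 2) ≤ s * (τ / 2) :=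
        mul_le_mul (by linarith) hs3 hs2 h0
      linarith
  have hS : 1 / 2 * τ ≤ sin s - sin (s - τ) := by
    have h2 : sin s - sin (s - τ) = 2 * sin (τ / 2) * cos (s - τ / 2) := by
      rw [sin_sub_sin]
      congr 3
      · ring
      · ring
    have h3 := sin_ge3 (x := τ / 2) (by linarith)
    have h4 : 54 / 100 ≤ cos 1 := by
      have := cos_ge6 (x := 1) (by norm_num)
      norm_num at this ⊢
      linarith
    have h5 : cos 1 ≤ cos (s - τ / 2) := by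
      rw [← cos_abs (s - τ / 2)]
      apply cos_le_cos_of_nonneg_of_le_pi (abs_nonneg _) (by linarith)
      rw [abs_le]
      constructor <;> linarith
    have hτ2 : τ ^ 2 ≤ 1 / 4 := by nlinarith
    have h6 : 98 / 200 * τ ≤ sin (τ / 2) := by nlinarith
    have h7 : 98 / 200 * τ * (54 / 100) ≤ sin (τ / 2) * cos (s - τ / 2) :=
      mul_le_mul h6 (by linarith) (by norm_num) hs2
    rw [h2]
    linarith
  have hxE : -(x * τ * s) * exp (s / (1 + x)) ≤
      exp (s / (1 + x)) * (x * (cos s - cos (s - τ))) := by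
    have h2 := mul_le_mul_of_nonneg_left hC x0.le
    have h3 := mul_le_mul_of_nonneg_left h2 (exp_pos (s / (1 + x))).le
    refine le_trans (le_of_eq ?_) h3
    ring
  have hyS : n * (1 / 2 * τ) ≤ n * (sin s - sin (s - τ)) := mul_le_mul_of_nonneg_left hS y0
  have hp2 : 0 ≤ n * (1 / 2 * τ) := by positivity
  have hyE : n * (sin s - sin (s - τ)) ≤ exp (s / (1 + x)) * (n * (sin s - sin (s - τ))) :=
    le_mul_of_one_le_left (by linarith) he
  have hk : x * τ * s * (exp (s / (1 + x)) - 1) ≤ x * τ * s * ((exp (1 / (1 + x)) - 1) * s) :=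
    mul_le_mul_of_nonneg_left hch (by positivity)
  rw [hc_haR, e2, mul_add z, e1, mul_add (exp (s / (1 + x)))]
  linarith

/-- core, right side, `s = -v ≤ 0` -/
theorem dRl {x n z τ k ψ v : ℝ} (h : ShR x n z τ k ψ) (h0 : 0 ≤ v) (h1 : v ≤ 1) :
    Ha x (-n) (-(v / (1 + x))) (-v) + n * z -
      ((1 / (1 + x)) ^ 2 + 1 / (6 * (1 + x))) * z * v ^ 2 ≤
      Hc x (-n) (-z) (-τ) (-(v / (1 + x))) (-v) := by
  obtain ⟨x0, y0, y1, T, z0, τ0, zτ, ζ, τ1, k0, ψ0, ψ1, hx, hy⟩ := h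
  have hx1 : 0 < 1 + x := by linarith
  have e1 : z * -(v / (1 + x)) = -(x * τ * v) := by
    rw [zτ]
    field_simp
  have e2 : ((1 / (1 + x)) ^ 2 + 1 / (6 * (1 + x))) * z * v ^ 2 =
      x * τ * v * (v / (1 + x)) + x * τ * v ^ 2 / 6 := by
    rw [zτ]
    field_simp
  have he := add_one_le_exp (-(v / (1 + x)))
  have he0 := exp_pos (-(v / (1 + x)))
  have hw : 0 ≤ v / (1 + x) := by positivity
  have hpi := pi_gt_three
  have hC := cosR τ0 τ1 h0 h1
  have eC : cos (-v) - cos (-v - τ) = cos v - cos (v + τ) := by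
    rw [cos_neg, show -v - τ = -(v + τ) by ring, cos_neg]
  have eS : sin (-v) - sin (-v - τ) = 2 * sin (τ / 2) * cos (v + τ / 2) := by
    rw [sin_neg, show -v - τ = -(v + τ) by ring, sin_neg]
    have h2 : sin (v + τ) - sin v = 2 * sin (τ / 2) * cos (v + τ / 2) := by
      rw [sin_sub_sin]
      congr 3
      · ring
      · ring
    linarith
  have hS : 0 ≤ sin (-v) - sin (-v - τ) := by
    have h4 : 0 ≤ sin (τ / 2) := sin_nonneg_of_nonneg_of_le_pi (by linarith) (by linarith)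
    have h5 : 0 ≤ cos (v + τ / 2) := cos_nonneg_of_neg_pi_div_two_le_of_le (by linarith) (by linarith)
    rw [eS]
    positivity
  have hp : 0 ≤ τ * v - τ * v ^ 2 / 6 := by
    have h2 : 0 ≤ τ * v * (1 - v / 6) := by
      have : 0 ≤ 1 - v / 6 := by linarith
      positivity
    nlinarith
  have hxC : x * (τ * v - τ * v ^ 2 / 6) ≤ x * (cos v - cos (v + τ)) :=
    mul_le_mul_of_nonneg_left hC x0.le
  have hxE : (1 - v / (1 + x)) * (x * (τ * v - τ * v ^ 2 / 6)) ≤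
      exp (-(v / (1 + x))) * (x * (cos v - cos (v + τ))) := by
    have h2 : exp (-(v / (1 + x))) * (x * (τ * v - τ * v ^ 2 / 6)) ≤
        exp (-(v / (1 + x))) * (x * (cos v - cos (v + τ))) := mul_le_mul_of_nonneg_left hxC he0.le
    have h3 : (1 - v / (1 + x)) * (x * (τ * v - τ * v ^ 2 / 6)) ≤
        exp (-(v / (1 + x))) * (x * (τ * v - τ * v ^ 2 / 6)) :=
      mul_le_mul_of_nonneg_right (by linarith) (mul_nonneg x0.le hp)
    exact h3.trans h2
  have hyE : 0 ≤ exp (-(v / (1 + x))) * (n * (sin (-v) - sin (-v - τ))) :=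
    mul_nonneg he0.le (mul_nonneg y0 hS)
  have h6 : 0 ≤ v / (1 + x) * (x * (τ * v ^ 2 / 6)) := by positivity
  have e5 : (1 - v / (1 + x)) * (x * (τ * v - τ * v ^ 2 / 6)) = x * τ * v - x * τ * v ^ 2 / 6 -
      x * τ * v * (v / (1 + x)) + v / (1 + x) * (x * (τ * v ^ 2 / 6)) := by ring
  rw [hc_haR, e2, mul_add z, e1, mul_add (exp (-(v / (1 + x)))), eC]
  linarith

end SokalV3O
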