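import Pool.Agent.Lib_MP_af4de1_v3o.OWt
import Pool.Agent.Lib_MP_af4de1_v3o.ODR

set_option autoImplicit false

open Real SokalF1G

namespace SokalV3O

private theorem or_log {v w : ℝ} (hv0 : 0 < v) (hv1 : v ≤ 1) (h : 3 / 4 * ((1 - v ^ 2) / v) ≤ w) :
    Real.exp (-w) ≤ v * √v := by
  have hL : Real.log v ≤ 0 := Real.log_nonpos hv0.le hv1
  have e1 : Real.exp (Real.log v) = v := Real.exp_log hv0
  have h1 : -Real.log v ≤ Real.sinh (-Real.log v) := Real.self_le_sinh_iff.2 (by linarith)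
  rw [Real.sinh_eq, neg_neg, Real.exp_neg, e1] at h1
  have h2 : (1 - v ^ 2) / v = v⁻¹ - v := by
    field_simp
  rw [h2] at h
  have h3 : v * √v = Real.exp (3 / 2 * Real.log v) := by
    have h4 : √v = Real.exp (Real.log v / 2) := by
      rw [Real.exp_half, e1]
    rw [h4]
    nth_rewrite 1 [← e1]
    rw [← Real.exp_add]
    congr 1
    ring
  rw [h3, Real.exp_le_exp]
  linarith

private theorem or_u77 {x n z τ : ℝ} (x0 : 0 < x) (y1 : n ≤ 53 / 100)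
    (T : n ≤ 4 / 5 * x) (zτ : z = x * (1 + x) * τ) (ζ : z + τ ≤ 21 / 25) :
    z * (1 + x + x ^ 2) ≤ 21 / 25 * (x * (1 + x)) ∧
    50 * (7 + x) * z ≤ 77 / 100 * (81 * (2 * (1 - n) * (1 + x) + x ^ 3 + 2 * x ^ 2)) := by
  have h1 : τ * (1 + x + x ^ 2) ≤ 21 / 25 := by
    have : z + τ = τ * (1 + x + x ^ 2) := by
      rw [zτ]
      ring
    linarith
  have h2 : z * (1 + x + x ^ 2) ≤ 21 / 25 * (x * (1 + x)) := by
    have h3 := mul_le_mul_of_nonneg_left h1 (show 0 ≤ x * (1 + x) by positivity)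
    rw [zτ]
    linarith
  refine ⟨h2, ?_⟩
  have hq : 0 < 1 + x + x ^ 2 := by positivity
  have h3 : 42 * ((7 + x) * (x * (1 + x))) ≤ 6237 / 100 * ((1 + x + x ^ 2) *
      (2 * (1 - n) * (1 + x) + x ^ 3 + 2 * x ^ 2)) := by
    rcases le_total x (53 / 80) with hx | hx
    · have hP : 2 + 2 / 5 * x + 2 / 5 * x ^ 2 + x ^ 3 ≤
          2 * (1 - n) * (1 + x) + x ^ 3 + 2 * x ^ 2 := by
        have := mul_nonneg (show 0 ≤ 4 / 5 * x - n by linarith) (show 0 ≤ 1 + x by linarith)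
        nlinarith
      have h4 := mul_le_mul_of_nonneg_left hP hq.le
      have h5 : 0 ≤ 6237 / 100 * ((1 + x + x ^ 2) * (2 + 2 / 5 * x + 2 / 5 * x ^ 2 + x ^ 3)) -
          42 * ((7 + x) * (x * (1 + x))) := by
        have q : 0 ≤ 53 / 80 - x := by linarith
        have e : 6237 / 100 * ((1 + x + x ^ 2) * (2 + 2 / 5 * x + 2 / 5 * x ^ 2 + x ^ 3)) -
            42 * ((7 + x) * (x * (1 + x))) =
            (408748032000 / 418195493) * (x ^ 0 * (53 / 80 - x) ^ 5) +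
            (1730456125440 / 418195493) * (x ^ 1 * (53 / 80 - x) ^ 4) +
            (2602269186048 / 418195493) * (x ^ 2 * (53 / 80 - x) ^ 3) +
            (7892507348544 / 2090977465) * (x ^ 3 * (53 / 80 - x) ^ 2) +
            (7084955115756 / 10454887325) * (x ^ 4 * (53 / 80 - x) ^ 1) +
            (230813608557 / 8363909860) * (x ^ 5 * (53 / 80 - x) ^ 0) := by
          ring
        rw [e]
        positivity
      linarith
    · have hP : 47 / 50 + 47 / 50 * x + 2 * x ^ 2 + x ^ 3 ≤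
          2 * (1 - n) * (1 + x) + x ^ 3 + 2 * x ^ 2 := by
        have := mul_nonneg (show 0 ≤ 53 / 100 - n by linarith) (show 0 ≤ 1 + x by linarith)
        nlinarith
      have h4 := mul_le_mul_of_nonneg_left hP hq.le
      have h5 : 0 ≤ 6237 / 100 * ((1 + x + x ^ 2) * (47 / 50 + 47 / 50 * x + 2 * x ^ 2 + x ^ 3)) -
          42 * ((7 + x) * (x * (1 + x))) := by
        have q : 0 ≤ x - 53 / 80 := by linarith
        have e : 6237 / 100 * ((1 + x + x ^ 2) * (47 / 50 + 47 / 50 * x + 2 * x ^ 2 + x ^ 3)) -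
            42 * ((7 + x) * (x * (1 + x))) =
            (230813608557 / 65536000000) * (x - 53 / 80) ^ 0 +
            (1002157924929 / 4096000000) * (x - 53 / 80) ^ 1 +
            (25216603629 / 25600000) * (x - 53 / 80) ^ 2 +
            (311464041 / 320000) * (x - 53 / 80) ^ 3 +
            (629937 / 1600) * (x - 53 / 80) ^ 4 +
            (6237 / 100) * (x - 53 / 80) ^ 5 := by
          ring
        rw [e]
        positivity
      linarith
  have h4 : 50 * (7 + x) * z * (1 + x + x ^ 2) ≤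
      77 / 100 * (81 * (2 * (1 - n) * (1 + x) + x ^ 3 + 2 * x ^ 2)) * (1 + x + x ^ 2) := by
    have h5 := mul_le_mul_of_nonneg_left h2 (show 0 ≤ 50 * (7 + x) by positivity)
    linarith
  exact le_of_mul_le_mul_right h4 hq

private theorem or_A {x n z : ℝ} (x0 : 0 < x) (n1 : n ≤ 1 / 10)
    (h2 : z * (1 + x + x ^ 2) ≤ 21 / 25 * (x * (1 + x)))
    (h77 : 50 * (7 + x) * z ≤ 77 / 100 * (81 * (2 * (1 - n) * (1 + x) + x ^ 3 + 2 * x ^ 2))) :
    3 * (50 * (7 + x)) * (2 * (81 * (2 * (1 - n) * (1 + x) + x ^ 3 + 2 * x ^ 2)) -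
      50 * (7 + x) * z) ≤ 16 * (81 * (2 * (1 - n) * (1 + x) + x ^ 3 + 2 * x ^ 2)) *
      (81 * (2 * (1 - n) * (1 + x) + x ^ 3 + 2 * x ^ 2) - 50 * (7 + x) * z) := by
  have hq : 0 < 1 + x + x ^ 2 := by positivity
  obtain ⟨A, hA⟩ : ∃ A, A = 50 * (7 + x) := ⟨_, rfl⟩
  obtain ⟨B, hB⟩ : ∃ B, B = 81 * (2 * (1 - n) * (1 + x) + x ^ 3 + 2 * x ^ 2) := ⟨_, rfl⟩
  obtain ⟨B1, hB1⟩ : ∃ B1, B1 = 81 * (9 / 5 + 9 / 5 * x + 2 * x ^ 2 + x ^ 3) := ⟨_, rfl⟩
  rw [← hA, ← hB] at h77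
  rw [← hA, ← hB]
  have hBB : B1 ≤ B := by
    rw [hB, hB1]
    have := mul_nonneg (show 0 ≤ 1 / 10 - n by linarith) (show 0 ≤ 1 + x by linarith)
    nlinarith
  have hx2 : 0 ≤ x ^ 2 := by positivity
  have hx3 : 0 ≤ x ^ 3 := by positivity
  have hA0 : 0 < A := by rw [hA]; positivity
  have hB10 : 0 < B1 := by rw [hB1]; positivity
  have hAB : 6 * A ≤ 16 * B1 := by
    rw [hA, hB1]
    nlinarith
  have hAB2 : 3 * A ≤ 16 * B1 := by linarith
  have h3 : 0 ≤ (B - B1) * (16 * (B + B1) - 16 * (A * z) - 6 * A) :=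
    mul_nonneg (by linarith) (by linarith)
  have h4 : 0 ≤ (16 * B1 ^ 2 - 6 * (A * B1)) * (1 + x + x ^ 2) -
      (16 * (A * B1) - 3 * A ^ 2) * (21 / 25 * (x * (1 + x))) := by
    rw [hA, hB1]
    have h5 : 0 ≤ 33000 - 12876480 / 1000 * x + 3512 * x ^ 2 := by nlinarith [sq_nonneg (x - 1)]
    have e : (16 * (81 * (9 / 5 + 9 / 5 * x + 2 * x ^ 2 + x ^ 3)) ^ 2 - 6 * (50 * (7 + x) *
        (81 * (9 / 5 + 9 / 5 * x + 2 * x ^ 2 + x ^ 3)))) * (1 + x + x ^ 2) -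
        (16 * (50 * (7 + x) * (81 * (9 / 5 + 9 / 5 * x + 2 * x ^ 2 + x ^ 3))) -
          3 * (50 * (7 + x)) ^ 2) * (21 / 25 * (x * (1 + x))) =
        (848556 / 25) * x ^ 0 + (-321912 / 25) * x ^ 1 + (87804 / 25) * x ^ 2 + (10200708 / 25) * x ^ 3 + (26423856 / 25) * x ^ 4 + (7820712 / 5) * x ^ 5 + (6219828 / 5) * x ^ 6 + 524880 * x ^ 7 + 104976 * x ^ 8 := by ring
    rw [e]
    have p3 := pow_nonneg x0.le 3
    have p4 := pow_nonneg x0.le 4
    have p5 := pow_nonneg x0.le 5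
    have p6 := pow_nonneg x0.le 6
    have p7 := pow_nonneg x0.le 7
    have p8 := pow_nonneg x0.le 8
    linarith
  have h5 : (16 * (A * B1) - 3 * A ^ 2) * (z * (1 + x + x ^ 2)) ≤
      (16 * (A * B1) - 3 * A ^ 2) * (21 / 25 * (x * (1 + x))) := by
    apply mul_le_mul_of_nonneg_left h2
    have : 0 ≤ A * (16 * B1 - 3 * A) := mul_nonneg hA0.le (by linarith)
    linarith
  have h6 : 0 ≤ (16 * B1 ^ 2 - 6 * (A * B1) - (16 * (A * B1) - 3 * A ^ 2) * z) *
      (1 + x + x ^ 2) := by linarith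
  have h7 : 0 ≤ 16 * B1 ^ 2 - 6 * (A * B1) - (16 * (A * B1) - 3 * A ^ 2) * z :=
    nonneg_of_mul_nonneg_left h6 hq
  linarith

private theorem or_B {x n ρ : ℝ} (x0 : 0 < x) (y0 : 0 ≤ n) (y1 : n ≤ 53 / 100)
    (T : n ≤ 4 / 5 * x) (hρ : ρ ≤ x + 2 / 5 * n - 147 / 200 * (x * n)) :
    (7 + x) * ρ ≤ 2 * (2 * (1 - n) * (1 + x) + x ^ 3 + 2 * x ^ 2) := by
  have h1 := mul_le_mul_of_nonneg_left hρ (show 0 ≤ 7 + x by linarith)
  refine h1.trans ?_
  have key : 0 ≤ (2 * (2 * (1 + x) + x ^ 3 + 2 * x ^ 2) - (7 + x) * x) +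
      (-(4 * (1 + x)) - (7 + x) * (2 / 5 - 147 / 200 * x)) * n := by
    have k0 : 0 ≤ (2 * (2 * (1 + x) + x ^ 3 + 2 * x ^ 2) - (7 + x) * x) +
        (-(4 * (1 + x)) - (7 + x) * (2 / 5 - 147 / 200 * x)) * 0 := by
      nlinarith [sq_nonneg (x - 1 / 2), pow_nonneg x0.le 3]
    rcases le_total x (53 / 80) with hx | hx
    · refine aff (z0 := 0) (z1 := 4 / 5 * x) k0 ?_ y0 T
      have q : 0 ≤ 53 / 80 - x := by linarith
      nlinarith [mul_nonneg q x0.le, mul_nonneg q (mul_nonneg x0.le x0.le), mul_nonneg q q,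
        mul_nonneg q (mul_nonneg q x0.le), mul_nonneg q (mul_nonneg q q)]
    · refine aff (z0 := 0) (z1 := 53 / 100) k0 ?_ y0 y1
      have q : 0 ≤ x - 53 / 80 := by linarith
      nlinarith [mul_nonneg q q, mul_nonneg q (mul_nonneg q q)]
  linarith

private theorem or_k {x n k ψ : ℝ} (x0 : 0 < x) (y0 : 0 ≤ n) (T : n ≤ 4 / 5 * x)
    (hx : x = k * Real.cos ψ) (hy : n = k * Real.sin ψ) : k ≤ x + 2 / 5 * n := by
  have hk : k ^ 2 = x ^ 2 + n ^ 2 := by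
    rw [hx, hy]
    linear_combination (-(k ^ 2)) * Real.sin_sq_add_cos_sq ψ
  by_contra hc
  push Not at hc
  have h1 := pow_lt_pow_left₀ hc (by positivity) two_ne_zero
  have h3 : 0 ≤ n * (4 / 5 * x - 21 / 25 * n) := mul_nonneg y0 (by linarith)
  nlinarith

private theorem or_ρ {x n k : ℝ} (x0 : 0 < x) (y0 : 0 ≤ n) (y1 : n ≤ 53 / 100)
    (hk : k ≤ x + 2 / 5 * n) :
    k * Real.exp (-n) ≤ x + 2 / 5 * n - 147 / 200 * (x * n) := by
  have hE : Real.exp (-n) ≤ 1 - 147 / 200 * n := by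
    have h1 := en_le2 y0
    have h3 : 0 ≤ n * (53 / 100 - n) := mul_nonneg y0 (by linarith)
    nlinarith
  have h5 : k * Real.exp (-n) ≤ (x + 2 / 5 * n) * (1 - 147 / 200 * n) :=
    mul_le_mul hk hE (Real.exp_pos _).le (by positivity)
  nlinarith [mul_nonneg y0 y0]

private theorem or_Q {x n : ℝ} (x0 : 0 < x) : Qf x (-n) =
    (2 * (1 - n) * (1 + x) + x ^ 3 + 2 * x ^ 2) / (2 * (1 + x) ^ 2) := by
  unfold Qf
  field_simp
  ring

/-- the main inequality -/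
private theorem or_main {x n z τ k ψ ρ r δ : ℝ} (h : FR x n z τ k ψ ρ r δ) :
    0 < 2 * (1 - n) * (1 + x) + x ^ 3 + 2 * x ^ 2 ∧ 0 < δ ∧
    50 * (7 + x) * z ≤ 77 / 100 * (81 * (2 * (1 - n) * (1 + x) + x ^ 3 + 2 * x ^ 2)) ∧
    3 * (50 * (7 + x)) * (2 * (81 * (2 * (1 - n) * (1 + x) + x ^ 3 + 2 * x ^ 2)) -
      50 * (7 + x) * z) ≤ 4 * (n / δ) * (81 * (2 * (1 - n) * (1 + x) + x ^ 3 + 2 * x ^ 2)) *
      (81 * (2 * (1 - n) * (1 + x) + x ^ 3 + 2 * x ^ 2) - 50 * (7 + x) * z) := by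
  obtain ⟨sh, rho, r0, del, D, G, η, ηζ, w1, w2, yx⟩ := h
  obtain ⟨x0, y0, y1, T, z0, τ0, zτ, ζ, τ1, k0, ψ0, ψ1, hx, hy⟩ := sh
  obtain ⟨h2, h77⟩ := or_u77 x0 y1 T zτ ζ
  have hk := or_k x0 y0 T hx hy
  have hρ := or_ρ x0 y0 y1 hk
  rw [← rho] at hρ
  have hρ0 : 0 < ρ := by
    rw [rho]
    have := Real.exp_pos (-n)
    positivity
  have hr0 : 0 < r := by linarith
  have hδ : 0 < δ := by
    rw [del]
    positivity
  have hP : 0 < 2 * (1 - n) * (1 + x) + x ^ 3 + 2 * x ^ 2 := by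
    have : 0 < 1 - n := by linarith
    positivity
  refine ⟨hP, hδ, h77, ?_⟩
  obtain ⟨P, hPe⟩ : ∃ P, P = 2 * (1 - n) * (1 + x) + x ^ 3 + 2 * x ^ 2 := ⟨_, rfl⟩
  have hBz : 0 < 81 * P - 50 * (7 + x) * z := by
    rw [hPe]
    linarith
  rcases le_total n (1 / 10) with hn | hn
  · rcases le_total ρ (17 / 10) with hr | hr
    · have hN : 4 ≤ n / δ := by
        rw [le_div_iff₀ hδ]
        exact w2 hr
      refine (or_A x0 hn h2 h77).trans ?_
      rw [← hPe] at hP ⊢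
      have h3 : 0 ≤ (n / δ - 4) * ((81 * P) * (81 * P - 50 * (7 + x) * z)) :=
        mul_nonneg (by linarith) (by positivity)
      linarith
    · have hN : 5 / 4 ≤ n / δ := by
        rw [le_div_iff₀ hδ]
        exact w1
      have hx1 : 166 / 100 ≤ x := by
        have : 0 ≤ x * n := mul_nonneg x0.le y0
        linarith
      have hz1 : z ≤ 21 / 25 := by linarith
      have hAB : 50 * (7 + x) ≤ 2 / 5 * (81 * P) := by
        rw [hPe]
        have h4 := mul_nonneg (show 0 ≤ 1 / 10 - n by linarith) (show 0 ≤ 1 + x by linarith)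
        nlinarith [mul_nonneg (show 0 ≤ x - 166 / 100 by linarith) x0.le,
          mul_nonneg (mul_nonneg (show 0 ≤ x - 166 / 100 by linarith) x0.le) x0.le]
      rw [← hPe] at hP ⊢
      have hA0 : 0 < 50 * (7 + x) := by linarith
      have h3 : 0 ≤ (n / δ - 5 / 4) * ((81 * P) * (81 * P - 50 * (7 + x) * z)) :=
        mul_nonneg (by linarith) (by positivity)
      have h4 : 50 * (7 + x) * z ≤ 2 / 5 * (81 * P) * (21 / 25) :=
        mul_le_mul hAB hz1 z0 (by positivity)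
      have h5 : 50 * (7 + x) * (2 * (81 * P) - 50 * (7 + x) * z) ≤
          2 / 5 * (81 * P) * (2 * (81 * P)) := by
        apply mul_le_mul hAB _ _ (by positivity)
        · have : 0 ≤ 50 * (7 + x) * z := by positivity
          linarith
        · linarith
      have h6 : (81 * P) * (664 / 1000 * (81 * P)) ≤ (81 * P) * (81 * P - 50 * (7 + x) * z) :=
        mul_le_mul_of_nonneg_left (by linarith) (by positivity)
      have h7 : 0 ≤ (81 * P) * (81 * P) := by positivity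
      linarith
  · have hNρ : n / δ * ρ = n * r := by
      rw [del]
      field_simp
    have h5 := or_B x0 y0 y1 T hρ
    rw [← hPe] at hP h5 h77 ⊢
    have hNr : 499 / 100 ≤ n / δ * ρ := by
      rw [hNρ]
      nlinarith
    have h6 : 16044 / 1000 * (50 * (7 + x)) ≤ 4 * (n / δ) * (81 * P) := by
      have h7 : 16044 / 1000 * (50 * (7 + x)) * ρ ≤ 4 * (n / δ) * (81 * P) * ρ := by
        have h8 : 499 / 100 * (81 * P) ≤ n / δ * ρ * (81 * P) :=
          mul_le_mul_of_nonneg_right hNr (by positivity)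
        linarith
      exact le_of_mul_le_mul_right h7 hρ0
    have hA0 : 0 < 50 * (7 + x) := by linarith
    have h9 : 3 * (50 * (7 + x)) * (2 * (81 * P) - 50 * (7 + x) * z) ≤
        16044 / 1000 * (50 * (7 + x)) * (81 * P - 50 * (7 + x) * z) := by
      have h10 : 2 * (81 * P) - 50 * (7 + x) * z ≤ 5348 / 1000 * (81 * P - 50 * (7 + x) * z) := by
        linarith
      have h11 := mul_le_mul_of_nonneg_left h10 hA0.le
      linarith
    exact h9.trans (mul_le_mul_of_nonneg_right h6 hBz.le)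

/-- `u = (c² + c/6) z/(27/50 Q)` -/
private theorem or_core {x n z τ k ψ ρ r δ : ℝ} (h : FR x n z τ k ψ ρ r δ) :
    0 < Qf x (-n) ∧ 0 < δ ∧
    0 ≤ ((1 / (1 + x)) ^ 2 + 1 / (6 * (1 + x))) * z / (27 / 50 * Qf x (-n)) ∧
    ((1 / (1 + x)) ^ 2 + 1 / (6 * (1 + x))) * z / (27 / 50 * Qf x (-n)) ≤ 77 / 100 ∧
    Real.exp (-(n * z / δ)) ≤
      (1 - ((1 / (1 + x)) ^ 2 + 1 / (6 * (1 + x))) * z / (27 / 50 * Qf x (-n))) *
      √(1 - ((1 / (1 + x)) ^ 2 + 1 / (6 * (1 + x))) * z / (27 / 50 * Qf x (-n))) := by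
  obtain ⟨hP, hδ, h77, hm⟩ := or_main h
  have x0 := h.sh.x0
  have z0 := h.sh.z0
  have hx1 : 0 < 1 + x := by linarith
  have hQ := or_Q (x := x) (n := n) x0
  obtain ⟨P, hPe⟩ : ∃ P, P = 2 * (1 - n) * (1 + x) + x ^ 3 + 2 * x ^ 2 := ⟨_, rfl⟩
  rw [← hPe] at hP h77 hm hQ
  have hu : ((1 / (1 + x)) ^ 2 + 1 / (6 * (1 + x))) * z / (27 / 50 * Qf x (-n)) =
      50 * (7 + x) * z / (81 * P) := by
    rw [hQ]
    field_simp
    ring
  have hQ0 : 0 < Qf x (-n) := by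
    rw [hQ]
    positivity
  rw [hu]
  have hB : 0 < 81 * P := by positivity
  have hu1 : 50 * (7 + x) * z / (81 * P) ≤ 77 / 100 := by
    rw [div_le_iff₀ hB]
    exact h77
  have hu0 : 0 ≤ 50 * (7 + x) * z / (81 * P) := by positivity
  refine ⟨hQ0, hδ, hu0, hu1, ?_⟩
  apply or_log (by linarith) (by linarith)
  have hBz : 0 < 81 * P - 50 * (7 + x) * z := by linarith
  have e1 : 1 - 50 * (7 + x) * z / (81 * P) = (81 * P - 50 * (7 + x) * z) / (81 * P) := by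
    field_simp
  have e2 : 3 / 4 * ((1 - (1 - 50 * (7 + x) * z / (81 * P)) ^ 2) /
      (1 - 50 * (7 + x) * z / (81 * P))) =
      3 * (50 * (7 + x)) * (2 * (81 * P) - 50 * (7 + x) * z) * z /
        (4 * (81 * P) * (81 * P - 50 * (7 + x) * z)) := by
    rw [e1]
    field_simp
    ring
  rw [e2, div_le_iff₀ (by positivity)]
  have h3 := mul_le_mul_of_nonneg_right hm z0
  have e3 : n * z / δ = n / δ * z := by ring
  rw [e3]
  linarith

private theorem or_dom {x n z τ k ψ ρ r δ : ℝ} (h : FR x n z τ k ψ ρ r δ) : DomG x (-n) := by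
  have h1 := h.sh.y0
  have h2 := h.sh.y1
  have h3 := h.D
  refine ⟨h.sh.x0.le, by linarith, by linarith, ?_⟩
  have e : (1 + -n) ^ 2 + x ^ 2 = (1 - n) ^ 2 + x ^ 2 := by ring
  rw [e]
  linarith

private theorem or_chord {c : ℝ} (h0 : 0 ≤ c) (h1 : c ≤ 1) : Real.exp c - 1 ≤ (Real.exp 1 - 1) * c := by
  have h := convexOn_exp.2 (Set.mem_univ (0 : ℝ)) (Set.mem_univ (1 : ℝ))
    (show 0 ≤ 1 - c by linarith) h0 (by ring)
  simp only [smul_eq_mul, mul_zero, zero_add, Real.exp_zero, mul_one] at h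
  linarith

/-- core, right side, `s ≥ 0`: `t = 1 - c (e^c - 1) z/(9/10 Q)`, `w = n (z + τ/2)/δ` -/
theorem shRr {x n z τ k ψ ρ r δ : ℝ} (h : FR x n z τ k ψ ρ r δ) :
    ∃ t w : ℝ, 0 < t ∧ t ≤ 1 ∧ 0 ≤ w ∧ exp (-w) ≤ t * √t ∧ ∀ s : ℝ, 0 ≤ s → s ≤ 1 →
      w + t * (9 / 10 * (Qf x (-n) / δ) * s ^ 2) ≤
        Hc x (-n) (-z) (-τ) (s / (1 + x)) s / δ := by
  obtain ⟨hQ, hδ, hu0, hu1, hexp⟩ := or_core h
  have hdom := or_dom h
  have x0 := h.sh.x0
  have y0 := h.sh.y0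
  have z0 := h.sh.z0
  have τ0 := h.sh.τ0
  have T := h.sh.T
  have hsh := h.sh
  have hx1 : 0 < 1 + x := by linarith
  have hc0 : 0 < 1 / (1 + x) := by positivity
  have hc1 : 1 / (1 + x) ≤ 1 := by
    rw [div_le_one hx1]
    linarith
  have hE0 : 0 ≤ Real.exp (1 / (1 + x)) - 1 := by
    have := Real.one_le_exp hc0.le
    linarith
  have hE1 : Real.exp (1 / (1 + x)) - 1 ≤ 10 / 6 * (1 / (1 + x)) + 10 / 36 := by
    have h1 := or_chord hc0.le hc1
    have h2 := Real.exp_one_lt_d9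
    nlinarith
  have hu' : 1 / (1 + x) * (Real.exp (1 / (1 + x)) - 1) * z / (9 / 10 * Qf x (-n)) ≤
      ((1 / (1 + x)) ^ 2 + 1 / (6 * (1 + x))) * z / (27 / 50 * Qf x (-n)) := by
    rw [div_le_div_iff₀ (by positivity) (by positivity)]
    have h3 : 1 / (1 + x) * (Real.exp (1 / (1 + x)) - 1) ≤
        10 / 6 * ((1 / (1 + x)) ^ 2 + 1 / (6 * (1 + x))) := by
      have h4 := mul_le_mul_of_nonneg_left hE1 hc0.le
      have h5 : 1 / (6 * (1 + x)) = 1 / 6 * (1 / (1 + x)) := by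
        field_simp
      rw [h5]
      linarith
    have h6 : 0 ≤ z * (27 / 50 * Qf x (-n)) := by positivity
    have h7 := mul_le_mul_of_nonneg_right h3 h6
    linarith
  have hu'0 : 0 ≤ 1 / (1 + x) * (Real.exp (1 / (1 + x)) - 1) * z / (9 / 10 * Qf x (-n)) := by
    positivity
  refine ⟨1 - 1 / (1 + x) * (Real.exp (1 / (1 + x)) - 1) * z / (9 / 10 * Qf x (-n)),
    n * (z + τ / 2) / δ, by linarith, by linarith, by positivity, ?_, ?_⟩
  · have h1 : Real.exp (-(n * (z + τ / 2) / δ)) ≤ Real.exp (-(n * z / δ)) := by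
      rw [Real.exp_le_exp, neg_le_neg_iff]
      apply div_le_div_of_nonneg_right _ hδ.le
      apply mul_le_mul_of_nonneg_left _ y0
      linarith
    refine (h1.trans hexp).trans ?_
    apply mul_le_mul (by linarith) (Real.sqrt_le_sqrt (by linarith)) (Real.sqrt_nonneg _)
      (by linarith)
  · intro s hs0 hs1
    have h1 := dRr hsh hs0 hs1
    have h2 := G1_negT hdom (by linarith) (by linarith) hs0 hs1
    have hcs : 1 / (1 + x) * s ≤ 1 := by nlinarith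
    have hcs0 : 0 ≤ 1 / (1 + x) * s := by positivity
    unfold Hf at h2
    rw [ga_mid rfl (by linarith) hcs, one_div_mul_eq_div] at h2
    have e : n * (z + τ / 2) / δ + (1 - 1 / (1 + x) * (Real.exp (1 / (1 + x)) - 1) * z /
        (9 / 10 * Qf x (-n))) * (9 / 10 * (Qf x (-n) / δ) * s ^ 2) =
        (n * (z + τ / 2) + 9 / 10 * Qf x (-n) * s ^ 2 -
          1 / (1 + x) * (Real.exp (1 / (1 + x)) - 1) * z * s ^ 2) / δ := by
      field_simp
      ring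
    rw [e]
    apply div_le_div_of_nonneg_right _ hδ.le
    linarith

/-- core, right side, `s = -v ≤ 0`: `t = 1 - (c² + c/6) z/(27/50 Q)`, `w = n z/δ` -/
theorem shRl {x n z τ k ψ ρ r δ : ℝ} (h : FR x n z τ k ψ ρ r δ) :
    ∃ t w : ℝ, 0 < t ∧ t ≤ 1 ∧ 0 ≤ w ∧ exp (-w) ≤ t * √t ∧ ∀ v : ℝ, 0 ≤ v → v ≤ 1 →
      w + t * ((Qf x (-n) / δ) * ((1 - 14 / 25 * v + v ^ 2 / 10) * v ^ 2)) ≤
        Hc x (-n) (-z) (-τ) (-(v / (1 + x))) (-v) / δ := by
  obtain ⟨hQ, hδ, hu0, hu1, hexp⟩ := or_core h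
  have hdom := or_dom h
  have x0 := h.sh.x0
  have y0 := h.sh.y0
  have z0 := h.sh.z0
  have hsh := h.sh
  have hx1 : 0 < 1 + x := by linarith
  have hc0 : 0 < 1 / (1 + x) := by positivity
  have hc1 : 1 / (1 + x) ≤ 1 := by
    rw [div_le_one hx1]
    linarith
  refine ⟨1 - ((1 / (1 + x)) ^ 2 + 1 / (6 * (1 + x))) * z / (27 / 50 * Qf x (-n)),
    n * z / δ, by linarith, by linarith, by positivity, hexp, ?_⟩
  intro v hv0 hv1
  have h1 := dRl hsh hv0 hv1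
  have h2 := G3_neg hdom (by linarith) (show -(3 / 2) ≤ -v by linarith) (by linarith)
  have hcs : 1 / (1 + x) * -v ≤ 1 := by nlinarith
  have hcs0 : -1 ≤ 1 / (1 + x) * -v := by nlinarith
  have e0 : 1 / (1 + x) * -v = -(v / (1 + x)) := by
    field_simp
  unfold Hf at h2
  rw [ga_mid rfl hcs0 hcs, e0] at h2
  have hq : 27 / 50 ≤ 1 - 14 / 25 * v + v ^ 2 / 10 := by nlinarith
  have e : n * z / δ + (1 - ((1 / (1 + x)) ^ 2 + 1 / (6 * (1 + x))) * z / (27 / 50 * Qf x (-n))) *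
      ((Qf x (-n) / δ) * ((1 - 14 / 25 * v + v ^ 2 / 10) * v ^ 2)) =
      (n * z + Qf x (-n) * ((1 - 14 / 25 * v + v ^ 2 / 10) * v ^ 2) -
        ((1 / (1 + x)) ^ 2 + 1 / (6 * (1 + x))) * z * (50 / 27 *
          (1 - 14 / 25 * v + v ^ 2 / 10)) * v ^ 2) / δ := by
    field_simp
    ring
  rw [e]
  apply div_le_div_of_nonneg_right _ hδ.le
  have h3 : 0 ≤ ((1 / (1 + x)) ^ 2 + 1 / (6 * (1 + x))) * z * v ^ 2 *
      (50 / 27 * (1 - 14 / 25 * v + v ^ 2 / 10) - 1) := by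
    apply mul_nonneg (by positivity)
    linarith
  nlinarith

end SokalV3O
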