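import Pool.Agent.Lib_MP_af4de1_v3o.ODef

set_option autoImplicit false

namespace SokalV3O

open Real SokalF1G

private theorem cosb {v : ℝ} (h0 : 3 / 2 ≤ v) (h1 : v ≤ 2 * π - 3 / 2) : cos v ≤ 86 / 1000 := by
  have h3 : cos (3 / 2) ≤ 1 - (3 / 2 : ℝ) ^ 2 / 2 + (3 / 2 : ℝ) ^ 4 / 24 := cos_le4 (by norm_num)
  norm_num at h3
  rcases le_total v π with hv | hv
  · have h2 : cos v ≤ cos (3 / 2) := Real.cos_le_cos_of_nonneg_of_le_pi (by norm_num) hv h0
    linarith
  · have h2 : cos (2 * π - v) ≤ cos (3 / 2) :=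
      Real.cos_le_cos_of_nonneg_of_le_pi (by norm_num) (by linarith) (by linarith)
    rw [Real.cos_two_pi_sub] at h2
    linarith

private theorem expc {a : ℝ} (h0 : 0 ≤ a) (h1 : a ≤ 1) : exp a ≤ 1 + 172 / 100 * a := by
  have h2 := convexOn_exp.2 (Set.mem_univ (1 : ℝ)) (Set.mem_univ (0 : ℝ)) h0 (sub_nonneg.2 h1)
    (by ring)
  simp only [smul_eq_mul, mul_one, mul_zero, add_zero, exp_zero] at h2
  have h3 := mul_le_mul_of_nonneg_left e1_hi h0
  linarith

private theorem expy {y : ℝ} (h0 : 0 ≤ y) (h1 : y ≤ 14 / 25) : exp y ≤ 1 + 1342 / 1000 * y := by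
  have h2 := e_le3 h0 (by linarith)
  have h3 : y ^ 2 ≤ 14 / 25 * y := by nlinarith
  have h4 : y ^ 3 ≤ (14 / 25) ^ 2 * y := by nlinarith
  have h5 : y ^ 4 ≤ (14 / 25) ^ 3 * y := by nlinarith
  nlinarith

/-- facts on `k` -/
private theorem kfacts {x y k ψ : ℝ} (x0 : 0 < x) (y0 : 0 ≤ y) (T : y ≤ 4 / 5 * x) (k0 : 0 < k)
    (hx : x = k * cos ψ) (hy : y = k * sin ψ) : x ≤ k ∧ k ≤ x + 351 / 1000 * y := by
  have h1 : k ^ 2 = x ^ 2 + y ^ 2 := by
    rw [hx, hy]
    have := Real.cos_sq_add_sin_sq ψ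
    calc k ^ 2 = k ^ 2 * (cos ψ ^ 2 + sin ψ ^ 2) := by rw [this, mul_one]
      _ = _ := by ring
  constructor
  · nlinarith [sq_nonneg y]
  · have h2 : 0 ≤ x + 351 / 1000 * y := by positivity
    refine le_of_sq_le_sq ?_ h2
    rw [h1]
    nlinarith [mul_nonneg y0 (sub_nonneg.2 T), mul_nonneg y0 x0.le]

/-- the upper bound on `(1 + ρ) / 4` -/
private theorem rhs {x y k : ℝ} (x0 : 0 < x) (y0 : 0 ≤ y) (y1 : y ≤ 14 / 25) (k1 : x ≤ k)
    (k2 : k ≤ x + 351 / 1000 * y) :
    k * exp y ≤ 1752 / 1000 * k ∧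
      k * exp y ≤ x + 1342 / 1000 * (x * y) + 351 / 1000 * y + 4711 / 10000 * y ^ 2 := by
  have h1 := expy y0 y1
  have hk : 0 ≤ k := by linarith
  have h2 := mul_le_mul_of_nonneg_left h1 hk
  constructor
  · have h3 := mul_le_mul_of_nonneg_left y1 hk
    linarith
  · have h3 : k * (1 + 1342 / 1000 * y) ≤ (x + 351 / 1000 * y) * (1 + 1342 / 1000 * y) :=
      mul_le_mul_of_nonneg_right k2 (by linarith)
    nlinarith [sq_nonneg y]

/-- `|s| ≥ 3/2` up to the lump at `2π`, left side, `s > 0` (true `.53`) -/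
theorem cLr {x y z τ k ψ s : ℝ} (h : ShL x y z τ k ψ) (h0 : 3 / 2 ≤ s)
    (h1 : s + τ + ψ ≤ 2 * π - 3 / 2) :
    1 / 4 * (1 + k * exp y) ≤ Hc x y z τ (pa x s) s := by
  obtain ⟨x0, y0, y1, T, z0, τ0, zτ, ζ, τ1, k0, ψ0, ψ1, hx, hy⟩ := h
  obtain ⟨k1, k2⟩ := kfacts x0 y0 T k0 hx hy
  obtain ⟨r1, r2⟩ := rhs x0 y0 y1 k1 k2
  have hz : z ≤ 21 / 25 := by linarith
  have hc : cos (s + τ + ψ) ≤ 86 / 1000 := cosb (by linarith) h1
  have hform : x * cos (s + τ) - y * sin (s + τ) = k * cos (s + τ + ψ) := by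
    rw [cos_add (s + τ) ψ]
    nth_rw 1 [hx]
    nth_rw 1 [hy]
    ring
  have hπ := Real.pi_lt_d4
  have hs1 : s ≤ 4784 / 1000 := by linarith
  have hkc : k * cos (s + τ + ψ) ≤ 86 / 1000 * k := by
    have := mul_le_mul_of_nonneg_left hc k0.le
    linarith
  have h1x : 0 < 1 + x := by linarith
  have hy2 : y ≤ 1 := by linarith
  -- bound for a given `a`
  have key : ∀ a : ℝ, exp a * (x * cos (s + τ) - y * sin (s + τ)) ≤ exp a * (86 / 1000 * k) := by
    intro a
    rw [hform]
    exact mul_le_mul_of_nonneg_left hkc (exp_pos a).le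
  have k3 : k ≤ x + 197 / 1000 := by linarith
  have k4 : k ≤ 1281 / 1000 * x := by linarith
  unfold pa
  rcases le_total (s / (1 + x)) (a4 x) with ha | ha
  · -- the middle part
    rw [min_eq_left ha]
    obtain ⟨a, had⟩ : ∃ a, a = s / (1 + x) := ⟨_, rfl⟩
    rw [← had] at ha ⊢
    have hsa : s = a * (1 + x) := by rw [had]; field_simp
    have ha0 : 0 ≤ a := by rw [had]; positivity
    have ha1 : a ≤ 1 := ha.trans (min_le_left _ _)
    have hxs : s ≤ 1 + x := by nlinarith
    unfold Hc
    have e1 := key a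
    have e2 := expc ha0 ha1
    have e3 : exp a * (86 / 1000 * k) ≤ (1 + 172 / 100 * a) * (86 / 1000 * k) :=
      mul_le_mul_of_nonneg_right e2 (by positivity)
    have e4 : a * z ≤ a * (21 / 25) := mul_le_mul_of_nonneg_left hz ha0
    have e5 : y * s ≤ 14 / 25 * s := mul_le_mul_of_nonneg_right y1 (by linarith)
    have e6 : 0 ≤ y * z := mul_nonneg y0 z0
    have e7 : a * k ≤ a * (x + 197 / 1000) := mul_le_mul_of_nonneg_left k3 ha0
    have main : 0 ≤ a * s - 21 / 25 * a - 14 / 25 * s + x + x * a - 86 / 1000 * (x + 197 / 1000)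
        - 148 / 1000 * (a * (x + 197 / 1000)) - 1 / 4 - 438 / 1000 * (x + 197 / 1000) := by
      have h2 : 0 ≤ (a * s - 21 / 25 * a - 14 / 25 * s + x + x * a - 86 / 1000 * (x + 197 / 1000)
        - 148 / 1000 * (a * (x + 197 / 1000)) - 1 / 4 - 438 / 1000 * (x + 197 / 1000)) *
        (1 + x) := by
        have h3 : (a * s - 21 / 25 * a - 14 / 25 * s + x + x * a - 86 / 1000 * (x + 197 / 1000)
          - 148 / 1000 * (a * (x + 197 / 1000)) - 1 / 4 - 438 / 1000 * (x + 197 / 1000)) *
          (1 + x) = s ^ 2 - 21 / 25 * s - 14 / 25 * s * (1 + x) + x * (1 + x) + x * s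
          - 148 / 1000 * (s * (x + 197 / 1000)) - (86 / 1000 * (x + 197 / 1000)
          + 1 / 4 + 438 / 1000 * (x + 197 / 1000)) * (1 + x) := by
          have : a * (1 + x) = s := hsa.symm
          linear_combination (s - 21 / 25 + x - 148 / 1000 * (x + 197 / 1000)) * this
        rw [h3]
        nlinarith [mul_nonneg (sub_nonneg.2 h0) x0.le, mul_nonneg (sub_nonneg.2 h0) (sub_nonneg.2 h0)]
      exact nonneg_of_mul_nonneg_left h2 h1x
    nlinarith
  · rw [min_eq_right ha]
    rcases le_total 1 (4 / (1 + x)) with h4 | h4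
    · -- `a = 1`
      have ea : a4 x = 1 := min_eq_left h4
      rw [ea] at ha ⊢
      unfold Hc
      have e1 := key 1
      have e3 : exp 1 * (86 / 1000 * k) ≤ 2719 / 1000 * (86 / 1000 * k) :=
        mul_le_mul_of_nonneg_right e1_hi (by positivity)
      have e4 : (1 - y) * (3 / 2 - 21 / 25) ≤ (1 - y) * (s - z) :=
        mul_le_mul_of_nonneg_left (by linarith) (by linarith)
      linarith
    · -- `a = 4 / (1 + x)`, `3 ≤ x`
      have ea : a4 x = 4 / (1 + x) := min_eq_right h4
      rw [ea] at ha ⊢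
      have hx3 : 3 ≤ x := by
        rw [div_le_one h1x] at h4
        linarith
      obtain ⟨a, had⟩ : ∃ a, a = 4 / (1 + x) := ⟨_, rfl⟩
      rw [← had] at ha h4 ⊢
      have ha0 : 0 ≤ a := by rw [had]; positivity
      have hax : a * (1 + x) = 4 := by rw [had]; field_simp
      have hs4 : 4 ≤ s := by
        rw [le_div_iff₀ h1x] at ha
        linarith
      unfold Hc
      have e1 := key a
      have e2 : exp a ≤ 2719 / 1000 := (exp_le_exp.2 h4).trans e1_hi
      have e3 : exp a * (86 / 1000 * k) ≤ 2719 / 1000 * (86 / 1000 * k) :=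
        mul_le_mul_of_nonneg_right e2 (by positivity)
      have e4 : 0 ≤ a * (s - z) := mul_nonneg ha0 (by linarith)
      have e5 : y * (s - z) ≤ 14 / 25 * (4784 / 1000) :=
        mul_le_mul y1 (by linarith) (by linarith) (by norm_num)
      have e6 : x * (1 + a) = x + 4 - a := by linarith
      nlinarith

/-- left side, `s = -v < 0` (true `.43`) -/
theorem cLl {x y z τ k ψ v : ℝ} (h : ShL x y z τ k ψ) (h0 : 3 / 2 ≤ v)
    (h1 : v - τ - ψ ≤ 2 * π - 3 / 2) :
    1 / 4 * (1 + k * exp y) ≤ Hc x y z τ (-(pa x v)) (-v) := by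
  obtain ⟨x0, y0, y1, T, z0, τ0, zτ, ζ, τ1, k0, ψ0, ψ1, hx, hy⟩ := h
  obtain ⟨k1, k2⟩ := kfacts x0 y0 T k0 hx hy
  obtain ⟨r1, r2⟩ := rhs x0 y0 y1 k1 k2
  have h1x : 0 < 1 + x := by linarith
  have k4 : k ≤ 1281 / 1000 * x := by linarith
  have hH : ∀ a : ℝ, Hc x y z τ (-a) (-v) = (a + y) * (v + z) + x * (1 - a) -
      exp (-a) * (x * cos (v - τ) + y * sin (v - τ)) := by
    intro a
    unfold Hc
    rw [show -v + τ = -(v - τ) by ring, cos_neg, sin_neg]
    ring
  rw [hH]
  have hform : x * cos (v - τ) + y * sin (v - τ) = k * cos (v - τ - ψ) := by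
    rw [cos_sub (v - τ) ψ]
    nth_rw 1 [hx]
    nth_rw 1 [hy]
    ring
  have hyv : 3 / 2 * y ≤ y * v := by nlinarith
  rcases le_total (3 / 2) (v - τ - ψ) with hB | hB
  · -- `k cos` form
    have hc := cosb hB h1
    have hkc : k * cos (v - τ - ψ) ≤ 86 / 1000 * k := by
      have := mul_le_mul_of_nonneg_left hc k0.le
      linarith
    have key : ∀ a : ℝ, 0 ≤ a →
        exp (-a) * (x * cos (v - τ) + y * sin (v - τ)) ≤ 86 / 1000 * k := by
      intro a ha
      rw [hform]
      have e1 : exp (-a) ≤ 1 := Real.exp_le_one_iff.2 (by linarith)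
      have e2 := exp_pos (-a)
      calc exp (-a) * (k * cos (v - τ - ψ)) ≤ exp (-a) * (86 / 1000 * k) :=
            mul_le_mul_of_nonneg_left hkc e2.le
        _ ≤ 1 * (86 / 1000 * k) := mul_le_mul_of_nonneg_right e1 (by positivity)
        _ = _ := one_mul _
    -- reduce to an inequality in `a`, `v`, `x`
    have red : ∀ a : ℝ, 0 ≤ a → 0 ≤ a * v - a * x + 476 / 1000 * x - 1 / 4 →
        1 / 4 * (1 + k * exp y) ≤ (a + y) * (v + z) + x * (1 - a) -
          exp (-a) * (x * cos (v - τ) + y * sin (v - τ)) := by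
      intro a ha hm
      have e1 := key a ha
      have e2 : 0 ≤ (a + y) * z := by positivity
      linarith
    unfold pa
    rcases le_total (v / (1 + x)) (a4 x) with ha | ha
    · rw [min_eq_left ha]
      obtain ⟨a, had⟩ : ∃ a, a = v / (1 + x) := ⟨_, rfl⟩
      rw [← had] at ha ⊢
      have hsa : a * (1 + x) = v := by rw [had]; field_simp
      have ha0 : 0 ≤ a := by rw [had]; positivity
      have ha1 : a ≤ 1 := ha.trans (min_le_left _ _)
      have hxs : v ≤ 1 + x := by nlinarith
      refine red a ha0 ?_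
      have h2 : 0 ≤ (a * v - a * x + 476 / 1000 * x - 1 / 4) * (1 + x) := by
        have h3 : (a * v - a * x + 476 / 1000 * x - 1 / 4) * (1 + x) =
            (v - x / 2) ^ 2 + 226 / 1000 * x ^ 2 + 226 / 1000 * x - 1 / 4 := by
          linear_combination (v - x) * hsa
        rw [h3]
        rcases le_total x 1 with hx1 | hx1
        · have h5 : 1 ≤ v - x / 2 := by linarith
          nlinarith
        · nlinarith [sq_nonneg (v - x / 2)]
      exact nonneg_of_mul_nonneg_left h2 h1x
    · rw [min_eq_right ha]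
      rcases le_total 1 (4 / (1 + x)) with h4 | h4
      · have ea : a4 x = 1 := min_eq_left h4
        rw [ea] at ha ⊢
        have hv : 1 + x ≤ v := by
          rw [le_div_iff₀ h1x] at ha
          linarith
        refine red 1 zero_le_one ?_
        linarith
      · have ea : a4 x = 4 / (1 + x) := min_eq_right h4
        rw [ea] at ha ⊢
        obtain ⟨a, had⟩ : ∃ a, a = 4 / (1 + x) := ⟨_, rfl⟩
        rw [← had] at ha h4 ⊢
        have ha0 : 0 < a := by rw [had]; positivity
        have hax : a * (1 + x) = 4 := by rw [had]; field_simp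
        have hs4 : 4 ≤ v := by
          rw [le_div_iff₀ h1x] at ha
          linarith
        refine red a ha0.le ?_
        have e1 : a * 4 ≤ a * v := mul_le_mul_of_nonneg_left hs4 ha0.le
        have e2 : 0 ≤ 5 * a + 476 / 1000 * x - 17 / 4 := by
          have e3 : 0 ≤ (5 * a + 476 / 1000 * x - 17 / 4) * (1 + x) := by
            have e4 : (5 * a + 476 / 1000 * x - 17 / 4) * (1 + x) =
                20 + (476 / 1000 * x - 17 / 4) * (1 + x) := by
              linear_combination 5 * hax
            rw [e4]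
            nlinarith [sq_nonneg (x - 4)]
          exact nonneg_of_mul_nonneg_left e3 h1x
        linarith
  · -- `v < 27/10`
    have hv27 : v ≤ 27 / 10 := by linarith
    have hxτ : x * τ ≤ 28 / 100 := by
      have e1 : τ * (1 + x + x ^ 2) ≤ 21 / 25 := by nlinarith
      have e2 : 0 ≤ τ * (1 - x) ^ 2 := by positivity
      nlinarith
    have hcv : cos (v - τ) ≤ 86 / 1000 + τ := by
      have hπ := Real.pi_gt_d2
      have e1 : cos v ≤ 86 / 1000 := cosb h0 (by linarith)
      have e2 : cos (v - τ) - cos v ≤ τ := by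
        have h5 := Real.abs_cos_sub_cos_le (v - τ) v
        have h6 : |v - τ - v| = τ := by
          rw [show v - τ - v = -τ by ring, abs_neg, abs_of_nonneg τ0]
        rw [h6] at h5
        exact (le_abs_self _).trans h5
      linarith
    have key : ∀ a : ℝ, 0 ≤ a →
        exp (-a) * (x * cos (v - τ) + y * sin (v - τ)) ≤ exp (-a) * (86 / 1000 * x + 28 / 100 + y) := by
      intro a ha
      refine mul_le_mul_of_nonneg_left ?_ (exp_pos _).le
      have e1 := mul_le_mul_of_nonneg_left hcv x0.le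
      have e2 := mul_le_mul_of_nonneg_left (sin_le_one (v - τ)) y0
      linarith
    unfold pa
    rcases le_total (v / (1 + x)) (a4 x) with ha | ha
    · rw [min_eq_left ha]
      obtain ⟨a, had⟩ : ∃ a, a = v / (1 + x) := ⟨_, rfl⟩
      rw [← had] at ha ⊢
      have hsa : a * (1 + x) = v := by rw [had]; field_simp
      have ha0 : 0 ≤ a := by rw [had]; positivity
      have ha1 : a ≤ 1 := ha.trans (min_le_left _ _)
      have hxs : v ≤ 1 + x := by nlinarith
      have e1 := key a ha0
      have e2 : exp (-a) ≤ 1 := Real.exp_le_one_iff.2 (by linarith)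
      have e3 : exp (-a) * (86 / 1000 * x + 28 / 100 + y) ≤ 1 * (86 / 1000 * x + 28 / 100 + y) :=
        mul_le_mul_of_nonneg_right e2 (by positivity)
      have e4 : 0 ≤ (a + y) * z := by positivity
      have e5 : y ^ 2 ≤ 14 / 25 * y := by nlinarith
      -- linear in `y`
      have main : 0 ≤ (a * v - a * x + 664 / 1000 * x - 530 / 1000) +
          (v - 1154 / 1000 - 3355 / 10000 * x) * y := by
        refine aff (z0 := 0) (z1 := 14 / 25) ?_ ?_ y0 y1
        · have h2 : 0 ≤ (a * v - a * x + 664 / 1000 * x - 530 / 1000) * (1 + x) := by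
            have h3 : (a * v - a * x + 664 / 1000 * x - 530 / 1000) * (1 + x) =
                v * (v - x) + (664 / 1000 * x - 530 / 1000) * (1 + x) := by
              linear_combination (v - x) * hsa
            rw [h3]
            rcases le_total x 1 with hx1 | hx1
            · nlinarith [mul_nonneg (sub_nonneg.2 h0) (sub_nonneg.2 h0)]
            · nlinarith [sq_nonneg (v - x / 2)]
          have h4 := nonneg_of_mul_nonneg_left h2 h1x
          linarith
        · have h2 : 0 ≤ (a * v - a * x + 664 / 1000 * x - 530 / 1000 +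
              (v - 1154 / 1000 - 3355 / 10000 * x) * (14 / 25)) * (1 + x) := by
            have h3 : (a * v - a * x + 664 / 1000 * x - 530 / 1000 +
              (v - 1154 / 1000 - 3355 / 10000 * x) * (14 / 25)) * (1 + x) =
                v * (v - x) + (664 / 1000 * x - 530 / 1000 +
                (v - 1154 / 1000 - 3355 / 10000 * x) * (14 / 25)) * (1 + x) := by
              linear_combination (v - x) * hsa
            rw [h3]
            rcases le_total x 3 with hx1 | hx1
            · nlinarith [mul_nonneg (sub_nonneg.2 h0) (sub_nonneg.2 h0),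
                mul_nonneg (sub_nonneg.2 h0) (sub_nonneg.2 hx1), sq_nonneg (x - 3 / 2)]
            · nlinarith [sq_nonneg (v - 22 / 100 * x)]
          exact nonneg_of_mul_nonneg_left h2 h1x
      nlinarith
    · have hx3 : x ≤ 2 := by
        by_contra hcon
        push Not at hcon
        have e1 : v / (1 + x) < a4 x := by
          unfold a4
          rw [lt_min_iff]
          constructor
          · rw [div_lt_one h1x]; linarith
          · rw [div_lt_div_iff_of_pos_right h1x]; linarith
        linarith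
      have h4 : 1 ≤ 4 / (1 + x) := by
        rw [le_div_iff₀ h1x]
        linarith
      have ea : a4 x = 1 := min_eq_left h4
      rw [min_eq_right ha]
      rw [ea] at ha ⊢
      have hv : 1 + x ≤ v := by
        rw [le_div_iff₀ h1x] at ha
        linarith
      have e1 := key 1 zero_le_one
      have e3 : exp (-1) * (86 / 1000 * x + 28 / 100 + y) ≤
          3679 / 10000 * (86 / 1000 * x + 28 / 100 + y) :=
        mul_le_mul_of_nonneg_right em1_hi (by positivity)
      have e4 : 0 ≤ (1 + y) * z := by positivity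
      linarith

end SokalV3O
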