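import Pool.Agent.Lib_MP_af4de1_v3o.ODef

set_option autoImplicit false

namespace SokalV3O

open Real SokalF1G

/-! ### elementary facts -/

theorem shp_basic {x y z τ k ψ Y : ℝ} (h : Shp x y z τ k ψ Y) :
    x ≤ k ∧ 2 * x * k ≤ 2 * x ^ 2 + y ^ 2 := by
  have h1 : k ^ 2 = x ^ 2 + y ^ 2 := by
    rw [h.hx, h.hy]
    have := Real.sin_sq_add_cos_sq ψ
    nlinarith
  have h2 : x ≤ k := by
    have := h.k0
    have := h.x0
    nlinarith [sq_nonneg y]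
  refine ⟨h2, ?_⟩
  have : 0 ≤ (k - x) ^ 2 := sq_nonneg _
  nlinarith

theorem r_big {ρ r : ℝ} (hR : 27 / 5 * (1 + ρ ^ 2) ≤ r * (2 * π / 3) ^ 2) (hr : 499 / 10 ≤ r) :
    1231 / 1000 * (1 + ρ ^ 2) ≤ r := by
  have h1 := Real.pi_lt_d6
  have h0 := Real.pi_pos
  have h2 : (2 * π / 3) ^ 2 ≤ 43865 / 10000 := by nlinarith
  have h3 : r * (2 * π / 3) ^ 2 ≤ r * (43865 / 10000) :=
    mul_le_mul_of_nonneg_left h2 (by linarith)
  nlinarith [sq_nonneg ρ]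

theorem a4_lo {x : ℝ} (h0 : 0 < x) (h : x ≤ 3) : a4 x = 1 := by
  unfold a4
  rw [min_eq_left]
  rw [le_div_iff₀ (by linarith)]
  linarith

theorem a4_hi {x : ℝ} (h : 3 ≤ x) : a4 x = 4 * (1 / (1 + x)) := by
  unfold a4
  rw [min_eq_right]
  · ring
  · rw [div_le_iff₀ (by linarith)]
    linarith

/-- `x ≥ 3`: the constraint on `v = y (1 + x)` -/
theorem v_le {c v : ℝ} (c0 : 0 ≤ c) (c1 : c ≤ 1 / 4) (v0 : 0 ≤ v)
    (hv : (1 - c) * (v + v ^ 2 * c / 2) ≤ 15708 / 10000) : v ≤ 15708 / 10000 + 65 / 100 * c := by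
  by_contra hh
  push Not at hh
  set V : ℝ := 15708 / 10000 + 65 / 100 * c with hV
  have h1 : V ^ 2 ≤ v ^ 2 := by
    have : 0 ≤ V := by positivity
    nlinarith
  have h2 : (1 - c) * (V + V ^ 2 * c / 2) < (1 - c) * (v + v ^ 2 * c / 2) := by
    apply mul_lt_mul_of_pos_left _ (by linarith)
    have : V ^ 2 * c ≤ v ^ 2 * c := mul_le_mul_of_nonneg_right h1 c0
    linarith
  have h3 : 15708 / 10000 ≤ (1 - c) * (V + V ^ 2 * c / 2) := by
    rw [hV]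
    have e : (1 - c) * (15708 / 10000 + 65 / 100 * c + (15708 / 10000 + 65 / 100 * c) ^ 2 * c / 2)
        - 15708 / 10000 = c * ((1 - c) * (65 / 100 + (15708 / 10000 + 65 / 100 * c) ^ 2 / 2)
          - 15708 / 10000) := by ring
    have h4 : 0 ≤ (1 - c) * (65 / 100 + (15708 / 10000 + 65 / 100 * c) ^ 2 / 2)
          - 15708 / 10000 := by
      nlinarith [mul_nonneg c0 (sub_nonneg.2 c1), mul_nonneg (mul_nonneg c0 c0) (sub_nonneg.2 c1)]
    nlinarith [mul_nonneg c0 h4]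
  linarith

/-- the polynomial -/
noncomputable def Dp (c v : ℝ) : ℝ :=
  87548 / 10000 - 285 / 100 * c - (1887 / 10000 + 4 * c) * v
    - (1 - 3 * c + 3813 / 1000 * c ^ 2) * v ^ 2 - c * (1 - c) / 2 * v ^ 3

theorem Dp_mono {c v V : ℝ} (c0 : 0 ≤ c) (c1 : c ≤ 1 / 4) (v0 : 0 ≤ v) (hv : v ≤ V) :
    Dp c V ≤ Dp c v := by
  unfold Dp
  have h2 : v ^ 2 ≤ V ^ 2 := pow_le_pow_left₀ v0 hv 2
  have h3 : v ^ 3 ≤ V ^ 3 := pow_le_pow_left₀ v0 hv 3
  have a1 : (1887 / 10000 + 4 * c) * v ≤ (1887 / 10000 + 4 * c) * V :=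
    mul_le_mul_of_nonneg_left hv (by positivity)
  have a2 : (1 - 3 * c + 3813 / 1000 * c ^ 2) * v ^ 2 ≤ (1 - 3 * c + 3813 / 1000 * c ^ 2) * V ^ 2 :=
    mul_le_mul_of_nonneg_left h2 (by nlinarith [sq_nonneg (c - 4 / 10)])
  have a3 : c * (1 - c) / 2 * v ^ 3 ≤ c * (1 - c) / 2 * V ^ 3 :=
    mul_le_mul_of_nonneg_left h3 (by nlinarith)
  linarith

theorem QD {c v : ℝ} (c0 : 0 ≤ c) (c1 : c ≤ 1 / 4) (v0 : 0 ≤ v)
    (hv : v ≤ 15708 / 10000 + 65 / 100 * c) :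
    4062 / 1000 ≤ (1 - c) * (1 + v * c + v ^ 2 * c ^ 2 / 2) * Dp c v ∧ 0 < Dp c v ∧
      3 / 4 ≤ (1 - c) * (1 + v * c + v ^ 2 * c ^ 2 / 2) := by
  have hc2 : 0 ≤ c ^ 2 := sq_nonneg c
  have q0 : 3 / 4 ≤ (1 - c) * (1 + v * c + v ^ 2 * c ^ 2 / 2) := by
    have h1 : 0 ≤ v * c + v ^ 2 * c ^ 2 / 2 := by positivity
    nlinarith [mul_nonneg h1 (by linarith : (0 : ℝ) ≤ 1 - c)]
  have qm : ∀ w : ℝ, 0 ≤ w → w ≤ v → (1 - c) * (1 + w * c + w ^ 2 * c ^ 2 / 2) ≤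
      (1 - c) * (1 + v * c + v ^ 2 * c ^ 2 / 2) := by
    intro w hw0 hw
    apply mul_le_mul_of_nonneg_left _ (by linarith)
    have h1 : w * c ≤ v * c := mul_le_mul_of_nonneg_right hw c0
    have h2 : w ^ 2 * c ^ 2 ≤ v ^ 2 * c ^ 2 :=
      mul_le_mul_of_nonneg_right (pow_le_pow_left₀ hw0 hw 2) hc2
    linarith
  rcases le_total v 1 with h1 | h1
  · have hD : 62 / 10 ≤ Dp c v := by
      refine le_trans ?_ (Dp_mono c0 c1 v0 h1)
      unfold Dp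
      nlinarith [mul_nonneg c0 (sub_nonneg.2 c1)]
    refine ⟨?_, by linarith, q0⟩
    nlinarith [mul_nonneg (sub_nonneg.2 q0) (by linarith : (0 : ℝ) ≤ Dp c v)]
  · rcases le_total v (7 / 5) with h2 | h2
    · have hD : 51 / 10 ≤ Dp c v := by
        refine le_trans ?_ (Dp_mono c0 c1 v0 h2)
        unfold Dp
        nlinarith [mul_nonneg c0 (sub_nonneg.2 c1)]
      have hq : 96 / 100 ≤ (1 - c) * (1 + v * c + v ^ 2 * c ^ 2 / 2) := by
        refine le_trans ?_ (qm 1 (by norm_num) h1)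
        nlinarith [mul_nonneg c0 (sub_nonneg.2 c1), mul_nonneg hc2 (sub_nonneg.2 c1)]
      refine ⟨?_, by linarith, q0⟩
      nlinarith [mul_nonneg (sub_nonneg.2 hq) (by linarith : (0 : ℝ) ≤ Dp c v)]
    · have hD : 598 / 100 - 785 / 100 * c ≤ Dp c v := by
        refine le_trans ?_ (Dp_mono c0 c1 v0 hv)
        unfold Dp
        nlinarith [mul_nonneg c0 (sub_nonneg.2 c1), mul_nonneg hc2 (sub_nonneg.2 c1),
          mul_nonneg (mul_nonneg hc2 c0) (sub_nonneg.2 c1),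
          mul_nonneg (mul_nonneg hc2 hc2) (sub_nonneg.2 c1)]
      have hq : 1 + 2 / 10 * c ≤ (1 - c) * (1 + v * c + v ^ 2 * c ^ 2 / 2) := by
        refine le_trans ?_ (qm (7 / 5) (by norm_num) h2)
        nlinarith [mul_nonneg c0 (sub_nonneg.2 c1), mul_nonneg hc2 (sub_nonneg.2 c1)]
      have hD0 : 0 < Dp c v := by linarith
      refine ⟨?_, hD0, q0⟩
      have h5 : (1 + 2 / 10 * c) * (598 / 100 - 785 / 100 * c) ≤
          (1 - c) * (1 + v * c + v ^ 2 * c ^ 2 / 2) * Dp c v :=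
        mul_le_mul hq hD (by linarith) (by linarith)
      nlinarith [mul_nonneg c0 (sub_nonneg.2 c1)]


/-- common data for `x ≥ 3`: `c = 1 / (1 + x)`, `v = y (1 + x)` -/
theorem hi_data {x y z τ k ψ ρ r : ℝ} (h : ShL x y z τ k ψ) (hρ : ρ = k * exp y) (hr : 499 / 10 ≤ r)
    (hR : 27 / 5 * (1 + ρ ^ 2) ≤ r * (2 * π / 3) ^ 2) (hη : ψ + ρ - x ≤ π / 2) (hx3 : 3 ≤ x) :
    ∃ c v : ℝ, a4 x = 4 * c ∧ 0 < c ∧ c ≤ 1 / 4 ∧ x * c = 1 - c ∧ 0 ≤ v ∧ y = v * c ∧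
      v ≤ 15708 / 10000 + 65 / 100 * c ∧
      (1 - c) * (v + v ^ 2 * c / 2) ≤ ρ - x ∧ (1 - c) * (1 + v * c + v ^ 2 * c ^ 2 / 2) ≤ ρ * c ∧
      (k - x) ≤ 2 / 3 * v ^ 2 * c ^ 3 ∧ 0 ≤ k - x ∧ 1231 / 1000 * (1 + ρ ^ 2) ≤ r ∧ 0 < ρ := by
  obtain ⟨hxk, hk2⟩ := shp_basic h
  have hX : 0 < 1 + x := by linarith
  have hxc : x * (1 / (1 + x)) = 1 - 1 / (1 + x) := by
    field_simp
    ring
  have hc0 : 0 < 1 / (1 + x) := by positivity
  have hc1 : 1 / (1 + x) ≤ 1 / 4 := by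
    apply one_div_le_one_div_of_le (by norm_num)
    linarith
  have hyc : y = y * (1 + x) * (1 / (1 + x)) := by
    field_simp
  have hv0 : 0 ≤ y * (1 + x) := mul_nonneg h.y0 hX.le
  set c : ℝ := 1 / (1 + x) with hc
  set v : ℝ := y * (1 + x) with hv
  have hy0 := h.y0
  have he : 1 + y + y ^ 2 / 2 ≤ exp y := by
    have := Real.quadratic_le_exp_of_nonneg hy0
    linarith
  have hρ1 : x * (1 + y + y ^ 2 / 2) ≤ ρ := by
    rw [hρ]
    exact mul_le_mul hxk he (by positivity) h.k0.le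
  have hw : (1 - c) * (v + v ^ 2 * c / 2) ≤ ρ - x := by
    have e : x * (1 + y + y ^ 2 / 2) - x = (1 - c) * (v + v ^ 2 * c / 2) := by
      rw [hyc, ← hxc]
      ring
    linarith
  have hq : (1 - c) * (1 + v * c + v ^ 2 * c ^ 2 / 2) ≤ ρ * c := by
    have e : x * (1 + y + y ^ 2 / 2) * c = (1 - c) * (1 + v * c + v ^ 2 * c ^ 2 / 2) := by
      rw [hyc, ← hxc]
      ring
    rw [← e]
    exact mul_le_mul_of_nonneg_right hρ1 hc0.le
  have hπ := Real.pi_lt_d6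
  have hvv : v ≤ 15708 / 10000 + 65 / 100 * c :=
    v_le hc0.le hc1 hv0 (by linarith [h.ψ0])
  have hkx : (k - x) ≤ 2 / 3 * v ^ 2 * c ^ 3 := by
    have h1 : 2 * x * (k - x) ≤ y ^ 2 := by linarith
    have h2 : 2 * (1 - c) * (k - x) ≤ v ^ 2 * c ^ 3 := by
      have h3 : 2 * x * (k - x) * c ≤ y ^ 2 * c := mul_le_mul_of_nonneg_right h1 hc0.le
      have e1 : 2 * x * (k - x) * c = 2 * (1 - c) * (k - x) := by
        rw [← hxc]
        ring
      have e2 : y ^ 2 * c = v ^ 2 * c ^ 3 := by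
        rw [hyc]
        ring
      linarith
    nlinarith [mul_nonneg (sub_nonneg.2 hc1) (sub_nonneg.2 hxk)]
  have hρ0 : 0 < ρ := by
    rw [hρ]
    exact mul_pos h.k0 (exp_pos y)
  exact ⟨c, v, a4_hi hx3, hc0, hc1, hxc, hv0, hyc, hvv, hw, hq, hkx, by linarith,
    r_big hR hr, hρ0⟩

/-- from `ρ² ℓ` to `r ℓ` -/
theorem r_mul {ρ r c Q D ℓ A : ℝ} (hρ : 0 < ρ) (hr : 1231 / 1000 * (1 + ρ ^ 2) ≤ r) (hc : 0 < c)
    (hQ : Q ≤ ρ * c) (hD : 0 ≤ D) (hℓ : c * D ≤ ℓ) (hA : 1000 / 1231 * A ≤ Q * D) :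
    A * ρ ≤ r * ℓ := by
  have h1 : 0 ≤ ℓ := (mul_nonneg hc.le hD).trans hℓ
  have h2 : 1231 / 1000 * ρ ^ 2 * ℓ ≤ r * ℓ :=
    mul_le_mul_of_nonneg_right (by linarith) h1
  have h3 : 1000 / 1231 * A ≤ ρ * ℓ := by
    have a1 : Q * D ≤ ρ * c * D := mul_le_mul_of_nonneg_right hQ hD
    have a2 : ρ * (c * D) ≤ ρ * ℓ := mul_le_mul_of_nonneg_left hℓ hρ.le
    nlinarith
  have h4 : ρ * (1000 / 1231 * A) ≤ ρ * (ρ * ℓ) := mul_le_mul_of_nonneg_left h3 hρ.le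
  nlinarith

/-- `x ≤ 3`: the polynomial -/
theorem lo_poly {x y : ℝ} (hx : 5 / 4 * y ≤ x) (hx3 : x ≤ 3) (hy : 0 ≤ y) (hy1 : y ≤ 14 / 25) :
    0 ≤ 2 * x * (1 - y) * (41887 / 10000 - x) + 4 * x ^ 2 -
      (2719 / 1000 - (8997 / 10000 - y) * (1 + y + y ^ 2 / 2 + y ^ 3 / 6)) * (2 * x ^ 2 + y ^ 2) := by
  set C : ℝ := 2719 / 1000 - (8997 / 10000 - y) * (1 + y + y ^ 2 / 2 + y ^ 3 / 6) with hC
  have hy2 : 0 ≤ y ^ 2 := sq_nonneg y
  have hA : 0 ≤ C - (1 + y) := by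
    rw [hC]
    nlinarith [mul_nonneg hy (sub_nonneg.2 hy1), mul_nonneg hy2 (sub_nonneg.2 hy1),
      mul_nonneg (mul_nonneg hy2 hy) (sub_nonneg.2 hy1)]
  -- concave in `x`
  have hx2 : x ^ 2 ≤ (3 + 5 / 4 * y) * x - 15 / 4 * y := by
    nlinarith [mul_nonneg (sub_nonneg.2 hx) (sub_nonneg.2 hx3)]
  have g1 : 0 ≤ 2 * (5 / 4 * y) * (1 - y) * (41887 / 10000) - 2 * (C - (1 + y)) * (5 / 4 * y) ^ 2
      - C * y ^ 2 := by
    have e : 2 * (5 / 4 * y) * (1 - y) * (41887 / 10000) - 2 * (C - (1 + y)) * (5 / 4 * y) ^ 2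
      - C * y ^ 2 = y * (5 / 2 * (1 - y) * (41887 / 10000) - 25 / 8 * (C - (1 + y)) * y - C * y) := by
      ring
    rw [e]
    apply mul_nonneg hy
    rw [hC]
    nlinarith [mul_nonneg hy (sub_nonneg.2 hy1), mul_nonneg hy2 (sub_nonneg.2 hy1),
      mul_nonneg (mul_nonneg hy2 hy) (sub_nonneg.2 hy1),
      mul_nonneg (mul_nonneg hy2 hy2) (sub_nonneg.2 hy1)]
  have g2 : 0 ≤ 2 * 3 * (1 - y) * (41887 / 10000) - 2 * (C - (1 + y)) * 3 ^ 2 - C * y ^ 2 := by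
    rw [hC]
    nlinarith [mul_nonneg hy (sub_nonneg.2 hy1), mul_nonneg hy2 (sub_nonneg.2 hy1),
      mul_nonneg (mul_nonneg hy2 hy) (sub_nonneg.2 hy1),
      mul_nonneg (mul_nonneg hy2 hy2) (sub_nonneg.2 hy1),
      mul_nonneg (mul_nonneg (mul_nonneg hy2 hy2) hy) (sub_nonneg.2 hy1)]
  have e0 : 2 * x * (1 - y) * (41887 / 10000 - x) + 4 * x ^ 2 - C * (2 * x ^ 2 + y ^ 2) =
      2 * x * (1 - y) * (41887 / 10000) - 2 * (C - (1 + y)) * x ^ 2 - C * y ^ 2 := by ring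
  rw [e0]
  have h3 : 2 * (C - (1 + y)) * x ^ 2 ≤ 2 * (C - (1 + y)) * ((3 + 5 / 4 * y) * x - 15 / 4 * y) :=
    mul_le_mul_of_nonneg_left hx2 (by linarith)
  suffices hs : 0 ≤ 2 * x * (1 - y) * (41887 / 10000) -
      2 * (C - (1 + y)) * ((3 + 5 / 4 * y) * x - 15 / 4 * y) - C * y ^ 2 by linarith
  have hpos : 0 < 3 - 5 / 4 * y := by linarith
  have e1 : (3 - 5 / 4 * y) * (2 * x * (1 - y) * (41887 / 10000) -
      2 * (C - (1 + y)) * ((3 + 5 / 4 * y) * x - 15 / 4 * y) - C * y ^ 2) =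
      (3 - x) * (2 * (5 / 4 * y) * (1 - y) * (41887 / 10000) -
        2 * (C - (1 + y)) * (5 / 4 * y) ^ 2 - C * y ^ 2) +
      (x - 5 / 4 * y) * (2 * 3 * (1 - y) * (41887 / 10000) - 2 * (C - (1 + y)) * 3 ^ 2 -
        C * y ^ 2) := by ring
  have h5 := mul_nonneg (sub_nonneg.2 hx3) g1
  have h6 := mul_nonneg (sub_nonneg.2 hx) g2
  by_contra hh
  push Not at hh
  have := mul_neg_of_pos_of_neg hpos hh
  linarith

theorem poly_hi {c : ℝ} (c0 : 0 ≤ c) (c1 : c ≤ 1 / 4) (v : ℝ) :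
    0 ≤ c * ((4 - v) * (41887 / 10000) +
          ((4 - v) * ((1 - c) * (v + v ^ 2 * c / 2))) -
          (1 - c) * (8 + 32 / 3 * c + 256 / 19 * c ^ 2) -
          2719 / 1000 * (2 / 3 * v ^ 2 * c ^ 2) - Dp c v) := by
  apply mul_nonneg c0
  have e : (4 - v) * (41887 / 10000) + ((4 - v) * ((1 - c) * (v + v ^ 2 * c / 2))) -
          (1 - c) * (8 + 32 / 3 * c + 256 / 19 * c ^ 2) -
          2719 / 1000 * (2 / 3 * v ^ 2 * c ^ 2) - Dp c v =
      c * (285 / 100 - 8 / 3 - (256 / 19 - 32 / 3) * c + 256 / 19 * c ^ 2) +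
        (3813 / 1000 - 2 - 2719 / 1000 * (2 / 3)) * (v ^ 2 * c ^ 2) := by
    unfold Dp
    ring
  rw [e]
  have h1 : 0 ≤ 285 / 100 - 8 / 3 - (256 / 19 - 32 / 3) * c + 256 / 19 * c ^ 2 := by
    nlinarith [sq_nonneg (c - 1 / 10)]
  have h2 : 0 ≤ v ^ 2 * c ^ 2 := by positivity
  have := mul_nonneg c0 h1
  linarith

theorem poly_hi' {c v : ℝ} (c0 : 0 ≤ c) (c1 : c ≤ 1 / 4) (v0 : 0 ≤ v)
    (hv : v ≤ 15708 / 10000 + 65 / 100 * c) :
    0 ≤ c * ((4 + v) * (628 / 100) - (1 - c) * 8 - 2 / 3 * v ^ 2 * c ^ 2 - 16) := by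
  apply mul_nonneg c0
  have hv1 : v ≤ 2 := by linarith
  have hv2 : v ^ 2 ≤ 4 := by nlinarith
  have hc2 : c ^ 2 ≤ 1 / 16 := by nlinarith
  have : v ^ 2 * c ^ 2 ≤ 4 * (1 / 16) :=
    mul_le_mul hv2 hc2 (sq_nonneg c) (by norm_num)
  linarith

/-- level and slope at the lump `2π`, left side, `s > 0` (true `7.2`, `2.99`) -/
theorem fLr {x y z τ k ψ ρ r : ℝ} (h : ShL x y z τ k ψ) (hρ : ρ = k * exp y) (hr : 499 / 10 ≤ r)
    (hR : 27 / 5 * (1 + ρ ^ 2) ≤ r * (2 * π / 3) ^ 2) (hη : ψ + ρ - x ≤ π / 2)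
    (hζ : ψ + ρ - x + (z + τ) ≤ 2 * π / 3) :
    5 * ρ ≤ r * ((a4 x - y) * (2 * π - ψ - τ - z) + x * (1 + a4 x) - exp (a4 x) * k) ∧
      2 * ρ ≤ r * (a4 x - y) := by
  have hπ0 := Real.pi_gt_d6
  have hπ1 := Real.pi_lt_d6
  obtain ⟨hxk, hk2⟩ := shp_basic h
  have hy0 := h.y0
  have hy1 : y ≤ 14 / 25 := h.y1
  have hx0 := h.x0
  have hψ0 := h.ψ0
  have hang : 41887 / 10000 + (ρ - x) ≤ 2 * π - ψ - τ - z := by linarith
  rcases le_total x 3 with hx3 | hx3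
  · rw [a4_lo hx0 hx3]
    have hρ0 : 0 < ρ := by
      rw [hρ]
      exact mul_pos h.k0 (exp_pos y)
    have hρ3 : ρ ≤ 46 / 10 := by linarith
    constructor
    · have hlev : 1003 / 10000 * ρ ≤
          (1 - y) * (2 * π - ψ - τ - z) + x * (1 + 1) - exp 1 * k := by
        have h1 : (1 - y) * (41887 / 10000 + (ρ - x)) ≤ (1 - y) * (2 * π - ψ - τ - z) :=
          mul_le_mul_of_nonneg_left hang (by linarith)
        have h2 : exp 1 * k ≤ 2719 / 1000 * k := mul_le_mul_of_nonneg_right e1_hi h.k0.le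
        have h3 : k * (1 + y + y ^ 2 / 2 + y ^ 3 / 6) ≤ ρ := by
          rw [hρ]
          exact mul_le_mul_of_nonneg_left (e_ge3 hy0) h.k0.le
        have h4 : (8997 / 10000 - y) * (k * (1 + y + y ^ 2 / 2 + y ^ 3 / 6)) ≤
            (8997 / 10000 - y) * ρ := mul_le_mul_of_nonneg_left h3 (by linarith)
        have h5 := lo_poly (x := x) (y := y) (by linarith [h.T]) hx3 hy0 hy1
        set C : ℝ := 2719 / 1000 - (8997 / 10000 - y) * (1 + y + y ^ 2 / 2 + y ^ 3 / 6) with hC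
        have hC0 : 0 ≤ C := by
          have e1 : (8997 / 10000 - y) * (1 + y + y ^ 2 / 2 + y ^ 3 / 6) ≤ 1 * (5 / 2) := by
            apply mul_le_mul (by linarith) _ (by positivity) (by norm_num)
            have : y ^ 2 ≤ 1 := by nlinarith
            have : y ^ 3 ≤ 1 := pow_le_one₀ hy0 (by linarith)
            linarith
          rw [hC]
          linarith
        have h6 : C * (2 * x * k) ≤ C * (2 * x ^ 2 + y ^ 2) := mul_le_mul_of_nonneg_left hk2 hC0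
        have h7 : 0 ≤ 2 * x * ((1 - y) * (41887 / 10000 - x) + 2 * x - C * k) := by
          have e : 2 * x * ((1 - y) * (41887 / 10000 - x) + 2 * x - C * k) =
            2 * x * (1 - y) * (41887 / 10000 - x) + 4 * x ^ 2 - C * (2 * x * k) := by ring
          rw [e]
          linarith
        have h8 : 0 ≤ (1 - y) * (41887 / 10000 - x) + 2 * x - C * k := by
          by_contra hh
          push Not at hh
          have := mul_neg_of_pos_of_neg (by linarith : 0 < 2 * x) hh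
          linarith
        have e9 : C * k = 2719 / 1000 * k -
            (8997 / 10000 - y) * (k * (1 + y + y ^ 2 / 2 + y ^ 3 / 6)) := by
          rw [hC]
          ring
        clear_value C
        linarith
      have h0 : 0 ≤ (1 - y) * (2 * π - ψ - τ - z) + x * (1 + 1) - exp 1 * k :=
        le_trans (by positivity) hlev
      have h00 := mul_le_mul_of_nonneg_right hr h0
      linarith
    · have : 499 / 10 * (1 - y) ≤ r * (1 - y) := mul_le_mul_of_nonneg_right hr (by linarith)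
      linarith
  · obtain ⟨c, v, ha, hc0, hc1, hxc, hv0, hyc, hvv, hw, hq, hkx, hk0, hrb, hρ0⟩ :=
      hi_data h hρ hr hR hη hx3
    rw [ha]
    obtain ⟨q1, q2, q3⟩ := QD hc0.le hc1 hv0 hvv
    have hcy : 0 ≤ 4 * c - y := by
      have := mul_nonneg (by linarith : 0 ≤ 4 - v) hc0.le
      rw [hyc]
      linarith
    constructor
    · refine r_mul (D := Dp c v) hρ0 hrb hc0 hq q2.le ?_ (by linarith)
      have h1 : (4 * c - y) * (41887 / 10000 + (ρ - x)) ≤ (4 * c - y) * (2 * π - ψ - τ - z) := by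
        apply mul_le_mul_of_nonneg_left hang hcy
      have h2 : (4 * c - y) * ((1 - c) * (v + v ^ 2 * c / 2)) ≤ (4 * c - y) * (ρ - x) := by
        apply mul_le_mul_of_nonneg_left hw hcy
      have h3 : exp (4 * c) ≤ 1 + 4 * c + (4 * c) ^ 2 / 2 + (4 * c) ^ 3 / 6 + (4 * c) ^ 4 / 19 :=
        e_le3 (by linarith) (by linarith)
      have h4 : exp (4 * c) ≤ 2719 / 1000 := by
        refine le_trans ?_ e1_hi
        exact exp_le_exp.2 (by linarith)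
      have h5 : exp (4 * c) * x ≤
          (1 + 4 * c + (4 * c) ^ 2 / 2 + (4 * c) ^ 3 / 6 + (4 * c) ^ 4 / 19) * x :=
        mul_le_mul_of_nonneg_right h3 hx0.le
      have h6 : exp (4 * c) * (k - x) ≤ 2719 / 1000 * (2 / 3 * v ^ 2 * c ^ 3) :=
        mul_le_mul h4 hkx hk0 (by norm_num)
      have e5 : (1 + 4 * c + (4 * c) ^ 2 / 2 + (4 * c) ^ 3 / 6 + (4 * c) ^ 4 / 19) * x =
          x * (1 + 4 * c) + (1 - c) * (8 * c + 32 / 3 * c ^ 2 + 256 / 19 * c ^ 3) := by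
        rw [← hxc]
        ring
      have e7 : (4 * c - y) * (41887 / 10000) = c * (4 - v) * (41887 / 10000) := by
        rw [hyc]
        ring
      have e8 : (4 * c - y) * ((1 - c) * (v + v ^ 2 * c / 2)) =
          c * ((4 - v) * ((1 - c) * (v + v ^ 2 * c / 2))) := by
        rw [hyc]
        ring
      have h9 : c * Dp c v ≤ c * (4 - v) * (41887 / 10000) +
          c * ((4 - v) * ((1 - c) * (v + v ^ 2 * c / 2))) -
          (1 - c) * (8 * c + 32 / 3 * c ^ 2 + 256 / 19 * c ^ 3) -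
          2719 / 1000 * (2 / 3 * v ^ 2 * c ^ 3) := by
        have := poly_hi hc0.le hc1 v
        linarith
      linarith
    · have hv4 : v ≤ 1734 / 1000 := by linarith
      refine r_mul (D := 4 - v) hρ0 hrb hc0 hq (by linarith) ?_ ?_
      · rw [hyc]
        linarith
      · have := mul_nonneg (sub_nonneg.2 q3) (by linarith : 0 ≤ 4 - v)
        linarith

/-- left side, `s < 0` (true `21`, `4.39`) -/
theorem fLl {x y z τ k ψ ρ r : ℝ} (h : ShL x y z τ k ψ) (hρ : ρ = k * exp y) (hr : 499 / 10 ≤ r)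
    (hR : 27 / 5 * (1 + ρ ^ 2) ≤ r * (2 * π / 3) ^ 2) (hη : ψ + ρ - x ≤ π / 2) :
    10 * ρ ≤ r * ((a4 x + y) * (2 * π + ψ + τ + z) + x * (1 - a4 x) - exp (-(a4 x)) * k) ∧
      2 * ρ ≤ r * (a4 x + y) := by
  have hπ0 := Real.pi_gt_d6
  have hπ1 := Real.pi_lt_d6
  obtain ⟨hxk, hk2⟩ := shp_basic h
  have hy0 := h.y0
  have hy1 : y ≤ 14 / 25 := h.y1
  have hx0 := h.x0
  have hψ0 := h.ψ0
  have hang : 628 / 100 ≤ 2 * π + ψ + τ + z := by linarith [h.τ0, h.z0]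
  rcases le_total x 3 with hx3 | hx3
  · rw [a4_lo hx0 hx3]
    have hρ0 : 0 < ρ := by
      rw [hρ]
      exact mul_pos h.k0 (exp_pos y)
    have hρ3 : ρ ≤ 46 / 10 := by linarith
    have hkρ : k ≤ ρ := by
      rw [hρ]
      have : 1 ≤ exp y := one_le_exp hy0
      nlinarith [h.k0]
    constructor
    · have h1 : (1 + y) * (628 / 100) ≤ (1 + y) * (2 * π + ψ + τ + z) :=
        mul_le_mul_of_nonneg_left hang (by linarith)
      have h2 : exp (-1) * k ≤ 3679 / 10000 * (46 / 10) :=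
        mul_le_mul em1_hi (by linarith) h.k0.le (by norm_num)
      have h3 : 4 ≤ (1 + y) * (2 * π + ψ + τ + z) + x * (1 - 1) - exp (-1) * k := by
        linarith
      have h00 := mul_le_mul_of_nonneg_right hr (le_trans (by norm_num) h3)
      linarith
    · have : 499 / 10 * (1 + y) ≤ r * (1 + y) := mul_le_mul_of_nonneg_right hr (by linarith)
      linarith
  · obtain ⟨c, v, ha, hc0, hc1, hxc, hv0, hyc, hvv, hw, hq, hkx, hk0, hrb, hρ0⟩ :=
      hi_data h hρ hr hR hη hx3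
    rw [ha]
    obtain ⟨q1, q2, q3⟩ := QD hc0.le hc1 hv0 hvv
    constructor
    · refine r_mul (D := 16) hρ0 hrb hc0 hq (by norm_num) ?_ (by linarith)
      have h1 : (4 * c + y) * (628 / 100) ≤ (4 * c + y) * (2 * π + ψ + τ + z) :=
        mul_le_mul_of_nonneg_left hang (by linarith)
      have h3 : exp (-(4 * c)) ≤ 1 - 4 * c + (4 * c) ^ 2 / 2 := en_le2 (by linarith)
      have h4 : exp (-(4 * c)) ≤ 1 := by
        apply exp_le_one_iff.2
        linarith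
      have h5 : exp (-(4 * c)) * x ≤ (1 - 4 * c + (4 * c) ^ 2 / 2) * x :=
        mul_le_mul_of_nonneg_right h3 hx0.le
      have h6 : exp (-(4 * c)) * (k - x) ≤ 1 * (2 / 3 * v ^ 2 * c ^ 3) :=
        mul_le_mul h4 hkx hk0 (by norm_num)
      have e5 : (1 - 4 * c + (4 * c) ^ 2 / 2) * x = x * (1 - 4 * c) + (1 - c) * (8 * c) := by
        rw [← hxc]
        ring
      have e7 : (4 * c + y) * (628 / 100) = c * ((4 + v) * (628 / 100)) := by
        rw [hyc]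
        ring
      have h9 : c * 16 ≤ c * ((4 + v) * (628 / 100)) - (1 - c) * (8 * c) -
          2 / 3 * v ^ 2 * c ^ 3 := by
        have := poly_hi' hc0.le hc1 hv0 hvv
        linarith
      linarith
    · refine r_mul (D := 4) hρ0 hrb hc0 hq (by norm_num) ?_ (by linarith)
      linarith

end SokalV3O
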