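import Pool.Agent.Lib_MP_af4de1_v3o.OWt

/-!
# The wave at the angle `sE (r δ) y + (z + τ)` on the centred path
-/

set_option autoImplicit false

open Complex MeasureTheory Filter Topology SokalU SokalPG SokalF1 SokalF1S SokalF1M

namespace SokalV3O

/-- the shift of the path -/
noncomputable def xc (x y z τ : ℝ) : ℂ :=
  Complex.log (((x : ℂ) + y * I) / ((x : ℂ) - z + y * I)) + τ * I

theorem exp_xc {x y z τ : ℝ} (hK : (x : ℂ) - z + y * I ≠ 0) (hK0 : (x : ℂ) + y * I ≠ 0) :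
    cexp (xc x y z τ) = ((x : ℂ) + y * I) / ((x : ℂ) - z + y * I) * cexp (τ * I) := by
  unfold xc
  rw [Complex.exp_add, Complex.exp_log (div_ne_zero hK0 hK)]

/-- modulus of the integrand for the base point `(K - z)/δ` -/
theorem norm_cen {δ : ℝ} (hδ : 0 < δ) (x y z τ a s : ℝ) (hK : (x : ℂ) - z + y * I ≠ 0)
    (hK0 : (x : ℂ) + y * I ≠ 0) :
    ‖cexp (S (-((δ : ℂ) * I)) (((x : ℂ) - z + y * I) / δ))‖ *
      ‖f (-((δ : ℂ) * I)) (((x : ℂ) - z + y * I) / δ) (xc x y z τ) (a + s * I)‖ =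
      Real.exp (x * (1 + y) / δ) * Real.exp (-(Hc x y z τ a s / δ)) := by
  have hd : (δ : ℂ) ≠ 0 := by exact_mod_cast hδ.ne'
  unfold f S
  rw [Complex.norm_exp, Complex.norm_exp, ← Real.exp_add, ← Real.exp_add]
  congr 1
  rw [Complex.exp_add, exp_xc hK hK0]
  have e1 : ((a : ℂ) + s * I) ^ 2 / (2 * -((δ : ℂ) * I)) =
      ((-(a * s / δ) : ℝ) : ℂ) + (((a ^ 2 - s ^ 2) / (2 * δ) : ℝ) : ℂ) * I := by
    push_cast
    field_simp
    ring_nf
    rw [Complex.I_sq]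
    ring
  have e2 : cexp (τ * I) * cexp (a + s * I) =
      ((Real.exp a * Real.cos (s + τ) : ℝ) : ℂ) +
        ((Real.exp a * Real.sin (s + τ) : ℝ) : ℂ) * I := by
    rw [← Complex.exp_add, show (τ : ℂ) * I + (a + s * I) = a + ((s + τ : ℝ) : ℂ) * I by
      push_cast; ring, Complex.exp_add, Complex.exp_mul_I, ← Complex.ofReal_exp,
      ← Complex.ofReal_cos, ← Complex.ofReal_sin]
    push_cast
    ring
  have e3 : ((x : ℂ) - z + y * I) / δ * (((x : ℂ) + y * I) / ((x : ℂ) - z + y * I) *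
      cexp (τ * I) * cexp (a + s * I) - 1 - (a + s * I)) = ((1 / δ : ℝ) : ℂ) *
      (((x : ℂ) + y * I) * (cexp (τ * I) * cexp (a + s * I)) -
        ((x : ℂ) - z + y * I) * (1 + (a + s * I))) := by
    push_cast
    field_simp
    ring
  have e4 : ((x : ℂ) - z + y * I) / δ + -((δ : ℂ) * I) * (((x : ℂ) - z + y * I) / δ) ^ 2 / 2 =
      ((1 / δ : ℝ) : ℂ) * (((x : ℂ) - z + y * I) - I * ((x : ℂ) - z + y * I) ^ 2 / 2) := by
    push_cast
    field_simp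
    ring
  have e5 : (((x : ℂ) - z + y * I) - I * ((x : ℂ) - z + y * I) ^ 2 / 2) =
      (((x - z) + (x - z) * y : ℝ) : ℂ) + ((y - ((x - z) ^ 2 - y ^ 2) / 2 : ℝ) : ℂ) * I := by
    push_cast
    ring_nf
    rw [show (I : ℂ) ^ 3 = -I by rw [pow_succ, Complex.I_sq]; ring, Complex.I_sq]
    ring
  rw [e1, e3, e2, e4, e5]
  unfold Hc
  simp only [Complex.add_re, Complex.mul_re, Complex.sub_re, Complex.add_im, Complex.mul_im,
    Complex.sub_im, Complex.ofReal_re, Complex.ofReal_im, Complex.I_re, Complex.I_im,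
    Complex.one_re, Complex.one_im]
  ring

theorem norm_gi_cen {c s1 δ : ℝ} (hδ : 0 < δ) (x y z τ : ℝ) (hK : (x : ℂ) - z + y * I ≠ 0)
    (hK0 : (x : ℂ) + y * I ≠ 0) (j : ℕ) (s : ℝ) :
    ‖cexp (S (-((δ : ℂ) * I)) (((x : ℂ) - z + y * I) / δ))‖ *
      ‖gi c s1 (fun h => (((x : ℂ) - z + y * I) / δ * cexp (xc x y z τ + h)) ^ j)
        (((x : ℂ) - z + y * I) / δ) (xc x y z τ) (-((δ : ℂ) * I)) s‖ =
      Real.exp (x * (1 + y) / δ) * ‖((x : ℂ) + y * I) / δ‖ ^ j * (‖pv c s1 s‖ *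
        (Real.exp (j * pc c s1 s) * Real.exp (-(Hc x y z τ (pc c s1 s) s / δ)))) := by
  have hd : (δ : ℂ) ≠ 0 := by exact_mod_cast hδ.ne'
  have h1 := norm_cen hδ x y z τ (pc c s1 s) s hK hK0
  have h2 : ((x : ℂ) - z + y * I) / δ * cexp (xc x y z τ + SokalPG.pz c s1 s) =
      ((x : ℂ) + y * I) / δ * (cexp (τ * I) * cexp (SokalPG.pz c s1 s)) := by
    rw [Complex.exp_add, exp_xc hK hK0]
    field_simp
  have h3 : ‖cexp (SokalPG.pz c s1 s)‖ = Real.exp (pc c s1 s) := by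
    rw [Complex.norm_exp, pz_re]
  have h5 : ‖cexp ((τ : ℂ) * I)‖ = 1 := Complex.norm_exp_ofReal_mul_I τ
  unfold gi
  beta_reduce
  rw [norm_mul, norm_mul, h2, norm_pow, norm_mul, norm_mul, h5, one_mul, h3, mul_pow,
    ← Real.exp_nat_mul]
  have h4 : SokalPG.pz c s1 s = (pc c s1 s : ℂ) + s * I := rfl
  rw [h4]
  calc _ = (‖cexp (S (-((δ : ℂ) * I)) (((x : ℂ) - z + y * I) / δ))‖ *
      ‖f (-((δ : ℂ) * I)) (((x : ℂ) - z + y * I) / δ) (xc x y z τ) (pc c s1 s + s * I)‖) *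
        (‖pv c s1 s‖ * (‖((x : ℂ) + y * I) / δ‖ ^ j * Real.exp (j * pc c s1 s))) := by ring
    _ = _ := by rw [h1]; ring

theorem K_ne {x y : ℝ} (hy : y ≠ 0) : (x : ℂ) + y * I ≠ 0 := by
  have := SokalV3F.base_ne (x := x) (ζ := 0) hy
  simpa using this

theorem integrable_Wt {x y δ : ℝ} (hx : 0 ≤ x) (hδ : 0 < δ) (hk : |y| < a4 x) (hy : y ≠ 0)
    (z τ : ℝ) (j : ℕ) : Integrable (Wt x y z τ δ j) := by
  have hK := SokalV3F.base_ne (x := x) (ζ := z) hy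
  have hK0 := K_ne (x := x) hy
  have hd : (δ : ℂ) ≠ 0 := by exact_mod_cast hδ.ne'
  have h : 0 < (1 + x)⁻¹ := by positivity
  have hcs : (1 + x)⁻¹ * ss x ≤ 1 := by
    rw [c_ss hx]
    exact a4_le x
  have hk' : |y| < (1 + x)⁻¹ * ss x := by rwa [c_ss hx]
  have h1 := ((integrable_path h (ss_pos hx) hcs hδ (((x : ℂ) - z + y * I) / δ)
    (xc x y z τ) (SokalV3F.im_base hδ hk')
    (Wt_pow (((x : ℂ) - z + y * I) / δ) (xc x y z τ) j)).norm).const_mul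
      (‖cexp (S (-((δ : ℂ) * I)) (((x : ℂ) - z + y * I) / δ))‖)
  have hn : 0 < Real.exp (x * (1 + y) / δ) * ‖((x : ℂ) + y * I) / δ‖ ^ j := by
    have : 0 < ‖((x : ℂ) + y * I) / δ‖ := norm_pos_iff.2 (div_ne_zero hK0 hd)
    positivity
  have h2 := h1.const_mul (Real.exp (x * (1 + y) / δ) * ‖((x : ℂ) + y * I) / δ‖ ^ j)⁻¹
  refine h2.congr (Eventually.of_forall fun s => ?_)
  simp only
  rw [norm_gi_cen hδ x y z τ hK hK0]
  unfold Wt pr
  field_simp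

theorem Ef_cen_le {r δ y : ℝ} (hδ : 0 < δ) (hD : Dom (r * δ) y) (hy : -1 < y)
    (hk : |y| < a4 (sx (r * δ) y)) (hy0 : y ≠ 0) (z τ : ℝ) (j : ℕ) :
    ‖Ef j (tt δ) (wp r δ (sE (r * δ) y + (z + τ)))‖ ≤
      ‖sK (r * δ) y / δ‖ ^ j * sM r δ y *
        ((∫ s : ℝ, Wt (sx (r * δ) y) y z τ δ j s) / sG r δ y) := by
  set x := sx (r * δ) y with hx
  have hx0 : 0 ≤ x := sx_nonneg _ _
  have hK := SokalV3F.base_ne (x := x) (ζ := z) hy0
  have hK0 := K_ne (x := x) hy0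
  have hd : (δ : ℂ) ≠ 0 := by exact_mod_cast hδ.ne'
  have h : 0 < (1 + x)⁻¹ := by positivity
  have hcs : (1 + x)⁻¹ * ss x ≤ 1 := by
    rw [c_ss hx0]
    exact a4_le x
  have hk' : |y| < (1 + x)⁻¹ * ss x := by rwa [c_ss hx0]
  have h0 : zp (-((δ : ℂ) * I)) (((x : ℂ) - z + y * I) / δ) * cexp (xc x y z τ) =
      wp r δ (sE (r * δ) y + (z + τ)) := by
    rw [wp_add hδ hD, exp_xc hK hK0]
    unfold zp
    have e1 : cexp (-((δ : ℂ) * I) * (((x : ℂ) - z + y * I) / δ) - -((δ : ℂ) * I) / 2) =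
        cexp (-((δ : ℂ) * I) * (sK (r * δ) y / δ) - -((δ : ℂ) * I) / 2) * cexp (z * I) := by
      rw [← Complex.exp_add]
      congr 1
      unfold sK
      rw [← hx]
      field_simp
      ring
    have e2 : cexp (((z + τ : ℝ) : ℂ) * I) = cexp (z * I) * cexp (τ * I) := by
      rw [← Complex.exp_add]
      congr 1
      push_cast
      ring
    rw [e1, e2]
    unfold sK
    rw [← hx]
    field_simp
  have h1 := congrArg norm (path_formula h (ss_pos hx0) hcs hδ (((x : ℂ) - z + y * I) / δ)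
    (xc x y z τ) (SokalV3F.im_base hδ hk') j)
  rw [h0, norm_mul, norm_mul, norm_gcst hδ] at h1
  have h2 : 0 < √(2 * Real.pi * δ) := Real.sqrt_pos.2 (by have := Real.pi_pos; positivity)
  have h3 := sM_sG (r := r) hδ hy
  have h4 : ‖cexp (S (-((δ : ℂ) * I)) (((x : ℂ) - z + y * I) / δ))‖ *
      ‖∫ s : ℝ, gi (1 + x)⁻¹ (ss x) (fun h => (((x : ℂ) - z + y * I) / δ *
        cexp (xc x y z τ + h)) ^ j)
        (((x : ℂ) - z + y * I) / δ) (xc x y z τ) (-((δ : ℂ) * I)) s‖ ≤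
      Real.exp (x * (1 + y) / δ) * ‖((x : ℂ) + y * I) / δ‖ ^ j *
        ∫ s : ℝ, Wt x y z τ δ j s := by
    refine (mul_le_mul_of_nonneg_left (norm_integral_le_integral_norm _) (norm_nonneg _)).trans
      (le_of_eq ?_)
    rw [← integral_const_mul, ← integral_const_mul]
    refine integral_congr_ae (Eventually.of_forall fun s => ?_)
    exact norm_gi_cen hδ x y z τ hK hK0 j s
  have h5 : ‖Ef j (tt δ) (wp r δ (sE (r * δ) y + (z + τ)))‖ * √(2 * Real.pi * δ) ≤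
      Real.exp (x * (1 + y) / δ) * ‖((x : ℂ) + y * I) / δ‖ ^ j *
        ∫ s : ℝ, Wt x y z τ δ j s := by
    refine le_trans (le_of_eq ?_) h4
    rw [← h1, mul_comm]
    rfl
  have h6 : Real.exp (x * (1 + y) / δ) = sM r δ y / sG r δ y * √(2 * Real.pi * δ) := by
    rw [← h3, hx]
    field_simp
  rw [h6] at h5
  have h7 : ‖Ef j (tt δ) (wp r δ (sE (r * δ) y + (z + τ)))‖ * √(2 * Real.pi * δ) ≤
      (‖((x : ℂ) + y * I) / δ‖ ^ j * sM r δ y *
        ((∫ s : ℝ, Wt x y z τ δ j s) / sG r δ y)) * √(2 * Real.pi * δ) := by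
    refine h5.trans (le_of_eq ?_)
    ring
  exact le_of_mul_le_mul_right h7 h2

/-- `Out` from two bounds for the absolute integral. -/
theorem out_of_Wt {r δ y z τ C : ℝ} (hδ : 0 < δ) (hD : Dom (r * δ) y) (hy : -1 < y)
    (hk : |y| < a4 (sx (r * δ) y)) (hy0 : y ≠ 0)
    (h0 : ∫ s : ℝ, Wt (sx (r * δ) y) y z τ δ 0 s ≤ C * sG r δ y)
    (h1 : ∫ s : ℝ, Wt (sx (r * δ) y) y z τ δ 1 s ≤ C * sG r δ y) :
    SokalV3.Out r δ y (z + τ) C := by
  have hG := sG_pos (r := r) hδ hy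
  have hM := sM_pos (r := r) (δ := δ) hy
  have b0 : (∫ s : ℝ, Wt (sx (r * δ) y) y z τ δ 0 s) / sG r δ y ≤ C := by
    rwa [div_le_iff₀ hG]
  have b1 : (∫ s : ℝ, Wt (sx (r * δ) y) y z τ δ 1 s) / sG r δ y ≤ C := by
    rwa [div_le_iff₀ hG]
  refine SokalV3F.out_of ?_ ?_
  · refine (Ef_cen_le hδ hD hy hk hy0 z τ 0).trans ?_
    rw [pow_zero, one_mul, mul_comm C]
    exact mul_le_mul_of_nonneg_left b0 hM.le
  · refine (Ef_cen_le hδ hD hy hk hy0 z τ 1).trans ?_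
    rw [pow_one]
    have : 0 ≤ ‖sK (r * δ) y / δ‖ * sM r δ y := by positivity
    have := mul_le_mul_of_nonneg_left b1 this
    linarith

theorem sG_eq_Gn (r δ y : ℝ) : sG r δ y = Gn (sx (r * δ) y) y δ := rfl

end SokalV3O
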