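import Pool.Agent.Lib_MP_af4de1_v3o.OWt
import Pool.Agent.Lib_MP_af4de1_v3o.OFL

/-!
# Levels beyond the first zone, left side, `s > 0`
-/

set_option autoImplicit false

namespace SokalV3O

open Real SokalF1G

/-- concave quadratic, end points -/
theorem conc {a b c p X x : ℝ} (ha : 0 ≤ a) (hp : p < X) (h1 : p ≤ x) (h2 : x ≤ X)
    (f1 : 0 ≤ b * p - a * p ^ 2 + c) (f2 : 0 ≤ b * X - a * X ^ 2 + c) :
    0 ≤ b * x - a * x ^ 2 + c := by
  have e : (X - p) * (b * x - a * x ^ 2 + c) = (X - x) * (b * p - a * p ^ 2 + c) +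
      (x - p) * (b * X - a * X ^ 2 + c) + a * ((x - p) * (X - x) * (X - p)) := by ring
  have g1 := mul_nonneg (sub_nonneg.2 h2) f1
  have g2 := mul_nonneg (sub_nonneg.2 h1) f2
  have g3 := mul_nonneg ha (mul_nonneg (mul_nonneg (sub_nonneg.2 h1) (sub_nonneg.2 h2))
    (sub_nonneg.2 hp.le))
  by_contra hh
  push Not at hh
  have := mul_neg_of_pos_of_neg (sub_pos.2 hp) hh
  linarith

/-- `e - (λ - y) e^y`, upper bound -/
noncomputable def Cp (l y : ℝ) : ℝ := 27183 / 10000 - (l - y) * (1 + y + y ^ 2 / 2 + y ^ 3 / 6)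

theorem poly1 {x y : ℝ} (hx : 9 / 10 ≤ x) (hx3 : x ≤ 3) (hy : 0 ≤ y) (hy1 : y ≤ 14 / 25)
    (hC : x * (y + y ^ 2 / 2 + y ^ 3 / 6) ≤ 15708 / 10000) :
    0 ≤ 2 * x * (1 - y) * (418878 / 100000) + 2 * x ^ 2 * (1 + y) -
      Cp (8597 / 10000) y * (2 * x ^ 2 + y ^ 2) := by
  have hy2 : 0 ≤ y ^ 2 := sq_nonneg y
  have hA : 0 ≤ Cp (8597 / 10000) y - (1 + y) := by
    unfold Cp
    nlinarith [mul_nonneg hy (sub_nonneg.2 hy1), mul_nonneg hy2 (sub_nonneg.2 hy1),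
      mul_nonneg (mul_nonneg hy2 hy) (sub_nonneg.2 hy1)]
  have e : 2 * x * (1 - y) * (418878 / 100000) + 2 * x ^ 2 * (1 + y) -
      Cp (8597 / 10000) y * (2 * x ^ 2 + y ^ 2) =
      (2 * (1 - y) * (418878 / 100000)) * x - (2 * (Cp (8597 / 10000) y - (1 + y))) * x ^ 2 +
        (- (Cp (8597 / 10000) y * y ^ 2)) := by ring
  rw [e]
  have g1 : 0 ≤ (2 * (1 - y) * (418878 / 100000)) * (9 / 10) -
      (2 * (Cp (8597 / 10000) y - (1 + y))) * (9 / 10) ^ 2 +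
        (- (Cp (8597 / 10000) y * y ^ 2)) := by
    unfold Cp
    nlinarith [mul_nonneg hy (sub_nonneg.2 hy1), mul_nonneg hy2 (sub_nonneg.2 hy1),
      mul_nonneg (mul_nonneg hy2 hy) (sub_nonneg.2 hy1),
      mul_nonneg (mul_nonneg hy2 hy2) (sub_nonneg.2 hy1),
      mul_nonneg (mul_nonneg (mul_nonneg hy2 hy2) hy) (sub_nonneg.2 hy1)]
  rcases le_total y (48 / 100) with h48 | h48
  · refine conc (X := 3) (by linarith) (by norm_num) hx hx3 g1 ?_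
    unfold Cp
    nlinarith [mul_nonneg hy (sub_nonneg.2 h48), mul_nonneg hy2 (sub_nonneg.2 h48),
      mul_nonneg (mul_nonneg hy2 hy) (sub_nonneg.2 h48),
      mul_nonneg (mul_nonneg hy2 hy2) (sub_nonneg.2 h48),
      mul_nonneg (mul_nonneg (mul_nonneg hy2 hy2) hy) (sub_nonneg.2 h48)]
  · have hX : x ≤ 64 / 25 := by
      have h1 : (48 / 100 : ℝ) + (48 / 100) ^ 2 / 2 + (48 / 100) ^ 3 / 6 ≤
          y + y ^ 2 / 2 + y ^ 3 / 6 := by gcongr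
      have h2 := mul_le_mul_of_nonneg_left h1 (by linarith : (0 : ℝ) ≤ x)
      norm_num at h2
      linarith
    refine conc (X := 64 / 25) (by linarith) (by norm_num) hx hX g1 ?_
    have h0 : 0 ≤ y - 48 / 100 := by linarith
    unfold Cp
    nlinarith [mul_nonneg h0 (sub_nonneg.2 hy1), mul_nonneg hy (sub_nonneg.2 hy1),
      mul_nonneg hy2 (sub_nonneg.2 hy1),
      mul_nonneg (mul_nonneg hy2 hy) (sub_nonneg.2 hy1),
      mul_nonneg (mul_nonneg hy2 hy2) (sub_nonneg.2 hy1),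
      mul_nonneg (mul_nonneg (mul_nonneg hy2 hy2) hy) (sub_nonneg.2 hy1)]

theorem poly2 {x y : ℝ} (hx : 9 / 10 ≤ x) (hx3 : x ≤ 3) (hy : 0 ≤ y) (hy1 : y ≤ 14 / 25) :
    0 ≤ 2 * x * (1 - y) * (418878 / 100000) + 2 * x ^ 2 * (1 + y) -
      Cp 1 y * (2 * x ^ 2 + y ^ 2) - 2 * x * (1704 / 1000 * (1 - y) ^ 2) := by
  have hy2 : 0 ≤ y ^ 2 := sq_nonneg y
  have hA : 0 ≤ Cp 1 y - (1 + y) := by
    unfold Cp
    nlinarith [mul_nonneg hy (sub_nonneg.2 hy1), mul_nonneg hy2 (sub_nonneg.2 hy1),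
      mul_nonneg (mul_nonneg hy2 hy) (sub_nonneg.2 hy1)]
  have e : 2 * x * (1 - y) * (418878 / 100000) + 2 * x ^ 2 * (1 + y) -
      Cp 1 y * (2 * x ^ 2 + y ^ 2) - 2 * x * (1704 / 1000 * (1 - y) ^ 2) =
      (2 * (1 - y) * (418878 / 100000) - 2 * (1704 / 1000 * (1 - y) ^ 2)) * x -
        (2 * (Cp 1 y - (1 + y))) * x ^ 2 + (- (Cp 1 y * y ^ 2)) := by ring
  rw [e]
  refine conc (p := 9 / 10) (X := 3) (by linarith) (by norm_num) hx hx3 ?_ ?_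
  · unfold Cp
    nlinarith [mul_nonneg hy (sub_nonneg.2 hy1), mul_nonneg hy2 (sub_nonneg.2 hy1),
      mul_nonneg (mul_nonneg hy2 hy) (sub_nonneg.2 hy1),
      mul_nonneg (mul_nonneg hy2 hy2) (sub_nonneg.2 hy1),
      mul_nonneg (mul_nonneg (mul_nonneg hy2 hy2) hy) (sub_nonneg.2 hy1)]
  · unfold Cp
    nlinarith [mul_nonneg hy (sub_nonneg.2 hy1), mul_nonneg hy2 (sub_nonneg.2 hy1),
      mul_nonneg (mul_nonneg hy2 hy) (sub_nonneg.2 hy1),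
      mul_nonneg (mul_nonneg hy2 hy2) (sub_nonneg.2 hy1),
      mul_nonneg (mul_nonneg (mul_nonneg hy2 hy2) hy) (sub_nonneg.2 hy1)]

theorem poly3 {x y : ℝ} (hx : 5 / 4 * y ≤ x) (hx3 : x ≤ 9 / 10) (hy : 0 ≤ y)
    (hy1 : y ≤ 14 / 25) :
    0 ≤ 2 * x * (1 - y) * (268878 / 100000) + 2 * x ^ 2 * (1 + y) -
      Cp (8997 / 10000) y * (2 * x ^ 2 + y ^ 2) := by
  have hy2 : 0 ≤ y ^ 2 := sq_nonneg y
  have hA : 0 ≤ Cp (8997 / 10000) y - (1 + y) := by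
    unfold Cp
    nlinarith [mul_nonneg hy (sub_nonneg.2 hy1), mul_nonneg hy2 (sub_nonneg.2 hy1),
      mul_nonneg (mul_nonneg hy2 hy) (sub_nonneg.2 hy1)]
  have e : 2 * x * (1 - y) * (268878 / 100000) + 2 * x ^ 2 * (1 + y) -
      Cp (8997 / 10000) y * (2 * x ^ 2 + y ^ 2) =
      (2 * (1 - y) * (268878 / 100000)) * x - (2 * (Cp (8997 / 10000) y - (1 + y))) * x ^ 2 +
        (- (Cp (8997 / 10000) y * y ^ 2)) := by ring
  rw [e]
  refine conc (p := 5 / 4 * y) (X := 9 / 10) (by linarith) (by linarith) hx hx3 ?_ ?_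
  · have e2 : 2 * (1 - y) * (268878 / 100000) * (5 / 4 * y) -
        2 * (Cp (8997 / 10000) y - (1 + y)) * (5 / 4 * y) ^ 2 + -(Cp (8997 / 10000) y * y ^ 2) =
        y * (2 * (1 - y) * (268878 / 100000) * (5 / 4) -
        2 * (Cp (8997 / 10000) y - (1 + y)) * (5 / 4) ^ 2 * y - Cp (8997 / 10000) y * y) := by ring
    rw [e2]
    apply mul_nonneg hy
    unfold Cp
    nlinarith [mul_nonneg hy (sub_nonneg.2 hy1), mul_nonneg hy2 (sub_nonneg.2 hy1),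
      mul_nonneg (mul_nonneg hy2 hy) (sub_nonneg.2 hy1),
      mul_nonneg (mul_nonneg hy2 hy2) (sub_nonneg.2 hy1),
      mul_nonneg (mul_nonneg (mul_nonneg hy2 hy2) hy) (sub_nonneg.2 hy1)]
  · unfold Cp
    nlinarith [mul_nonneg hy (sub_nonneg.2 hy1), mul_nonneg hy2 (sub_nonneg.2 hy1),
      mul_nonneg (mul_nonneg hy2 hy) (sub_nonneg.2 hy1),
      mul_nonneg (mul_nonneg hy2 hy2) (sub_nonneg.2 hy1),
      mul_nonneg (mul_nonneg (mul_nonneg hy2 hy2) hy) (sub_nonneg.2 hy1)]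

theorem lo_chain {x y k ρ t l E : ℝ} (hx : 0 < x) (hy : 0 ≤ y) (hy1 : y ≤ 14 / 25) (hk : 0 < k)
    (hk2 : 2 * x * k ≤ 2 * x ^ 2 + y ^ 2) (hρ : ρ = k * exp y) (hl : y ≤ l) (hl1 : l ≤ 1)
    (hP : 0 ≤ 2 * x * (1 - y) * t + 2 * x ^ 2 * (1 + y) - Cp l y * (2 * x ^ 2 + y ^ 2) -
      2 * x * E) :
    (1 - l) * ρ + E ≤ (1 - y) * (t + (ρ - x)) + 2 * x - exp 1 * k := by
  have h2 : exp 1 * k ≤ 27183 / 10000 * k := by
    apply mul_le_mul_of_nonneg_right _ hk.le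
    have := Real.exp_one_lt_d9
    linarith
  have h3 : k * (1 + y + y ^ 2 / 2 + y ^ 3 / 6) ≤ ρ := by
    rw [hρ]
    exact mul_le_mul_of_nonneg_left (e_ge3 hy) hk.le
  have h4 : (l - y) * (k * (1 + y + y ^ 2 / 2 + y ^ 3 / 6)) ≤ (l - y) * ρ :=
    mul_le_mul_of_nonneg_left h3 (by linarith)
  have hC0 : 0 ≤ Cp l y := by
    have e1 : (l - y) * (1 + y + y ^ 2 / 2 + y ^ 3 / 6) ≤ 1 * (5 / 2) := by
      apply mul_le_mul (by linarith) _ (by positivity) (by norm_num)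
      have : y ^ 2 ≤ 1 := by nlinarith
      have : y ^ 3 ≤ 1 := pow_le_one₀ hy (by linarith)
      linarith
    unfold Cp
    linarith
  have h6 : Cp l y * (2 * x * k) ≤ Cp l y * (2 * x ^ 2 + y ^ 2) := mul_le_mul_of_nonneg_left hk2 hC0
  have h7 : 0 ≤ 2 * x * ((1 - y) * (t - x) + 2 * x - Cp l y * k - E) := by
    have e : 2 * x * ((1 - y) * (t - x) + 2 * x - Cp l y * k - E) =
      2 * x * (1 - y) * t + 2 * x ^ 2 * (1 + y) - Cp l y * (2 * x * k) - 2 * x * E := by ring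
    rw [e]
    linarith
  have h8 : 0 ≤ (1 - y) * (t - x) + 2 * x - Cp l y * k - E := by
    by_contra hh
    push Not at hh
    have := mul_neg_of_pos_of_neg (by linarith : 0 < 2 * x) hh
    linarith
  have e9 : Cp l y * k = 27183 / 10000 * k -
      (l - y) * (k * (1 + y + y ^ 2 / 2 + y ^ 3 / 6)) := by
    unfold Cp
    ring
  linarith

/-- level at the lump, `s > 0` -/
noncomputable def Lv (x y z τ k ψ : ℝ) : ℝ :=
  (a4 x - y) * (2 * π - ψ - τ - z) + x * (1 + a4 x) - exp (a4 x) * k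

/-- level at the lump, `s < 0` -/
noncomputable def Ln (x y z τ k ψ : ℝ) : ℝ :=
  (a4 x + y) * (2 * π + ψ + τ + z) + x * (1 - a4 x) - exp (-(a4 x)) * k

/-- common facts -/
theorem fl_basic {x y z τ k ψ ρ r δ : ℝ} (h : FL x y z τ k ψ ρ r δ) :
    0 < ρ ∧ 0 < r ∧ 0 < δ ∧ x ≤ k ∧ 2 * x * k ≤ 2 * x ^ 2 + y ^ 2 ∧ k ≤ ρ ∧
      ρ ≤ x + 15708 / 10000 ∧ x * (y + y ^ 2 / 2 + y ^ 3 / 6) ≤ 15708 / 10000 ∧
      418878 / 100000 + (ρ - x) ≤ 2 * π - ψ - τ - z ∧ ψ * x ≤ y ∧ δ * r = ρ := by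
  obtain ⟨hxk, hk2⟩ := shp_basic h.sh
  have hr : 0 < r := by linarith [h.r0]
  have hk := h.sh.k0
  have hy := h.sh.y0
  have hρ : 0 < ρ := by
    rw [h.rho]
    exact mul_pos hk (exp_pos y)
  have hδ : 0 < δ := by
    rw [h.del]
    exact div_pos hρ hr
  have hπ0 := Real.pi_gt_d6
  have hπ1 := Real.pi_lt_d6
  have hψ0 := h.sh.ψ0
  have hη := h.η
  have hηζ := h.ηζ
  have he := e_ge3 hy
  have h1 : k * (1 + y + y ^ 2 / 2 + y ^ 3 / 6) ≤ ρ := by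
    rw [h.rho]
    exact mul_le_mul_of_nonneg_left he hk.le
  have h2 : x * (1 + y + y ^ 2 / 2 + y ^ 3 / 6) ≤ k * (1 + y + y ^ 2 / 2 + y ^ 3 / 6) :=
    mul_le_mul_of_nonneg_right hxk (by positivity)
  have h3 : k * 1 ≤ k * (1 + y + y ^ 2 / 2 + y ^ 3 / 6) := by
    apply mul_le_mul_of_nonneg_left _ hk.le
    have : 0 ≤ y + y ^ 2 / 2 + y ^ 3 / 6 := by positivity
    linarith
  refine ⟨hρ, hr, hδ, hxk, hk2, by linarith, by linarith, by linarith, by linarith, ?_, ?_⟩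
  · have hc : 0 < cos ψ := by
      apply cos_pos_of_mem_Ioo
      constructor
      · linarith
      · linarith [h.sh.ψ1]
    have h5 : ψ * cos ψ ≤ sin ψ := by
      have h6 := Real.le_tan hψ0 (by linarith [h.sh.ψ1])
      rw [Real.tan_eq_sin_div_cos, le_div_iff₀ hc] at h6
      exact h6
    rw [h.sh.hx, h.sh.hy]
    calc ψ * (k * cos ψ) = k * (ψ * cos ψ) := by ring
      _ ≤ k * sin ψ := mul_le_mul_of_nonneg_left h5 hk.le
  · rw [h.del]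
    field_simp

/-- the clamp lies in the first zone -/
theorem flat_r {x y z τ k ψ ρ r δ : ℝ} (h : FL x y z τ k ψ ρ r δ) :
    ss x ≤ 2 * π - 3 / 2 - τ - ψ := by
  obtain ⟨hρ, hr, hδ, hxk, hk2, hkρ, hρx, hxy, hT, hψx, hδr⟩ := fl_basic h
  have hπ0 := Real.pi_gt_d6
  have hx0 := h.sh.x0
  rcases le_total x 2 with h2 | h2
  · have := ss_le x
    linarith [h.sh.τ1, h.sh.ψ1]
  · have h3 : ss x ≤ 4 := min_le_left _ _
    have h4 : ψ ≤ 7 / 25 := by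
      have hy1 : y ≤ 14 / 25 := h.sh.y1
      have : ψ * 2 ≤ ψ * x := mul_le_mul_of_nonneg_left h2 h.sh.ψ0
      linarith
    have h5 : τ ≤ 3 / 25 := by
      have hz := h.sh.zτ
      have hζ := h.sh.ζ
      have hτ := h.sh.τ0
      have h6 : 2 * (1 + 2) * τ ≤ x * (1 + x) * τ := by gcongr
      linarith
    linarith

/-- level, `9/10 ≤ x ≤ 3` -/
theorem lev_mid {x y z τ k ψ ρ r δ : ℝ} (h : FL x y z τ k ψ ρ r δ) (h1 : 9 / 10 ≤ x) (h3 : x ≤ 3) :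
    1403 / 10000 * ρ ≤ Lv x y z τ k ψ ∧ 1704 / 1000 * (1 - y) ^ 2 ≤ Lv x y z τ k ψ := by
  obtain ⟨hρ, hr, hδ, hxk, hk2, hkρ, hρx, hxy, hT, hψx, hδr⟩ := fl_basic h
  have hy0 := h.sh.y0
  have hy1 : y ≤ 14 / 25 := h.sh.y1
  have hx0 := h.sh.x0
  have hm : (1 - y) * (418878 / 100000 + (ρ - x)) ≤ (1 - y) * (2 * π - ψ - τ - z) :=
    mul_le_mul_of_nonneg_left hT (by linarith)
  unfold Lv
  rw [a4_lo hx0 h3]
  constructor
  · have := lo_chain (t := 418878 / 100000) (l := 8597 / 10000) (E := 0) hx0 hy0 hy1 h.sh.k0 hk2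
      h.rho (by linarith) (by norm_num) (by linarith [poly1 h1 h3 hy0 hy1 hxy])
    linarith
  · have := lo_chain (t := 418878 / 100000) (l := 1) (E := 1704 / 1000 * (1 - y) ^ 2) hx0 hy0 hy1
      h.sh.k0 hk2 h.rho (by linarith) le_rfl (by linarith [poly2 h1 h3 hy0 hy1])
    linarith

/-- level at the end of the first zone, `x ≤ 9/10` -/
theorem lev_small {x y z τ k ψ ρ r δ : ℝ} (h : FL x y z τ k ψ ρ r δ) (h1 : x ≤ 9 / 10) :
    1003 / 10000 * ρ ≤ (1 - y) * (2 * π - 3 / 2 - ψ - τ - z) + 2 * x - exp 1 * k := by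
  obtain ⟨hρ, hr, hδ, hxk, hk2, hkρ, hρx, hxy, hT, hψx, hδr⟩ := fl_basic h
  have hy0 := h.sh.y0
  have hy1 : y ≤ 14 / 25 := h.sh.y1
  have hx0 := h.sh.x0
  have hm : (1 - y) * (268878 / 100000 + (ρ - x)) ≤ (1 - y) * (2 * π - 3 / 2 - ψ - τ - z) :=
    mul_le_mul_of_nonneg_left (by linarith) (by linarith)
  have := lo_chain (t := 268878 / 100000) (l := 8997 / 10000) (E := 0) hx0 hy0 hy1 h.sh.k0 hk2
      h.rho (by linarith) (by norm_num) (by linarith [poly3 (by linarith [h.sh.T]) h1 hy0 hy1])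
  linarith

/-- level, `x ≥ 3` -/
theorem lev_hi {x y z τ k ψ ρ r δ : ℝ} (h : FL x y z τ k ψ ρ r δ) (hx3 : 3 ≤ x) :
    ∃ c v : ℝ, a4 x = 4 * c ∧ 0 < c ∧ c ≤ 1 / 4 ∧ x * c = 1 - c ∧ 0 ≤ v ∧ y = v * c ∧
      v ≤ 15708 / 10000 + 65 / 100 * c ∧ c * Dp c v ≤ Lv x y z τ k ψ := by
  obtain ⟨hρ, hr, hδ, hxk, hk2, hkρ, hρx, hxy, hT, hψx, hδr⟩ := fl_basic h
  obtain ⟨c, v, ha, hc0, hc1, hxc, hv0, hyc, hvv, hw, hq, hkx, hk0, hrb, hρ0⟩ :=
      hi_data h.sh h.rho h.r0 h.G h.η hx3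
  refine ⟨c, v, ha, hc0, hc1, hxc, hv0, hyc, hvv, ?_⟩
  have hπ0 := Real.pi_gt_d6
  have hηζ := h.ηζ
  have hx0 := h.sh.x0
  have hang : 41887 / 10000 + (ρ - x) ≤ 2 * π - ψ - τ - z := by linarith
  unfold Lv
  rw [ha]
  have hcy : 0 ≤ 4 * c - y := by
    have := mul_nonneg (by linarith : 0 ≤ 4 - v) hc0.le
    rw [hyc]
    linarith
  have h1 : (4 * c - y) * (41887 / 10000 + (ρ - x)) ≤ (4 * c - y) * (2 * π - ψ - τ - z) := by
    apply mul_le_mul_of_nonneg_left hang hcy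
  have h2 : (4 * c - y) * ((1 - c) * (v + v ^ 2 * c / 2)) ≤ (4 * c - y) * (ρ - x) := by
    apply mul_le_mul_of_nonneg_left hw hcy
  have h3 : exp (4 * c) ≤ 1 + 4 * c + (4 * c) ^ 2 / 2 + (4 * c) ^ 3 / 6 + (4 * c) ^ 4 / 19 :=
    e_le3 (by linarith) (by linarith)
  have h4 : exp (4 * c) ≤ 2719 / 1000 := by
    refine le_trans ?_ e1_hi
    exact exp_le_exp.2 (by linarith)
  have h5 : exp (4 * c) * x ≤
      (1 + 4 * c + (4 * c) ^ 2 / 2 + (4 * c) ^ 3 / 6 + (4 * c) ^ 4 / 19) * x :=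
    mul_le_mul_of_nonneg_right h3 hx0.le
  have h6 : exp (4 * c) * (k - x) ≤ 2719 / 1000 * (2 / 3 * v ^ 2 * c ^ 3) :=
    mul_le_mul h4 hkx hk0 (by norm_num)
  have e5 : (1 + 4 * c + (4 * c) ^ 2 / 2 + (4 * c) ^ 3 / 6 + (4 * c) ^ 4 / 19) * x =
      x * (1 + 4 * c) + (1 - c) * (8 * c + 32 / 3 * c ^ 2 + 256 / 19 * c ^ 3) := by
    rw [← hxc]
    ring
  have e7 : (4 * c - y) * (41887 / 10000) = c * (4 - v) * (41887 / 10000) := by
    rw [hyc]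
    ring
  have e8 : (4 * c - y) * ((1 - c) * (v + v ^ 2 * c / 2)) =
      c * ((4 - v) * ((1 - c) * (v + v ^ 2 * c / 2))) := by
    rw [hyc]
    ring
  have h9 : c * Dp c v ≤ c * (4 - v) * (41887 / 10000) +
      c * ((4 - v) * ((1 - c) * (v + v ^ 2 * c / 2))) -
      (1 - c) * (8 * c + 32 / 3 * c ^ 2 + 256 / 19 * c ^ 3) -
      2719 / 1000 * (2 / 3 * v ^ 2 * c ^ 3) := by
    have := poly_hi hc0.le hc1 v
    linarith
  linarith

theorem Dp_four {c v : ℝ} (c0 : 0 ≤ c) (c1 : c ≤ 1 / 4) (v0 : 0 ≤ v)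
    (hv : v ≤ 15708 / 10000 + 65 / 100 * c) : 4 ≤ Dp c v := by
  refine le_trans ?_ (Dp_mono c0 c1 v0 hv)
  have hc2 : 0 ≤ c ^ 2 := sq_nonneg c
  have : 598 / 100 - 785 / 100 * c ≤ Dp c (15708 / 10000 + 65 / 100 * c) := by
    unfold Dp
    nlinarith [mul_nonneg c0 (sub_nonneg.2 c1), mul_nonneg hc2 (sub_nonneg.2 c1),
      mul_nonneg (mul_nonneg hc2 c0) (sub_nonneg.2 c1),
      mul_nonneg (mul_nonneg hc2 hc2) (sub_nonneg.2 c1)]
  linarith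

theorem Dp_five {c v : ℝ} (c0 : 0 ≤ c) (c1 : c ≤ 1 / 5) (v0 : 0 ≤ v)
    (hv : v ≤ 15708 / 10000 + 65 / 100 * c) : 818 / 100 - 216 / 100 * v ≤ Dp c v := by
  have hv1 : v ≤ 1701 / 1000 := by linarith
  have hc2 : 0 ≤ c ^ 2 := sq_nonneg c
  have hv2 : 0 ≤ v ^ 2 := sq_nonneg v
  have hv3 : 0 ≤ v ^ 3 := pow_nonneg v0 3
  have e : Dp c v - Dp (1 / 5) v = (1 / 5 - c) * (285 / 100 + 4 * v - 3 * v ^ 2 +
      3813 / 1000 * (1 / 5 + c) * v ^ 2 + (4 / 5 - c) / 2 * v ^ 3) := by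
    unfold Dp
    ring
  have h1 : 0 ≤ 285 / 100 + 4 * v - 3 * v ^ 2 +
      3813 / 1000 * (1 / 5 + c) * v ^ 2 + (4 / 5 - c) / 2 * v ^ 3 := by
    have a1 : 0 ≤ c * v ^ 2 := mul_nonneg c0 hv2
    have a2 : 0 ≤ (4 / 5 - c) * v ^ 3 := mul_nonneg (by linarith) hv3
    nlinarith [mul_nonneg v0 (sub_nonneg.2 hv1)]
  have h2 := mul_nonneg (sub_nonneg.2 c1) h1
  have h3 : 818 / 100 - 216 / 100 * v ≤ Dp (1 / 5) v := by
    unfold Dp
    nlinarith [mul_nonneg v0 (sub_nonneg.2 hv1), mul_nonneg hv2 (sub_nonneg.2 hv1)]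
  linarith

/-- everything at the lump, `9/10 ≤ x ≤ 4` -/
theorem lump_a {x y z τ k ψ ρ r δ : ℝ} (h : FL x y z τ k ψ ρ r δ) (h1 : 9 / 10 ≤ x) (h4 : x ≤ 4) :
    7 * δ ≤ Lv x y z τ k ψ ∧
      (a4 x - y) ^ 2 ≤ 24 / 100 * (exp (a4 x) * k * Lv x y z τ k ψ) := by
  obtain ⟨hρ, hr, hδ, hxk, hk2, hkρ, hρx, hxy, hT, hψx, hδr⟩ := fl_basic h
  have hr0 := h.r0
  have hk := h.sh.k0
  have hy0 := h.sh.y0
  have hx0 := h.sh.x0
  have hδρ : 499 / 10 * δ ≤ ρ := by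
    rw [← hδr]
    nlinarith
  rcases le_total x 3 with h3 | h3
  · obtain ⟨l1, l2⟩ := lev_mid h h1 h3
    refine ⟨by linarith, ?_⟩
    rw [a4_lo hx0 h3]
    have he := Real.exp_one_gt_d9
    have a1 : 2446 / 1000 ≤ exp 1 * k := by
      have : (27182 / 10000 : ℝ) * (9 / 10) ≤ exp 1 * k := by
        apply mul_le_mul (by linarith) (by linarith) (by norm_num) (exp_pos 1).le
      linarith
    have a2 : 2446 / 1000 * (1704 / 1000 * (1 - y) ^ 2) ≤ exp 1 * k * Lv x y z τ k ψ :=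
      mul_le_mul a1 l2 (by positivity) (by positivity)
    nlinarith [sq_nonneg (1 - y)]
  · obtain ⟨c, v, ha, hc0, hc1, hxc, hv0, hyc, hvv, hL⟩ := lev_hi h h3
    have hD := Dp_four hc0.le hc1 hv0 hvv
    have hc5 : 1 / 5 ≤ c := by nlinarith
    have hL4 : c * 4 ≤ Lv x y z τ k ψ := (mul_le_mul_of_nonneg_left hD hc0.le).trans hL
    constructor
    · have hρ4 : ρ ≤ 558 / 100 := by linarith
      linarith
    · rw [ha]
      have a1 : 1 + 4 * c ≤ exp (4 * c) := by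
        have := add_one_le_exp (4 * c)
        linarith
      have a2 : (1 + 4 * c) * x ≤ exp (4 * c) * k := by gcongr
      have a3 : (1 + 4 * c) * x * (c * 4) ≤ exp (4 * c) * k * Lv x y z τ k ψ :=
        mul_le_mul a2 hL4 (by positivity) (by positivity)
      have e3 : (1 + 4 * c) * x * (c * 4) = (1 + 4 * c) * 4 * (1 - c) := by
        rw [← hxc]
        ring
      have a5 : (4 * c - y) ^ 2 ≤ (4 * c) ^ 2 := by
        have : 0 ≤ 4 * c - y := by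
          have := mul_nonneg (by linarith : 0 ≤ 4 - v) hc0.le
          rw [hyc]
          linarith
        exact pow_le_pow_left₀ this (by linarith) 2
      nlinarith

/-- everything at the lump, `x ≥ 4` -/
theorem lump_b {x y z τ k ψ ρ r δ : ℝ} (h : FL x y z τ k ψ ρ r δ) (h4 : 4 ≤ x) :
    5 * δ ≤ Lv x y z τ k ψ ∧
      (a4 x - y) ^ 2 ≤ 4 / 75 * (exp (a4 x) * k * Lv x y z τ k ψ) := by
  obtain ⟨hρ, hr, hδ, hxk, hk2, hkρ, hρx, hxy, hT, hψx, hδr⟩ := fl_basic h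
  have hx0 := h.sh.x0
  have hk := h.sh.k0
  constructor
  · obtain ⟨f1, f2⟩ := fLr h.sh h.rho h.r0 h.G h.η h.ηζ
    have : r * (5 * δ) ≤ r * Lv x y z τ k ψ := by
      unfold Lv
      calc r * (5 * δ) = 5 * (δ * r) := by ring
        _ = 5 * ρ := by rw [hδr]
        _ ≤ _ := f1
    exact le_of_mul_le_mul_left this hr
  · obtain ⟨c, v, ha, hc0, hc1, hxc, hv0, hyc, hvv, hL⟩ := lev_hi h (by linarith)
    have hc5 : c ≤ 1 / 5 := by nlinarith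
    have hD := Dp_five hc0.le hc5 hv0 hvv
    have hv1 : v ≤ 1701 / 1000 := by linarith
    rw [ha]
    have a1 : 1 + 4 * c + 8 * c ^ 2 ≤ exp (4 * c) := by
      have := Real.quadratic_le_exp_of_nonneg (x := 4 * c) (by positivity)
      linarith
    have a2 : (1 + 4 * c + 8 * c ^ 2) * x ≤ exp (4 * c) * k := by gcongr
    have a0 : 0 ≤ c * (818 / 100 - 216 / 100 * v) := mul_nonneg hc0.le (by linarith)
    have a3 : (1 + 4 * c + 8 * c ^ 2) * x * (c * (818 / 100 - 216 / 100 * v)) ≤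
        exp (4 * c) * k * Lv x y z τ k ψ :=
      mul_le_mul a2 ((mul_le_mul_of_nonneg_left hD hc0.le).trans hL) a0 (by positivity)
    have e3 : (1 + 4 * c + 8 * c ^ 2) * x * (c * (818 / 100 - 216 / 100 * v)) =
        (1 + 4 * c + 8 * c ^ 2) * (1 - c) * (818 / 100 - 216 / 100 * v) := by
      rw [← hxc]
      ring
    have a4' : 1 + 3 * c ≤ (1 + 4 * c + 8 * c ^ 2) * (1 - c) := by
      have : 0 ≤ c ^ 2 * (4 - 8 * c) := mul_nonneg (sq_nonneg c) (by linarith)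
      nlinarith
    have a5 : (1 + 3 * c) * (818 / 100 - 216 / 100 * v) ≤
        (1 + 4 * c + 8 * c ^ 2) * (1 - c) * (818 / 100 - 216 / 100 * v) :=
      mul_le_mul_of_nonneg_right a4' (by linarith)
    have e6 : (4 * c - y) ^ 2 = c ^ 2 * (4 - v) ^ 2 := by
      rw [hyc]
      ring
    rw [e6]
    have a6 : (4 - v) ^ 2 ≤ 16 - 6299 / 1000 * v := by
      nlinarith [mul_nonneg hv0 (sub_nonneg.2 hv1)]
    have a7 : c ^ 2 ≤ c / 5 := by nlinarith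
    have a8 : c ^ 2 * (4 - v) ^ 2 ≤ c / 5 * (16 - 6299 / 1000 * v) :=
      mul_le_mul a7 a6 (sq_nonneg _) (by positivity)
    have a9 : c / 5 * (16 - 6299 / 1000 * v) ≤
        4 / 75 * ((1 + 3 * c) * (818 / 100 - 216 / 100 * v)) := by
      have b1 := mul_nonneg (sub_nonneg.2 hc5) (sub_nonneg.2 hv1)
      have b2 := mul_nonneg hc0.le hv0
      linarith
    linarith

end SokalV3O
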