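import Pool.Agent.Lib_MP_af4de1_v3o.OWt
import Pool.Agent.Lib_MP_af4de1_v3.TailInt

/-!
# Generic zones of the tails beyond `3/2`

`zoneB`: the lumps, `zoneL`: linear lower bound of the height, `zoneA`: the flat bound `(1 + ρ)/4` of the height.
-/

set_option autoImplicit false

open MeasureTheory Set SokalV3T

namespace SokalV3O

/-- the integrand of the lumps -/
noncomputable def zb (F m κ c0 s : ℝ) : ℝ :=
  Real.exp (-(F + m * (s - c0) + κ * (1 - Real.cos (s - c0))))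

theorem zb_pos (F m κ c0 s : ℝ) : 0 < zb F m κ c0 s := Real.exp_pos _

theorem continuous_zb (F m κ c0 : ℝ) : Continuous (zb F m κ c0) := by
  unfold zb
  fun_prop

theorem zb_add (F m κ c0 u : ℝ) : zb F m κ c0 (u + c0) = Real.exp (-F) * gl m κ u := by
  unfold zb gl
  rw [← Real.exp_add, add_sub_cancel_right]
  congr 1
  ring

theorem ii_zb {F m κ c0 : ℝ} (hm : 0 < m) (hκ : 0 ≤ κ) (c : ℝ) :
    IntegrableOn (zb F m κ c0) (Ioi c) := by
  refine (integrableOn_exp_mul_Ioi (a := -m) (by linarith) c).const_mul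
    (Real.exp (-F + m * c0)) |>.mono' (continuous_zb F m κ c0).aestronglyMeasurable
    (Filter.Eventually.of_forall fun u => ?_)
  rw [Real.norm_of_nonneg (zb_pos _ _ _ _ _).le, ← Real.exp_add]
  refine Real.exp_le_exp.2 ?_
  have := mul_nonneg hκ (sub_nonneg.2 (Real.cos_le_one (u - c0)))
  linarith

/-- THE LUMPS: `exp (-F)` at `c0`, slope `m`, everything beyond `c0 - 3/2`. -/
theorem zoneB' {F m κ c0 : ℝ} (hm : 3 / 2 ≤ m) (hκ : 10 ≤ κ) :
    ∫ s in Ioi (c0 - 3 / 2), zb F m κ c0 s ≤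
      Real.exp (-F) * (29 / 20 + 2 * Real.exp (m ^ 2 / (4 / 5 * κ))) / √κ := by
  have hκ0 : 0 < κ := by linarith
  have hm0 : 0 < m := by linarith
  have hs : 0 < √κ := Real.sqrt_pos.2 hκ0
  have e1 : ∫ s in Ioi (c0 - 3 / 2), zb F m κ c0 s =
      Real.exp (-F) * ∫ u in Ioi (-(3 / 2) : ℝ), gl m κ u := by
    have := shift_Ioi (zb F m κ c0) (-(3 / 2)) c0
    rw [show -(3 / 2) + c0 = c0 - 3 / 2 by ring] at this
    rw [this, ← integral_const_mul]
    refine setIntegral_congr_fun measurableSet_Ioi fun u _ => ?_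
    exact zb_add F m κ c0 u
  have e2 : ∫ u in Ioi (-(3 / 2) : ℝ), gl m κ u =
      (∫ u in Ioc (-(3 / 2) : ℝ) 0, gl m κ u) + ∫ u in Ioi (0 : ℝ), gl m κ u := by
    conv_lhs => rw [← Ioc_union_Ioi_eq_Ioi (show (-(3 / 2) : ℝ) ≤ 0 by norm_num)]
    exact setIntegral_union (Ioc_disjoint_Ioi le_rfl) measurableSet_Ioi
      (continuous_gl m κ).integrableOn_Ioc (ii_gl hm0 hκ0.le 0)
  have e3 : ∫ u in Ioc (-(3 / 2) : ℝ) 0, gl m κ u ≤ 2 * Real.exp (m ^ 2 / (4 / 5 * κ)) / √κ := by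
    have h3 : ∫ u in Ioc (-(3 / 2) : ℝ) 0, gl m κ u =
        ∫ u in Ioc (0 : ℝ) (3 / 2), Real.exp (m * u - κ * (1 - Real.cos u)) := by
      rw [← intervalIntegral.integral_of_le (by norm_num),
        ← intervalIntegral.integral_of_le (by norm_num)]
      have := intervalIntegral.integral_comp_neg (a := 0) (b := 3 / 2) (gl m κ)
      rw [neg_zero] at this
      rw [← this]
      refine intervalIntegral.integral_congr fun u _ => ?_
      unfold gl
      simp only [Real.cos_neg]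
      congr 1
      ring
    rw [h3]
    exact lump_left hκ0 le_rfl
  have e4 := lump_right hm hκ
  rw [e1, e2]
  set E := Real.exp (m ^ 2 / (4 / 5 * κ)) with hE
  have hF := Real.exp_pos (-F)
  have h7 : (∫ u in Ioc (-(3 / 2) : ℝ) 0, gl m κ u) + ∫ u in Ioi (0 : ℝ), gl m κ u ≤
      (29 / 20 + 2 * E) / √κ := by
    calc _ ≤ 2 * E / √κ + 29 / 20 / √κ := by linarith
      _ = (29 / 20 + 2 * E) / √κ := by ring
  calc _ ≤ Real.exp (-F) * ((29 / 20 + 2 * E) / √κ) := mul_le_mul_of_nonneg_left h7 hF.le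
    _ = _ := by ring

theorem zoneB {F m κ c0 : ℝ} (hm : 3 / 2 ≤ m) (hκ : 10 ≤ κ) :
    ∫ s in Ioi (c0 - 3 / 2), zb F m κ c0 s ≤
      69 / 20 * Real.exp (-F + m ^ 2 / (4 / 5 * κ)) / √κ := by
  have hκ0 : 0 < κ := by linarith
  have hs : 0 < √κ := Real.sqrt_pos.2 hκ0
  refine (zoneB' hm hκ).trans ?_
  rw [Real.exp_add]
  set E := Real.exp (m ^ 2 / (4 / 5 * κ)) with hE
  have hE1 : 1 ≤ E := by
    rw [hE]
    apply Real.one_le_exp
    positivity
  have hF := Real.exp_pos (-F)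
  apply div_le_div_of_nonneg_right _ hs.le
  have h8 : Real.exp (-F) * (29 / 20 + 2 * E) ≤ Real.exp (-F) * (69 / 20 * E) :=
    mul_le_mul_of_nonneg_left (by linarith) hF.le
  linarith

/-- linear lower bound of the height -/
theorem ii_lin {E m c : ℝ} (hm : 0 < m) :
    IntegrableOn (fun s => Real.exp (-(E + m * (s - c)))) (Ioi c) := by
  refine (integrableOn_exp_mul_Ioi (a := -m) (by linarith) c).const_mul
    (Real.exp (-E + m * c)) |>.congr (Filter.Eventually.of_forall fun u => ?_)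
  show Real.exp (-E + m * c) * Real.exp (-m * u) = Real.exp (-(E + m * (u - c)))
  rw [← Real.exp_add]
  congr 1
  ring

theorem zoneL {E m c : ℝ} (hm : 0 < m) :
    ∫ s in Ioi c, Real.exp (-(E + m * (s - c))) = Real.exp (-E) / m := by
  have h1 : (fun s : ℝ => Real.exp (-(E + m * (s - c)))) =
      fun s => Real.exp (-E + m * c) * Real.exp (-m * s) := by
    funext s
    rw [← Real.exp_add]
    congr 1
    ring
  rw [h1, integral_const_mul, integral_exp_mul_Ioi (by linarith) c]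
  rw [neg_div_neg_eq, mul_div_assoc', ← Real.exp_add]
  congr 2
  ring

/-- splitting of a tail -/
theorem zone_split {W g : ℝ → ℝ} {c1 A : ℝ} (hi : IntegrableOn W (Ioi (3 / 2))) (h1 : 3 / 2 ≤ c1)
    (hA : ∀ s, 3 / 2 < s → s ≤ c1 → W s ≤ A) (hg : ∀ s, c1 < s → W s ≤ g s)
    (hgi : IntegrableOn g (Ioi c1)) :
    ∫ s in Ioi (3 / 2 : ℝ), W s ≤ (c1 - 3 / 2) * A + ∫ s in Ioi c1, g s := by
  have i1 : IntegrableOn W (Ioc (3 / 2) c1) := hi.mono_set Ioc_subset_Ioi_self
  have i2 := hi.mono_set (Ioi_subset_Ioi h1)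
  have e1 : ∫ s in Ioi (3 / 2 : ℝ), W s =
      (∫ s in Ioc (3 / 2 : ℝ) c1, W s) + ∫ s in Ioi c1, W s := by
    conv_lhs => rw [← Ioc_union_Ioi_eq_Ioi h1]
    exact setIntegral_union (Ioc_disjoint_Ioi le_rfl) measurableSet_Ioi i1 i2
  have e2 : ∫ s in Ioc (3 / 2 : ℝ) c1, W s ≤ (c1 - 3 / 2) * A := by
    calc _ ≤ ∫ _ in Ioc (3 / 2 : ℝ) c1, A := setIntegral_mono_on i1
          (integrableOn_const (by simp)) measurableSet_Ioc fun s hs => hA s hs.1 hs.2
      _ = _ := by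
        rw [setIntegral_const]
        simp [h1]
  have e3 : ∫ s in Ioi c1, W s ≤ ∫ s in Ioi c1, g s :=
    setIntegral_mono_on i2 hgi measurableSet_Ioi fun s hs => hg s hs
  linarith

theorem exp25 : (60000000000 : ℝ) ≤ Real.exp (2495 / 100) := by
  have h1 := Real.exp_one_gt_d9
  have h2 : Real.exp (2495 / 100) = Real.exp 1 ^ 24 * Real.exp (95 / 100) := by
    rw [← Real.exp_nat_mul, ← Real.exp_add]
    norm_num
  have h3 := Real.sum_le_exp_of_nonneg (x := 95 / 100) (by norm_num) 4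
  norm_num [Finset.sum_range_succ, Nat.factorial] at h3
  have h4 : (2718 / 1000 : ℝ) ^ 24 ≤ Real.exp 1 ^ 24 := pow_le_pow_left₀ (by norm_num) (by linarith) 24
  rw [h2]
  calc (60000000000 : ℝ) ≤ (2718 / 1000) ^ 24 * (254 / 100) := by norm_num
    _ ≤ Real.exp 1 ^ 24 * Real.exp (95 / 100) := by
      refine mul_le_mul h4 (by linarith) (by norm_num) (by positivity)

/-- the number of zone A -/
theorem zoneA {r ρ q : ℝ} (hr : 499 / 10 ≤ r) (hρ : 0 < ρ) (hq0 : 0 < q) (hq : q ≤ 2 * (1 + ρ)) :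
    18 * Real.exp (-(1 / 4 * (1 + ρ) / (ρ / r))) ≤ 1 / 3000 * √(2 * Real.pi * (ρ / r) / q) := by
  have hr0 : 0 < r := by linarith
  have hpi : 3.1415 < Real.pi := Real.pi_gt_d4
  obtain ⟨u, hu⟩ : ∃ u, u = r * (1 + ρ) / ρ := ⟨_, rfl⟩
  have hu1 : r ≤ u := by
    rw [hu, le_div_iff₀ hρ]
    nlinarith
  have hu0 : 0 < u := by linarith
  have e1 : -(1 / 4 * (1 + ρ) / (ρ / r)) = -(u / 4) := by
    rw [hu]
    field_simp
  rw [e1]
  have h1 : (1 / 3000 * √(2 * Real.pi * (ρ / r) / q)) = √((1 / 3000) ^ 2 * (2 * Real.pi * (ρ / r) / q)) := by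
    rw [Real.sqrt_mul (by positivity), Real.sqrt_sq (by norm_num)]
  rw [h1]
  apply Real.le_sqrt_of_sq_le
  have h2 : (18 * Real.exp (-(u / 4))) ^ 2 = 324 / Real.exp (u / 2) := by
    rw [mul_pow, ← Real.exp_nat_mul, show ((2 : ℕ) : ℝ) * -(u / 4) = -(u / 2) by push_cast; ring,
      Real.exp_neg]
    ring
  rw [h2]
  -- `exp (u/2) ≥ 1.2e9 u`
  have h3 : 1200000000 * u ≤ Real.exp (u / 2) := by
    have h4 : Real.exp (u / 2) = Real.exp (2495 / 100) * Real.exp (u / 2 - 2495 / 100) := by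
      rw [← Real.exp_add]
      congr 1
      ring
    have h5 := Real.add_one_le_exp (u / 2 - 2495 / 100)
    have h6 : u / (499 / 10) ≤ Real.exp (u / 2 - 2495 / 100) := by
      refine le_trans ?_ h5
      rw [div_le_iff₀ (by norm_num)]
      linarith
    rw [h4]
    calc 1200000000 * u ≤ 60000000000 * (u / (499 / 10)) := by
          rw [mul_div_assoc']
          rw [le_div_iff₀ (by norm_num)]
          linarith
      _ ≤ _ := mul_le_mul exp25 h6 (by positivity) (Real.exp_pos _).le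
  have h7 : 1 / (2 * u) ≤ ρ / r / q := by
    rw [div_div, div_le_div_iff₀ (by positivity) (by positivity), one_mul]
    have h8 : r * q ≤ r * (2 * (1 + ρ)) := mul_le_mul_of_nonneg_left hq hr0.le
    have h9 : ρ * (2 * u) = r * (2 * (1 + ρ)) := by
      rw [hu]
      field_simp
    rw [h9]
    exact h8
  have h10 : 324 / Real.exp (u / 2) ≤ 324 / (1200000000 * u) :=
    div_le_div_of_nonneg_left (by norm_num) (by positivity) h3
  refine h10.trans ?_
  have h11 : (1 / 3000 : ℝ) ^ 2 * (2 * Real.pi * (ρ / r) / q) = (1 / 3000) ^ 2 * (2 * Real.pi) * (ρ / r / q) := by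
    ring
  rw [h11]
  calc 324 / (1200000000 * u) = 54 / 100000000 * (1 / (2 * u)) := by
        field_simp
        norm_num
    _ ≤ (1 / 3000) ^ 2 * (2 * Real.pi) * (ρ / r / q) := by
        refine mul_le_mul ?_ h7 (by positivity) (by positivity)
        linarith

end SokalV3O
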