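import Pool.Agent.Lib_MP_af4de1_v3o.OWt
import Pool.Agent.Lib_MP_af4de1_v3o.OCL
import Pool.Agent.Lib_MP_af4de1_v3o.OFL
import Pool.Agent.Lib_MP_af4de1_v3.TailInt
import Pool.Agent.Lib_MP_af4de1_v3o.OTLa
import Pool.Agent.Lib_MP_af4de1_v3o.OFm
import Pool.Agent.Lib_MP_af4de1_v3o.OZone

/-!
# The tails beyond `3/2`, left side
-/

set_option autoImplicit false

open Complex MeasureTheory Set SokalU SokalPG SokalF1 SokalF1S SokalF1M

namespace SokalV3O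

theorem fl_lt {x y z τ k ψ ρ r δ : ℝ} (h : FL x y z τ k ψ ρ r δ) : 0 < y ∧ y < a4 x := by
  obtain ⟨hρ, hr, hδ, -⟩ := fl_basic h
  have hx := h.sh.x0
  have hw := h.w1
  have hy1 : y ≤ 14 / 25 := h.sh.y1
  refine ⟨by linarith, lt_min (by linarith) ?_⟩
  rw [lt_div_iff₀ (by linarith)]
  exact h.yx

theorem int_W {x y z τ k ψ ρ r δ : ℝ} (h : FL x y z τ k ψ ρ r δ) (j : ℕ) :
    Integrable (Wt x y z τ δ j) := by
  obtain ⟨hρ, hr, hδ, -⟩ := fl_basic h
  obtain ⟨h0, h1⟩ := fl_lt h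
  exact integrable_Wt h.sh.x0.le hδ (by rwa [abs_of_pos h0]) h0.ne' z τ j

theorem Hc_flat {x y z τ k ψ : ℝ} (hx : x = k * Real.cos ψ) (hy : y = k * Real.sin ψ) (a s : ℝ) :
    Hc x y z τ a s =
      (a - y) * (s - z) + x * (1 + a) - Real.exp a * (k * Real.cos (s + τ + ψ)) := by
  have e : x * Real.cos (s + τ) - y * Real.sin (s + τ) = k * Real.cos (s + τ + ψ) := by
    rw [Real.cos_add (s + τ) ψ, hx, hy]
    ring
  unfold Hc
  rw [e]

/-- the Gaussian against the amplitude -/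
theorem amp {w κ δ D Q : ℝ} (hw : 0 ≤ w) (hκ : 0 < κ) (hδ : 0 < δ) (hD : 0 < D) (hQ : 0 ≤ Q)
    (h : w ^ 2 * D ≤ Q ^ 2 * (2 * Real.pi) * (κ * δ)) :
    w / √κ ≤ Q * √(2 * Real.pi * δ / D) := by
  have hs : 0 < √κ := Real.sqrt_pos.2 hκ
  have hp := Real.pi_pos
  rw [div_le_iff₀ hs]
  have e : Q * √(2 * Real.pi * δ / D) * √κ = √(Q ^ 2 * (2 * Real.pi * δ / D * κ)) := by
    rw [Real.sqrt_mul (sq_nonneg Q), Real.sqrt_sq hQ, Real.sqrt_mul (by positivity)]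
    ring
  rw [e]
  apply Real.le_sqrt_of_sq_le
  have e2 : Q ^ 2 * (2 * Real.pi * δ / D * κ) = Q ^ 2 * (2 * Real.pi) * (κ * δ) / D := by
    field_simp
  rw [e2, le_div_iff₀ hD]
  exact h

/-- `δ` against the Gaussian -/
theorem del_Gn {x y δ Q : ℝ} (hδ : 0 < δ) (hQ : 0 ≤ Q) (hD : 0 < √((1 + y) ^ 2 + x ^ 2))
    (h : δ * √((1 + y) ^ 2 + x ^ 2) ≤ Q ^ 2 * (2 * Real.pi)) : δ ≤ Q * Gn x y δ := by
  unfold Gn
  have hp := Real.pi_pos
  have e : Q * √(2 * Real.pi * δ / √((1 + y) ^ 2 + x ^ 2)) =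
      √(Q ^ 2 * (2 * Real.pi * δ / √((1 + y) ^ 2 + x ^ 2))) := by
    rw [Real.sqrt_mul (sq_nonneg Q), Real.sqrt_sq hQ]
  rw [e]
  apply Real.le_sqrt_of_sq_le
  rw [mul_div_assoc', le_div_iff₀ hD]
  have := mul_le_mul_of_nonneg_left h hδ.le
  linarith

theorem D_facts {x y z τ k ψ ρ r δ : ℝ} (h : FL x y z τ k ψ ρ r δ) :
    0 < √((1 + y) ^ 2 + x ^ 2) ∧ √((1 + y) ^ 2 + x ^ 2) ≤ 1 + ρ := by
  obtain ⟨hρ, hr, hδ, hxk, hk2, hkρ, -⟩ := fl_basic h
  have hx := h.sh.x0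
  have hk := h.sh.k0
  have hk1 : k ^ 2 = x ^ 2 + y ^ 2 := by
    rw [h.sh.hx, h.sh.hy]
    have := Real.sin_sq_add_cos_sq ψ
    nlinarith
  have hyk : y ≤ k := by nlinarith [h.sh.y0]
  refine ⟨Real.sqrt_pos.2 (by positivity), ?_⟩
  rw [Real.sqrt_le_left (by linarith)]
  nlinarith

/-- zone A, pointwise -/
theorem wA {x y z τ k ψ ρ r δ : ℝ} {j : ℕ} (h : FL x y z τ k ψ ρ r δ) (hj : j ≤ 1) {s : ℝ}
    (h0 : 3 / 2 < s) (h1 : s ≤ 2 * Real.pi - 3 / 2 - τ - ψ) :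
    Wt x y z τ δ j s ≤ √2 * (Real.exp 1 * Real.exp (-(1 / 4 * (1 + ρ) / (ρ / r)))) := by
  obtain ⟨hρ, hr, hδ, -⟩ := fl_basic h
  have hx := h.sh.x0
  have hc : ‖pv (1 + x)⁻¹ (ss x) s‖ ≤ √2 := by
    refine (pv_le hx.le s).trans (Real.sqrt_le_sqrt ?_)
    have h3 : (1 + x)⁻¹ ≤ 1 := inv_le_one_of_one_le₀ (by linarith)
    have h4 : 0 ≤ (1 + x)⁻¹ := by positivity
    nlinarith
  have hp : pr x s = pa x s := pr_pos hx.le (by linarith)
  have hpa := pa_nonneg (x := x) (s := s) hx.le (by linarith)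
  have hpa1 : pa x s ≤ 1 := (pa_le x s).trans (a4_le x)
  have hj1 : (j : ℝ) ≤ 1 := by exact_mod_cast hj
  have he : Real.exp (j * pr x s) ≤ Real.exp 1 := by
    apply Real.exp_le_exp.2
    rw [hp]
    have := mul_le_mul hj1 hpa1 hpa (by norm_num)
    linarith
  have hH := cLr h.sh h0.le (by linarith)
  rw [← h.rho] at hH
  unfold Wt
  rw [hp] at he ⊢
  apply mul_le_mul hc _ (by positivity) (by positivity)
  apply mul_le_mul he _ (by positivity) (by positivity)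
  apply Real.exp_le_exp.2
  rw [h.del]
  have : 0 < ρ / r := div_pos hρ hr
  gcongr

theorem wAn {x y z τ k ψ ρ r δ : ℝ} {j : ℕ} (h : FL x y z τ k ψ ρ r δ) {v : ℝ}
    (h0 : 3 / 2 < v) (h1 : v ≤ 2 * Real.pi - 3 / 2 + τ + ψ) :
    Wt x y z τ δ j (-v) ≤ √2 * (1 * Real.exp (-(1 / 4 * (1 + ρ) / (ρ / r)))) := by
  obtain ⟨hρ, hr, hδ, -⟩ := fl_basic h
  have hx := h.sh.x0
  have hc : ‖pv (1 + x)⁻¹ (ss x) (-v)‖ ≤ √2 := by
    refine (pv_le hx.le _).trans (Real.sqrt_le_sqrt ?_)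
    have h3 : (1 + x)⁻¹ ≤ 1 := inv_le_one_of_one_le₀ (by linarith)
    have h4 : 0 ≤ (1 + x)⁻¹ := by positivity
    nlinarith
  have hp : pr x (-v) = -(pa x v) := pr_neg hx.le (by linarith)
  have hpa := pa_nonneg (x := x) (s := v) hx.le (by linarith)
  have he : Real.exp (j * pr x (-v)) ≤ 1 := by
    apply Real.exp_le_one_iff.2
    rw [hp]
    have : 0 ≤ (j : ℝ) * pa x v := by positivity
    linarith
  have hH := cLl h.sh h0.le (by linarith)
  rw [← h.rho] at hH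
  unfold Wt
  rw [hp] at he ⊢
  apply mul_le_mul hc _ (by positivity) (by positivity)
  apply mul_le_mul he _ (by positivity) (by positivity)
  apply Real.exp_le_exp.2
  rw [h.del]
  have : 0 < ρ / r := div_pos hρ hr
  gcongr

/-- zone A, integrated -/
theorem zA {x y z τ k ψ ρ r δ : ℝ} (h : FL x y z τ k ψ ρ r δ) :
    18 * Real.exp (-(1 / 4 * (1 + ρ) / (ρ / r))) ≤ 1 / 3000 * Gn x y δ := by
  obtain ⟨hρ, hr, hδ, -⟩ := fl_basic h
  obtain ⟨d0, d1⟩ := D_facts h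
  have := zoneA h.r0 hρ d0 (by linarith)
  unfold Gn
  rwa [← h.del] at *

theorem sqrt2_le : √2 ≤ (1415 / 1000 : ℝ) := by
  rw [Real.sqrt_le_left (by norm_num)]
  norm_num

theorem Gn_nonneg (x y δ : ℝ) : 0 ≤ Gn x y δ := Real.sqrt_nonneg _

/-- flat part, pointwise -/
theorem wB {x y z τ k ψ ρ r δ : ℝ} {j : ℕ} (h : FL x y z τ k ψ ρ r δ) (hj : j ≤ 1) {s : ℝ}
    (h0 : ss x ≤ s) :
    Wt x y z τ δ j s ≤ Real.exp (a4 x) * Real.exp (-(Hc x y z τ (a4 x) s / δ)) := by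
  obtain ⟨hρ, hr, hδ, -⟩ := fl_basic h
  have hx := h.sh.x0
  have hs := ss_pos hx.le
  have hp : pr x s = a4 x := by rw [pr_pos hx.le (by linarith), pa_flat hx.le h0]
  have ha := a4_pos hx.le
  have hj1 : (j : ℝ) ≤ 1 := by exact_mod_cast hj
  unfold Wt
  rw [pv_flat (by rwa [abs_of_pos (by linarith)]), hp, one_mul]
  apply mul_le_mul_of_nonneg_right _ (by positivity)
  apply Real.exp_le_exp.2
  have := mul_le_mul_of_nonneg_right hj1 ha.le
  linarith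

theorem wBn {x y z τ k ψ ρ r δ : ℝ} {j : ℕ} (h : FL x y z τ k ψ ρ r δ) {v : ℝ}
    (h0 : ss x ≤ v) :
    Wt x y z τ δ j (-v) ≤ Real.exp (-(Hc x y z τ (-(a4 x)) (-v) / δ)) := by
  obtain ⟨hρ, hr, hδ, -⟩ := fl_basic h
  have hx := h.sh.x0
  have hs := ss_pos hx.le
  have hp : pr x (-v) = -(a4 x) := by rw [pr_neg hx.le (by linarith), pa_flat hx.le h0]
  have ha := a4_pos hx.le
  unfold Wt
  rw [pv_flat (by rwa [abs_neg, abs_of_pos (by linarith)]), hp, one_mul]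
  have : Real.exp (j * -(a4 x)) ≤ 1 := by
    apply Real.exp_le_one_iff.2
    have : 0 ≤ (j : ℝ) * a4 x := by positivity
    linarith
  calc _ ≤ 1 * Real.exp (-(Hc x y z τ (-(a4 x)) (-v) / δ)) :=
        mul_le_mul_of_nonneg_right this (by positivity)
    _ = _ := one_mul _

/-- the height around the lump -/
theorem Hc_lump {x y z τ k ψ : ℝ} (hx : x = k * Real.cos ψ) (hy : y = k * Real.sin ψ) (s : ℝ) :
    Hc x y z τ (a4 x) s = Lv x y z τ k ψ + (a4 x - y) * (s - (2 * Real.pi - τ - ψ)) +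
      Real.exp (a4 x) * k * (1 - Real.cos (s - (2 * Real.pi - τ - ψ))) := by
  rw [Hc_flat hx hy]
  have e : s - (2 * Real.pi - τ - ψ) = s + τ + ψ - 2 * Real.pi := by ring
  rw [e, Real.cos_sub_two_pi]
  unfold Lv
  ring

theorem Hc_lumpn {x y z τ k ψ : ℝ} (hx : x = k * Real.cos ψ) (hy : y = k * Real.sin ψ) (v : ℝ) :
    Hc x y z τ (-(a4 x)) (-v) = Ln x y z τ k ψ + (a4 x + y) * (v - (2 * Real.pi + τ + ψ)) +
      Real.exp (-(a4 x)) * k * (1 - Real.cos (v - (2 * Real.pi + τ + ψ))) := by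
  rw [Hc_flat hx hy]
  have e : v - (2 * Real.pi + τ + ψ) = v - τ - ψ - 2 * Real.pi := by ring
  have e2 : -v + τ + ψ = -(v - τ - ψ) := by ring
  rw [e, Real.cos_sub_two_pi, e2, Real.cos_neg]
  unfold Ln
  ring

/-- numbers -/
theorem num7 : Real.exp (-7) ≤ 1 / 1000 ∧ Real.exp (-(49 / 10)) ≤ 76 / 10000 := by
  have h1 := Real.exp_one_gt_d9
  have h4 : (2718 / 1000 : ℝ) ^ 5 ≤ Real.exp 1 ^ 5 := pow_le_pow_left₀ (by norm_num) (by linarith) 5
  have h5 : (2718 / 1000 : ℝ) ^ 7 ≤ Real.exp 1 ^ 7 := pow_le_pow_left₀ (by norm_num) (by linarith) 7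
  constructor
  · have e : Real.exp (-7) = (Real.exp 1 ^ 7)⁻¹ := by
      rw [← Real.exp_nat_mul, ← Real.exp_neg]
      norm_num
    rw [e, one_div]
    apply inv_anti₀ (by norm_num)
    refine le_trans (by norm_num) h5
  · have e : Real.exp (-(49 / 10)) = (Real.exp 1 ^ 5 * Real.exp (-(1 / 10)))⁻¹ := by
      rw [← Real.exp_nat_mul, ← Real.exp_add, ← Real.exp_neg]
      norm_num
    have h6 := Real.add_one_le_exp (-(1 / 10) : ℝ)
    rw [e, inv_le_comm₀ (by positivity) (by norm_num)]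
    calc (76 / 10000 : ℝ)⁻¹ ≤ (2718 / 1000) ^ 5 * (9 / 10) := by norm_num
      _ ≤ Real.exp 1 ^ 5 * Real.exp (-(1 / 10)) :=
        mul_le_mul h4 (by linarith) (by norm_num) (by positivity)

theorem num5 : Real.exp (-5) ≤ 68 / 10000 ∧ Real.exp (-(14 / 3)) ≤ 95 / 10000 ∧
    Real.exp (-4) ≤ 19 / 1000 := by
  have h1 := Real.exp_one_gt_d9
  have h4 : (2718 / 1000 : ℝ) ^ 5 ≤ Real.exp 1 ^ 5 := pow_le_pow_left₀ (by norm_num) (by linarith) 5
  have h5 : (2718 / 1000 : ℝ) ^ 4 ≤ Real.exp 1 ^ 4 := pow_le_pow_left₀ (by norm_num) (by linarith) 4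
  refine ⟨?_, ?_, ?_⟩
  · have e : Real.exp (-5) = (Real.exp 1 ^ 5)⁻¹ := by
      rw [← Real.exp_nat_mul, ← Real.exp_neg]
      norm_num
    rw [e, inv_le_comm₀ (by positivity) (by norm_num)]
    refine le_trans (by norm_num) h4
  · have e : Real.exp (-(14 / 3)) = (Real.exp 1 ^ 4 * Real.exp (2 / 3))⁻¹ := by
      rw [← Real.exp_nat_mul, ← Real.exp_add, ← Real.exp_neg]
      norm_num
    have h6 := Real.sum_le_exp_of_nonneg (x := 2 / 3) (by norm_num) 4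
    norm_num [Finset.sum_range_succ, Nat.factorial] at h6
    rw [e, inv_le_comm₀ (by positivity) (by norm_num)]
    calc (95 / 10000 : ℝ)⁻¹ ≤ (2718 / 1000) ^ 4 * (193 / 100) := by norm_num
      _ ≤ Real.exp 1 ^ 4 * Real.exp (2 / 3) :=
        mul_le_mul h5 (by linarith) (by norm_num) (by positivity)
  · have e : Real.exp (-4) = (Real.exp 1 ^ 4)⁻¹ := by
      rw [← Real.exp_nat_mul, ← Real.exp_neg]
      norm_num
    rw [e, inv_le_comm₀ (by positivity) (by norm_num)]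
    refine le_trans (by norm_num) h5

theorem num8 : Real.exp (-8) ≤ 34 / 100000 ∧ Real.exp (-10) ≤ 5 / 100000 := by
  have h1 := Real.exp_one_gt_d9
  have h4 : (2718 / 1000 : ℝ) ^ 8 ≤ Real.exp 1 ^ 8 := pow_le_pow_left₀ (by norm_num) (by linarith) 8
  have h5 : (2718 / 1000 : ℝ) ^ 10 ≤ Real.exp 1 ^ 10 :=
    pow_le_pow_left₀ (by norm_num) (by linarith) 10
  constructor
  · have e : Real.exp (-8) = (Real.exp 1 ^ 8)⁻¹ := by
      rw [← Real.exp_nat_mul, ← Real.exp_neg]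
      norm_num
    rw [e, inv_le_comm₀ (by positivity) (by norm_num)]
    refine le_trans (by norm_num) h4
  · have e : Real.exp (-10) = (Real.exp 1 ^ 10)⁻¹ := by
      rw [← Real.exp_nat_mul, ← Real.exp_neg]
      norm_num
    rw [e, inv_le_comm₀ (by positivity) (by norm_num)]
    refine le_trans (by norm_num) h5

/-- the lumps against the Gaussian -/
theorem lumps {w F m κ c0 δ D Q L c : ℝ} (hw : 0 ≤ w) (hδ : 0 < δ) (hD : 0 < D) (hQ : 0 ≤ Q)
    (hL0 : 0 ≤ L) (hF : L ≤ F) (hc : c ≤ 1) (hm : 3 / 2 ≤ m) (hκ : 10 ≤ κ)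
    (hb : m ^ 2 ≤ 4 / 5 * c * (κ * F)) (hA : w ^ 2 * D ≤ Q ^ 2 * (2 * Real.pi) * (κ * δ)) :
    w * ∫ s in Ioi (c0 - 3 / 2), zb F m κ c0 s ≤
      Q * (29 / 20 * Real.exp (-L) + 2 * Real.exp (-((1 - c) * L))) *
        √(2 * Real.pi * δ / D) := by
  have hκ0 : 0 < κ := by linarith
  have hs : 0 < √κ := Real.sqrt_pos.2 hκ0
  have h1 := mul_le_mul_of_nonneg_left (zoneB' (F := F) (c0 := c0) hm hκ) hw
  have h2 := amp hw hκ0 hδ hD hQ hA
  have hb2 : m ^ 2 / (4 / 5 * κ) ≤ c * F := by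
    rw [div_le_iff₀ (by positivity)]
    linarith
  have e1 : Real.exp (-F) * Real.exp (m ^ 2 / (4 / 5 * κ)) ≤ Real.exp (-((1 - c) * L)) := by
    rw [← Real.exp_add]
    apply Real.exp_le_exp.2
    have : (1 - c) * L ≤ (1 - c) * F := mul_le_mul_of_nonneg_left hF (by linarith)
    linarith
  have e2 : Real.exp (-F) ≤ Real.exp (-L) := Real.exp_le_exp.2 (by linarith)
  have e3 : Real.exp (-F) * (29 / 20 + 2 * Real.exp (m ^ 2 / (4 / 5 * κ))) ≤
      29 / 20 * Real.exp (-L) + 2 * Real.exp (-((1 - c) * L)) := by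
    linarith
  have e4 : 0 ≤ Real.exp (-F) * (29 / 20 + 2 * Real.exp (m ^ 2 / (4 / 5 * κ))) := by positivity
  have e5 : 0 ≤ w / √κ := by positivity
  calc _ ≤ w * (Real.exp (-F) * (29 / 20 + 2 * Real.exp (m ^ 2 / (4 / 5 * κ))) / √κ) := h1
    _ = (Real.exp (-F) * (29 / 20 + 2 * Real.exp (m ^ 2 / (4 / 5 * κ)))) * (w / √κ) := by ring
    _ ≤ (29 / 20 * Real.exp (-L) + 2 * Real.exp (-((1 - c) * L))) *
        (Q * √(2 * Real.pi * δ / D)) := mul_le_mul e3 h2 e5 (e4.trans e3)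
    _ = _ := by ring

/-- `s > 0`, with the lumps -/
theorem tail_lump {x y z τ k ψ ρ r δ Q L c : ℝ} {j : ℕ} (h : FL x y z τ k ψ ρ r δ) (hj : j ≤ 1)
    (hQ : 0 ≤ Q) (hL0 : 0 ≤ L) (hc : c ≤ 1) (hL : L * δ ≤ Lv x y z τ k ψ)
    (hb : (a4 x - y) ^ 2 ≤ 4 / 5 * c * (Real.exp (a4 x) * k * Lv x y z τ k ψ))
    (hD : Real.exp (a4 x) * √((1 + y) ^ 2 + x ^ 2) ≤ Q ^ 2 * (2 * Real.pi) * k) :
    ∫ s in Ioi (3 / 2 : ℝ), Wt x y z τ δ j s ≤
      (1 / 3000 + Q * (29 / 20 * Real.exp (-L) + 2 * Real.exp (-((1 - c) * L)))) * Gn x y δ := by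
  obtain ⟨hρ, hr, hδ, hxk, hk2, hkρ, hρx, hxy, hT, hψx, hδr⟩ := fl_basic h
  obtain ⟨d0, d1⟩ := D_facts h
  obtain ⟨y0, y1⟩ := fl_lt h
  have hx := h.sh.x0
  have hk := h.sh.k0
  have hr0 := h.r0
  have hp0 := Real.pi_gt_d6
  have hp1 := Real.pi_lt_d6
  have hτ := h.sh.τ0
  have hτ1 := h.sh.τ1
  have hψ := h.sh.ψ0
  have hψ1 := h.sh.ψ1
  have hfl := flat_r h
  have he := Real.exp_pos (a4 x)
  have hκ : 10 ≤ Real.exp (a4 x) * k / δ := by
    have e1 : Real.exp (a4 x) * k / δ = r * Real.exp (a4 x - y) := by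
      rw [h.del, h.rho, Real.exp_sub]
      have := Real.exp_pos y
      field_simp
    rw [e1]
    have e2 : 1 ≤ Real.exp (a4 x - y) := Real.one_le_exp (by linarith)
    nlinarith
  have hm : 3 / 2 ≤ (a4 x - y) / δ := by
    have h2 := (fLr h.sh h.rho h.r0 h.G h.η h.ηζ).2
    rw [le_div_iff₀ hδ]
    rw [← hδr] at h2
    have h3 : r * (3 / 2 * δ) ≤ r * (a4 x - y) := by
      have : 0 < δ * r := by positivity
      linarith
    exact le_of_mul_le_mul_left h3 hr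
  have hF : L ≤ Lv x y z τ k ψ / δ := by rwa [le_div_iff₀ hδ]
  have hb' : ((a4 x - y) / δ) ^ 2 ≤
      4 / 5 * c * (Real.exp (a4 x) * k / δ * (Lv x y z τ k ψ / δ)) := by
    have e1 : 4 / 5 * c * (Real.exp (a4 x) * k / δ * (Lv x y z τ k ψ / δ)) =
        4 / 5 * c * (Real.exp (a4 x) * k * Lv x y z τ k ψ) / δ ^ 2 := by
      field_simp
    rw [e1, div_pow]
    gcongr
  have hA : Real.exp (a4 x) ^ 2 * √((1 + y) ^ 2 + x ^ 2) ≤
      Q ^ 2 * (2 * Real.pi) * (Real.exp (a4 x) * k / δ * δ) := by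
    have e1 : Real.exp (a4 x) * k / δ * δ = Real.exp (a4 x) * k := by field_simp
    rw [e1]
    have := mul_le_mul_of_nonneg_left hD he.le
    linarith
  have hlump := lumps (c0 := 2 * Real.pi - τ - ψ) he.le hδ d0 hQ hL0 hF hc hm hκ hb' hA
  have hz := zA h
  have hi := (int_W h j).integrableOn (s := Ioi (3 / 2 : ℝ))
  have hgi := (ii_zb (F := Lv x y z τ k ψ / δ) (m := (a4 x - y) / δ)
    (κ := Real.exp (a4 x) * k / δ) (c0 := 2 * Real.pi - τ - ψ) (by linarith) (by linarith)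
    (2 * Real.pi - τ - ψ - 3 / 2)).const_mul (Real.exp (a4 x))
  have hs := zone_split (c1 := 2 * Real.pi - τ - ψ - 3 / 2) hi (by linarith)
    (fun s h0 h1 => wA h hj h0 (by linarith))
    (fun s h0 => by
      show Wt x y z τ δ j s ≤ Real.exp (a4 x) * zb (Lv x y z τ k ψ / δ) ((a4 x - y) / δ)
        (Real.exp (a4 x) * k / δ) (2 * Real.pi - τ - ψ) s
      refine (wB h hj (by linarith)).trans (le_of_eq ?_)
      unfold zb
      rw [Hc_lump h.sh.hx h.sh.hy]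
      congr 3
      field_simp) hgi
  rw [integral_const_mul] at hs
  have hE : 0 ≤ Real.exp (-(1 / 4 * (1 + ρ) / (ρ / r))) := (Real.exp_pos _).le
  have hA2 : (2 * Real.pi - τ - ψ - 3 / 2 - 3 / 2) *
      (√2 * (Real.exp 1 * Real.exp (-(1 / 4 * (1 + ρ) / (ρ / r))))) ≤
      18 * Real.exp (-(1 / 4 * (1 + ρ) / (ρ / r))) := by
    have q1 : √2 * Real.exp 1 ≤ 1415 / 1000 * (2719 / 1000) := by
      apply mul_le_mul sqrt2_le _ (Real.exp_pos 1).le (by norm_num)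
      have := Real.exp_one_lt_d9
      linarith
    have q2 : (2 * Real.pi - τ - ψ - 3 / 2 - 3 / 2) * (√2 * Real.exp 1) ≤
        (33 / 10) * (1415 / 1000 * (2719 / 1000)) :=
      mul_le_mul (by linarith) q1 (by positivity) (by norm_num)
    have q3 : (2 * Real.pi - τ - ψ - 3 / 2 - 3 / 2) * (√2 * Real.exp 1) ≤ 18 :=
      q2.trans (by norm_num)
    calc _ = ((2 * Real.pi - τ - ψ - 3 / 2 - 3 / 2) * (√2 * Real.exp 1)) *
        Real.exp (-(1 / 4 * (1 + ρ) / (ρ / r))) := by ring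
      _ ≤ _ := mul_le_mul_of_nonneg_right q3 hE
  have hG : Gn x y δ = √(2 * Real.pi * δ / √((1 + y) ^ 2 + x ^ 2)) := rfl
  rw [← hG] at hlump
  linarith

theorem D_mid {x y : ℝ} (h1 : 9 / 10 ≤ x) (hy : 0 ≤ y) (hy1 : y ≤ 14 / 25) :
    √((1 + y) ^ 2 + x ^ 2) ≤ 2003 / 1000 * x := by
  rw [Real.sqrt_le_left (by positivity)]
  nlinarith

theorem D_big {x y : ℝ} (h1 : 4 ≤ x) (hy : 0 ≤ y) (hy1 : y ≤ 14 / 25) :
    √((1 + y) ^ 2 + x ^ 2) ≤ 11 / 10 * x := by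
  rw [Real.sqrt_le_left (by positivity)]
  nlinarith

/-- `s > 0`, `x ≤ 9/10` -/
theorem tail_lin {x y z τ k ψ ρ r δ : ℝ} {j : ℕ} (h : FL x y z τ k ψ ρ r δ) (hj : j ≤ 1)
    (hx9 : x ≤ 9 / 10) :
    ∫ s in Ioi (3 / 2 : ℝ), Wt x y z τ δ j s ≤ 1 / 50 * Gn x y δ := by
  obtain ⟨hρ, hr, hδ, hxk, hk2, hkρ, hρx, hxy, hT, hψx, hδr⟩ := fl_basic h
  obtain ⟨d0, d1⟩ := D_facts h
  obtain ⟨y0, y1⟩ := fl_lt h
  have hx := h.sh.x0
  have hk := h.sh.k0
  have hy1 : y ≤ 14 / 25 := h.sh.y1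
  have hr0 := h.r0
  have hp0 := Real.pi_gt_d6
  have hp1 := Real.pi_lt_d6
  have hτ := h.sh.τ0
  have hτ1 := h.sh.τ1
  have hψ := h.sh.ψ0
  have hψ1 := h.sh.ψ1
  have hfl := flat_r h
  have ha : a4 x = 1 := a4_lo hx (by linarith)
  have hδρ : 499 / 10 * δ ≤ ρ := by
    rw [← hδr]
    nlinarith
  have hlev := lev_small h hx9
  set M : ℝ := (1 - y) * (2 * Real.pi - 3 / 2 - ψ - τ - z) + 2 * x - Real.exp 1 * k with hM
  have hm : 0 < (1 - y) / δ := div_pos (by linarith) hδ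
  have hz := zA h
  have hi := (int_W h j).integrableOn (s := Ioi (3 / 2 : ℝ))
  have hgi := (ii_lin (E := M / δ) (m := (1 - y) / δ) (c := 2 * Real.pi - τ - ψ - 3 / 2) hm).const_mul
    (Real.exp 1)
  have hs := zone_split (c1 := 2 * Real.pi - τ - ψ - 3 / 2) hi (by linarith)
    (fun s h0 h1 => wA h hj h0 (by linarith))
    (fun s h0 => by
      show Wt x y z τ δ j s ≤ Real.exp 1 * Real.exp (-(M / δ + (1 - y) / δ *
        (s - (2 * Real.pi - τ - ψ - 3 / 2))))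
      refine (wB h hj (by linarith)).trans ?_
      rw [ha]
      apply mul_le_mul_of_nonneg_left _ (Real.exp_pos 1).le
      apply Real.exp_le_exp.2
      rw [Hc_flat h.sh.hx h.sh.hy, neg_le_neg_iff]
      have e1 : M / δ + (1 - y) / δ * (s - (2 * Real.pi - τ - ψ - 3 / 2)) =
          (M + (1 - y) * (s - (2 * Real.pi - τ - ψ - 3 / 2))) / δ := by field_simp
      rw [e1]
      apply div_le_div_of_nonneg_right _ hδ.le
      have e2 : Real.exp 1 * (k * Real.cos (s + τ + ψ)) ≤ Real.exp 1 * k := by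
        apply mul_le_mul_of_nonneg_left _ (Real.exp_pos 1).le
        have := mul_le_mul_of_nonneg_left (Real.cos_le_one (s + τ + ψ)) hk.le
        linarith
      rw [hM]
      linarith) hgi
  rw [integral_const_mul, zoneL hm] at hs
  have hE : 0 ≤ Real.exp (-(1 / 4 * (1 + ρ) / (ρ / r))) := (Real.exp_pos _).le
  have hA2 : (2 * Real.pi - τ - ψ - 3 / 2 - 3 / 2) *
      (√2 * (Real.exp 1 * Real.exp (-(1 / 4 * (1 + ρ) / (ρ / r))))) ≤
      18 * Real.exp (-(1 / 4 * (1 + ρ) / (ρ / r))) := by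
    have q1 : √2 * Real.exp 1 ≤ 1415 / 1000 * (2719 / 1000) := by
      apply mul_le_mul sqrt2_le _ (Real.exp_pos 1).le (by norm_num)
      have := Real.exp_one_lt_d9
      linarith
    have q2 : (2 * Real.pi - τ - ψ - 3 / 2 - 3 / 2) * (√2 * Real.exp 1) ≤
        (33 / 10) * (1415 / 1000 * (2719 / 1000)) :=
      mul_le_mul (by linarith) q1 (by positivity) (by norm_num)
    have q3 : (2 * Real.pi - τ - ψ - 3 / 2 - 3 / 2) * (√2 * Real.exp 1) ≤ 18 :=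
      q2.trans (by norm_num)
    calc _ = ((2 * Real.pi - τ - ψ - 3 / 2 - 3 / 2) * (√2 * Real.exp 1)) *
        Real.exp (-(1 / 4 * (1 + ρ) / (ρ / r))) := by ring
      _ ≤ _ := mul_le_mul_of_nonneg_right q3 hE
  have hB : Real.exp 1 * (Real.exp (-(M / δ)) / ((1 - y) / δ)) ≤
      19 / 1000 * (25 / 11) * δ := by
    have f1 : 5 ≤ M / δ := by
      rw [le_div_iff₀ hδ]
      linarith
    have f2 : Real.exp 1 * Real.exp (-(M / δ)) ≤ 19 / 1000 := by
      rw [← Real.exp_add]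
      refine le_trans (Real.exp_le_exp.2 ?_) num5.2.2
      linarith
    have f3 : δ / (1 - y) ≤ 25 / 11 * δ := by
      rw [div_le_iff₀ (by linarith)]
      nlinarith
    have f4 : Real.exp 1 * (Real.exp (-(M / δ)) / ((1 - y) / δ)) =
        (Real.exp 1 * Real.exp (-(M / δ))) * (δ / (1 - y)) := by
      have : 1 - y ≠ 0 := by
        have : 0 < 1 - y := by linarith
        exact this.ne'
      field_simp
    rw [f4]
    calc _ ≤ 19 / 1000 * (25 / 11 * δ) :=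
          mul_le_mul f2 f3 (div_nonneg hδ.le (by linarith)) (by norm_num)
      _ = _ := by ring
  have hd : δ ≤ 1 / 5 * Gn x y δ := by
    apply del_Gn hδ (by norm_num) d0
    have g1 : δ * √((1 + y) ^ 2 + x ^ 2) ≤ δ * (1 + ρ) := mul_le_mul_of_nonneg_left d1 hδ.le
    have g2 : ρ ≤ 25 / 10 := by linarith
    have g3 : δ * (1 + ρ) ≤ (25 / 499) * (35 / 10) := by
      apply mul_le_mul (by linarith) (by linarith) (by linarith) (by norm_num)
    linarith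
  have hG := Gn_nonneg x y δ
  linarith

/-- tail, left side, `s > 0` (true `.0016`).  `s ≤ 2π - 3/2 - τ - ψ`: `cLr`; then `k ≥ 1/2`: `fLr`, `lump_right`,
`lump_left`; `k ≤ 1/2`: linear lower bound of `Hc`. -/
theorem tailLr {x y z τ k ψ ρ r δ : ℝ} {j : ℕ} (h : FL x y z τ k ψ ρ r δ) (hj : j ≤ 1) :
    IntegrableOn (Wt x y z τ δ j) (Ioi (3 / 2)) ∧
      ∫ s in Ioi (3 / 2 : ℝ), Wt x y z τ δ j s ≤ 1 / 50 * Gn x y δ := by
  refine ⟨(int_W h j).integrableOn, ?_⟩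
  obtain ⟨hρ, hr, hδ, hxk, -⟩ := fl_basic h
  have hx := h.sh.x0
  have hk := h.sh.k0
  have hy0 := h.sh.y0
  have hy1 : y ≤ 14 / 25 := h.sh.y1
  have hp0 := Real.pi_gt_d6
  have hG := Gn_nonneg x y δ
  rcases le_total x (9 / 10) with h9 | h9
  · exact tail_lin h hj h9
  rcases le_total x 4 with h4 | h4
  · obtain ⟨l1, l2⟩ := lump_a h h9 h4
    have hD := D_mid h9 hy0 hy1
    have he : Real.exp (a4 x) ≤ 27183 / 10000 := by
      refine le_trans (Real.exp_le_exp.2 (a4_le x)) ?_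
      have := Real.exp_one_lt_d9
      linarith
    have hDD : Real.exp (a4 x) * √((1 + y) ^ 2 + x ^ 2) ≤ (94 / 100) ^ 2 * (2 * Real.pi) * k := by
      have e1 : Real.exp (a4 x) * √((1 + y) ^ 2 + x ^ 2) ≤
          27183 / 10000 * (2003 / 1000 * x) :=
        mul_le_mul he hD (Real.sqrt_nonneg _) (by norm_num)
      have e2 : 2 * (3141592 / 1000000) * x ≤ 2 * Real.pi * k := by
        apply mul_le_mul (by linarith) hxk hx.le (by positivity)
      linarith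
    have := tail_lump (Q := 94 / 100) (L := 7) (c := 3 / 10) h hj (by norm_num) (by norm_num)
      (by norm_num) l1 (by linarith) hDD
    refine this.trans (mul_le_mul_of_nonneg_right ?_ hG)
    have n1 := num7.1
    have n2 := num7.2
    have e : (-((1 - 3 / 10) * 7) : ℝ) = -(49 / 10) := by norm_num
    rw [e]
    linarith
  · obtain ⟨l1, l2⟩ := lump_b h h4
    have hD := D_big h4 hy0 hy1
    have ha : a4 x ≤ 4 / 5 := by
      refine (min_le_right _ _).trans ?_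
      rw [div_le_iff₀ (by linarith)]
      linarith
    have he : Real.exp (a4 x) ≤ 2227 / 1000 := by
      refine le_trans (Real.exp_le_exp.2 ha) ?_
      have := SokalF1G.e_le3 (x := 4 / 5) (by norm_num) (by norm_num)
      refine this.trans (by norm_num)
    have hDD : Real.exp (a4 x) * √((1 + y) ^ 2 + x ^ 2) ≤ (63 / 100) ^ 2 * (2 * Real.pi) * k := by
      have e1 : Real.exp (a4 x) * √((1 + y) ^ 2 + x ^ 2) ≤
          2227 / 1000 * (11 / 10 * x) :=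
        mul_le_mul he hD (Real.sqrt_nonneg _) (by norm_num)
      have e2 : 2 * (3141592 / 1000000) * x ≤ 2 * Real.pi * k := by
        apply mul_le_mul (by linarith) hxk hx.le (by positivity)
      linarith
    have := tail_lump (Q := 63 / 100) (L := 5) (c := 1 / 15) h hj (by norm_num) (by norm_num)
      (by norm_num) l1 (by linarith) hDD
    refine this.trans (mul_le_mul_of_nonneg_right ?_ hG)
    have n1 := num5.1
    have n2 := num5.2.1
    have e : (-((1 - 1 / 15) * 5) : ℝ) = -(14 / 3) := by norm_num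
    rw [e]
    linarith

/-- facts at the lump, `s < 0` -/
theorem neg_facts {x y z τ k ψ ρ r δ : ℝ} (h : FL x y z τ k ψ ρ r δ) :
    a4 x * x ≤ 4 ∧ (x ≤ 5 → a4 x * x ≤ 10 / 3 ∧ 2 / 3 ≤ a4 x) ∧
      (5 ≤ x → a4 x ≤ 2 / 3) ∧
      Real.exp (-(a4 x)) * k ≤ x * (1 - a4 x) + a4 x * (a4 x * x) / 2 + 2 / 5 * y := by
  obtain ⟨hρ, hr, hδ, hxk, hk2, hkρ, hρx, hxy, hT, hψx, hδr⟩ := fl_basic h
  have hx := h.sh.x0
  have hk := h.sh.k0
  have hy0 := h.sh.y0
  have ha0 := a4_pos hx.le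
  have ha1 := a4_le x
  have h1 : 0 < 1 + x := by linarith
  have ha : a4 x * (1 + x) ≤ 4 := by
    have := min_le_right 1 (4 / (1 + x))
    have h2 : a4 x ≤ 4 / (1 + x) := this
    rwa [le_div_iff₀ h1] at h2
  refine ⟨by linarith, ?_, ?_, ?_⟩
  · intro h5
    have h6 : 2 / 3 ≤ a4 x := by
      refine le_min (by norm_num) ?_
      rw [le_div_iff₀ h1]
      linarith
    refine ⟨by linarith, h6⟩
  · intro h5
    refine (min_le_right _ _).trans ?_
    rw [div_le_iff₀ h1]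
    linarith
  · have hk3 : k ≤ x + 2 / 5 * y := by
      have e1 : 2 * x * k ≤ 2 * x * (x + 2 / 5 * y) := by
        have := h.sh.T
        nlinarith
      exact le_of_mul_le_mul_left e1 (by linarith)
    have e2 := SokalF1G.en_le2 ha0.le
    have e3 : 1 - a4 x + a4 x ^ 2 / 2 ≤ 1 := by nlinarith
    have e4 : 0 ≤ Real.exp (-(a4 x)) := (Real.exp_pos _).le
    have e5 : Real.exp (-(a4 x)) * k ≤ Real.exp (-(a4 x)) * (x + 2 / 5 * y) :=
      mul_le_mul_of_nonneg_left hk3 e4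
    have e6 : Real.exp (-(a4 x)) * x ≤ (1 - a4 x + a4 x ^ 2 / 2) * x :=
      mul_le_mul_of_nonneg_right e2 hx.le
    have e7 : Real.exp (-(a4 x)) * (2 / 5 * y) ≤ 1 * (2 / 5 * y) :=
      mul_le_mul_of_nonneg_right (e2.trans e3) (by positivity)
    linarith

/-- `s < 0`, `x ≤ 5` -/
theorem tail_linn {x y z τ k ψ ρ r δ : ℝ} {j : ℕ} (h : FL x y z τ k ψ ρ r δ) (hx5 : x ≤ 5)
    (hi : IntegrableOn (fun v => Wt x y z τ δ j (-v)) (Ioi (3 / 2))) :
    ∫ v in Ioi (3 / 2 : ℝ), Wt x y z τ δ j (-v) ≤ 1 / 1000 * Gn x y δ := by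
  obtain ⟨hρ, hr, hδ, hxk, hk2, hkρ, hρx, hxy, hT, hψx, hδr⟩ := fl_basic h
  obtain ⟨d0, d1⟩ := D_facts h
  obtain ⟨y0, y1⟩ := fl_lt h
  obtain ⟨n1, n2, n3, n4⟩ := neg_facts h
  obtain ⟨n5, n6⟩ := n2 hx5
  have hx := h.sh.x0
  have hk := h.sh.k0
  have hy1 : y ≤ 14 / 25 := h.sh.y1
  have hr0 := h.r0
  have hp0 := Real.pi_gt_d6
  have hp1 := Real.pi_lt_d6
  have hτ := h.sh.τ0
  have hτ1 := h.sh.τ1
  have hψ := h.sh.ψ0
  have hψ1 := h.sh.ψ1
  have hz0 := h.sh.z0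
  have ha1 := a4_le x
  have hfl : ss x ≤ 2 * Real.pi + τ + ψ - 3 / 2 := by
    have : ss x ≤ 4 := min_le_left _ _
    linarith
  have hδρ : 499 / 10 * δ ≤ ρ := by
    rw [← hδr]
    nlinarith
  set M : ℝ := (a4 x + y) * (2 * Real.pi - 3 / 2 + ψ + τ + z) + x * (1 - a4 x) -
    Real.exp (-(a4 x)) * k with hM
  have hM8 : 8 * δ ≤ M := by
    have e1 : (a4 x + y) * (478 / 100) ≤ (a4 x + y) * (2 * Real.pi - 3 / 2 + ψ + τ + z) :=
      mul_le_mul_of_nonneg_left (by linarith) (by linarith)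
    have e2 : a4 x * (a4 x * x) ≤ a4 x * (10 / 3) := mul_le_mul_of_nonneg_left n5 (by linarith)
    linarith
  have hm : 0 < (a4 x + y) / δ := div_pos (by linarith) hδ
  have hz := zA h
  have hgi := ii_lin (E := M / δ) (m := (a4 x + y) / δ) (c := 2 * Real.pi + τ + ψ - 3 / 2) hm
  have hs := zone_split (c1 := 2 * Real.pi + τ + ψ - 3 / 2) hi (by linarith)
    (fun s h0 h1 => wAn (j := j) h h0 (by linarith))
    (fun v h0 => by
      show Wt x y z τ δ j (-v) ≤ Real.exp (-(M / δ + (a4 x + y) / δ *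
        (v - (2 * Real.pi + τ + ψ - 3 / 2))))
      refine (wBn h (by linarith)).trans ?_
      apply Real.exp_le_exp.2
      rw [Hc_flat h.sh.hx h.sh.hy, neg_le_neg_iff]
      have e1 : M / δ + (a4 x + y) / δ * (v - (2 * Real.pi + τ + ψ - 3 / 2)) =
          (M + (a4 x + y) * (v - (2 * Real.pi + τ + ψ - 3 / 2))) / δ := by field_simp
      rw [e1]
      apply div_le_div_of_nonneg_right _ hδ.le
      have e2 : Real.exp (-(a4 x)) * (k * Real.cos (-v + τ + ψ)) ≤ Real.exp (-(a4 x)) * k := by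
        apply mul_le_mul_of_nonneg_left _ (Real.exp_pos _).le
        have := mul_le_mul_of_nonneg_left (Real.cos_le_one (-v + τ + ψ)) hk.le
        linarith
      rw [hM]
      linarith) hgi
  rw [zoneL hm] at hs
  have hE : 0 ≤ Real.exp (-(1 / 4 * (1 + ρ) / (ρ / r))) := (Real.exp_pos _).le
  have hA2 : (2 * Real.pi + τ + ψ - 3 / 2 - 3 / 2) *
      (√2 * (1 * Real.exp (-(1 / 4 * (1 + ρ) / (ρ / r))))) ≤
      9 * Real.exp (-(1 / 4 * (1 + ρ) / (ρ / r))) := by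
    have q2 : (2 * Real.pi + τ + ψ - 3 / 2 - 3 / 2) * √2 ≤ (446 / 100) * (1415 / 1000) :=
      mul_le_mul (by linarith) sqrt2_le (Real.sqrt_nonneg _) (by norm_num)
    have q3 : (2 * Real.pi + τ + ψ - 3 / 2 - 3 / 2) * √2 ≤ 9 := q2.trans (by norm_num)
    calc _ = ((2 * Real.pi + τ + ψ - 3 / 2 - 3 / 2) * √2) *
        Real.exp (-(1 / 4 * (1 + ρ) / (ρ / r))) := by ring
      _ ≤ _ := mul_le_mul_of_nonneg_right q3 hE
  have hB : Real.exp (-(M / δ)) / ((a4 x + y) / δ) ≤ 34 / 100000 * (3 / 2) * δ := by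
    have f1 : 8 ≤ M / δ := by rwa [le_div_iff₀ hδ]
    have f2 : Real.exp (-(M / δ)) ≤ 34 / 100000 :=
      le_trans (Real.exp_le_exp.2 (by linarith)) num8.1
    have hay : 0 < a4 x + y := by linarith
    have f3 : δ / (a4 x + y) ≤ 3 / 2 * δ := by
      rw [div_le_iff₀ hay]
      nlinarith
    have f4 : Real.exp (-(M / δ)) / ((a4 x + y) / δ) =
        (Real.exp (-(M / δ))) * (δ / (a4 x + y)) := by
      field_simp
    rw [f4]
    calc _ ≤ 34 / 100000 * (3 / 2 * δ) :=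
          mul_le_mul f2 f3 (div_nonneg hδ.le hay.le) (by norm_num)
      _ = _ := by ring
  have hd : δ ≤ 1 / 2 * Gn x y δ := by
    apply del_Gn hδ (by norm_num) d0
    have g1 : δ * √((1 + y) ^ 2 + x ^ 2) ≤ δ * (1 + ρ) := mul_le_mul_of_nonneg_left d1 hδ.le
    have g2 : ρ ≤ 66 / 10 := by linarith
    have g3 : δ * (1 + ρ) ≤ (66 / 499) * (76 / 10) := by
      apply mul_le_mul (by linarith) (by linarith) (by linarith) (by norm_num)
    linarith
  have hG := Gn_nonneg x y δ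
  linarith

/-- `s < 0`, `x ≥ 5` -/
theorem tail_lumpn {x y z τ k ψ ρ r δ : ℝ} {j : ℕ} (h : FL x y z τ k ψ ρ r δ) (hx5 : 5 ≤ x)
    (hi : IntegrableOn (fun v => Wt x y z τ δ j (-v)) (Ioi (3 / 2))) :
    ∫ v in Ioi (3 / 2 : ℝ), Wt x y z τ δ j (-v) ≤ 1 / 1000 * Gn x y δ := by
  obtain ⟨hρ, hr, hδ, hxk, hk2, hkρ, hρx, hxy, hT, hψx, hδr⟩ := fl_basic h
  obtain ⟨d0, d1⟩ := D_facts h
  obtain ⟨y0, y1⟩ := fl_lt h
  obtain ⟨n1, n2, n3, n4⟩ := neg_facts h
  have n5 := n3 hx5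
  have hx := h.sh.x0
  have hk := h.sh.k0
  have hy1 : y ≤ 14 / 25 := h.sh.y1
  have hr0 := h.r0
  have hp0 := Real.pi_gt_d6
  have hp1 := Real.pi_lt_d6
  have hτ := h.sh.τ0
  have hτ1 := h.sh.τ1
  have hψ := h.sh.ψ0
  have hψ1 := h.sh.ψ1
  have hz0 := h.sh.z0
  have ha1 := a4_le x
  have ha0 := a4_pos hx.le
  have hfl : ss x ≤ 2 * Real.pi + τ + ψ - 3 / 2 := by
    have : ss x ≤ 4 := min_le_left _ _
    linarith
  have he : 1 / 2 ≤ Real.exp (-(a4 x)) := by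
    have h1 := SokalF1G.en_ge3 (x := 2 / 3) (by norm_num)
    have h2 : Real.exp (-(2 / 3)) ≤ Real.exp (-(a4 x)) := Real.exp_le_exp.2 (by linarith)
    refine le_trans ?_ h2
    refine le_trans (by norm_num) h1
  obtain ⟨f1, f2⟩ := fLl h.sh h.rho h.r0 h.G h.η
  have hL : 10 * δ ≤ Ln x y z τ k ψ := by
    have : r * (10 * δ) ≤ r * Ln x y z τ k ψ := by
      unfold Ln
      calc r * (10 * δ) = 10 * (δ * r) := by ring
        _ = 10 * ρ := by rw [hδr]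
        _ ≤ _ := f1
    exact le_of_mul_le_mul_left this hr
  have hL2 : 428 / 100 * (a4 x + y) ≤ Ln x y z τ k ψ := by
    have e1 : (a4 x + y) * (628 / 100) ≤ (a4 x + y) * (2 * Real.pi + ψ + τ + z) :=
      mul_le_mul_of_nonneg_left (by linarith) (by linarith)
    have e2 : a4 x * (a4 x * x) ≤ a4 x * 4 := mul_le_mul_of_nonneg_left n1 (by linarith)
    unfold Ln
    linarith
  have hκ : 10 ≤ Real.exp (-(a4 x)) * k / δ := by
    have e1 : Real.exp (-(a4 x)) * k / δ = r * (Real.exp (-(a4 x)) * Real.exp (-y)) := by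
      rw [h.del, h.rho, Real.exp_neg y]
      have := Real.exp_pos y
      field_simp
    rw [e1]
    have e2 := SokalF1G.en_ge1 (x := y)
    have e3 : (1 / 2 : ℝ) * (44 / 100) ≤ Real.exp (-(a4 x)) * Real.exp (-y) :=
      mul_le_mul he (by linarith) (by norm_num) (by positivity)
    calc (10 : ℝ) ≤ 499 / 10 * (1 / 2 * (44 / 100)) := by norm_num
      _ ≤ _ := mul_le_mul hr0 e3 (by norm_num) hr.le
  have hm : 3 / 2 ≤ (a4 x + y) / δ := by
    rw [le_div_iff₀ hδ]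
    rw [← hδr] at f2
    have h3 : r * (3 / 2 * δ) ≤ r * (a4 x + y) := by
      have : 0 < δ * r := by positivity
      linarith
    exact le_of_mul_le_mul_left h3 hr
  have hF : 10 ≤ Ln x y z τ k ψ / δ := by rwa [le_div_iff₀ hδ]
  have hb : (a4 x + y) ^ 2 ≤ 4 / 5 * (1 / 5) * (Real.exp (-(a4 x)) * k * Ln x y z τ k ψ) := by
    have e1 : (1 / 2 : ℝ) * 5 ≤ Real.exp (-(a4 x)) * k :=
      mul_le_mul he (by linarith) (by norm_num) (by positivity)
    have e2 : 1 / 2 * 5 * (428 / 100 * (a4 x + y)) ≤ Real.exp (-(a4 x)) * k * Ln x y z τ k ψ :=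
      mul_le_mul e1 hL2 (by positivity) (by positivity)
    have e3 : (a4 x + y) ^ 2 ≤ 13 / 10 * (a4 x + y) := by
      have : a4 x + y ≤ 13 / 10 := by linarith
      rw [sq]
      exact mul_le_mul_of_nonneg_right this (by linarith)
    linarith
  have hb' : ((a4 x + y) / δ) ^ 2 ≤
      4 / 5 * (1 / 5) * (Real.exp (-(a4 x)) * k / δ * (Ln x y z τ k ψ / δ)) := by
    have e1 : 4 / 5 * (1 / 5) * (Real.exp (-(a4 x)) * k / δ * (Ln x y z τ k ψ / δ)) =
        4 / 5 * (1 / 5) * (Real.exp (-(a4 x)) * k * Ln x y z τ k ψ) / δ ^ 2 := by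
      field_simp
    rw [e1, div_pow]
    gcongr
  have hA : (1 : ℝ) ^ 2 * √((1 + y) ^ 2 + x ^ 2) ≤
      (60 / 100) ^ 2 * (2 * Real.pi) * (Real.exp (-(a4 x)) * k / δ * δ) := by
    have e1 : Real.exp (-(a4 x)) * k / δ * δ = Real.exp (-(a4 x)) * k := by field_simp
    rw [e1]
    have hD := D_big (by linarith : 4 ≤ x) y0.le hy1
    have e3 : 1 / 2 * x ≤ Real.exp (-(a4 x)) * k := mul_le_mul he hxk hx.le (by positivity)
    have e4 : 2 * (3141592 / 1000000) * (1 / 2 * x) ≤ 2 * Real.pi * (Real.exp (-(a4 x)) * k) :=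
      mul_le_mul (by linarith) e3 (by positivity) (by positivity)
    linarith
  have hlump := lumps (c0 := 2 * Real.pi + τ + ψ) (L := 10) zero_le_one hδ d0 (by norm_num)
    (by norm_num) hF (by norm_num) hm hκ hb' hA
  have hz := zA h
  have hgi := (ii_zb (F := Ln x y z τ k ψ / δ) (m := (a4 x + y) / δ)
    (κ := Real.exp (-(a4 x)) * k / δ) (c0 := 2 * Real.pi + τ + ψ) (by linarith) (by linarith)
    (2 * Real.pi + τ + ψ - 3 / 2))
  have hs := zone_split (c1 := 2 * Real.pi + τ + ψ - 3 / 2) hi (by linarith)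
    (fun s h0 h1 => wAn (j := j) h h0 (by linarith))
    (fun v h0 => by
      show Wt x y z τ δ j (-v) ≤ zb (Ln x y z τ k ψ / δ) ((a4 x + y) / δ)
        (Real.exp (-(a4 x)) * k / δ) (2 * Real.pi + τ + ψ) v
      refine (wBn h (by linarith)).trans (le_of_eq ?_)
      unfold zb
      rw [Hc_lumpn h.sh.hx h.sh.hy]
      congr 2
      field_simp) hgi
  have hE : 0 ≤ Real.exp (-(1 / 4 * (1 + ρ) / (ρ / r))) := (Real.exp_pos _).le
  have hA2 : (2 * Real.pi + τ + ψ - 3 / 2 - 3 / 2) *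
      (√2 * (1 * Real.exp (-(1 / 4 * (1 + ρ) / (ρ / r))))) ≤
      9 * Real.exp (-(1 / 4 * (1 + ρ) / (ρ / r))) := by
    have q2 : (2 * Real.pi + τ + ψ - 3 / 2 - 3 / 2) * √2 ≤ (446 / 100) * (1415 / 1000) :=
      mul_le_mul (by linarith) sqrt2_le (Real.sqrt_nonneg _) (by norm_num)
    have q3 : (2 * Real.pi + τ + ψ - 3 / 2 - 3 / 2) * √2 ≤ 9 := q2.trans (by norm_num)
    calc _ = ((2 * Real.pi + τ + ψ - 3 / 2 - 3 / 2) * √2) *
        Real.exp (-(1 / 4 * (1 + ρ) / (ρ / r))) := by ring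
      _ ≤ _ := mul_le_mul_of_nonneg_right q3 hE
  have hG : Gn x y δ = √(2 * Real.pi * δ / √((1 + y) ^ 2 + x ^ 2)) := rfl
  rw [← hG, one_mul] at hlump
  have hG0 := Gn_nonneg x y δ
  have m1 := num8.1
  have m2 := num8.2
  have e : (-((1 - 1 / 5) * 10) : ℝ) = -8 := by norm_num
  rw [e] at hlump
  have e7 : 60 / 100 * (29 / 20 * Real.exp (-10) + 2 * Real.exp (-8)) * Gn x y δ ≤
      (60 / 100 * (29 / 20 * (5 / 100000) + 2 * (34 / 100000))) * Gn x y δ :=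
    mul_le_mul_of_nonneg_right (by linarith) hG0
  linarith

/-- tail, left side, `s < 0` (true `3e-9`) -/
theorem tailLl {x y z τ k ψ ρ r δ : ℝ} {j : ℕ} (h : FL x y z τ k ψ ρ r δ) (hj : j ≤ 1) :
    IntegrableOn (fun v => Wt x y z τ δ j (-v)) (Ioi (3 / 2)) ∧
      ∫ v in Ioi (3 / 2 : ℝ), Wt x y z τ δ j (-v) ≤ 1 / 1000 * Gn x y δ := by
  have hi : IntegrableOn (fun v => Wt x y z τ δ j (-v)) (Ioi (3 / 2)) :=
    (int_W h j).comp_neg.integrableOn
  refine ⟨hi, ?_⟩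
  rcases le_total x 5 with h5 | h5
  · exact tail_linn h h5 hi
  · exact tail_lumpn h h5 hi

end SokalV3O
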