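import Pool.Agent.Lib_MP_af4de1_v3o.ODef

set_option autoImplicit false

namespace SokalV3O

open Real SokalF1G

private theorem exp_ocr {t : ℝ} (h0 : 0 ≤ t) (h1 : t ≤ 1) :
    1 - t + t ^ 2 / 2 - t ^ 3 / 6 ≤ exp (-t) ∧
      exp (-t) ≤ 1 - t + t ^ 2 / 2 - t ^ 3 / 6 + t ^ 4 / 24 + t ^ 5 / 100 ∧
      exp t ≤ 1 + t + t ^ 2 / 2 + t ^ 3 / 6 + t ^ 4 / 24 + t ^ 5 / 100 := by
  have ha : |t| ≤ 1 := by rw [abs_of_nonneg h0]; exact h1
  have hb : |-t| ≤ 1 := by rw [abs_neg]; exact ha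
  have e1 := Real.exp_bound ha (n := 5) (by norm_num)
  have e2 := Real.exp_bound hb (n := 5) (by norm_num)
  rw [abs_neg, abs_of_nonneg h0] at e2
  rw [abs_of_nonneg h0] at e1
  simp only [Finset.sum_range_succ, Finset.sum_range_zero, Nat.factorial, Nat.succ_eq_add_one] at e1 e2
  norm_num at e1 e2
  rw [abs_le] at e1 e2
  have h2 : t ^ 5 ≤ t ^ 4 := pow_le_pow_of_le_one h0 h1 (by norm_num)
  have h3 : 0 ≤ t ^ 4 := by positivity
  have h4 : 0 ≤ t ^ 5 := by positivity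
  refine ⟨?_, ?_, ?_⟩
  · linarith [e2.1]
  · linarith [e2.2]
  · linarith [e1.2]

/-- linear bounds -/
private theorem explin_ocr {t : ℝ} (h0 : 0 ≤ t) (h1 : t ≤ 1) :
    76 / 100 - 43 / 100 * t ≤ exp (-t) ∧ exp (-t) ≤ 1 - t / 2 ∧ exp t ≤ 1 + 172 / 100 * t := by
  obtain ⟨e1, e2, e3⟩ := exp_ocr h0 h1
  have p2 : t ^ 2 ≤ t := by
    have := pow_le_pow_of_le_one h0 h1 (show 1 ≤ 2 by norm_num)
    rwa [pow_one] at this
  have p3 : t ^ 3 ≤ t ^ 2 := pow_le_pow_of_le_one h0 h1 (by norm_num)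
  have p4 : t ^ 4 ≤ t ^ 3 := pow_le_pow_of_le_one h0 h1 (by norm_num)
  have p5 : t ^ 5 ≤ t ^ 4 := pow_le_pow_of_le_one h0 h1 (by norm_num)
  have q3 : 0 ≤ t ^ 3 := by positivity
  refine ⟨?_, by linarith, by linarith⟩
  nlinarith [mul_nonneg h0 (sub_nonneg.2 h1), mul_nonneg (mul_nonneg h0 h0) (sub_nonneg.2 h1),
    mul_nonneg h0 (mul_nonneg (sub_nonneg.2 h1) (sub_nonneg.2 h1)),
    mul_nonneg (sub_nonneg.2 h1) (mul_nonneg (sub_nonneg.2 h1) (sub_nonneg.2 h1))]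

private theorem expn_ocr {n : ℝ} (h0 : 0 ≤ n) (h1 : n ≤ 53 / 100) : exp (-n) ≤ 1 - 735 / 1000 * n := by
  obtain ⟨-, e2, -⟩ := exp_ocr h0 (by linarith)
  have p2 : n ^ 2 ≤ 53 / 100 * n := by nlinarith
  have p4 : n ^ 4 ≤ n ^ 3 := pow_le_pow_of_le_one h0 (by linarith) (by norm_num)
  have p5 : n ^ 5 ≤ n ^ 4 := pow_le_pow_of_le_one h0 (by linarith) (by norm_num)
  have q3 : 0 ≤ n ^ 3 := by positivity
  linarith

private theorem cos_ocr {φ : ℝ} (h0 : 3 / 2 ≤ φ) (h1 : φ ≤ 2 * π - 3 / 2) : cos φ ≤ 708 / 10000 := by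
  have hpi : π < 3.1416 := Real.pi_lt_d4
  have hpi' : 3.1415 < π := Real.pi_gt_d4
  have h2 : cos (3 / 2) ≤ 708 / 10000 := by
    rw [← Real.sin_pi_div_two_sub]
    have h3 : 0 ≤ π / 2 - 3 / 2 := by linarith
    have h4 := Real.sin_le h3
    linarith
  rcases le_total φ π with h | h
  · exact (Real.cos_le_cos_of_nonneg_of_le_pi (by norm_num) h h0).trans h2
  · rw [← Real.cos_two_pi_sub]
    exact (Real.cos_le_cos_of_nonneg_of_le_pi (by norm_num) (by linarith) (by linarith)).trans h2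

private theorem k_ocr {x n k ψ : ℝ} (hx0 : 0 < x) (hn : 0 ≤ n) (hT : n ≤ 4 / 5 * x) (hk : 0 < k)
    (hx : x = k * cos ψ) (hy : n = k * sin ψ) : k ≤ x + 2 / 5 * n := by
  have h1 : k ^ 2 = x ^ 2 + n ^ 2 := by
    rw [hx, hy]
    have := Real.sin_sq_add_cos_sq ψ
    linear_combination (-(k ^ 2)) * this
  have h2 : k ^ 2 ≤ (x + 2 / 5 * n) ^ 2 := by
    rw [h1]
    nlinarith
  exact le_of_sq_le_sq h2 (by positivity)

/-- the right side of the inequalities -/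
private theorem tgt_ocr {x n k ψ : ℝ} (hx0 : 0 < x) (hn : 0 ≤ n) (hn1 : n ≤ 53 / 100) (hT : n ≤ 4 / 5 * x)
    (hk : 0 < k) (hx : x = k * cos ψ) (hy : n = k * sin ψ) :
    1 / 4 * (1 + k * exp (-n)) ≤ 1 / 4 + 1 / 4 * (x + 2 / 5 * n) * (1 - 735 / 1000 * n) := by
  have h1 := k_ocr hx0 hn hT hk hx hy
  have h2 := expn_ocr hn hn1
  have h3 : k * exp (-n) ≤ (x + 2 / 5 * n) * (1 - 735 / 1000 * n) :=
    mul_le_mul h1 h2 (exp_pos _).le (by positivity)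
  linarith

private theorem pa_ocr {x s : ℝ} (hx : 0 < x) (hs : 1 ≤ s) :
    0 ≤ pa x s ∧ pa x s ≤ 1 ∧ (1 + x) * pa x s ≤ s ∧ 1 ≤ (1 + x) * pa x s := by
  have h1 : 0 < 1 + x := by linarith
  have h2 : 1 / (1 + x) ≤ pa x s := by
    unfold pa a4
    refine le_min ?_ (le_min ?_ ?_)
    · exact div_le_div_of_nonneg_right hs h1.le
    · rw [div_le_one h1]
      linarith
    · exact div_le_div_of_nonneg_right (by norm_num) h1.le
  have h3 : pa x s ≤ s / (1 + x) := min_le_left _ _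
  have h4 : pa x s ≤ 1 := (min_le_right _ _).trans (min_le_left _ _)
  refine ⟨le_trans (by positivity) h2, h4, ?_, ?_⟩
  · rw [le_div_iff₀ h1] at h3
    linarith
  · rw [div_le_iff₀ h1] at h2
    linarith

/-! certificates -/

private theorem q1_ocr {x v n : ℝ} (h0a : 1 / 2 ≤ x) (h0b : x ≤ 9 / 5) (h1a : 3 / 2 ≤ v) (h1b : v ≤ 2) (h2a : 0 ≤ n) (h2b : n ≤ 53 / 100) :
    0 ≤ (v - n * (1 + x)) * (v * (1 + x + x * x) - 84 / 100 * x * (1 + x)) +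
      (1 + x + x * x) * (x * (1 + x - v) + 59 / 100 * n * (76 / 100 * (1 + x) - 43 / 100 * v) -
      (1 + x) * (708 / 10000 * x + (1 / 4 + 1 / 4 * (x + 2 / 5 * n) * (1 - 735 / 1000 * n)))) := by
  obtain ⟨s1, hs1⟩ : ∃ s, s = x - 1 / 2 := ⟨_, rfl⟩
  have hs10 : 0 ≤ s1 := by linarith
  obtain ⟨r1, hr1⟩ : ∃ r, r = 9 / 5 - x := ⟨_, rfl⟩
  have hr10 : 0 ≤ r1 := by linarith
  obtain ⟨s2, hs2⟩ : ∃ s, s = v - 3 / 2 := ⟨_, rfl⟩
  have hs20 : 0 ≤ s2 := by linarith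
  obtain ⟨r2, hr2⟩ : ∃ r, r = 2 - v := ⟨_, rfl⟩
  have hr20 : 0 ≤ r2 := by linarith
  obtain ⟨s3, hs3⟩ : ∃ s, s = n := ⟨_, rfl⟩
  have hs30 : 0 ≤ s3 := by linarith
  obtain ⟨r3, hr3⟩ : ∃ r, r = 53 / 100 - n := ⟨_, rfl⟩
  have hr30 : 0 ≤ r3 := by linarith
  have h : 0 ≤ 766080000 / 80227849 * r1 ^ 4 * r2 ^ 2 * r3 ^ 2 +
      154089075 / 12342746 * r1 ^ 4 * r2 ^ 2 * s3 * r3 +
      257177445 / 80227849 * r1 ^ 4 * r2 ^ 2 * s3 ^ 2 +
      2281160000 / 80227849 * r1 ^ 4 * s2 * r2 * r3 ^ 2 +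
      3175846625 / 80227849 * r1 ^ 4 * s2 * r2 * s3 * r3 +
      938043540 / 80227849 * r1 ^ 4 * s2 * r2 * s3 ^ 2 +
      1690080000 / 80227849 * r1 ^ 4 * s2 ^ 2 * r3 ^ 2 +
      5048535275 / 160455698 * r1 ^ 4 * s2 ^ 2 * s3 * r3 +
      855866095 / 80227849 * r1 ^ 4 * s2 ^ 2 * s3 ^ 2 +
      3097340000 / 80227849 * s1 * r1 ^ 3 * r2 ^ 2 * r3 ^ 2 +
      267414210 / 6171373 * s1 * r1 ^ 3 * r2 ^ 2 * s3 * r3 +
      1033509101 / 160455698 * s1 * r1 ^ 3 * r2 ^ 2 * s3 ^ 2 +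
      9598880000 / 80227849 * s1 * r1 ^ 3 * s2 * r2 * r3 ^ 2 +
      11735454340 / 80227849 * s1 * r1 ^ 3 * s2 * r2 * s3 * r3 +
      2411993981 / 80227849 * s1 * r1 ^ 3 * s2 * r2 * s3 ^ 2 +
      7461540000 / 80227849 * s1 * r1 ^ 3 * s2 ^ 2 * r3 ^ 2 +
      10179069610 / 80227849 * s1 * r1 ^ 3 * s2 ^ 2 * s3 * r3 +
      5710478861 / 160455698 * s1 * r1 ^ 3 * s2 ^ 2 * s3 ^ 2 +
      5222684800 / 80227849 * s1 ^ 2 * r1 ^ 2 * r2 ^ 2 * r3 ^ 2 +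
      413446686 / 6171373 * s1 ^ 2 * r1 ^ 2 * r2 ^ 2 * s3 * r3 +
      2420148127 / 401139245 * s1 ^ 2 * r1 ^ 2 * r2 ^ 2 * s3 ^ 2 +
      16049049600 / 80227849 * s1 ^ 2 * r1 ^ 2 * s2 * r2 * r3 ^ 2 +
      17159258758 / 80227849 * s1 ^ 2 * r1 ^ 2 * s2 * r2 * s3 * r3 +
      8870120864 / 401139245 * s1 ^ 2 * r1 ^ 2 * s2 * r2 * s3 ^ 2 +
      12825364800 / 80227849 * s1 ^ 2 * r1 ^ 2 * s2 ^ 2 * r3 ^ 2 +
      15782451840 / 80227849 * s1 ^ 2 * r1 ^ 2 * s2 ^ 2 * s3 * r3 +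
      16444972737 / 401139245 * s1 ^ 2 * r1 ^ 2 * s2 ^ 2 * s3 ^ 2 +
      5067293440 / 80227849 * s1 ^ 3 * r1 * r2 ^ 2 * r3 ^ 2 +
      2393549136 / 30856865 * s1 ^ 3 * r1 * r2 ^ 2 * s3 * r3 +
      37786938338 / 2005696225 * s1 ^ 3 * r1 * r2 ^ 2 * s3 ^ 2 +
      13685946880 / 80227849 * s1 ^ 3 * r1 * s2 * r2 * r3 ^ 2 +
      72483816556 / 401139245 * s1 ^ 3 * r1 * s2 * r2 * s3 * r3 +
      38047571776 / 2005696225 * s1 ^ 3 * r1 * s2 * r2 * s3 ^ 2 +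
      10436653440 / 80227849 * s1 ^ 3 * r1 * s2 ^ 2 * r3 ^ 2 +
      59547677788 / 401139245 * s1 ^ 3 * r1 * s2 ^ 2 * s3 * r3 +
      45710633438 / 2005696225 * s1 ^ 3 * r1 * s2 ^ 2 * s3 ^ 2 +
      2951813888 / 80227849 * s1 ^ 4 * r2 ^ 2 * r3 ^ 2 +
      1917837096 / 30856865 * s1 ^ 4 * r2 ^ 2 * s3 * r3 +
      54355740928 / 2005696225 * s1 ^ 4 * r2 ^ 2 * s3 ^ 2 +
      6506507776 / 80227849 * s1 ^ 4 * s2 * r2 * r3 ^ 2 +
      46117060056 / 401139245 * s1 ^ 4 * s2 * r2 * s3 * r3 +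
      74905959656 / 2005696225 * s1 ^ 4 * s2 * r2 * s3 ^ 2 +
      4158693888 / 80227849 * s1 ^ 4 * s2 ^ 2 * r3 ^ 2 +
      27225177808 / 401139245 * s1 ^ 4 * s2 ^ 2 * s3 * r3 +
      35650218728 / 2005696225 * s1 ^ 4 * s2 ^ 2 * s3 ^ 2 := by positivity
  refine h.trans (le_of_eq ?_)
  rw [hs1, hr1, hs2, hr2, hs3, hr3]
  ring

private theorem q0_ocr {x v n : ℝ} (h0a : 1 ≤ x) (h0b : x ≤ 9 / 5) (h1a : 2 ≤ v) (h1b : v ≤ 14 / 5) (h2a : 0 ≤ n) (h2b : n ≤ 53 / 100) :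
    0 ≤ (v - n * (1 + x)) * (v * (1 + x + x * x) - 84 / 100 * x * (1 + x)) +
      (1 + x + x * x) * (x * (1 + x - v) - 708 / 10000 * (x + 2 / 5 * n) * ((1 + x) - v / 2) -
      (1 + x) * (1 / 4 + 1 / 4 * (x + 2 / 5 * n) * (1 - 735 / 1000 * n))) := by
  obtain ⟨s1, hs1⟩ : ∃ s, s = x - 1 := ⟨_, rfl⟩
  have hs10 : 0 ≤ s1 := by linarith
  obtain ⟨r1, hr1⟩ : ∃ r, r = 9 / 5 - x := ⟨_, rfl⟩
  have hr10 : 0 ≤ r1 := by linarith
  obtain ⟨s2, hs2⟩ : ∃ s, s = v - 2 := ⟨_, rfl⟩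
  have hs20 : 0 ≤ s2 := by linarith
  obtain ⟨r2, hr2⟩ : ∃ r, r = 14 / 5 - v := ⟨_, rfl⟩
  have hr20 : 0 ≤ r2 := by linarith
  obtain ⟨s3, hs3⟩ : ∃ s, s = n := ⟨_, rfl⟩
  have hs30 : 0 ≤ s3 := by linarith
  obtain ⟨r3, hr3⟩ : ∃ r, r = 53 / 100 - n := ⟨_, rfl⟩
  have hr30 : 0 ≤ r3 := by linarith
  have h : 0 ≤ 212015625 / 2876416 * r1 ^ 4 * r2 ^ 2 * r3 ^ 2 +
      4060810125 / 46022656 * r1 ^ 4 * r2 ^ 2 * s3 * r3 +
      1491966375 / 92045312 * r1 ^ 4 * r2 ^ 2 * s3 ^ 2 +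
      20503125 / 89888 * r1 ^ 4 * s2 * r2 * r3 ^ 2 +
      6984538725 / 23011328 * r1 ^ 4 * s2 * r2 * s3 * r3 +
      3626323575 / 46022656 * r1 ^ 4 * s2 * r2 * s3 ^ 2 +
      519084375 / 2876416 * r1 ^ 4 * s2 ^ 2 * r3 ^ 2 +
      12308267325 / 46022656 * r1 ^ 4 * s2 ^ 2 * s3 * r3 +
      8160680775 / 92045312 * r1 ^ 4 * s2 ^ 2 * s3 ^ 2 +
      29746875 / 89888 * s1 * r1 ^ 3 * r2 ^ 2 * r3 ^ 2 +
      8511858975 / 23011328 * s1 * r1 ^ 3 * r2 ^ 2 * s3 * r3 +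
      2195917875 / 46022656 * s1 * r1 ^ 3 * r2 ^ 2 * s3 ^ 2 +
      365548125 / 359552 * s1 * r1 ^ 3 * s2 * r2 * r3 ^ 2 +
      14623047615 / 11505664 * s1 * r1 ^ 3 * s2 * r2 * s3 * r3 +
      6253615155 / 23011328 * s1 * r1 ^ 3 * s2 * r2 * s3 ^ 2 +
      291560625 / 359552 * s1 * r1 ^ 3 * s2 ^ 2 * r3 ^ 2 +
      26494236255 / 23011328 * s1 * r1 ^ 3 * s2 ^ 2 * s3 * r3 +
      16071312435 / 46022656 * s1 * r1 ^ 3 * s2 ^ 2 * s3 ^ 2 +
      827578125 / 1438208 * s1 ^ 2 * r1 ^ 2 * r2 ^ 2 * r3 ^ 2 +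
      7045411935 / 11505664 * s1 ^ 2 * r1 ^ 2 * r2 ^ 2 * s3 * r3 +
      38807835 / 719104 * s1 ^ 2 * r1 ^ 2 * r2 ^ 2 * s3 ^ 2 +
      620710875 / 359552 * s1 ^ 2 * r1 ^ 2 * s2 * r2 * r3 ^ 2 +
      11665030187 / 5752832 * s1 ^ 2 * r1 ^ 2 * s2 * r2 * s3 * r3 +
      482448653 / 1438208 * s1 ^ 2 * r1 ^ 2 * s2 * r2 * s3 ^ 2 +
      1978265375 / 1438208 * s1 ^ 2 * r1 ^ 2 * s2 ^ 2 * r3 ^ 2 +
      21452648439 / 11505664 * s1 ^ 2 * r1 ^ 2 * s2 ^ 2 * s3 * r3 +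
      727832983 / 1438208 * s1 ^ 2 * r1 ^ 2 * s2 ^ 2 * s3 ^ 2 +
      167574375 / 359552 * s1 ^ 3 * r1 * r2 ^ 2 * r3 ^ 2 +
      11358653529 / 23011328 * s1 ^ 3 * r1 * r2 ^ 2 * s3 * r3 +
      1945393701 / 46022656 * s1 ^ 3 * r1 * r2 ^ 2 * s3 ^ 2 +
      480378175 / 359552 * s1 ^ 3 * r1 * s2 * r2 * r3 ^ 2 +
      17193629017 / 11505664 * s1 ^ 3 * r1 * s2 * r2 * s3 * r3 +
      4320661477 / 23011328 * s1 ^ 3 * r1 * s2 * r2 * s3 ^ 2 +
      47100475 / 44944 * s1 ^ 3 * r1 * s2 ^ 2 * r3 ^ 2 +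
      31220604505 / 23011328 * s1 ^ 3 * r1 * s2 ^ 2 * s3 * r3 +
      14887929253 / 46022656 * s1 ^ 3 * r1 * s2 ^ 2 * s3 ^ 2 +
      436190325 / 2876416 * s1 ^ 4 * r2 ^ 2 * r3 ^ 2 +
      7871248743 / 46022656 * s1 ^ 4 * r2 ^ 2 * s3 * r3 +
      2220866697 / 92045312 * s1 ^ 4 * r2 ^ 2 * s3 ^ 2 +
      145919725 / 359552 * s1 ^ 4 * s2 * r2 * r3 ^ 2 +
      10361375391 / 23011328 * s1 ^ 4 * s2 * r2 * s3 * r3 +
      2481485593 / 46022656 * s1 ^ 4 * s2 * r2 * s3 ^ 2 +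
      882167475 / 2876416 * s1 ^ 4 * s2 ^ 2 * r3 ^ 2 +
      17683502039 / 46022656 * s1 ^ 4 * s2 ^ 2 * s3 * r3 +
      7574104489 / 92045312 * s1 ^ 4 * s2 ^ 2 * s3 ^ 2 := by positivity
  refine h.trans (le_of_eq ?_)
  rw [hs1, hr1, hs2, hr2, hs3, hr3]
  ring

private theorem h_ocr {x n : ℝ} (h0a : 1 / 2 ≤ x) (h0b : x ≤ 9 / 5) (h2a : 0 ≤ n) (h2b : n ≤ 53 / 100) :
    0 ≤ (1 - n) * ((1 + x) * (1 + x + x * x) - 84 / 100 * x * (1 + x)) -
      (1 + x + x * x) * (708 / 10000 * (x + 2 / 5 * n) / 2 + (1 / 4 + 1 / 4 * (x + 2 / 5 * n) * (1 - 735 / 1000 * n))) := by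
  obtain ⟨s1, hs1⟩ : ∃ s, s = x - 1 / 2 := ⟨_, rfl⟩
  have hs10 : 0 ≤ s1 := by linarith
  obtain ⟨r1, hr1⟩ : ∃ r, r = 9 / 5 - x := ⟨_, rfl⟩
  have hr10 : 0 ≤ r1 := by linarith
  obtain ⟨s3, hs3⟩ : ∃ s, s = n := ⟨_, rfl⟩
  have hs30 : 0 ≤ s3 := by linarith
  obtain ⟨r3, hr3⟩ : ∃ r, r = 53 / 100 - n := ⟨_, rfl⟩
  have hr30 : 0 ≤ r3 := by linarith
  have h : 0 ≤ 246750 / 116441 * r1 ^ 3 * r3 ^ 2 +
      2320801 / 931528 * r1 ^ 3 * s3 * r3 +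
      200669 / 465764 * r1 ^ 3 * s3 ^ 2 +
      62440200 / 6171373 * s1 * r1 ^ 2 * r3 ^ 2 +
      366479991 / 30856865 * s1 * r1 ^ 2 * s3 * r3 +
      499060839 / 246854920 * s1 * r1 ^ 2 * s3 ^ 2 +
      114318000 / 6171373 * s1 ^ 2 * r1 * r3 ^ 2 +
      3426856182 / 154284325 * s1 ^ 2 * r1 * s3 * r3 +
      2526268989 / 617137300 * s1 ^ 2 * r1 * s3 ^ 2 +
      80655312 / 6171373 * s1 ^ 3 * r3 ^ 2 +
      2526214577 / 154284325 * s1 ^ 3 * s3 * r3 +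
      1082014927 / 308568650 * s1 ^ 3 * s3 ^ 2 := by positivity
  refine h.trans (le_of_eq ?_)
  rw [hs1, hr1, hs3, hr3]
  ring

private theorem e_ocr {x z n : ℝ} (h0a : 9 / 5 ≤ x) (h1a : 0 ≤ z) (h1b : z ≤ 21 / 25) (h2a : 0 ≤ n) (h2b : n ≤ 53 / 100) :
    0 ≤ 4 * (1 + x) * (n * z + x - 708 / 10000 * (x + 2 / 5 * n) - (1 / 4 + 1 / 4 * (x + 2 / 5 * n) * (1 - 735 / 1000 * n))) -
      (z + n * (1 + x) + x) ^ 2 := by
  obtain ⟨s1, hs1⟩ : ∃ s, s = x - 9 / 5 := ⟨_, rfl⟩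
  have hs10 : 0 ≤ s1 := by linarith
  obtain ⟨s2, hs2⟩ : ∃ s, s = z := ⟨_, rfl⟩
  have hs20 : 0 ≤ s2 := by linarith
  obtain ⟨r2, hr2⟩ : ∃ r, r = 21 / 25 - z := ⟨_, rfl⟩
  have hr20 : 0 ≤ r2 := by linarith
  obtain ⟨s3, hs3⟩ : ∃ s, s = n := ⟨_, rfl⟩
  have hs30 : 0 ≤ s3 := by linarith
  obtain ⟨r3, hr3⟩ : ∃ r, r = 53 / 100 - n := ⟨_, rfl⟩
  have hr30 : 0 ≤ r3 := by linarith
  have h : 0 ≤ 47829200 / 1238769 * r2 ^ 2 * r3 ^ 2 +
      69778553 / 1238769 * r2 ^ 2 * s3 * r3 +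
      19260967 / 2477538 * r2 ^ 2 * s3 ^ 2 +
      76758400 / 1238769 * s2 * r2 * r3 ^ 2 +
      117339106 / 1238769 * s2 * r2 * s3 * r3 +
      15942967 / 1238769 * s2 * r2 * s3 ^ 2 +
      24519200 / 1238769 * s2 ^ 2 * r3 ^ 2 +
      38740553 / 1238769 * s2 ^ 2 * s3 * r3 +
      3804967 / 2477538 * s2 ^ 2 * s3 ^ 2 +
      49358000 / 1238769 * s1 * r2 ^ 2 * r3 ^ 2 +
      155480645 / 2477538 * s1 * r2 ^ 2 * s3 * r3 +
      3631805 / 235956 * s1 * r2 ^ 2 * s3 ^ 2 +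
      88216000 / 1238769 * s1 * s2 * r2 * r3 ^ 2 +
      140045645 / 1238769 * s1 * s2 * r2 * s3 * r3 +
      1053935 / 39326 * s1 * s2 * r2 * s3 ^ 2 +
      38858000 / 1238769 * s1 * s2 ^ 2 * r3 ^ 2 +
      124610645 / 2477538 * s1 * s2 ^ 2 * s3 * r3 +
      2691805 / 235956 * s1 * s2 ^ 2 * s3 ^ 2 +
      10730000 / 1238769 * s1 ^ 2 * r2 ^ 2 * r3 ^ 2 +
      11513125 / 825846 * s1 ^ 2 * r2 ^ 2 * s3 * r3 +
      151875 / 39326 * s1 ^ 2 * r2 ^ 2 * s3 ^ 2 +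
      21460000 / 1238769 * s1 ^ 2 * s2 * r2 * r3 ^ 2 +
      11513125 / 412923 * s1 ^ 2 * s2 * r2 * s3 * r3 +
      151875 / 19663 * s1 ^ 2 * s2 * r2 * s3 ^ 2 +
      10730000 / 1238769 * s1 ^ 2 * s2 ^ 2 * r3 ^ 2 +
      11513125 / 825846 * s1 ^ 2 * s2 ^ 2 * s3 * r3 +
      151875 / 39326 * s1 ^ 2 * s2 ^ 2 * s3 ^ 2 := by positivity
  refine h.trans (le_of_eq ?_)
  rw [hs1, hs2, hr2, hs3, hr3]
  ring

/-- `|s| ≥ 3/2` up to the lump at `2π`, right side, `s > 0` (true `.93`) -/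
theorem cRr {x n z τ k ψ s : ℝ} (h : ShR x n z τ k ψ) (h0 : 3 / 2 ≤ s)
    (h1 : s - τ - ψ ≤ 2 * π - 3 / 2) :
    1 / 4 * (1 + k * exp (-n)) ≤ Hc x (-n) (-z) (-τ) (pa x s) s := by
  have hpi : π < 3.1416 := Real.pi_lt_d4
  have hpi' : 3.1415 < π := Real.pi_gt_d4
  obtain ⟨hx0, hn0, hn1, hT, hz0, hτ0, hzτ, hζ, hτ1, hk0, hψ0, hψ1, hx, hy⟩ := h
  have htg := tgt_ocr hx0 hn0 hn1 hT hk0 hx hy
  have hk := k_ocr hx0 hn0 hT hk0 hx hy
  obtain ⟨ha0, ha1, -, ha2⟩ := pa_ocr hx0 (s := s) (by linarith)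
  have hu : Hc x (-n) (-z) (-τ) (pa x s) s = (pa x s + n) * (s + z) + x * (1 + pa x s) -
      exp (pa x s) * (x * cos (s - τ) + n * sin (s - τ)) := by
    unfold Hc
    rw [← sub_eq_add_neg s τ]
    ring
  rw [hu]
  generalize pa x s = a at *
  obtain ⟨-, -, he⟩ := explin_ocr ha0 ha1
  have htg' : 1 / 4 * (1 + k * exp (-n)) ≤ 1 / 4 + 1 / 4 * (x + 2 / 5 * n) := by
    refine htg.trans ?_
    nlinarith [mul_nonneg (add_pos_of_pos_of_nonneg hx0 (mul_nonneg (by norm_num : (0:ℝ) ≤ 2 / 5) hn0)).le hn0]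
  have haz : 0 ≤ (a + n) * z := by positivity
  have hsx : 1 / 2 * (3 / (1 + x)) ≤ a * s := by
    have h2 : 0 < 1 + x := by linarith
    have h3 : 1 / (1 + x) ≤ a := by
      rw [div_le_iff₀ h2]
      linarith
    have h4 : 1 / (1 + x) * (3 / 2) ≤ a * s := mul_le_mul h3 h0 (by norm_num) ha0
    have h5 : 1 / 2 * (3 / (1 + x)) = 1 / (1 + x) * (3 / 2) := by ring
    rw [h5]
    exact h4
  rcases le_total (π / 2) (s - τ - ψ) with hθ | hθ
  · have hM : x * cos (s - τ) + n * sin (s - τ) = k * cos (s - τ - ψ) := by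
      rw [Real.cos_sub (s - τ) ψ, hx, hy]
      ring
    rw [hM]
    have hc := cos_ocr (φ := s - τ - ψ) (by linarith) h1
    have h2 : exp a * (k * cos (s - τ - ψ)) ≤ (1 + 172 / 100 * a) * (k * (708 / 10000)) := by
      have h3 : k * cos (s - τ - ψ) ≤ k * (708 / 10000) := mul_le_mul_of_nonneg_left hc hk0.le
      exact (mul_le_mul_of_nonneg_left h3 (exp_pos a).le).trans
        (mul_le_mul_of_nonneg_right he (by positivity))
    have h4 : (1 + 172 / 100 * a) * (k * (708 / 10000)) ≤ (1 + 172 / 100 * 1) * ((x + 2 / 5 * (4 / 5 * x)) * (708 / 10000)) := by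
      refine mul_le_mul (by linarith) (by linarith) (by positivity) (by norm_num)
    have h5 : 0 ≤ n * s := by
      have : 0 ≤ s := by linarith
      positivity
    have h6 : 1 / 4 ≤ 1 / 2 * (3 / (1 + x)) + 41 / 100 * x := by
      have h7 : 0 < 1 + x := by linarith
      have h8 : 1 / 2 * (3 / (1 + x)) + 41 / 100 * x - 1 / 4 =
          (3 / 2 + (41 / 100 * x - 1 / 4) * (1 + x)) / (1 + x) := by
        field_simp
        ring
      have h9 : 0 ≤ (3 / 2 + (41 / 100 * x - 1 / 4) * (1 + x)) / (1 + x) := by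
        refine div_nonneg ?_ h7.le
        nlinarith [mul_pos hx0 hx0]
      linarith
    have h10 : 0 ≤ a * x := by positivity
    nlinarith
  · have hc : cos (s - τ) ≤ 5 / 9 := by
      have h3 : cos 1 ≤ 5 / 9 := Real.cos_one_le
      exact (Real.cos_le_cos_of_nonneg_of_le_pi (by norm_num) (by linarith) (by linarith)).trans h3
    have hs := Real.sin_le_one (s - τ)
    have h2 : exp a * (x * cos (s - τ) + n * sin (s - τ)) ≤
        (1 + 172 / 100 * a) * (x * (5 / 9) + n * 1) := by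
      have h3 : x * cos (s - τ) + n * sin (s - τ) ≤ x * (5 / 9) + n * 1 :=
        add_le_add (mul_le_mul_of_nonneg_left hc hx0.le) (mul_le_mul_of_nonneg_left hs hn0)
      exact (mul_le_mul_of_nonneg_left h3 (exp_pos a).le).trans
        (mul_le_mul_of_nonneg_right he (by positivity))
    have h4 : n * a ≤ 53 / 100 * a := mul_le_mul_of_nonneg_right hn1 ha0
    have h5 : n * (3 / 2) ≤ n * s := mul_le_mul_of_nonneg_left h0 hn0
    have h6 : a * (3 / 2) ≤ a * s := mul_le_mul_of_nonneg_left h0 ha0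
    have h10 : 0 ≤ a * x := by positivity
    have h7 : 1 / 4 ≤ 58 / 100 * a + 194 / 1000 * x := by
      have h8 : 0 < 1 + x := by linarith
      have h9 : 1 / (1 + x) ≤ a := by
        rw [div_le_iff₀ h8]
        linarith
      have h11 : 58 / 100 * (1 / (1 + x)) + 194 / 1000 * x - 1 / 4 =
          (58 / 100 + (194 / 1000 * x - 1 / 4) * (1 + x)) / (1 + x) := by
        field_simp
        ring
      have h12 : 0 ≤ (58 / 100 + (194 / 1000 * x - 1 / 4) * (1 + x)) / (1 + x) := by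
        refine div_nonneg ?_ h8.le
        nlinarith [sq_nonneg (x - 1 / 10)]
      linarith
    nlinarith

private theorem rl_small_ocr {x n z a v : ℝ} (hx0 : 0 < x) (hx1 : x ≤ 9 / 5) (hn0 : 0 ≤ n) (hn1 : n ≤ 53 / 100)
    (hT : n ≤ 4 / 5 * x) (hz0 : 0 ≤ z) (hz : z * (1 + x + x * x) ≤ 84 / 100 * x * (1 + x)) (hv : 3 / 2 ≤ v)
    (hz1 : z ≤ 1 / 2 * (x * (1 + x)))
    (ha : a = 1 ∧ 1 + x ≤ v ∨ v = (1 + x) * a ∧ a ≤ 1) {M e : ℝ} (he0 : 0 < e)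
    (he1 : 76 / 100 - 43 / 100 * a ≤ e) (he2 : e ≤ 1 - a / 2)
    (hM0 : M ≤ 708 / 10000 * (x + 2 / 5 * n)) (hM1 : v ≤ 2 → M ≤ 708 / 10000 * x - 59 / 100 * n) :
    1 / 4 + 1 / 4 * (x + 2 / 5 * n) * (1 - 735 / 1000 * n) ≤ (a - n) * (v - z) + x * (1 - a) - e * M := by
  have hw : 0 < 1 + x + x * x := by positivity
  have h1x : 0 < 1 + x := by linarith
  rcases ha with ⟨rfl, hv1⟩ | ⟨rfl, ha1⟩
  · have h2 : e * M ≤ (1 - 1 / 2) * (708 / 10000 * (x + 2 / 5 * n)) :=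
      (mul_le_mul_of_nonneg_left hM0 he0.le).trans (mul_le_mul_of_nonneg_right he2 (by positivity))
    rcases le_total (1 / 2) x with h3 | h3
    · have h4 := h_ocr h3 hx1 hn0 hn1
      have h5 : 0 ≤ (1 - n) * (84 / 100 * x * (1 + x) - z * (1 + x + x * x)) :=
        mul_nonneg (by linarith) (by linarith)
      have h6 : 0 ≤ (1 - n) * (v - (1 + x)) := mul_nonneg (by linarith) (by linarith)
      have h7 : 0 ≤ (1 + x + x * x) * ((1 - n) * ((1 + x) - z) - 708 / 10000 * (x + 2 / 5 * n) / 2 -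
          (1 / 4 + 1 / 4 * (x + 2 / 5 * n) * (1 - 735 / 1000 * n))) := by linarith
      have h8 := (mul_nonneg_iff_of_pos_left hw).1 h7
      linarith
    · have h4 : 0 ≤ (1 - n) * (v - 3 / 2) := mul_nonneg (by linarith) (by linarith)
      have h5 : z ≤ 3 / 8 := by nlinarith
      have h6 : 0 ≤ (1 - n) * (3 / 8 - z) := mul_nonneg (by linarith) (by linarith)
      nlinarith [mul_nonneg hn0 hn0, mul_nonneg hn0 hx0.le]
  · have hnv : n * (1 + x) ≤ (1 + x) * a := by nlinarith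
    have h5 : 0 ≤ ((1 + x) * a - n * (1 + x)) * (84 / 100 * x * (1 + x) - z * (1 + x + x * x)) :=
      mul_nonneg (by linarith) (by linarith)
    have hpos : 0 < (1 + x) * (1 + x + x * x) := by positivity
    have hv0 : (1 + x) * a ≤ 1 + x := by nlinarith
    rcases le_total ((1 + x) * a) 2 with h2 | h2
    · have hM := hM1 h2
      have h3 : e * M ≤ 708 / 10000 * x - 59 / 100 * n * (76 / 100 - 43 / 100 * a) := by
        have h4 : e * M ≤ e * (708 / 10000 * x - 59 / 100 * n) := mul_le_mul_of_nonneg_left hM he0.le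
        have ha0 : 0 ≤ a := by
          by_contra hcon
          push Not at hcon
          nlinarith
        have h6 : e * (708 / 10000 * x) ≤ 1 * (708 / 10000 * x) :=
          mul_le_mul_of_nonneg_right (by linarith) (by positivity)
        have h7 : 59 / 100 * n * (76 / 100 - 43 / 100 * a) ≤ 59 / 100 * n * e :=
          mul_le_mul_of_nonneg_left he1 (by positivity)
        linarith
      have h4 := q1_ocr (x := x) (v := (1 + x) * a) (n := n) (by linarith) hx1 hv h2 hn0 hn1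
      have h7 : 0 ≤ ((1 + x) * (1 + x + x * x)) * ((a - n) * ((1 + x) * a - z) + x * (1 - a) -
          (708 / 10000 * x - 59 / 100 * n * (76 / 100 - 43 / 100 * a)) -
          (1 / 4 + 1 / 4 * (x + 2 / 5 * n) * (1 - 735 / 1000 * n))) := by
        linarith
      have h8 := (mul_nonneg_iff_of_pos_left hpos).1 h7
      linarith
    · have h3 : e * M ≤ (1 - a / 2) * (708 / 10000 * (x + 2 / 5 * n)) :=
        (mul_le_mul_of_nonneg_left hM0 he0.le).trans (mul_le_mul_of_nonneg_right he2 (by positivity))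
      have h4 := q0_ocr (x := x) (v := (1 + x) * a) (n := n) (by linarith) hx1 h2 (by linarith) hn0 hn1
      have h7 : 0 ≤ ((1 + x) * (1 + x + x * x)) * ((a - n) * ((1 + x) * a - z) + x * (1 - a) -
          (1 - a / 2) * (708 / 10000 * (x + 2 / 5 * n)) -
          (1 / 4 + 1 / 4 * (x + 2 / 5 * n) * (1 - 735 / 1000 * n))) := by
        linarith
      have h8 := (mul_nonneg_iff_of_pos_left hpos).1 h7
      linarith

private theorem rl_big_ocr {x n z a v : ℝ} (hx1 : 9 / 5 ≤ x) (hn0 : 0 ≤ n) (hn1 : n ≤ 53 / 100)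
    (hz0 : 0 ≤ z) (hz : z ≤ 84 / 100) (hv : z ≤ v)
    (ha0 : 0 ≤ a) (hav : (1 + x) * a ≤ v) (hva : a < n → v ≤ 6 / 5 * ((1 + x) * a)) {M e : ℝ} (he0 : 0 < e)
    (he2 : e ≤ 1) (hM0 : M ≤ 708 / 10000 * (x + 2 / 5 * n)) :
    1 / 4 + 1 / 4 * (x + 2 / 5 * n) * (1 - 735 / 1000 * n) ≤ (a - n) * (v - z) + x * (1 - a) - e * M := by
  have h1x : 0 < 1 + x := by linarith
  have h2 : e * M ≤ 1 * (708 / 10000 * (x + 2 / 5 * n)) :=
    (mul_le_mul_of_nonneg_left hM0 he0.le).trans (mul_le_mul_of_nonneg_right he2 (by positivity))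
  rcases lt_or_ge a n with h3 | h3
  · have h4 := hva h3
    have h5 : (n - a) * (v - z) ≤ (n - a) * x := by
      refine mul_le_mul_of_nonneg_left ?_ (by linarith)
      have h6 : (1 + x) * a ≤ (1 + x) * (53 / 100) := mul_le_mul_of_nonneg_left (by linarith) h1x.le
      linarith
    nlinarith [mul_nonneg hn0 (sub_nonneg.2 hx1), mul_nonneg (sub_nonneg.2 hn1) (sub_nonneg.2 hx1),
      mul_nonneg hn0 (sub_nonneg.2 hn1)]
  · have h4 := e_ocr (x := x) (z := z) (n := n) hx1 hz0 (by linarith) hn0 hn1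
    have h5 : 0 ≤ (a - n) * (v - (1 + x) * a) := mul_nonneg (by linarith) (by linarith)
    have h6 : 0 ≤ (4 * (1 + x)) * ((a - n) * ((1 + x) * a - z) + x * (1 - a) -
        708 / 10000 * (x + 2 / 5 * n) - (1 / 4 + 1 / 4 * (x + 2 / 5 * n) * (1 - 735 / 1000 * n))) := by
      have h7 := sq_nonneg (2 * (1 + x) * a - (z + n * (1 + x) + x))
      linarith
    have h8 := (mul_nonneg_iff_of_pos_left (by positivity)).1 h6
    linarith

/-- right side, `s = -v < 0` (true `.47`) -/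
theorem cRl {x n z τ k ψ v : ℝ} (h : ShR x n z τ k ψ) (hD : 13 / 20 ≤ (1 - n) ^ 2 + x ^ 2)
    (h0 : 3 / 2 ≤ v) (h1 : v + τ + ψ ≤ 2 * π - 3 / 2) :
    1 / 4 * (1 + k * exp (-n)) ≤ Hc x (-n) (-z) (-τ) (-(pa x v)) (-v) := by
  have _ := hD
  have hpi : π < 3.1416 := Real.pi_lt_d4
  have hpi' : 3.1415 < π := Real.pi_gt_d4
  obtain ⟨hx0, hn0, hn1, hT, hz0, hτ0, hzτ, hζ, hτ1, hk0, hψ0, hψ1, hx, hy⟩ := h
  have htg := tgt_ocr hx0 hn0 hn1 hT hk0 hx hy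
  have hk := k_ocr hx0 hn0 hT hk0 hx hy
  obtain ⟨ha0, ha1, ha3, ha2⟩ := pa_ocr hx0 (s := v) (by linarith)
  have hu : Hc x (-n) (-z) (-τ) (-(pa x v)) (-v) = (pa x v - n) * (v - z) + x * (1 - pa x v) -
      exp (-(pa x v)) * (x * cos (v + τ) - n * sin (v + τ)) := by
    unfold Hc
    rw [show -v + -τ = -(v + τ) by ring, Real.cos_neg, Real.sin_neg]
    ring
  rw [hu]
  refine htg.trans ?_
  obtain ⟨he1, he2, -⟩ := explin_ocr ha0 ha1
  have hM : x * cos (v + τ) - n * sin (v + τ) = k * cos (v + τ + ψ) := by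
    rw [Real.cos_add (v + τ) ψ, hx, hy]
    ring
  have hM0 : x * cos (v + τ) - n * sin (v + τ) ≤ 708 / 10000 * (x + 2 / 5 * n) := by
    rw [hM]
    have hc := cos_ocr (φ := v + τ + ψ) (by linarith) h1
    have h3 : k * cos (v + τ + ψ) ≤ k * (708 / 10000) := mul_le_mul_of_nonneg_left hc hk0.le
    linarith
  rcases le_total (9 / 5) x with hx1 | hx1
  · refine rl_big_ocr hx1 hn0 hn1 hz0 (by linarith) (by linarith) ha0 ha3 ?_ (exp_pos _) (by linarith) hM0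
    intro h2
    have h1x : 0 < 1 + x := by linarith
    unfold pa at h2 ⊢
    rcases min_choice (v / (1 + x)) (a4 x) with h3 | h3
    · rw [h3]
      have h4 : (1 + x) * (v / (1 + x)) = v := by field_simp
      rw [h4]
      linarith
    · rw [h3] at h2 ⊢
      unfold a4 at h2 ⊢
      rcases min_choice (1 : ℝ) (4 / (1 + x)) with h4 | h4
      · rw [h4] at h2
        linarith
      · rw [h4]
        have h5 : (1 + x) * (4 / (1 + x)) = 4 := by field_simp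
        rw [h5]
        linarith
  · refine rl_small_ocr hx0 hx1 hn0 hn1 hT hz0 ?_ h0 ?_ ?_ (exp_pos _) he1 he2 hM0 ?_
    · have h2 : z * (1 + x + x * x) = x * (1 + x) * (z + τ) := by
        rw [hzτ]
        ring
      rw [h2]
      have h3 : x * (1 + x) * (z + τ) ≤ x * (1 + x) * (21 / 25) :=
        mul_le_mul_of_nonneg_left hζ (by positivity)
      linarith
    · rw [hzτ]
      have h3 : x * (1 + x) * τ ≤ x * (1 + x) * (1 / 2) := mul_le_mul_of_nonneg_left hτ1 (by positivity)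
      linarith
    · have h1x : 0 < 1 + x := by linarith
      have h4 : a4 x = 1 := by
        unfold a4
        refine min_eq_left ?_
        rw [le_div_iff₀ h1x]
        linarith
      unfold pa
      rw [h4]
      rcases le_total v (1 + x) with h5 | h5
      · right
        have h6 : v / (1 + x) ≤ 1 := by
          rw [div_le_one h1x]
          exact h5
        rw [min_eq_left h6]
        refine ⟨?_, h6⟩
        field_simp
      · left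
        refine ⟨?_, h5⟩
        refine min_eq_right ?_
        rw [le_div_iff₀ h1x]
        linarith
    · intro hv2
      have hc := cos_ocr (φ := v + τ) (by linarith) (by linarith)
      have hs : 59 / 100 ≤ sin (v + τ) := by
        rcases le_total (v + τ) (π / 2) with h3 | h3
        · have h4 : sin (3 / 2) ≤ sin (v + τ) :=
            Real.sin_le_sin_of_le_of_le_pi_div_two (by linarith) h3 (by linarith)
          have h5 : 59 / 100 ≤ sin (3 / 2) := by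
            rw [← Real.cos_sub_pi_div_two]
            have h6 := Real.one_sub_sq_div_two_le_cos (x := 3 / 2 - π / 2)
            nlinarith
          linarith
        · have h4 : sin (5 / 2) ≤ sin (v + τ) := by
            rw [← Real.sin_pi_sub (v + τ), ← Real.sin_pi_sub (5 / 2)]
            exact Real.sin_le_sin_of_le_of_le_pi_div_two (by linarith) (by linarith) (by linarith)
          have h5 : 59 / 100 ≤ sin (5 / 2) := by
            rw [← Real.sin_pi_sub (5 / 2)]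
            have h6 := Real.sin_gt_sub_cube (x := π - 5 / 2) (by linarith)
            nlinarith [mul_pos (show (0:ℝ) < π - 5 / 2 by linarith) (show (0:ℝ) < π - 5 / 2 by linarith)]
          linarith
      have h3 : x * cos (v + τ) ≤ x * (708 / 10000) := mul_le_mul_of_nonneg_left hc hx0.le
      have h4 : n * (59 / 100) ≤ n * sin (v + τ) := mul_le_mul_of_nonneg_left hs hn0
      linarith

end SokalV3O
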