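import Pool.Agent.Lib_MP_af4de1_v3o.ODef

set_option autoImplicit false

namespace SokalV3O

open Real SokalF1G

theorem ofr_a_lo {x : ℝ} (h0 : 0 < x) (h : x ≤ 3) : a4 x = 1 := by
  unfold a4
  rw [min_eq_left]
  rw [le_div_iff₀ (by linarith)]
  linarith

theorem ofr_a_hi {x : ℝ} (h : 3 ≤ x) : a4 x = 4 / (1 + x) := by
  unfold a4
  rw [min_eq_right]
  rw [div_le_one (by linarith)]
  linarith

theorem ofr_k2 {x n z τ k ψ Y : ℝ} (h : Shp x n z τ k ψ Y) : k ^ 2 = x ^ 2 + n ^ 2 := by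
  have e := Real.sin_sq_add_cos_sq ψ
  have h1 : x ^ 2 = k ^ 2 * cos ψ ^ 2 := by rw [← mul_pow, ← h.hx]
  have h2 : n ^ 2 = k ^ 2 * sin ψ ^ 2 := by rw [← mul_pow, ← h.hy]
  rw [h1, h2]
  linear_combination -k ^ 2 * e

theorem ofr_psi {x n z τ k ψ Y : ℝ} (h : Shp x n z τ k ψ Y) : n ≤ k * ψ := by
  have h1 := Real.sin_le h.ψ0
  have h2 := mul_le_mul_of_nonneg_left h1 h.k0.le
  rw [← h.hy] at h2
  exact h2

theorem ofr_exp {u : ℝ} (h0 : 0 ≤ u) (h1 : u ≤ 1) : exp u ≤ 1 + u + 18 / 25 * u ^ 2 := by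
  have h := e_le3 h0 h1
  have h3 : u ^ 3 ≤ u ^ 2 := pow_le_pow_of_le_one h0 h1 (by norm_num)
  have h4 : u ^ 4 ≤ u ^ 2 := pow_le_pow_of_le_one h0 h1 (by norm_num)
  have h5 := sq_nonneg u
  linarith

/-- `x (1 - e^(-n)) ≤ π/2` and the bounds of `ρ` -/
theorem ofr_n {x n z τ k ψ ρ : ℝ} (h : ShR x n z τ k ψ) (hx : 3 ≤ x) (hρ : ρ = k * exp (-n))
    (hη : ψ + x - ρ ≤ π / 2) : n * (x - 87 / 100) ≤ 1571 / 1000 ∧ ρ ≤ x ∧
      ρ ≤ x * (1 - n) + x * n ^ 2 / 2 + n ^ 2 / 6 ∧ x - 1571 / 1000 ≤ ρ := by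
  have hn0 := h.y0
  have hn1 := h.y1
  have hx0 : 0 < x := by linarith
  have hk2 := ofr_k2 h
  have hk0 := h.k0
  have hpsi := ofr_psi h
  have hψ0 := h.ψ0
  have hpi := Real.pi_lt_d6
  obtain ⟨q, hq⟩ : ∃ q, q = n ^ 2 / (2 * x) := ⟨_, rfl⟩
  have hqx : q * x = n ^ 2 / 2 := by
    rw [hq]
    field_simp
  have hq0 : 0 ≤ q := by rw [hq]; positivity
  have hq6 : q ≤ n ^ 2 / 6 := by
    have : q * 3 ≤ q * x := mul_le_mul_of_nonneg_left hx hq0
    linarith
  have hkx : k ≤ x + q := by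
    refine le_of_sq_le_sq ?_ (by positivity)
    nlinarith [sq_nonneg q]
  have hnn : n ^ 2 ≤ 53 / 100 * n := by nlinarith
  have hqn : q ≤ ψ := by
    have h1 : k * q ≤ n := by
      have h2 : k * q ≤ (x + q) * q := mul_le_mul_of_nonneg_right hkx hq0
      have h3 : q * q ≤ q * 1 := mul_le_mul_of_nonneg_left (by nlinarith) hq0
      nlinarith
    exact le_of_mul_le_mul_left (h1.trans hpsi) hk0
  have hE2 : exp (-n) ≤ 1 - n + n ^ 2 / 2 := en_le2 hn0
  have hE4 : exp (-n) ≤ 1 - n + n ^ 2 / 2 - n ^ 3 / 6 + n ^ 4 / 24 := en_le4 hn0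
  have hE0 := exp_pos (-n)
  have hE1 : exp (-n) ≤ 1 := Real.exp_le_one_iff.2 (by linarith)
  have hρ1 : ρ ≤ (x + q) * exp (-n) := by
    rw [hρ]
    exact mul_le_mul_of_nonneg_right hkx hE0.le
  have hqE : q * exp (-n) ≤ q * 1 := mul_le_mul_of_nonneg_left hE1 hq0
  have hxE : x * exp (-n) ≤ x * (1 - n + n ^ 2 / 2) := mul_le_mul_of_nonneg_left hE2 hx0.le
  have hxE4 : x * exp (-n) ≤ x * (1 - n + n ^ 2 / 2 - n ^ 3 / 6 + n ^ 4 / 24) :=
    mul_le_mul_of_nonneg_left hE4 hx0.le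
  have r3 : ρ ≤ x * (1 - n) + x * n ^ 2 / 2 + n ^ 2 / 6 := by nlinarith
  refine ⟨?_, ?_, r3, by linarith⟩
  · have h5 : x * (n - n ^ 2 / 2 + n ^ 3 / 6 - n ^ 4 / 24) ≤ π / 2 := by nlinarith
    by_contra hc
    push Not at hc
    have hQ : 0 < 1 - n / 2 + n ^ 2 / 6 - n ^ 3 / 24 := by
      have : n ^ 3 ≤ n ^ 2 := pow_le_pow_of_le_one hn0 (by linarith) (by norm_num)
      nlinarith [sq_nonneg n]
    have h6 : (1571 / 1000 + 87 / 100 * n) * (1 - n / 2 + n ^ 2 / 6 - n ^ 3 / 24) ≤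
        (x * n) * (1 - n / 2 + n ^ 2 / 6 - n ^ 3 / 24) := by
      refine mul_le_mul_of_nonneg_right ?_ hQ.le
      linarith
    have h7 : 0 ≤ n * (845 / 10000 - 17317 / 100000 * n + 79 / 1000 * n ^ 2 - 37 / 1000 * n ^ 3) := by
      refine mul_nonneg hn0 ?_
      have : n ^ 3 ≤ 53 / 100 * n ^ 2 := by nlinarith [sq_nonneg n]
      nlinarith [sq_nonneg (n - 53 / 100)]
    nlinarith [sq_nonneg n, pow_nonneg hn0 3, pow_nonneg hn0 4]
  · have : n ^ 2 * x ≤ 53 / 100 * n * x := mul_le_mul_of_nonneg_right hnn hx0.le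
    have h8 : n * 3 ≤ n * x := mul_le_mul_of_nonneg_left hx hn0
    nlinarith

theorem ofr_pA {a p : ℝ} (h0 : 0 ≤ a) (h1 : a ≤ 4 / 9) (hp : p = 4 - 187 / 100 * a) :
    114 / 100 * p ^ 2 ≤ p ^ 2 * (21887 / 10000 + a / 2) -
      1571 / 1000 * (1887 / 10000 + a) * p - 2468041 / 1000000 * (4 - 5 / 6 * a) := by
  have h2 : 0 ≤ 4 / 9 - a := by linarith
  have h3 : 0 ≤ (10426969377 / 160000000) * (a ^ 0 * (4 / 9 - a) ^ 3) +
      (2207809801719 / 16000000000) * (a ^ 1 * (4 / 9 - a) ^ 2) +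
      (628013837709 / 8000000000) * (a ^ 2 * (4 / 9 - a) ^ 1) +
      (118890011399 / 16000000000) * (a ^ 3 * (4 / 9 - a) ^ 0) := by positivity
  have e : p ^ 2 * (21887 / 10000 + a / 2) -
      1571 / 1000 * (1887 / 10000 + a) * p - 2468041 / 1000000 * (4 - 5 / 6 * a) -
      114 / 100 * p ^ 2 = (10426969377 / 160000000) * (a ^ 0 * (4 / 9 - a) ^ 3) +
      (2207809801719 / 16000000000) * (a ^ 1 * (4 / 9 - a) ^ 2) +
      (628013837709 / 8000000000) * (a ^ 2 * (4 / 9 - a) ^ 1) +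
      (118890011399 / 16000000000) * (a ^ 3 * (4 / 9 - a) ^ 0) := by
    rw [hp]
    ring
  linarith

theorem ofr_pB {a p : ℝ} (h0 : 4 / 9 ≤ a) (h1 : a ≤ 4 / 5) (hp : p = 4 - 187 / 100 * a) :
    505 / 1000 * p ^ 2 ≤ a * (p ^ 2 * (21887 / 10000 + a / 2) -
      1571 / 1000 * (1887 / 10000 + a) * p - 2468041 / 1000000 * (4 - 5 / 6 * a)) := by
  have h2 : 0 ≤ 4 / 5 - a := by linarith
  have h4 : 0 ≤ a - 4 / 9 := by linarith
  have h3 : 0 ≤ (125752992899 / 6553600000) * ((a - 4 / 9) ^ 0 * (4 / 5 - a) ^ 4) +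
      (1931043773673 / 8192000000) * ((a - 4 / 9) ^ 1 * (4 / 5 - a) ^ 3) +
      (32973103361637 / 81920000000) * ((a - 4 / 9) ^ 2 * (4 / 5 - a) ^ 2) +
      (7867791454473 / 40960000000) * ((a - 4 / 9) ^ 3 * (4 / 5 - a) ^ 1) +
      (1288475793603 / 163840000000) * ((a - 4 / 9) ^ 4 * (4 / 5 - a) ^ 0) := by positivity
  have e : a * (p ^ 2 * (21887 / 10000 + a / 2) -
      1571 / 1000 * (1887 / 10000 + a) * p - 2468041 / 1000000 * (4 - 5 / 6 * a)) -
      505 / 1000 * p ^ 2 = (125752992899 / 6553600000) * ((a - 4 / 9) ^ 0 * (4 / 5 - a) ^ 4) +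
      (1931043773673 / 8192000000) * ((a - 4 / 9) ^ 1 * (4 / 5 - a) ^ 3) +
      (32973103361637 / 81920000000) * ((a - 4 / 9) ^ 2 * (4 / 5 - a) ^ 2) +
      (7867791454473 / 40960000000) * ((a - 4 / 9) ^ 3 * (4 / 5 - a) ^ 1) +
      (1288475793603 / 163840000000) * ((a - 4 / 9) ^ 4 * (4 / 5 - a) ^ 0) := by
    rw [hp]
    ring
  linarith

/-- lower bound of the level (divided by `r`) -/
noncomputable def ofrV (x n a : ℝ) : ℝ :=
  21887 / 10000 * a + a ^ 2 / 2 - (1887 / 10000 + a) * n - (x + 1 / 6) * n ^ 2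

theorem ofr_V {x n a : ℝ} (hx : 4 ≤ x) (ha : a * (1 + x) = 4) (hn : 0 ≤ n)
    (hnx : n * (x - 87 / 100) ≤ 1571 / 1000) :
    (8 ≤ x → 114 / 100 * a ≤ ofrV x n a ∧ 3 / 8 * (114 / 100 * a) ≤ a - n) ∧
    (x ≤ 8 → 505 / 1000 ≤ ofrV x n a ∧ 3 / 8 * (505 / 1000) ≤ a - n) := by
  have hx1 : 0 < 1 + x := by linarith
  have ha0 : 0 < a := by
    by_contra hc
    push Not at hc
    nlinarith
  have ha1 : a ≤ 4 / 5 := by nlinarith
  obtain ⟨p, hp⟩ : ∃ p, p = 4 - 187 / 100 * a := ⟨_, rfl⟩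
  have hp0 : 0 < p := by rw [hp]; linarith
  have hxa : x * a = 4 - a := by linarith
  have hnp : n * p ≤ 1571 / 1000 * a := by
    have h1 := mul_le_mul_of_nonneg_right hnx ha0.le
    have e : n * (x - 87 / 100) * a = n * p := by
      rw [hp]
      linear_combination n * hxa
    linarith
  have hnp0 : 0 ≤ n * p := by positivity
  have hnp2 : (n * p) ^ 2 ≤ (1571 / 1000 * a) ^ 2 := pow_le_pow_left₀ hnp0 hnp 2
  have key : a ^ 2 * (p ^ 2 * (21887 / 10000 + a / 2) -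
      1571 / 1000 * (1887 / 10000 + a) * p - 2468041 / 1000000 * (4 - 5 / 6 * a)) ≤
      a * p ^ 2 * ofrV x n a := by
    have e : a * p ^ 2 * ofrV x n a = a ^ 2 * p ^ 2 * (21887 / 10000 + a / 2) -
        (1887 / 10000 + a) * a * p * (n * p) - (4 - 5 / 6 * a) * (n * p) ^ 2 := by
      unfold ofrV
      linear_combination -(n * p) ^ 2 * hxa
    have h1 : (1887 / 10000 + a) * a * p * (n * p) ≤
        (1887 / 10000 + a) * a * p * (1571 / 1000 * a) :=
      mul_le_mul_of_nonneg_left hnp (by positivity)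
    have h2 : (4 - 5 / 6 * a) * (n * p) ^ 2 ≤ (4 - 5 / 6 * a) * (1571 / 1000 * a) ^ 2 :=
      mul_le_mul_of_nonneg_left hnp2 (by linarith)
    rw [e]
    linarith
  refine ⟨fun h8 => ?_, fun h8 => ?_⟩
  · have ha2 : a ≤ 4 / 9 := by nlinarith
    have hA := ofr_pA ha0.le ha2 hp
    constructor
    · have h1 : a ^ 2 * (114 / 100 * p ^ 2) ≤ a * p ^ 2 * ofrV x n a :=
        (mul_le_mul_of_nonneg_left hA (sq_nonneg a)).trans key
      have h2 : 0 < a * p ^ 2 := by positivity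
      refine le_of_mul_le_mul_left ?_ h2
      linarith
    · refine le_of_mul_le_mul_right ?_ hp0
      have e : (a - n) * p = a * p - n * p := by ring
      rw [e]
      have h3 : 0 ≤ a * (719 / 1000 - 107065 / 100000 * a) := mul_nonneg ha0.le (by linarith)
      rw [hp] at hnp ⊢
      nlinarith
  · have ha2 : 4 / 9 ≤ a := by
      by_contra hc
      push Not at hc
      nlinarith
    have hB := ofr_pB ha2 ha1 hp
    constructor
    · have h1 : a * (505 / 1000 * p ^ 2) ≤ a * p ^ 2 * ofrV x n a := by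
        refine le_trans ?_ key
        have := mul_le_mul_of_nonneg_left hB ha0.le
        refine this.trans (le_of_eq ?_)
        ring
      have h2 : 0 < a * p ^ 2 := by positivity
      refine le_of_mul_le_mul_left ?_ h2
      linarith
    · refine le_of_mul_le_mul_right ?_ hp0
      have e : (a - n) * p = a * p - n * p := by ring
      rw [e]
      rw [hp] at hnp ⊢
      nlinarith [mul_nonneg (sub_nonneg.2 ha2) (sub_nonneg.2 ha1)]

/-- the common level `T` -/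
theorem ofr_T {x n z τ k ψ ρ r : ℝ} (h : ShR x n z τ k ψ) (hx : 3 ≤ x) (hρ : ρ = k * exp (-n))
    (hr : 499 / 10 ≤ r) (hR : 27 / 5 * (1 + ρ ^ 2) ≤ r * (2 * π / 3) ^ 2)
    (hη : ψ + x - ρ ≤ π / 2) {a : ℝ} (ha : a * (1 + x) = 4) :
    ∃ T, 0 ≤ T ∧ 4 * ρ ≤ r * T ∧ T ≤ ofrV x n a ∧ T ≤ 17 / 10 * a ∧ 3 / 8 * T ≤ a - n := by
  obtain ⟨g1, g2, g3, g4⟩ := ofr_n h hx hρ hη
  have hn0 := h.y0
  have hn1 := h.y1
  have hr0 : 0 < r := by linarith
  have ha0 : 0 < a := by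
    by_contra hc
    push Not at hc
    nlinarith
  have hr1 : 1231 / 1000 * (1 + ρ ^ 2) ≤ r := by
    have hp := Real.pi_gt_d6
    have hq := Real.pi_lt_d6
    have h1 : (2 * π / 3) ^ 2 ≤ 4386500 / 1000000 := by nlinarith
    have h2 := mul_le_mul_of_nonneg_left h1 hr0.le
    nlinarith [sq_nonneg ρ]
  rcases le_total x 4 with h4 | h4
  · have ha1 : 4 / 5 ≤ a := by
      by_contra hc
      push Not at hc
      nlinarith
    refine ⟨33 / 100, by norm_num, by nlinarith, ?_, by linarith, by linarith⟩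
    unfold ofrV
    have h5 : (1887 / 10000 + a) * n ≤ (1887 / 10000 + a) * (53 / 100) :=
      mul_le_mul_of_nonneg_left hn1 (by linarith)
    have h6 : n ^ 2 ≤ (53 / 100) ^ 2 := pow_le_pow_left₀ hn0 hn1 2
    have h7 : (x + 1 / 6) * n ^ 2 ≤ (4 + 1 / 6) * (53 / 100) ^ 2 :=
      mul_le_mul (by linarith) h6 (sq_nonneg n) (by norm_num)
    nlinarith
  · obtain ⟨v1, v2⟩ := ofr_V h4 ha hn0 g1
    rcases le_total 8 x with h8 | h8
    · obtain ⟨w1, w2⟩ := v1 h8
      refine ⟨114 / 100 * a, by positivity, ?_, w1, by linarith, w2⟩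
      have hρ0 : 0 < ρ := by linarith
      have h9 : 1231 / 1000 * ρ ^ 2 ≤ r := by linarith
      have h10 : (1231 / 1000 * ρ ^ 2) * (114 / 100 * a) ≤ r * (114 / 100 * a) :=
        mul_le_mul_of_nonneg_right h9 (by positivity)
      refine le_trans ?_ h10
      have h11 : 4 ≤ 1231 / 1000 * ρ * (114 / 100 * a) := by
        have h12 : 1 + x ≤ 1231 / 1000 * ρ * (114 / 100) := by linarith
        have h13 := mul_le_mul_of_nonneg_left h12 ha0.le
        linarith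
      have := mul_le_mul_of_nonneg_right h11 hρ0.le
      linarith
    · obtain ⟨w1, w2⟩ := v2 h8
      have ha2 : 4 / 9 ≤ a := by
        by_contra hc
        push Not at hc
        nlinarith
      refine ⟨505 / 1000, by norm_num, ?_, w1, by linarith, w2⟩
      nlinarith [sq_nonneg (ρ - 63 / 10)]

/-- level and slope at the lump `2π`, right side, `s > 0` (true `18.4`, `4.37`) -/
theorem fRr {x n z τ k ψ ρ r : ℝ} (h : ShR x n z τ k ψ) (hρ : ρ = k * exp (-n))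
    (hD : 13 / 20 ≤ (1 - n) ^ 2 + x ^ 2) (hr : 499 / 10 ≤ r)
    (hR : 27 / 5 * (1 + ρ ^ 2) ≤ r * (2 * π / 3) ^ 2) (hη : ψ + x - ρ ≤ π / 2) :
    8 * ρ ≤ r * ((a4 x + n) * (2 * π + ψ + τ + z) + x * (1 + a4 x) - exp (a4 x) * k) ∧
      3 / 2 * ρ ≤ r * (a4 x + n) := by
  have hn0 := h.y0
  have hn1 := h.y1
  have hx0 := h.x0
  have hk0 := h.k0
  have hk2 := ofr_k2 h
  have hT := h.T
  have hψ0 := h.ψ0
  have hτ0 := h.τ0
  have hz0 := h.z0
  have hpi := Real.pi_gt_d6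
  have hr0 : 0 < r := by linarith
  rcases le_total x 3 with h3 | h3
  · rw [ofr_a_lo hx0 h3]
    have hk : k ≤ x + 2 / 5 * n := by
      refine le_of_sq_le_sq ?_ (by positivity)
      nlinarith [mul_nonneg hn0 (sub_nonneg.2 hT), sq_nonneg n]
    have hE1 : exp (-n) ≤ 1 := Real.exp_le_one_iff.2 (by linarith)
    have hρk : ρ ≤ k := by
      rw [hρ]
      have := mul_le_mul_of_nonneg_left hE1 hk0.le
      linarith
    have he := e1_hi
    have hek : exp 1 * k ≤ 2719 / 1000 * (x + 2 / 5 * n) := mul_le_mul he hk hk0.le (by norm_num)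
    have hA : (1 + n) * (6283 / 1000) ≤ (1 + n) * (2 * π + ψ + τ + z) :=
      mul_le_mul_of_nonneg_left (by linarith) (by linarith)
    have hL : 41 / 10 ≤ (1 + n) * (2 * π + ψ + τ + z) + x * (1 + 1) - exp 1 * k := by linarith
    constructor
    · have : 499 / 10 * (41 / 10) ≤
          r * ((1 + n) * (2 * π + ψ + τ + z) + x * (1 + 1) - exp 1 * k) :=
        mul_le_mul hr hL (by norm_num) hr0.le
      linarith
    · have : r * 1 ≤ r * (1 + n) := mul_le_mul_of_nonneg_left (by linarith) hr0.le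
      linarith
  · rw [ofr_a_hi h3]
    have hx1 : 0 < 1 + x := by linarith
    obtain ⟨a, hadef⟩ : ∃ a, a = 4 / (1 + x) := ⟨_, rfl⟩
    rw [← hadef]
    have ha : a * (1 + x) = 4 := by
      rw [hadef]
      field_simp
    have ha0 : 0 < a := by rw [hadef]; positivity
    have ha1 : a ≤ 1 := by rw [hadef, div_le_one hx1]; linarith
    obtain ⟨T, T0, T1, T2, T3, T4⟩ := ofr_T h h3 hρ hr hR hη ha
    have hk : k ≤ x + n ^ 2 / 6 := by
      refine le_of_sq_le_sq ?_ (by positivity)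
      nlinarith [mul_nonneg (sq_nonneg n) (sub_nonneg.2 h3), sq_nonneg (n ^ 2)]
    have hE := ofr_exp ha0.le ha1
    have he : exp a ≤ 2719 / 1000 := (Real.exp_le_exp.2 ha1).trans e1_hi
    have hxa : x * a = 4 - a := by linarith
    have hek : exp a * k ≤ (1 + a + 18 / 25 * a ^ 2) * x + 2719 / 1000 * (n ^ 2 / 6) := by
      have h1 : exp a * k ≤ exp a * (x + n ^ 2 / 6) :=
        mul_le_mul_of_nonneg_left hk (exp_pos a).le
      have h2 : exp a * x ≤ (1 + a + 18 / 25 * a ^ 2) * x := mul_le_mul_of_nonneg_right hE hx0.le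
      have h4 : exp a * (n ^ 2 / 6) ≤ 2719 / 1000 * (n ^ 2 / 6) :=
        mul_le_mul_of_nonneg_right he (by positivity)
      linarith
    have hA : (a + n) * (6283 / 1000) ≤ (a + n) * (2 * π + ψ + τ + z) :=
      mul_le_mul_of_nonneg_left (by linarith) (by linarith)
    have hL : 34 / 10 * a ≤ (a + n) * (2 * π + ψ + τ + z) + x * (1 + a) - exp a * k := by
      have h5 : a ^ 2 * x = a * (4 - a) := by rw [← hxa]; ring
      nlinarith [sq_nonneg a, mul_nonneg hn0 (sub_nonneg.2 hn1)]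
    constructor
    · have h6 := mul_le_mul_of_nonneg_left hL hr0.le
      have h7 := mul_le_mul_of_nonneg_left T3 hr0.le
      linarith
    · have h6 := mul_le_mul_of_nonneg_left T4 hr0.le
      have h7 : r * (a - n) ≤ r * (a + n) := mul_le_mul_of_nonneg_left (by linarith) hr0.le
      linarith

/-- right side, `s < 0` (true `5.17`, `1.88`) -/
theorem fRl {x n z τ k ψ ρ r : ℝ} (h : ShR x n z τ k ψ) (hρ : ρ = k * exp (-n))
    (hD : 13 / 20 ≤ (1 - n) ^ 2 + x ^ 2) (hr : 499 / 10 ≤ r)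
    (hR : 27 / 5 * (1 + ρ ^ 2) ≤ r * (2 * π / 3) ^ 2) (hη : ψ + x - ρ ≤ π / 2)
    (hζ : ψ + x - ρ + (z + τ) ≤ 2 * π / 3) :
    4 * ρ ≤ r * ((a4 x - n) * (2 * π - ψ - τ - z) + x * (1 - a4 x) - exp (-(a4 x)) * k) ∧
      3 / 2 * ρ ≤ r * (a4 x - n) := by
  have hn0 := h.y0
  have hn1 := h.y1
  have hx0 := h.x0
  have hk0 := h.k0
  have hk2 := ofr_k2 h
  have hT := h.T
  have hψ0 := h.ψ0
  have hψ1 := h.ψ1
  have hζ1 := h.ζ
  have hτ0 := h.τ0
  have hz0 := h.z0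
  have hpi := Real.pi_gt_d6
  have hr0 : 0 < r := by linarith
  rcases le_total x 3 with h3 | h3
  · rw [ofr_a_lo hx0 h3]
    have hk : k ≤ x + 2 / 5 * n := by
      refine le_of_sq_le_sq ?_ (by positivity)
      nlinarith [mul_nonneg hn0 (sub_nonneg.2 hT), sq_nonneg n]
    have hE1 : exp (-n) ≤ 1 := Real.exp_le_one_iff.2 (by linarith)
    have hρk : ρ ≤ k := by
      rw [hρ]
      have := mul_le_mul_of_nonneg_left hE1 hk0.le
      linarith
    have he : exp (-1 : ℝ) ≤ 3679 / 10000 := em1_hi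
    have hek : exp (-1 : ℝ) * k ≤ 3679 / 10000 * (x + 2 / 5 * n) :=
      mul_le_mul he hk hk0.le (by norm_num)
    have hA : (47 / 100) * (4768 / 1000) ≤ (1 - n) * (2 * π - ψ - τ - z) :=
      mul_le_mul (by linarith) (by linarith) (by norm_num) (by linarith)
    have hL : 1 ≤ (1 - n) * (2 * π - ψ - τ - z) + x * (1 - 1) - exp (-1) * k := by linarith
    constructor
    · have : 499 / 10 * 1 ≤
          r * ((1 - n) * (2 * π - ψ - τ - z) + x * (1 - 1) - exp (-1) * k) :=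
        mul_le_mul hr hL (by norm_num) hr0.le
      linarith
    · have : r * (47 / 100) ≤ r * (1 - n) := mul_le_mul_of_nonneg_left (by linarith) hr0.le
      linarith
  · rw [ofr_a_hi h3]
    have hx1 : 0 < 1 + x := by linarith
    obtain ⟨a, hadef⟩ : ∃ a, a = 4 / (1 + x) := ⟨_, rfl⟩
    rw [← hadef]
    have ha : a * (1 + x) = 4 := by
      rw [hadef]
      field_simp
    have ha0 : 0 < a := by rw [hadef]; positivity
    obtain ⟨g1, g2, g3, g4⟩ := ofr_n h h3 hρ hη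
    obtain ⟨T, T0, T1, T2, T3, T4⟩ := ofr_T h h3 hρ hr hR hη ha
    have hxa : x * a = 4 - a := by linarith
    have hb0 : 0 ≤ a - n := by linarith
    have hρ0 : 0 ≤ ρ := by linarith
    obtain ⟨b, hb⟩ : ∃ b, b = a - n := ⟨_, rfl⟩
    rw [← hb] at hb0 T4 ⊢
    have hek : exp (-a) * k = ρ * exp (-b) := by
      rw [hρ, mul_assoc, ← Real.exp_add, hb, show -n + -(a - n) = -a by ring]
      ring
    have hEb : exp (-b) ≤ 1 - b + b ^ 2 / 2 := en_le2 hb0
    have h1 : ρ * exp (-b) ≤ ρ * (1 - b) + ρ * (b ^ 2 / 2) := by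
      have := mul_le_mul_of_nonneg_left hEb hρ0
      linarith
    have h2 : ρ * (b ^ 2 / 2) ≤ x * (b ^ 2 / 2) := mul_le_mul_of_nonneg_right g2 (by positivity)
    have h4 : b * (41887 / 10000) ≤ b * (2 * π - (ψ + x - ρ) - (z + τ)) :=
      mul_le_mul_of_nonneg_left (by linarith) hb0
    have hL : T ≤ b * (2 * π - ψ - τ - z) + x * (1 - a) - exp (-a) * k := by
      refine T2.trans ?_
      rw [hek]
      have e1 : x * (b ^ 2 / 2) = a * (4 - a) / 2 - n * (4 - a) + x * n ^ 2 / 2 := by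
        rw [hb]
        linear_combination (a / 2 - n) * hxa
      have e2 : b * (2 * π - ψ - τ - z) = b * (2 * π - (ψ + x - ρ) - (z + τ)) + b * x - b * ρ := by
        ring
      have e3 : ofrV x n a = b * (41887 / 10000) - (a * (4 - a) / 2 - n * (4 - a) + x * n ^ 2 / 2) -
          x * n ^ 2 / 2 - n ^ 2 / 6 := by
        unfold ofrV
        rw [hb]
        ring
      have e4 : x * (1 - a) = x * (1 - n) - b * x := by
        rw [hb]
        ring
      rw [e2, e3, e4]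
      linarith
    constructor
    · have h6 := mul_le_mul_of_nonneg_left hL hr0.le
      linarith
    · have h6 := mul_le_mul_of_nonneg_left T4 hr0.le
      linarith

end SokalV3O
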