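import Pool.Agent.Lib_MP_af4de1_v3o.OTRc

/-!
# Levels of the lumps on the right side, tilt included, `3 ≤ x`
-/

set_option autoImplicit false

namespace SokalV3O

open Real SokalF1G

theorem otr_r {ρ r : ℝ} (hr : 499 / 10 ≤ r) (hR : 27 / 5 * (1 + ρ ^ 2) ≤ r * (2 * π / 3) ^ 2) :
    1231 / 1000 * (1 + ρ ^ 2) ≤ r := by
  have hr0 : 0 < r := by linarith
  have hp := Real.pi_gt_d6
  have hq := Real.pi_lt_d6
  have h1 : (2 * π / 3) ^ 2 ≤ 4386500 / 1000000 := by nlinarith
  have h2 := mul_le_mul_of_nonneg_left h1 hr0.le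
  nlinarith [sq_nonneg ρ]

theorem otr_r2 {ρ r : ℝ} (hr : 499 / 10 ≤ r) (hR : 1231 / 1000 * (1 + ρ ^ 2) ≤ r) :
    793 / 100 * ρ ≤ r := by
  nlinarith [sq_nonneg (ρ - 6442 / 1000)]

theorem otr_psi {x n z τ k ψ Y : ℝ} (h : Shp x n z τ k ψ Y) : ψ * x ≤ n := by
  have h0 := h.ψ0
  have h1 := h.ψ1
  have hp := Real.pi_gt_d6
  have h2 : ψ < π / 2 := by linarith
  have h3 := Real.le_tan h0 h2
  have h4 : 0 < cos ψ := Real.cos_pos_of_mem_Ioo ⟨by linarith, h2⟩
  rw [Real.tan_eq_sin_div_cos, le_div_iff₀ h4] at h3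
  have h5 := mul_le_mul_of_nonneg_left h3 h.k0.le
  rw [h.hx, h.hy]
  linarith

/-- the lower bound of (level - tilt), `s < 0` -/
theorem otr_base {x n z τ k ψ ρ a C : ℝ} (h : ShR x n z τ k ψ) (hx : 3 ≤ x)
    (hρ : ρ = k * exp (-n)) (hη : ψ + x - ρ ≤ π / 2)
    (hζ : ψ + x - ρ + (z + τ) ≤ 2 * π / 3) (hb : 0 ≤ a - n) (hC : 5 / 4 * exp a ≤ C * x)
    (hC0 : 0 ≤ C) :
    41887 / 10000 * (a - n) - (x / 2 + 1 / 6) * n ^ 2 - (a - n) ^ 2 * (ρ / 2 + C) ≤
      (a - n) * (2 * π - ψ - τ - z) + x * (1 - a) - exp (-a) * k -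
        5 / 4 * (a - n) ^ 2 * exp a / k := by
  have hn0 := h.y0
  have hk0 := h.k0
  have hx0 := h.x0
  have hpi := Real.pi_gt_d6
  obtain ⟨g1, g2, g3, g4⟩ := ofr_n h hx hρ hη
  have hρ0 : 0 ≤ ρ := by linarith
  obtain ⟨b, hbd⟩ : ∃ b, b = a - n := ⟨_, rfl⟩
  rw [← hbd] at hb ⊢
  have hek : exp (-a) * k = ρ * exp (-b) := by
    rw [hρ, mul_assoc, ← Real.exp_add, hbd, show -n + -(a - n) = -a by ring]
    ring
  have hEb : exp (-b) ≤ 1 - b + b ^ 2 / 2 := en_le2 hb
  have h1 : ρ * exp (-b) ≤ ρ * (1 - b) + ρ * (b ^ 2 / 2) := by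
    have := mul_le_mul_of_nonneg_left hEb hρ0
    linarith
  have h4 : b * (41887 / 10000) ≤ b * (2 * π - (ψ + x - ρ) - (z + τ)) :=
    mul_le_mul_of_nonneg_left (by linarith) hb
  have hxk : x ≤ k := by
    have := ofr_k2 h
    refine le_of_sq_le_sq ?_ hk0.le
    nlinarith [sq_nonneg n]
  have h5 : 5 / 4 * b ^ 2 * exp a / k ≤ b ^ 2 * C := by
    rw [div_le_iff₀ hk0]
    have h6 : C * x ≤ C * k := mul_le_mul_of_nonneg_left hxk hC0
    have h7 := mul_le_mul_of_nonneg_left (hC.trans h6) (sq_nonneg b)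
    linarith
  rw [hek]
  have e2 : b * (2 * π - ψ - τ - z) = b * (2 * π - (ψ + x - ρ) - (z + τ)) + b * x - b * ρ := by
    ring
  have e4 : x * (1 - a) = x * (1 - n) - b * x := by
    rw [hbd]
    ring
  rw [e2, e4]
  linarith

theorem otr_toV {x n ρ a κ c w : ℝ} (ha : a * (1 + x) = 4) (hw : w = n * (1 + x))
    (hρ : ρ ≤ x * (1 - κ * n)) :
    a * fV κ c a w ≤
      41887 / 10000 * (a - n) - (x / 2 + 1 / 6) * n ^ 2 - (a - n) ^ 2 * (ρ / 2 + c * a) := by
  have hxa : x * a = 4 - a := by linarith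
  have hn : n = w * a / 4 := by
    rw [hw]
    linear_combination -(n / 4) * ha
  have e : a * fV κ c a w = 41887 / 10000 * (a - n) - (x / 2 + 1 / 6) * n ^ 2 -
      (a - n) ^ 2 * (x * (1 - κ * n) / 2 + c * a) := by
    rw [hn]
    unfold fV
    linear_combination (w ^ 2 * a / 32 + a * (1 - w / 4) ^ 2 * (1 - κ * w * a / 4) / 2) * hxa
  rw [e]
  have := mul_le_mul_of_nonneg_left hρ (sq_nonneg (a - n))
  linarith

/-- the bound of `ρ` -/
theorem otr_rho {x n ρ κ : ℝ} (hx : 3 ≤ x) (hn : 0 ≤ n) (g1 : n * (x - 87 / 100) ≤ 1571 / 1000)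
    (g3 : ρ ≤ x * (1 - n) + x * n ^ 2 / 2 + n ^ 2 / 6)
    (hκ : 1571 / 1000 * (x / 2 + 1 / 6) ≤ (1 - κ) * x * (x - 87 / 100)) : ρ ≤ x * (1 - κ * n) := by
  have h1 : 0 < x - 87 / 100 := by linarith
  have h2 : n * (x / 2 + 1 / 6) ≤ (1 - κ) * x := by
    refine le_of_mul_le_mul_right ?_ h1
    have h3 : n * (x - 87 / 100) * (x / 2 + 1 / 6) ≤ 1571 / 1000 * (x / 2 + 1 / 6) :=
      mul_le_mul_of_nonneg_right g1 (by positivity)
    linarith
  have h3 := mul_le_mul_of_nonneg_left h2 hn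
  linarith

theorem otr_w {x n a w W : ℝ} (ha : a * (1 + x) = 4) (ha1 : a ≤ 1)
    (g1 : n * (x - 87 / 100) ≤ 1571 / 1000)
    (hw : w = n * (1 + x)) (hW : 6284 / 1000 ≤ W * (4 - 187 / 100 * a)) : w ≤ W := by
  have h1 : 0 < 4 - 187 / 100 * a := by linarith
  refine le_of_mul_le_mul_right ?_ h1
  have h2 : w * (4 - 187 / 100 * a) = 4 * (n * (x - 87 / 100)) := by
    rw [hw]
    linear_combination -(187 / 100 * n) * ha
  rw [h2]
  linarith

theorem otr_exp {u : ℝ} (h0 : 0 ≤ u) (h1 : u ≤ 1) :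
    exp u ≤ 1 + u + u ^ 2 / 2 + u ^ 3 / 6 + u ^ 4 / 24 + u ^ 5 / 100 := by
  have ha : |u| ≤ 1 := by rw [abs_of_nonneg h0]; exact h1
  have e1 := Real.exp_bound ha (n := 5) (by norm_num)
  rw [abs_of_nonneg h0] at e1
  simp only [Finset.sum_range_succ, Finset.sum_range_zero, Nat.factorial, Nat.succ_eq_add_one] at e1
  norm_num at e1
  rw [abs_le] at e1
  linarith [e1.2]

theorem otr_e23 : exp (2 / 3) ≤ 1948 / 1000 := by
  have := otr_exp (u := 2 / 3) (by norm_num) (by norm_num)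
  norm_num at this
  linarith

theorem otr_e49 : exp (4 / 9) ≤ 156 / 100 := by
  have := otr_exp (u := 4 / 9) (by norm_num) (by norm_num)
  norm_num at this
  linarith

theorem otr_e45 : exp (4 / 5) ≤ 22258 / 10000 := by
  have := otr_exp (u := 4 / 5) (by norm_num) (by norm_num)
  norm_num at this
  linarith

/-- LEVEL, right side, `s < 0`, tilt included (true `5.0`) -/
theorem otr_lev_l {x n z τ k ψ ρ r a : ℝ} (h : ShR x n z τ k ψ) (hx : 3 ≤ x)
    (hρ : ρ = k * exp (-n)) (hr : 499 / 10 ≤ r)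
    (hR : 27 / 5 * (1 + ρ ^ 2) ≤ r * (2 * π / 3) ^ 2) (hη : ψ + x - ρ ≤ π / 2)
    (hζ : ψ + x - ρ + (z + τ) ≤ 2 * π / 3) (ha : a * (1 + x) = 4) (hb : 0 ≤ a - n) :
    (5 ≤ x → 21 / 5 * ρ ≤ r * ((a - n) * (2 * π - ψ - τ - z) + x * (1 - a) - exp (-a) * k -
        5 / 4 * (a - n) ^ 2 * exp a / k)) ∧
    (x ≤ 5 → 9 / 2 * ρ ≤ r * ((a - n) * (2 * π - ψ - τ - z) + x * (1 - a) - exp (-a) * k -
        5 / 4 * (a - n) ^ 2 * exp a / k)) := by
  have hR' := otr_r hr hR
  have hr0 : 0 < r := by linarith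
  have hn0 := h.y0
  have hn1 := h.y1
  obtain ⟨g1, g2, g3, g4⟩ := ofr_n h hx hρ hη
  have hρ0 : 0 < ρ := by linarith
  have hxa : x * a = 4 - a := by linarith
  have ha0 : 0 < a := by
    by_contra hc
    push Not at hc
    nlinarith
  have ha1 : a ≤ 1 := by nlinarith
  obtain ⟨w, hw⟩ : ∃ w, w = n * (1 + x) := ⟨_, rfl⟩
  have hw0 : 0 ≤ w := by rw [hw]; positivity
  have hbase := fun C hC hC0 => otr_base (C := C) h hx hρ hη hζ hb hC hC0
  set F := (a - n) * (2 * π - ψ - τ - z) + x * (1 - a) - exp (-a) * k -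
        5 / 4 * (a - n) ^ 2 * exp a / k with hF
  constructor
  · intro h5
    rcases le_total x 8 with h8 | h8
    · have a1 : 4 / 9 ≤ a := by nlinarith
      have a2 : a ≤ 2 / 3 := by nlinarith
      have b1 := hbase (1461 / 2000 * a) (by
        have h1 : exp a ≤ 1948 / 1000 := (Real.exp_le_exp.2 a2).trans otr_e23
        have h2 : 1461 / 2000 * a * x = 1461 / 2000 * (4 - a) := by rw [← hxa]; ring
        rw [h2]
        linarith) (by positivity)
      have b2 := otr_rho (κ := 797 / 1000) hx hn0 g1 g3 (by nlinarith)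
      have b3 := otr_toV (c := 1461 / 2000) ha hw b2
      have b4 := otr_w (W := 13857 / 10000 + 13454 / 10000 * a) ha ha1 g1 hw (by
        nlinarith [mul_nonneg (sub_nonneg.2 a1) (sub_nonneg.2 a2)])
      have hW : 0 < 13857 / 10000 + 13454 / 10000 * a := by positivity
      have b5 := lv5 (t := w / (13857 / 10000 + 13454 / 10000 * a)) a1 a2 (by positivity)
        (by rw [div_le_one hW]; exact b4)
      rw [mul_div_cancel₀ _ hW.ne'] at b5
      have b6 : 53 / 100 ≤ F := by linarith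
      have b7 := otr_r2 hr hR'
      nlinarith
    · have a2 : a ≤ 4 / 9 := by nlinarith
      have b1 := hbase (5485 / 10000 * a) (by
        have h1 : exp a ≤ 156 / 100 := (Real.exp_le_exp.2 a2).trans otr_e49
        have h2 : 5485 / 10000 * a * x = 5485 / 10000 * (4 - a) := by rw [← hxa]; ring
        rw [h2]
        linarith) (by positivity)
      have b2 := otr_rho (κ := 88 / 100) hx hn0 g1 g3 (by nlinarith)
      have b3 := otr_toV (c := 5485 / 10000) ha hw b2
      have b4 := otr_w (W := 1571 / 1000 + 9272 / 10000 * a) ha ha1 g1 hw (by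
        nlinarith [mul_nonneg ha0.le (sub_nonneg.2 a2)])
      have hW : 0 < 1571 / 1000 + 9272 / 10000 * a := by positivity
      have b5 := lv8 (t := w / (1571 / 1000 + 9272 / 10000 * a)) ha0.le a2 (by positivity)
        (by rw [div_le_one hW]; exact b4)
      rw [mul_div_cancel₀ _ hW.ne'] at b5
      obtain ⟨f, hf⟩ : ∃ f, f = fV (88 / 100) (5485 / 10000) a w := ⟨_, rfl⟩
      rw [← hf] at b5 b3
      have hD : 0 < 4 - 2571 / 1000 * a := by linarith
      have hf0 : 0 ≤ f := by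
        by_contra hc
        push Not at hc
        have := mul_neg_of_neg_of_pos hc hD
        linarith
      have b6 : a * f ≤ F := b3.trans b1
      have b7 : f * (4 - 2571 / 1000 * a) ≤ f * (ρ * a) := by
        refine mul_le_mul_of_nonneg_left ?_ hf0
        have := mul_le_mul_of_nonneg_right g4 ha0.le
        linarith
      have b8 : 3412 / 1000 ≤ ρ * F := by
        have := mul_le_mul_of_nonneg_left b6 hρ0.le
        linarith
      have b9 : 1231 / 1000 * ρ ^ 2 ≤ r := by linarith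
      have hF0 : 0 ≤ F := le_trans (by positivity) b6
      have b10 := mul_le_mul_of_nonneg_right b9 hF0
      have b11 := mul_le_mul_of_nonneg_left b8 hρ0.le
      linarith
  · intro h5
    rcases le_total x 4 with h4 | h4
    · have a1 : 4 / 5 ≤ a := by nlinarith
      have b1 := hbase (1133 / 1000 * a) (by
        have h1 : exp a ≤ 2719 / 1000 := (Real.exp_le_exp.2 ha1).trans e1_hi
        have h2 : 1133 / 1000 * a * x = 1133 / 1000 * (4 - a) := by rw [← hxa]; ring
        rw [h2]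
        linarith) (by positivity)
      have b2 : ρ ≤ x * (1 - 7 / 10 * n) := by
        have h1 : n * (x / 2 + 1 / 6) ≤ 3 / 10 * x := by nlinarith
        have h3 := mul_le_mul_of_nonneg_left h1 hn0
        linarith
      have b5 := lv3 (t := n / (53 / 100)) a1 ha1 (by positivity)
        (by rw [div_le_one (by norm_num)]; exact hn1)
      rw [mul_div_cancel₀ _ (by norm_num : (53 / 100 : ℝ) ≠ 0)] at b5
      have b6 : a * (902 / 10000 * ρ) ≤ a * F := by
        have c1 : a * ρ ≤ (4 - a) * (1 - 7 / 10 * n) := by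
          have := mul_le_mul_of_nonneg_left b2 ha0.le
          rw [← hxa]
          linarith
        have c2 := mul_le_mul_of_nonneg_left b1 ha0.le
        have c3 : a * (41887 / 10000 * (a - n) - (x / 2 + 1 / 6) * n ^ 2 -
            (a - n) ^ 2 * (ρ / 2 + 1133 / 1000 * a)) = 41887 / 10000 * a * (a - n) -
            (2 - a / 3) * n ^ 2 - (a - n) ^ 2 * (a * ρ / 2 + 1133 / 1000 * a ^ 2) := by
          linear_combination -(n ^ 2 / 2) * hxa
        have c4 := mul_le_mul_of_nonneg_left c1 (sq_nonneg (a - n))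
        linarith
      have b7 := le_of_mul_le_mul_left b6 ha0
      have b8 := mul_le_mul_of_nonneg_left b7 hr0.le
      nlinarith
    · have a1 : 2 / 3 ≤ a := by nlinarith
      have a2 : a ≤ 4 / 5 := by nlinarith
      have b1 := hbase (8695 / 10000 * a) (by
        have h1 : exp a ≤ 22258 / 10000 := (Real.exp_le_exp.2 a2).trans otr_e45
        have h2 : 8695 / 10000 * a * x = 8695 / 10000 * (4 - a) := by rw [← hxa]; ring
        rw [h2]
        linarith) (by positivity)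
      have b2 := otr_rho (κ := 728 / 1000) hx hn0 g1 g3 (by nlinarith)
      have b3 := otr_toV (c := 8695 / 10000) ha hw b2
      have b4 := otr_w (W := 1145 / 1000 + 17065 / 10000 * a) ha ha1 g1 hw (by
        nlinarith [mul_nonneg (sub_nonneg.2 a1) (sub_nonneg.2 a2)])
      have hW : 0 < 1145 / 1000 + 17065 / 10000 * a := by positivity
      have b5 := lv4 (t := w / (1145 / 1000 + 17065 / 10000 * a)) a1 a2 (by positivity)
        (by rw [div_le_one hW]; exact b4)
      rw [mul_div_cancel₀ _ hW.ne'] at b5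
      have b6 : 451 / 1000 ≤ F := by linarith
      have b7 : 499 / 10 * (451 / 1000) ≤ r * F := mul_le_mul hr b6 (by norm_num) hr0.le
      linarith

/-- LEVEL, right side, `s > 0`, tilt included -/
theorem otr_lev_r {x n z τ k ψ ρ r a : ℝ} (h : ShR x n z τ k ψ) (hx : 3 ≤ x)
    (hρ : ρ = k * exp (-n)) (hr : 499 / 10 ≤ r)
    (hR : 27 / 5 * (1 + ρ ^ 2) ≤ r * (2 * π / 3) ^ 2) (hη : ψ + x - ρ ≤ π / 2)
    (ha : a * (1 + x) = 4) :
    8 * ρ ≤ r * ((a + n) * (2 * π + ψ + τ + z) + x * (1 + a) - exp a * k -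
        5 / 4 * (a + n) ^ 2 * exp (-a) / k) := by
  have hR' := otr_r hr hR
  have hr0 : 0 < r := by linarith
  have hn0 := h.y0
  have hn1 := h.y1
  have hk0 := h.k0
  have hx0 := h.x0
  have hτ0 := h.τ0
  have hz0 := h.z0
  have hψ0 := h.ψ0
  have hpi := Real.pi_gt_d6
  have hk2 := ofr_k2 h
  obtain ⟨g1, g2, g3, g4⟩ := ofr_n h hx hρ hη
  have hρ0 : 0 < ρ := by linarith
  have hxa : x * a = 4 - a := by linarith
  have ha0 : 0 < a := by
    by_contra hc
    push Not at hc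
    nlinarith
  have ha1 : a ≤ 1 := by nlinarith
  have hk : k ≤ x + n ^ 2 / 6 := by
    refine le_of_sq_le_sq ?_ (by positivity)
    nlinarith [mul_nonneg (sq_nonneg n) (sub_nonneg.2 hx), sq_nonneg (n ^ 2)]
  have hE := ofr_exp ha0.le ha1
  have he : exp a ≤ 2719 / 1000 := (Real.exp_le_exp.2 ha1).trans e1_hi
  have hek : exp a * k ≤ (1 + a + 18 / 25 * a ^ 2) * x + 2719 / 1000 * (n ^ 2 / 6) := by
    have h1 : exp a * k ≤ exp a * (x + n ^ 2 / 6) :=
      mul_le_mul_of_nonneg_left hk (exp_pos a).le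
    have h2 : exp a * x ≤ (1 + a + 18 / 25 * a ^ 2) * x := mul_le_mul_of_nonneg_right hE hx0.le
    have h4 : exp a * (n ^ 2 / 6) ≤ 2719 / 1000 * (n ^ 2 / 6) :=
      mul_le_mul_of_nonneg_right he (by positivity)
    linarith
  have hA : (a + n) * (6283 / 1000) ≤ (a + n) * (2 * π + ψ + τ + z) :=
    mul_le_mul_of_nonneg_left (by linarith) (by linarith)
  have hnn : n ^ 2 ≤ 53 / 100 * n := by nlinarith
  have hL : 34 / 10 * a + 6 * n ≤ (a + n) * (2 * π + ψ + τ + z) + x * (1 + a) - exp a * k := by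
    have h5 : a ^ 2 * x = a * (4 - a) := by rw [← hxa]; ring
    nlinarith [sq_nonneg a]
  have hxk : x ≤ k := by
    refine le_of_sq_le_sq ?_ hk0.le
    nlinarith [sq_nonneg n]
  have hM : 5 / 4 * (a + n) ^ 2 * exp (-a) / k ≤ 7 / 10 * (a + n) := by
    rw [div_le_iff₀ hk0]
    have e1 : exp (-a) ≤ 1 := Real.exp_le_one_iff.2 (by linarith)
    have e2 : (a + n) ^ 2 * exp (-a) ≤ (a + n) ^ 2 * 1 :=
      mul_le_mul_of_nonneg_left e1 (sq_nonneg _)
    have e3 : (a + n) * (a + n) ≤ (153 / 100) * (a + n) :=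
      mul_le_mul_of_nonneg_right (by linarith) (by linarith)
    have e4 : (a + n) * 3 ≤ (a + n) * k := mul_le_mul_of_nonneg_left (by linarith) (by linarith)
    nlinarith
  have hF : 27 / 10 * a ≤ (a + n) * (2 * π + ψ + τ + z) + x * (1 + a) - exp a * k -
        5 / 4 * (a + n) ^ 2 * exp (-a) / k := by linarith
  have hra : 35 / 10 * ρ ≤ r * a := by
    have h1 : 4 ≤ a * (ρ + 2571 / 1000) := by
      have := mul_le_mul_of_nonneg_left (by linarith : 1 + x ≤ ρ + 2571 / 1000) ha0.le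
      linarith
    have h2 : 35 / 10 * ρ * (ρ + 2571 / 1000) ≤ 4 * r := by
      nlinarith [sq_nonneg (ρ - 484 / 100)]
    have h3 : 0 < ρ + 2571 / 1000 := by linarith
    refine le_of_mul_le_mul_right ?_ h3
    have h4 := mul_le_mul_of_nonneg_left h1 hr0.le
    linarith
  have h6 := mul_le_mul_of_nonneg_left hF hr0.le
  linarith

end SokalV3O
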