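import Pool.Agent.Lib_MP_af4de1_v3o.OFm
import Pool.Agent.Lib_MP_af4de1_v3o.OCore
import Pool.Agent.Lib_MP_af4de1_v3o.OSL
import Pool.Agent.Lib_MP_af4de1_v3o.OSR
import Pool.Agent.Lib_MP_af4de1_v3o.OML
import Pool.Agent.Lib_MP_af4de1_v3o.OMR
import Pool.Agent.Lib_MP_af4de1_v3o.OTL
import Pool.Agent.Lib_MP_af4de1_v3o.OTR
import Pool.Agent.Lib_MP_af4de1_v3o.OGL
import Pool.Agent.Lib_MP_af4de1_v3o.OGR

/-!
# The fields `PShfL.o` and `PShfR.o`
-/

set_option autoImplicit false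

open Complex MeasureTheory Set SokalU SokalPG SokalF1S SokalF1M SokalV3 SokalF1G
open SokalF1 hiding Qf

namespace SokalV3O

theorem int_split {F : ℝ → ℝ} (hF : Integrable F) :
    ∫ s : ℝ, F s = coreS F + ((∫ s in Ioi (3 / 2 : ℝ), F s) + ∫ v in Ioi (3 / 2 : ℝ), F (-v)) := by
  rw [split_all hF, split_half hF, split_half (G := fun v => F (-v)) hF.comp_neg]
  unfold coreS
  ring

theorem pa_small {x s : ℝ} (hx : 0 ≤ x) (_h0 : 0 ≤ s) (h1 : s ≤ 1) : pa x s = s / (1 + x) := by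
  have h : 0 < 1 + x := by linarith
  unfold pa a4
  refine min_eq_left (le_min ?_ ?_)
  · rw [div_le_one h]
    linarith
  · gcongr
    linarith

theorem ga_small {x v : ℝ} (hx : 0 ≤ x) (h0 : 0 ≤ v) (h1 : v ≤ 1) :
    ga x (-v) = -(v / (1 + x)) := by
  have h : 0 < 1 + x := by linarith
  have h3 : 0 ≤ v / (1 + x) := by positivity
  have h2 : v / (1 + x) ≤ 1 := by
    rw [div_le_one h]
    linarith
  unfold ga
  rw [neg_div, min_eq_right (by linarith), max_eq_right (by linarith)]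

theorem Shp.K_eq {x y z τ k ψ Y : ℝ} (h : Shp x y z τ k ψ Y) : √(x ^ 2 + y ^ 2) = k := by
  have e : x ^ 2 + y ^ 2 = k ^ 2 := by
    rw [h.hx, h.hy]
    have := Real.sin_sq_add_cos_sq ψ
    nlinarith
  rw [e, Real.sqrt_sq h.k0.le]

theorem exp_j_le {j : ℕ} (hj : j ≤ 1) {a : ℝ} (_h0 : 0 ≤ a) (h1 : a ≤ 1) :
    Real.exp (j * a) ≤ Real.exp 1 := by
  apply Real.exp_le_exp.2
  have hj1 : (j : ℝ) ≤ 1 := by exact_mod_cast hj
  have hj0 : (0 : ℝ) ≤ j := Nat.cast_nonneg j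
  nlinarith

theorem exp_j_neg {j : ℕ} {a : ℝ} (h0 : 0 ≤ a) : Real.exp (j * -a) ≤ 1 := by
  rw [Real.exp_le_one_iff]
  have hj0 : (0 : ℝ) ≤ j := Nat.cast_nonneg j
  nlinarith [mul_nonneg hj0 h0]

/-- an upper bound for the integrand, right half -/
theorem Wt_pos_le {x y z τ δ s A : ℝ} {j : ℕ} (hx : 0 ≤ x) (hs : 0 ≤ s)
    (hA : A ≤ Hc x y z τ (pa x s) s / δ) :
    Wt x y z τ δ j s ≤ √(1 + ((1 + x)⁻¹) ^ 2) * (Real.exp (j * pa x s) * Real.exp (-A)) := by
  unfold Wt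
  rw [pr_pos hx hs]
  have h1 := pv_le hx s
  gcongr

/-- an upper bound for the integrand, left half -/
theorem Wt_neg_le {x y z τ δ v A : ℝ} {j : ℕ} (hx : 0 ≤ x) (hv : 0 ≤ v)
    (hA : A ≤ Hc x y z τ (-(pa x v)) (-v) / δ) :
    Wt x y z τ δ j (-v) ≤ √(1 + ((1 + x)⁻¹) ^ 2) * Real.exp (-A) := by
  unfold Wt
  rw [pr_neg hx hv]
  have h1 := pv_le hx (-v)
  have h2 := exp_j_neg (j := j) (pa_nonneg hx hv)
  have h3 : Real.exp (j * -(pa x v)) *
      Real.exp (-(Hc x y z τ (-(pa x v)) (-v) / δ)) ≤ 1 * Real.exp (-A) := by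
    gcongr
  rw [one_mul] at h3
  gcongr

theorem FL.dpos {x y z τ k ψ ρ r δ : ℝ} (h : FL x y z τ k ψ ρ r δ) : 0 < δ := by
  have hk := h.sh.k0
  have hr : 0 < r := by linarith [h.r0]
  rw [h.del, h.rho]
  have := Real.exp_pos y
  positivity

theorem FR.dpos {x n z τ k ψ ρ r δ : ℝ} (h : FR x n z τ k ψ ρ r δ) : 0 < δ := by
  have hk := h.sh.k0
  have hr : 0 < r := by linarith [h.r0]
  rw [h.del, h.rho]
  have := Real.exp_pos (-n)
  positivity

theorem lt_a4 {x y : ℝ} (hx : 0 ≤ x) (h1 : y < 1) (h : y * (1 + x) < 4) : y < a4 x := by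
  have hX : 0 < 1 + x := by linarith
  unfold a4
  refine lt_min h1 ?_
  rwa [lt_div_iff₀ hX]

/-- left side -/
theorem FL.int {x y z τ k ψ ρ r δ : ℝ} {j : ℕ} (h : FL x y z τ k ψ ρ r δ) (hy0 : 0 < y)
    (hj : j ≤ 1) : ∫ s : ℝ, Wt x y z τ δ j s ≤ 23 / 20 * Gn x y δ := by
  have hδ := h.dpos
  have S : Shp x y z τ k ψ (14 / 25) := h.sh
  have hx := S.x0.le
  have hr := h.r0
  have hr0 : 0 < r := by linarith
  have hrd : r * δ = √(x ^ 2 + y ^ 2) * Real.exp y := by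
    rw [S.K_eq, h.del, ← h.rho]
    field_simp
  have hDG : DomG x y := ⟨hx, by linarith, by linarith [S.y1], by nlinarith [sq_nonneg x]⟩
  have hFi : Integrable (Wt x y z τ δ j) := integrable_Wt hx hδ
    (by rw [abs_of_pos hy0]; exact lt_a4 hx (by linarith [S.y1]) h.yx) hy0.ne' z τ j
  obtain ⟨t, w, t0, t1, w0, hw, hs⟩ := shLr h
  have hQ : 0 ≤ Qf x y / δ := by
    have hb := SokalF1B.s1_B hx hy0.le (by linarith [S.y1])
    rw [← hrd] at hb
    have : 0 < r * δ := by positivity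
    have : 0 < Qf x y := by linarith
    positivity
  have core : coreS (Wt x y z τ δ j) ≤ 1124 / 1000 * Gn x y δ := by
    refine coreL hx hy0.le (by linarith [S.y1]) hδ hr hrd hj hFi t0 t1 hw ?_ ?_ ?_ ?_
    · intro s h0 h1
      have h2 := hs s h0 h1
      rw [← pa_small hx h0 h1] at h2
      have h3 := Wt_pos_le (j := j) hx h0 h2
      have e : pa x s = (1 + x)⁻¹ * s := by
        rw [pa_small hx h0 h1, inv_mul_eq_div]
      rw [e] at h3
      exact h3
    · intro v h0 h1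
      refine Wt_neg_le hx h0 ?_
      rw [pa_small hx h0 h1]
      have h2 := dLl h.sh h0 h1
      have h3 := G3_pos hDG hy0.le (s := -v) (by linarith) (by linarith)
      unfold Hf at h3
      rw [ga_small hx h0 h1] at h3
      rw [le_div_iff₀ hδ]
      calc (0 + 1 * (Qf x y / δ * ((1 - 3 / 10 * v) * v ^ 2))) * δ =
            (1 + 3 / 10 * -v) * Qf x y * (-v) ^ 2 := by
              field_simp
              ring
        _ ≤ _ := h3
        _ ≤ _ := h2
    · intro s h0 h1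
      have h2 := mLr h.sh h0 h1
      have h3 : 11 / 20 * (Qf x y / δ) ≤ Hc x y z τ (pa x s) s / δ := by
        rw [le_div_iff₀ hδ]
        have e : 11 / 20 * (Qf x y / δ) * δ = 11 / 20 * Qf x y * 1 := by
          field_simp
        rw [e]
        refine le_trans ?_ h2
        have hQ' : 0 ≤ Qf x y := by
          have := mul_nonneg hQ hδ.le
          rwa [div_mul_cancel₀ _ hδ.ne'] at this
        have : 1 ≤ s ^ 2 := by nlinarith
        gcongr
      refine (Wt_pos_le (j := j) hx (by linarith) h3).trans ?_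
      have := exp_j_le hj (pa_nonneg hx (by linarith : 0 ≤ s)) ((pa_le x s).trans (a4_le x))
      gcongr
    · intro v h0 h1
      refine Wt_neg_le hx (by linarith) ?_
      have h2 := mLl h.sh h0 h1
      rw [le_div_iff₀ hδ]
      have e : 11 / 20 * (Qf x y / δ) * δ = 11 / 20 * Qf x y * 1 := by
        field_simp
      rw [e]
      refine le_trans ?_ h2
      have hQ' : 0 ≤ Qf x y := by
        have := mul_nonneg hQ hδ.le
        rwa [div_mul_cancel₀ _ hδ.ne'] at this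
      have : 1 ≤ v ^ 2 := by nlinarith
      gcongr
  have T1 := (tailLr h hj).2
  have T2 := (tailLl h hj).2
  have hG : 0 ≤ Gn x y δ := Real.sqrt_nonneg _
  rw [int_split hFi]
  linarith

/-- right side -/
theorem FR.int {x n z τ k ψ ρ r δ : ℝ} {j : ℕ} (h : FR x n z τ k ψ ρ r δ) (hn0 : 0 < n)
    (hj : j ≤ 1) : ∫ s : ℝ, Wt x (-n) (-z) (-τ) δ j s ≤ 5 / 4 * Gn x (-n) δ := by
  have hδ := h.dpos
  have S : Shp x n z τ k ψ (53 / 100) := h.sh
  have hx := S.x0.le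
  have hr := h.r0
  have hr0 : 0 < r := by linarith
  have hrd : r * δ = √(x ^ 2 + n ^ 2) * Real.exp (-n) := by
    rw [S.K_eq, h.del, ← h.rho]
    field_simp
  have hDG : DomG x (-n) := ⟨hx, by linarith [S.y1], by linarith, by
    rw [← sub_eq_add_neg]
    linarith [h.D]⟩
  have hFi : Integrable (Wt x (-n) (-z) (-τ) δ j) := integrable_Wt hx hδ
    (by rw [abs_neg, abs_of_pos hn0]; exact lt_a4 hx (by linarith [S.y1]) h.yx)
    (by linarith [hn0] : (-n : ℝ) < 0).ne (-z) (-τ) j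
  obtain ⟨t, w, t0, t1, w0, hw, hs⟩ := shRr h
  obtain ⟨t', w', t0', t1', w0', hw', hs'⟩ := shRl h
  have hN : SokalF1B.NegF x (-n) := SokalF1B.negF_small hx (by linarith [S.y1]) (by linarith)
    (by linarith [S.T]) (by rw [← sub_eq_add_neg]; exact h.D)
  have hQ' : 0 ≤ Qf x (-n) := hN.q.le
  have core : coreS (Wt x (-n) (-z) (-τ) δ j) ≤ 6 / 5 * Gn x (-n) δ := by
    refine coreR hx hn0.le S.y1 S.T h.D hδ hr hrd hj hFi t0 t1 hw t0' t1' hw' ?_ ?_ ?_ ?_
    · intro s h0 h1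
      have h2 := hs s h0 h1
      rw [← pa_small hx h0 h1] at h2
      have h3 := Wt_pos_le (j := j) hx h0 h2
      have e : pa x s = (1 + x)⁻¹ * s := by
        rw [pa_small hx h0 h1, inv_mul_eq_div]
      rw [e] at h3
      exact h3
    · intro v h0 h1
      refine Wt_neg_le hx h0 ?_
      rw [pa_small hx h0 h1]
      exact hs' v h0 h1
    · intro s h0 h1
      have h2 := mRr h.sh h0 h1
      have h3 : 2 / 5 * (Qf x (-n) / δ) ≤ Hc x (-n) (-z) (-τ) (pa x s) s / δ := by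
        rw [le_div_iff₀ hδ]
        have e : 2 / 5 * (Qf x (-n) / δ) * δ = 2 / 5 * Qf x (-n) * 1 := by
          field_simp
        rw [e]
        refine le_trans ?_ h2
        have : 1 ≤ s ^ 2 := by nlinarith
        have := mul_le_mul_of_nonneg_left this hQ'
        linarith
      refine (Wt_pos_le (j := j) hx (by linarith) h3).trans ?_
      have := exp_j_le hj (pa_nonneg hx (by linarith : 0 ≤ s)) ((pa_le x s).trans (a4_le x))
      gcongr
    · intro v h0 h1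
      refine Wt_neg_le hx (by linarith) ?_
      have h2 := mRl h.sh h0 h1
      rw [le_div_iff₀ hδ]
      have e : 2 / 5 * (Qf x (-n) / δ) * δ = 2 / 5 * Qf x (-n) * 1 := by
        field_simp
      rw [e]
      refine le_trans ?_ h2
      have : 1 ≤ v ^ 2 := by nlinarith
      gcongr
  have T1 := (tailRr h hj).2
  have T2 := (tailRl h hj).2
  have hG : 0 ≤ Gn x (-n) δ := Real.sqrt_nonneg _
  rw [int_split hFi]
  linarith

/-- The field `PShfL.o`. -/
theorem shfL_o (N : ℕ) (r δ y ζ : ℝ) (hR : Reg1 N r δ) (hA : At r δ y (eo1 N r δ))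
    (hS : Sad1 N r δ y) (h0 : 0 ≤ ζ) (h1 : ζ ≤ ei1 N r δ) : Out r δ y ζ (23 / 20) := by
  obtain ⟨hy0, z, τ, k, ψ, hζ, h⟩ := glueL hR hA hS h0 h1
  rw [← hζ]
  have S : Shp _ y z τ k ψ (14 / 25) := h.sh
  refine out_of_Wt hR.d0 hA.dom hA.y1 ?_ hy0.ne' ?_ ?_
  · rw [abs_of_pos hy0]
    exact lt_a4 S.x0.le (by linarith [S.y1]) h.yx
  · rw [sG_eq_Gn]
    exact h.int hy0 (by norm_num)
  · rw [sG_eq_Gn]
    exact h.int hy0 le_rfl

/-- The field `PShfR.o`. -/
theorem shfR_o (N : ℕ) (r δ y ζ : ℝ) (hR : Reg1 N r δ) (hA : At r δ y (-eo1 N r δ))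
    (hS : Sad1 N r δ y) (h0 : ζ ≤ 0) (h1 : -ei1 N r δ ≤ ζ) : Out r δ y ζ (5 / 4) := by
  obtain ⟨hy0, z, τ, k, ψ, hζ, h⟩ := glueR hR hA hS h0 h1
  have e : ζ = -z + -τ := by linarith
  rw [e]
  have S : Shp _ (-y) z τ k ψ (53 / 100) := h.sh
  have hn0 : 0 < -y := by linarith
  have I0 := h.int (j := 0) hn0 (by norm_num)
  have I1 := h.int (j := 1) hn0 le_rfl
  rw [neg_neg] at I0 I1
  refine out_of_Wt hR.d0 hA.dom hA.y1 ?_ hy0.ne ?_ ?_
  · rw [abs_of_neg hy0]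
    exact lt_a4 S.x0.le (by linarith [S.y1]) h.yx
  · rw [sG_eq_Gn]
    exact I0
  · rw [sG_eq_Gn]
    exact I1

end SokalV3O
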