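import Pool.Agent.Lib_MP_af4de1_f1.MainI

/-!
# One dimensional integrals for the core `|s| ≤ 1`
-/

set_option autoImplicit false

namespace SokalV3O

open Real MeasureTheory Set

private theorem mo_cast (k : ℕ) {μ : ℝ} :
    Set.EqOn (fun s : ℝ => s ^ (k : ℝ) * exp (-μ * s ^ (2 : ℝ)))
      (fun s : ℝ => s ^ k * exp (-(μ * s ^ 2))) (Ioi 0) := by
  intro s _
  simp only []
  rw [Real.rpow_natCast, Real.rpow_two, neg_mul]

theorem mo_ii (k : ℕ) {μ : ℝ} (hμ : 0 < μ) :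
    IntegrableOn (fun s : ℝ => s ^ k * exp (-(μ * s ^ 2))) (Ioi 0) := by
  have h := integrableOn_rpow_mul_exp_neg_mul_rpow (p := 2) (s := (k : ℝ)) (b := μ)
    (by have : (0 : ℝ) ≤ k := Nat.cast_nonneg k
        linarith) (by norm_num) hμ
  exact (integrableOn_congr_fun (mo_cast k) measurableSet_Ioi).1 h

theorem int_m1 {μ : ℝ} (hμ : 0 < μ) :
    ∫ s in Ioi (0 : ℝ), s ^ 1 * exp (-(μ * s ^ 2)) = 1 / (2 * μ) := by
  have h := integral_rpow_mul_exp_neg_mul_rpow (p := 2) (q := ((1 : ℕ) : ℝ)) (b := μ)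
    (by norm_num) (by norm_num) hμ
  rw [setIntegral_congr_fun measurableSet_Ioi (mo_cast 1)] at h
  rw [h]
  norm_num
  rw [Real.rpow_neg_one]

theorem int_m0 {μ : ℝ} : ∫ s in Ioi (0 : ℝ), s ^ 0 * exp (-(μ * s ^ 2)) = √(π / μ) / 2 := by
  rw [← integral_gaussian_Ioi μ]
  refine setIntegral_congr_fun measurableSet_Ioi fun s _ => ?_
  simp only [pow_zero, one_mul, neg_mul]

/-- bound for the half integrals -/
noncomputable def Ab (b α β : ℝ) : ℝ :=
  √(π / b) / 2 + α / (2 * b) + β * (√(π / b) / (4 * b))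

theorem Ab_nonneg {b α β : ℝ} (hb : 0 < b) (hα : 0 ≤ α) (hβ : 0 ≤ β) : 0 ≤ Ab b α β := by
  unfold Ab
  have := sqrt_nonneg (π / b)
  positivity

/-- the integrand `(1 + α s + β s²) e^(-b s²)` -/
noncomputable def pg (b α β s : ℝ) : ℝ := (1 + α * s + β * s ^ 2) * exp (-(b * s ^ 2))

theorem pg_eq (b α β s : ℝ) : pg b α β s = s ^ 0 * exp (-(b * s ^ 2)) +
    α * (s ^ 1 * exp (-(b * s ^ 2))) + β * (s ^ 2 * exp (-(b * s ^ 2))) := by
  unfold pg
  ring

theorem pg_ii {b : ℝ} (hb : 0 < b) (α β : ℝ) : IntegrableOn (pg b α β) (Ioi 0) := by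
  have h : pg b α β = fun s => s ^ 0 * exp (-(b * s ^ 2)) +
    α * (s ^ 1 * exp (-(b * s ^ 2))) + β * (s ^ 2 * exp (-(b * s ^ 2))) := by
    funext s
    exact pg_eq b α β s
  rw [h]
  exact ((mo_ii 0 hb).add ((mo_ii 1 hb).const_mul α)).add ((mo_ii 2 hb).const_mul β)

theorem pg_int {b : ℝ} (hb : 0 < b) (α β : ℝ) :
    ∫ s in Ioi (0 : ℝ), pg b α β s = Ab b α β := by
  have h : pg b α β = fun s => s ^ 0 * exp (-(b * s ^ 2)) +
    α * (s ^ 1 * exp (-(b * s ^ 2))) + β * (s ^ 2 * exp (-(b * s ^ 2))) := by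
    funext s
    exact pg_eq b α β s
  rw [h, integral_add, integral_add, integral_const_mul, integral_const_mul, int_m1 hb,
    SokalF1B.int_m2 hb, int_m0]
  · unfold Ab
    ring
  · exact mo_ii 0 hb
  · exact (mo_ii 1 hb).const_mul α
  · exact (mo_ii 0 hb).add ((mo_ii 1 hb).const_mul α)
  · exact (mo_ii 2 hb).const_mul β

theorem pg_cont (b α β : ℝ) : Continuous (pg b α β) := by
  unfold pg
  fun_prop

theorem pg_nonneg {b α β s : ℝ} (hα : 0 ≤ α) (hβ : 0 ≤ β) (hs : 0 ≤ s) : 0 ≤ pg b α β s := by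
  unfold pg
  positivity

/-- the integral over a bounded interval -/
theorem pg_le {b α β T : ℝ} (hb : 0 < b) (hα : 0 ≤ α) (hβ : 0 ≤ β) (hT : 0 ≤ T) :
    ∫ s in (0 : ℝ)..T, pg b α β s ≤ Ab b α β := by
  rw [← pg_int hb, intervalIntegral.integral_of_le hT]
  refine setIntegral_mono_set (pg_ii hb α β) ?_ (Ioc_subset_Ioi_self.eventuallyLE)
  exact (ae_restrict_iff' measurableSet_Ioi).2 (Filter.Eventually.of_forall fun s hs =>
    pg_nonneg hα hβ (le_of_lt hs))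

theorem Ab_t {b α β t w : ℝ} (hb : 0 < b) (hα : 0 ≤ α) (hβ : 0 ≤ β) (t0 : 0 < t) (t1 : t ≤ 1)
    (hw : exp (-w) ≤ t * √t) : exp (-w) * Ab (t * b) α β ≤ Ab b α β := by
  have hs : 0 < √t := sqrt_pos.2 t0
  have hss : √t * √t = t := mul_self_sqrt t0.le
  have hs1 : √t ≤ 1 := sqrt_le_one.2 t1
  have hq := sqrt_nonneg (π / b)
  have e1 : √(π / (t * b)) = √(π / b) / √t := by
    rw [← sqrt_div (by positivity)]
    congr 1
    field_simp
  have a1 : exp (-w) / √t ≤ 1 := by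
    rw [div_le_one hs]
    nlinarith
  have a2 : exp (-w) / t ≤ 1 := by
    rw [div_le_one t0]
    nlinarith
  have a3 : exp (-w) / (t * √t) ≤ 1 := by
    rw [div_le_one (by positivity)]
    exact hw
  unfold Ab
  rw [e1]
  have b1 : exp (-w) * (√(π / b) / √t / 2 + α / (2 * (t * b)) +
      β * (√(π / b) / √t / (4 * (t * b)))) =
      (exp (-w) / √t) * (√(π / b) / 2) + (exp (-w) / t) * (α / (2 * b)) +
        (exp (-w) / (t * √t)) * (β * (√(π / b) / (4 * b))) := by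
    field_simp
  rw [b1]
  have c1 := mul_le_mul_of_nonneg_right a1 (by positivity : 0 ≤ √(π / b) / 2)
  have c2 := mul_le_mul_of_nonneg_right a2 (by positivity : 0 ≤ α / (2 * b))
  have c3 := mul_le_mul_of_nonneg_right a3 (by positivity : 0 ≤ β * (√(π / b) / (4 * b)))
  linarith

/-- `e^u ≤ 1 + u + (18/25) u²` on `[0,1]` -/
theorem exp_le_q {u : ℝ} (h0 : 0 ≤ u) (h1 : u ≤ 1) : exp u ≤ 1 + u + 18 / 25 * u ^ 2 := by
  have h := Real.exp_bound' h0 h1 (n := 5) (by norm_num)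
  norm_num [Finset.sum_range_succ, Nat.factorial] at h
  have e2 : u ^ 3 ≤ u ^ 2 := by nlinarith [mul_nonneg (sq_nonneg u) (sub_nonneg.2 h1)]
  have e3 : u ^ 4 ≤ u ^ 2 := by nlinarith [mul_nonneg (sq_nonneg u) (sub_nonneg.2 h1), sq_nonneg (u ^ 2 - u)]
  have e4 : u ^ 5 ≤ u ^ 2 := by
    have : u ^ 5 = u ^ 4 * u := by ring
    have : u ^ 4 * u ≤ u ^ 4 * 1 := by gcongr
    linarith
  nlinarith

/-- right half of the core -/
theorem half_r {b c t w : ℝ} {j : ℕ} {F : ℝ → ℝ} (hb : 0 < b) (hc : 0 ≤ c) (hc1 : c ≤ 1)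
    (hj : j ≤ 1) (t0 : 0 < t) (t1 : t ≤ 1) (hw : exp (-w) ≤ t * √t)
    (hFi : IntervalIntegrable F volume 0 1)
    (hF : ∀ s : ℝ, 0 ≤ s → s ≤ 1 → F s ≤ exp (j * (c * s)) * exp (-(w + t * (b * s ^ 2)))) :
    ∫ s in (0 : ℝ)..1, F s ≤ Ab b (j * c) (j * (18 / 25 * c ^ 2)) := by
  have hj0 : (0 : ℝ) ≤ j := Nat.cast_nonneg j
  refine le_trans ?_ (Ab_t hb (by positivity) (by positivity) t0 t1 hw)
  have h1 := mul_le_mul_of_nonneg_left (pg_le (T := 1) (mul_pos t0 hb)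
    (by positivity : 0 ≤ (j : ℝ) * c) (by positivity : 0 ≤ (j : ℝ) * (18 / 25 * c ^ 2))
    zero_le_one) (exp_pos (-w)).le
  refine le_trans ?_ h1
  rw [← intervalIntegral.integral_const_mul]
  refine intervalIntegral.integral_mono_on zero_le_one hFi
    (((pg_cont _ _ _).const_mul _).intervalIntegrable _ _) fun s hs => ?_
  have h2 := hF s hs.1 hs.2
  have h3 : exp (j * (c * s)) ≤ 1 + j * c * s + j * (18 / 25 * c ^ 2) * s ^ 2 := by
    have hcs : 0 ≤ c * s := mul_nonneg hc hs.1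
    have hcs1 : c * s ≤ 1 := by nlinarith [hs.1, hs.2]
    have h4 := exp_le_q hcs hcs1
    interval_cases j
    · simp
    · simp only [Nat.cast_one, one_mul]
      linarith
  refine h2.trans ?_
  have e : exp (-(w + t * (b * s ^ 2))) = exp (-w) * exp (-(t * b * s ^ 2)) := by
    rw [← exp_add]
    congr 1
    ring
  rw [e]
  unfold pg
  have h5 : 0 ≤ exp (-w) * exp (-(t * b * s ^ 2)) := by positivity
  have := mul_le_mul_of_nonneg_right h3 h5
  linarith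

/-- left half of the core: `q ≥ g²`, `1 ≤ g' (1 + α g + β g²)` -/
theorem half_l {b t w α β : ℝ} {F q g g' : ℝ → ℝ} (hb : 0 < b) (hα : 0 ≤ α) (hβ : 0 ≤ β)
    (t0 : 0 < t) (t1 : t ≤ 1) (hw : exp (-w) ≤ t * √t)
    (hg : ∀ v, HasDerivAt g (g' v) v) (hg' : Continuous g') (hg0 : g 0 = 0)
    (hgp : ∀ v : ℝ, 0 ≤ v → v ≤ 1 → 0 ≤ g v)
    (hgq : ∀ v : ℝ, 0 ≤ v → v ≤ 1 → g v ^ 2 ≤ q v)
    (hg1 : ∀ v : ℝ, 0 ≤ v → v ≤ 1 → 1 ≤ (1 + α * g v + β * g v ^ 2) * g' v)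
    (hFi : IntervalIntegrable F volume 0 1)
    (hF : ∀ v : ℝ, 0 ≤ v → v ≤ 1 → F v ≤ exp (-(w + t * (b * q v)))) :
    ∫ v in (0 : ℝ)..1, F v ≤ Ab b α β := by
  refine le_trans ?_ (Ab_t hb hα hβ t0 t1 hw)
  have h1 := mul_le_mul_of_nonneg_left (pg_le (T := g 1) (mul_pos t0 hb) hα hβ
    (hgp 1 zero_le_one le_rfl)) (exp_pos (-w)).le
  refine le_trans ?_ h1
  have hsub := intervalIntegral.integral_comp_mul_deriv (a := 0) (b := 1) (f := g) (f' := g')
    (g := pg (t * b) α β) (fun v _ => hg v) hg'.continuousOn (pg_cont _ _ _)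
  rw [hg0] at hsub
  have hgc : Continuous g := continuous_iff_continuousAt.2 fun v => (hg v).continuousAt
  rw [← hsub, ← intervalIntegral.integral_const_mul]
  refine intervalIntegral.integral_mono_on zero_le_one hFi
    ((continuous_const.mul (((pg_cont _ _ _).comp hgc).mul hg')).intervalIntegrable _ _)
    fun v hv => ?_
  refine (hF v hv.1 hv.2).trans ?_
  have h2 := hgq v hv.1 hv.2
  have h3 := hg1 v hv.1 hv.2
  have e : exp (-(w + t * (b * q v))) ≤ exp (-w) * exp (-(t * b * g v ^ 2)) := by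
    rw [← exp_add]
    apply exp_le_exp.2
    have := mul_le_mul_of_nonneg_left h2 (mul_pos t0 hb).le
    linarith
  refine e.trans ?_
  unfold pg
  simp only [Function.comp]
  have h5 : 0 ≤ exp (-w) * exp (-(t * b * g v ^ 2)) := by positivity
  have := mul_le_mul_of_nonneg_right h3 h5
  linarith

end SokalV3O
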