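import Pool.Agent.Lib_MP_af4de1_f1.GLem

/-!
# Fields `PShfL.o`, `PShfR.o`: height on the centred path, and the list of pieces

`ζ = z + τ` (absolute values); the path of the saddle point `K = x + i y` is shifted by `τ`, the base point by `z`,
with `z = x (1+x) τ`.  Height with real part `a` at the height `s`:

`Hc x y z τ a s = (a - y)(s - z) + x (1 + a) - e^a (x cos (s + τ) - y sin (s + τ))`

Left side: `y, z, τ ≥ 0`.  Right side: `Hc x (-n) (-z) (-τ)` with `n, z, τ ≥ 0`.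
`k = |K|`, `x = k cos ψ`, `y = k sin ψ` (`n = k sin ψ`), `ρ = k e^y` (`k e^(-n)`), clamp at `|s| = min 4 (1+x)`.
-/

set_option autoImplicit false

namespace SokalV3O

open Real

/-- the height -/
noncomputable def Hc (x y z τ a s : ℝ) : ℝ :=
  (a - y) * (s - z) + x * (1 + a) - exp a * (x * cos (s + τ) - y * sin (s + τ))

/-- clamp value -/
noncomputable def a4 (x : ℝ) : ℝ := min 1 (4 / (1 + x))

/-- real part of the path for `s ≥ 0` -/
noncomputable def pa (x s : ℝ) : ℝ := min (s / (1 + x)) (a4 x)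

theorem Hc_zero (x y a s : ℝ) : Hc x y 0 0 a s = SokalF1G.Ha x y a s := by
  unfold Hc SokalF1G.Ha
  simp only [add_zero, sub_zero]
  ring

/-- parameters; `y` is the absolute value of the imaginary part, `Y` the upper bound -/
structure Shp (x y z τ k ψ Y : ℝ) : Prop where
  x0 : 0 < x
  y0 : 0 ≤ y
  y1 : y ≤ Y
  T : y ≤ 4 / 5 * x
  z0 : 0 ≤ z
  τ0 : 0 ≤ τ
  zτ : z = x * (1 + x) * τ
  ζ : z + τ ≤ 21 / 25
  τ1 : τ ≤ 1 / 2
  k0 : 0 < k
  ψ0 : 0 ≤ ψ
  ψ1 : ψ ≤ 27 / 40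
  hx : x = k * cos ψ
  hy : y = k * sin ψ

/-- left side -/
def ShL (x y z τ k ψ : ℝ) : Prop := Shp x y z τ k ψ (14 / 25)

/-- right side, `y` is `n` -/
def ShR (x n z τ k ψ : ℝ) : Prop := Shp x n z τ k ψ (53 / 100)

end SokalV3O
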