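import Pool.Agent.Lib_MP_af4de1_v3o.ODef
import Pool.Agent.Lib_MP_af4de1_v3.Fix

/-!
# The integrand on the centred path, and the facts about the parameters
-/

set_option autoImplicit false

open Complex MeasureTheory Set SokalU SokalPG SokalF1 SokalF1S SokalF1M

namespace SokalV3O

/-- break point -/
noncomputable def ss (x : ℝ) : ℝ := min 4 (1 + x)

/-- real part of the path -/
noncomputable def pr (x s : ℝ) : ℝ := pc (1 + x)⁻¹ (ss x) s

/-- absolute value of the integrand, weight `e^(j a)` -/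
noncomputable def Wt (x y z τ δ : ℝ) (j : ℕ) (s : ℝ) : ℝ :=
  ‖pv (1 + x)⁻¹ (ss x) s‖ * (Real.exp (j * pr x s) * Real.exp (-(Hc x y z τ (pr x s) s / δ)))

/-- the Gaussian -/
noncomputable def Gn (x y δ : ℝ) : ℝ := √(2 * Real.pi * δ / √((1 + y) ^ 2 + x ^ 2))

theorem ss_pos {x : ℝ} (hx : 0 ≤ x) : 0 < ss x := lt_min (by norm_num) (by linarith)

theorem ss_le (x : ℝ) : ss x ≤ 1 + x := min_le_right _ _

theorem c_ss {x : ℝ} (hx : 0 ≤ x) : (1 + x)⁻¹ * ss x = a4 x := by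
  have h : 0 < 1 + x := by linarith
  unfold ss a4
  rw [inv_mul_eq_div]
  rcases le_total 4 (1 + x) with h1 | h1
  · rw [min_eq_left h1, min_eq_right]
    rw [div_le_one h]
    exact h1
  · rw [min_eq_right h1, div_self h.ne', min_eq_left]
    rw [le_div_iff₀ h]
    linarith

theorem a4_pos {x : ℝ} (hx : 0 ≤ x) : 0 < a4 x := by
  rw [← c_ss hx]
  have := ss_pos hx
  have h : 0 < 1 + x := by linarith
  positivity

theorem a4_le (x : ℝ) : a4 x ≤ 1 := min_le_left _ _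

theorem pa_nonneg {x s : ℝ} (hx : 0 ≤ x) (hs : 0 ≤ s) : 0 ≤ pa x s := by
  have h : 0 < 1 + x := by linarith
  exact le_min (by positivity) (a4_pos hx).le

theorem pa_le (x s : ℝ) : pa x s ≤ a4 x := min_le_right _ _

/-- right part of the path -/
theorem pr_pos {x s : ℝ} (hx : 0 ≤ x) (hs : 0 ≤ s) : pr x s = pa x s := by
  have h : 0 < 1 + x := by linarith
  have h1 := pa_nonneg hx hs
  have h2 := a4_pos hx
  unfold pr pc pa at *
  rw [c_ss hx, inv_mul_eq_div, min_comm, max_eq_right]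
  linarith

/-- left part of the path -/
theorem pr_neg {x v : ℝ} (hx : 0 ≤ x) (hv : 0 ≤ v) : pr x (-v) = -(pa x v) := by
  have h : 0 < 1 + x := by linarith
  have h2 := a4_pos hx
  have h3 : 0 ≤ v / (1 + x) := by positivity
  unfold pr pc pa
  rw [c_ss hx, inv_mul_eq_div, neg_div, min_eq_right (by linarith : -(v / (1 + x)) ≤ a4 x)]
  rcases le_total (v / (1 + x)) (a4 x) with h4 | h4
  · rw [min_eq_left h4, max_eq_right (by linarith)]
  · rw [min_eq_right h4, max_eq_left (by linarith)]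

/-- flat part of the path -/
theorem pa_flat {x s : ℝ} (hx : 0 ≤ x) (hs : ss x ≤ s) : pa x s = a4 x := by
  have h : 0 < 1 + x := by linarith
  unfold pa
  refine min_eq_right ?_
  rw [← c_ss hx, inv_mul_eq_div]
  gcongr

theorem pv_flat {x s : ℝ} (hs : ss x ≤ |s|) : ‖pv (1 + x)⁻¹ (ss x) s‖ = 1 := by
  unfold pv
  rw [if_neg (not_lt.2 hs), norm_one]

theorem pv_le {x : ℝ} (hx : 0 ≤ x) (s : ℝ) :
    ‖pv (1 + x)⁻¹ (ss x) s‖ ≤ √(1 + ((1 + x)⁻¹) ^ 2) := by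
  unfold pv
  have h : 0 ≤ (1 + x)⁻¹ := by positivity
  generalize (1 + x)⁻¹ = c at h ⊢
  split_ifs
  · rw [Complex.norm_def]
    refine Real.sqrt_le_sqrt (le_of_eq ?_)
    simp [Complex.normSq_apply]
    ring
  · rw [norm_one]
    exact Real.one_le_sqrt.2 (by nlinarith [sq_nonneg c])

/-- All facts of the left side, `y ≥ 0`. -/
structure FL (x y z τ k ψ ρ r δ : ℝ) : Prop where
  sh : ShL x y z τ k ψ
  rho : ρ = k * Real.exp y
  r0 : 499 / 10 ≤ r
  del : δ = ρ / r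
  G : 27 / 5 * (1 + ρ ^ 2) ≤ r * (2 * Real.pi / 3) ^ 2
  η : ψ + ρ - x ≤ Real.pi / 2
  ηζ : ψ + ρ - x + (z + τ) ≤ 2 * Real.pi / 3
  /-- height of the saddle point against the width -/
  w1 : 5 / 4 * δ ≤ y
  w2 : ρ ≤ 17 / 10 → 4 * δ ≤ y
  yx : y * (1 + x) < 4

/-- All facts of the right side, `n = -y ≥ 0`. -/
structure FR (x n z τ k ψ ρ r δ : ℝ) : Prop where
  sh : ShR x n z τ k ψ
  rho : ρ = k * Real.exp (-n)
  r0 : 499 / 10 ≤ r
  del : δ = ρ / r
  D : 13 / 20 ≤ (1 - n) ^ 2 + x ^ 2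
  G : 27 / 5 * (1 + ρ ^ 2) ≤ r * (2 * Real.pi / 3) ^ 2
  η : ψ + x - ρ ≤ Real.pi / 2
  ηζ : ψ + x - ρ + (z + τ) ≤ 2 * Real.pi / 3
  w1 : 5 / 4 * δ ≤ n
  w2 : ρ ≤ 17 / 10 → 4 * δ ≤ n
  yx : n * (1 + x) < 4

end SokalV3O
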