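import Pool.Agent.Lib_MP_af4de1_v3o.OCal
import Pool.Agent.Lib_MP_af4de1_v3o.OWt

/-!
# The core `|s| ≤ 3/2`: splitting of the integral and the numbers
-/

set_option autoImplicit false

open Complex MeasureTheory Set SokalPG

namespace SokalV3O

theorem split_half {G : ℝ → ℝ} (hG : Integrable G) :
    ∫ s in Ioi (0 : ℝ), G s = (∫ s in (0 : ℝ)..1, G s) + (∫ s in (1 : ℝ)..(3 / 2), G s) +
      ∫ s in Ioi (3 / 2 : ℝ), G s := by
  rw [intervalIntegral.integral_add_adjacent_intervals hG.intervalIntegrable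
    hG.intervalIntegrable, intervalIntegral.integral_of_le (by norm_num),
    ← setIntegral_union (Ioc_disjoint_Ioi le_rfl) measurableSet_Ioi hG.integrableOn
      hG.integrableOn, Ioc_union_Ioi_eq_Ioi (by norm_num)]

theorem split_all {G : ℝ → ℝ} (hG : Integrable G) :
    ∫ s : ℝ, G s = (∫ s in Ioi (0 : ℝ), G s) + ∫ v in Ioi (0 : ℝ), G (-v) := by
  rw [integral_comp_neg_Ioi (0 : ℝ) G, neg_zero, add_comm,
    intervalIntegral.integral_Iic_add_Ioi hG.integrableOn hG.integrableOn]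

theorem half_r' {b c t w C : ℝ} {j : ℕ} {F : ℝ → ℝ} (hC : 0 < C) (hb : 0 < b) (hc : 0 ≤ c)
    (hc1 : c ≤ 1) (hj : j ≤ 1) (t0 : 0 < t) (t1 : t ≤ 1) (hw : Real.exp (-w) ≤ t * √t)
    (hFi : IntervalIntegrable F volume 0 1)
    (hF : ∀ s : ℝ, 0 ≤ s → s ≤ 1 →
      F s ≤ C * (Real.exp (j * (c * s)) * Real.exp (-(w + t * (b * s ^ 2))))) :
    ∫ s in (0 : ℝ)..1, F s ≤ C * Ab b (j * c) (j * (18 / 25 * c ^ 2)) := by
  have h := half_r (F := fun s => C⁻¹ * F s) hb hc hc1 hj t0 t1 hw (hFi.const_mul _) ?_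
  · rw [intervalIntegral.integral_const_mul, inv_mul_le_iff₀ hC] at h
    exact h
  · intro s h0 h1
    rw [inv_mul_le_iff₀ hC]
    exact hF s h0 h1

theorem half_l' {b t w α β C : ℝ} {F q g g' : ℝ → ℝ} (hC : 0 < C) (hb : 0 < b) (hα : 0 ≤ α)
    (hβ : 0 ≤ β) (t0 : 0 < t) (t1 : t ≤ 1) (hw : Real.exp (-w) ≤ t * √t)
    (hg : ∀ v, HasDerivAt g (g' v) v) (hg' : Continuous g') (hg0 : g 0 = 0)
    (hgp : ∀ v : ℝ, 0 ≤ v → v ≤ 1 → 0 ≤ g v)
    (hgq : ∀ v : ℝ, 0 ≤ v → v ≤ 1 → g v ^ 2 ≤ q v)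
    (hg1 : ∀ v : ℝ, 0 ≤ v → v ≤ 1 → 1 ≤ (1 + α * g v + β * g v ^ 2) * g' v)
    (hFi : IntervalIntegrable F volume 0 1)
    (hF : ∀ v : ℝ, 0 ≤ v → v ≤ 1 → F v ≤ C * Real.exp (-(w + t * (b * q v)))) :
    ∫ v in (0 : ℝ)..1, F v ≤ C * Ab b α β := by
  have h := half_l (F := fun s => C⁻¹ * F s) hb hα hβ t0 t1 hw hg hg' hg0 hgp hgq hg1
    (hFi.const_mul _) ?_
  · rw [intervalIntegral.integral_const_mul, inv_mul_le_iff₀ hC] at h
    exact h
  · intro s h0 h1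
    rw [inv_mul_le_iff₀ hC]
    exact hF s h0 h1

/-- left half, `y ≥ 0` -/
theorem half_L {b t w C : ℝ} {F : ℝ → ℝ} (hC : 0 < C) (hb : 0 < b)
    (t0 : 0 < t) (t1 : t ≤ 1) (hw : Real.exp (-w) ≤ t * √t)
    (hFi : IntervalIntegrable F volume 0 1)
    (hF : ∀ v : ℝ, 0 ≤ v → v ≤ 1 →
      F v ≤ C * Real.exp (-(w + t * (b * ((1 - 3 / 10 * v) * v ^ 2))))) :
    ∫ v in (0 : ℝ)..1, F v ≤ C * Ab b (3 / 10) (2 / 5) := by
  refine half_l' (q := fun v => (1 - 3 / 10 * v) * v ^ 2)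
    (g := fun v => v - 3 / 20 * v ^ 2 - 3 / 200 * v ^ 3)
    (g' := fun v => 1 - 3 / 20 * (2 * v) - 3 / 200 * (3 * v ^ 2))
    hC hb (by norm_num) (by norm_num) t0 t1 hw ?_ (by fun_prop) (by norm_num) ?_ ?_ ?_ hFi hF
  · intro v
    have h2 := (hasDerivAt_pow 2 v).const_mul (3 / 20 : ℝ)
    have h3 := (hasDerivAt_pow 3 v).const_mul (3 / 200 : ℝ)
    refine (((hasDerivAt_id v).sub h2).sub h3).congr_deriv ?_
    push_cast
    ring
  · intro v h0 h1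
    have h2 : v ^ 2 ≤ v := by nlinarith
    have h3 : v ^ 3 ≤ v := by nlinarith [mul_nonneg h0 (sub_nonneg.2 h1), sq_nonneg v]
    nlinarith
  · intro v h0 h1
    have h2 : v ^ 2 ≤ v := by nlinarith
    have e : (1 - 3 / 10 * v) * v ^ 2 - (v - 3 / 20 * v ^ 2 - 3 / 200 * v ^ 3) ^ 2 =
        v ^ 4 * (75 / 10000 - 45 / 10000 * v - 225 / 1000000 * v ^ 2) := by ring
    have h4 : 0 ≤ 75 / 10000 - 45 / 10000 * v - 225 / 1000000 * v ^ 2 := by nlinarith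
    have := mul_nonneg (by positivity : 0 ≤ v ^ 4) h4
    linarith
  · intro v h0 h1
    have e : (1 + 3 / 10 * (v - 3 / 20 * v ^ 2 - 3 / 200 * v ^ 3) +
        2 / 5 * (v - 3 / 20 * v ^ 2 - 3 / 200 * v ^ 3) ^ 2) *
        (1 - 3 / 20 * (2 * v) - 3 / 200 * (3 * v ^ 2)) - 1 =
        v ^ 2 * (11 / 50 - 489 / 2000 * v + 147 / 8000 * v ^ 2 + 3321 / 400000 * v ^ 3
          - 63 / 200000 * v ^ 4 - 27 / 250000 * v ^ 5 - 81 / 20000000 * v ^ 6) := by ring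
    have p2 : v ^ 2 ≤ 1 := pow_le_one₀ h0 h1
    have p3 : v ^ 3 ≤ 1 := pow_le_one₀ h0 h1
    have p4 : v ^ 4 ≤ v ^ 2 := by nlinarith [sq_nonneg v]
    have p5 : v ^ 5 ≤ v ^ 2 := by nlinarith [sq_nonneg v]
    have p6 : v ^ 6 ≤ v ^ 2 := by nlinarith [sq_nonneg v, sq_nonneg (v ^ 2)]
    have p33 : 0 ≤ v ^ 3 := by positivity
    have h4 : 0 ≤ 11 / 50 - 489 / 2000 * v + 147 / 8000 * v ^ 2 + 3321 / 400000 * v ^ 3
          - 63 / 200000 * v ^ 4 - 27 / 250000 * v ^ 5 - 81 / 20000000 * v ^ 6 := by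
      nlinarith [mul_nonneg (sub_nonneg.2 h1) (sub_nonneg.2 h1),
        mul_nonneg h0 (mul_nonneg (sub_nonneg.2 h1) (sub_nonneg.2 h1))]
    have := mul_nonneg (sq_nonneg v) h4
    linarith

/-- left half, `y ≤ 0` -/
theorem half_R {b t w C : ℝ} {F : ℝ → ℝ} (hC : 0 < C) (hb : 0 < b)
    (t0 : 0 < t) (t1 : t ≤ 1) (hw : Real.exp (-w) ≤ t * √t)
    (hFi : IntervalIntegrable F volume 0 1)
    (hF : ∀ v : ℝ, 0 ≤ v → v ≤ 1 →
      F v ≤ C * Real.exp (-(w + t * (b * ((1 - 14 / 25 * v + v ^ 2 / 10) * v ^ 2))))) :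
    ∫ v in (0 : ℝ)..1, F v ≤ C * Ab b (14 / 25) (42 / 25) := by
  refine half_l' (q := fun v => (1 - 14 / 25 * v + v ^ 2 / 10) * v ^ 2)
    (g := fun v => v - 7 / 25 * v ^ 2)
    (g' := fun v => 1 - 7 / 25 * (2 * v))
    hC hb (by norm_num) (by norm_num) t0 t1 hw ?_ (by fun_prop) (by norm_num) ?_ ?_ ?_ hFi hF
  · intro v
    have h2 := (hasDerivAt_pow 2 v).const_mul (7 / 25 : ℝ)
    refine ((hasDerivAt_id v).sub h2).congr_deriv ?_
    push_cast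
    ring
  · intro v h0 h1
    nlinarith
  · intro v h0 h1
    have e : (1 - 14 / 25 * v + v ^ 2 / 10) * v ^ 2 - (v - 7 / 25 * v ^ 2) ^ 2 =
        v ^ 4 * (27 / 1250) := by ring
    have := mul_nonneg (by positivity : 0 ≤ v ^ 4) (by norm_num : (0 : ℝ) ≤ 27 / 1250)
    linarith
  · intro v h0 h1
    have e : (1 + 14 / 25 * (v - 7 / 25 * v ^ 2) + 42 / 25 * (v - 7 / 25 * v ^ 2) ^ 2) *
        (1 - 7 / 25 * (2 * v)) - 1 =
        v ^ 2 * (756 / 625 - 28028 / 15625 * v + 2058 / 3125 * v ^ 2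
          - 28812 / 390625 * v ^ 3) := by ring
    have h4 : 0 ≤ 756 / 625 - 28028 / 15625 * v + 2058 / 3125 * v ^ 2
          - 28812 / 390625 * v ^ 3 := by
      nlinarith [mul_nonneg (sub_nonneg.2 h1) (sub_nonneg.2 h1),
        mul_nonneg h0 (mul_nonneg (sub_nonneg.2 h1) (sub_nonneg.2 h1)),
        mul_nonneg h0 (sub_nonneg.2 h1)]
    have := mul_nonneg (sq_nonneg v) h4
    linarith

theorem Ab_num {B μ ν α β n : ℝ} (hB : 0 < B) (hμ : 0 < μ) (hν0 : 0 ≤ ν) (hν : 1 ≤ ν ^ 2 * μ)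
    (hβ : 0 ≤ β)
    (h : ν / 2 + α * √(Real.pi / B) / (2 * Real.pi * μ) + β * ν / (4 * μ * B) ≤ n) :
    Ab (μ * B) α β ≤ n * √(Real.pi / B) := by
  have hp := Real.pi_pos
  have hq : 0 < √(Real.pi / B) := Real.sqrt_pos.2 (by positivity)
  have hqq : √(Real.pi / B) ^ 2 = Real.pi / B := Real.sq_sqrt (by positivity)
  have h1 : √(Real.pi / (μ * B)) ≤ ν * √(Real.pi / B) := by
    rw [Real.sqrt_le_left (by positivity), mul_pow, hqq]
    rw [div_le_iff₀ (by positivity)]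
    calc Real.pi = Real.pi * 1 := by ring
      _ ≤ Real.pi * (ν ^ 2 * μ) := by gcongr
      _ = ν ^ 2 * (Real.pi / B) * (μ * B) := by field_simp
  have h2 : α / (2 * (μ * B)) =
      α * √(Real.pi / B) / (2 * Real.pi * μ) * √(Real.pi / B) := by
    have : α * √(Real.pi / B) / (2 * Real.pi * μ) * √(Real.pi / B) =
        α * √(Real.pi / B) ^ 2 / (2 * Real.pi * μ) := by ring
    rw [this, hqq]
    field_simp
  have h3 := mul_le_mul_of_nonneg_right h hq.le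
  unfold Ab
  rw [h2]
  have h4 : β * (√(Real.pi / (μ * B)) / (4 * (μ * B))) ≤
      β * ν / (4 * μ * B) * √(Real.pi / B) := by
    have : β * ν / (4 * μ * B) * √(Real.pi / B) =
        β * (ν * √(Real.pi / B) / (4 * (μ * B))) := by ring
    rw [this]
    gcongr
  linarith

/-- the Gaussian against the path -/
theorem V_le {x y δ l B : ℝ} (hδ : 0 < δ) (hQ : 0 < SokalF1G.Qf x y)
    (hB : B = SokalF1G.Qf x y / δ) (hD : 0 < √((1 + y) ^ 2 + x ^ 2))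
    (hl : (1 + (1 / (1 + x)) ^ 2) * √((1 + y) ^ 2 + x ^ 2) ≤ 2 * l ^ 2 * SokalF1G.Qf x y)
    (l0 : 0 ≤ l) :
    √(1 + ((1 + x)⁻¹) ^ 2) * √(Real.pi / B) ≤ l * Gn x y δ := by
  have hp := Real.pi_pos
  have hG : 0 ≤ Gn x y δ := Real.sqrt_nonneg _
  rw [one_div] at hl
  have h1 : 0 ≤ 1 + ((1 + x)⁻¹) ^ 2 := by positivity
  rw [← Real.sqrt_mul h1, Real.sqrt_le_left (by positivity), mul_pow]
  unfold Gn
  rw [Real.sq_sqrt (by positivity), hB]
  have e1 : (1 + ((1 + x)⁻¹) ^ 2) * (Real.pi / (SokalF1G.Qf x y / δ)) =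
      (1 + ((1 + x)⁻¹) ^ 2) * √((1 + y) ^ 2 + x ^ 2) *
        (Real.pi * δ / (SokalF1G.Qf x y * √((1 + y) ^ 2 + x ^ 2))) := by
    field_simp
  have e2 : l ^ 2 * (2 * Real.pi * δ / √((1 + y) ^ 2 + x ^ 2)) =
      (2 * l ^ 2 * SokalF1G.Qf x y) *
        (Real.pi * δ / (SokalF1G.Qf x y * √((1 + y) ^ 2 + x ^ 2))) := by
    field_simp
  rw [e1, e2]
  gcongr

/-- `e^(-11 B/20) ≤ 1/226 √(π/B)` for `B ≥ 11` -/
theorem mid_num {B : ℝ} (hB : 11 ≤ B) :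
    Real.exp (-(11 / 20 * B)) ≤ 45 / 10000 * √(Real.pi / B) := by
  have hp := Real.pi_gt_d2
  have hB0 : 0 < B := by linarith
  have h1 : Real.exp (-(11 / 20 * B)) ^ 2 ≤ (45 / 10000 * √(Real.pi / B)) ^ 2 := by
    rw [mul_pow, Real.sq_sqrt (by positivity), ← Real.exp_nat_mul]
    have e : ((2 : ℕ) : ℝ) * -(11 / 20 * B) = -(11 / 10 * 11) + -(11 / 10 * (B - 11)) := by
      push_cast
      ring
    rw [e, Real.exp_add]
    have h2 : Real.exp (-(11 / 10 * (B - 11))) ≤ 11 / B := by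
      rw [Real.exp_neg, ← one_div, div_le_div_iff₀ (Real.exp_pos _) hB0]
      have := Real.add_one_le_exp (11 / 10 * (B - 11))
      linarith
    have h3 : Real.exp (-(11 / 10 * 11 : ℝ)) ≤ 56 / 10000000 := by
      have h5 : Real.exp (-(11 / 10 * 11 : ℝ)) = (Real.exp (-(121 / 120 : ℝ))) ^ 12 := by
        rw [← Real.exp_nat_mul]
        norm_num
      have h6 : Real.exp (-(121 / 120 : ℝ)) ≤ 3649 / 10000 := by
        have h7 := Real.sum_le_exp_of_nonneg (x := 121 / 120) (by norm_num) 7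
        norm_num [Finset.sum_range_succ, Nat.factorial] at h7
        rw [Real.exp_neg, inv_le_comm₀ (Real.exp_pos _) (by norm_num)]
        refine le_trans ?_ h7
        norm_num
      rw [h5]
      refine (pow_le_pow_left₀ (Real.exp_pos _).le h6 12).trans ?_
      norm_num
    calc Real.exp (-(11 / 10 * 11)) * Real.exp (-(11 / 10 * (B - 11))) ≤
          56 / 10000000 * (11 / B) := by gcongr
      _ ≤ (45 / 10000) ^ 2 * (Real.pi / B) := by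
          rw [← mul_div_assoc, ← mul_div_assoc]
          exact div_le_div_of_nonneg_right (by linarith) hB0.le
  exact (sq_le_sq₀ (Real.exp_pos _).le (by positivity)).1 h1

end SokalV3O
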