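import Pool.Agent.Lib_MP_af4de1_v3o.OFR

/-!
# The level of the lump `-2π` on the right side: certificates
-/

set_option autoImplicit false

namespace SokalV3O

/-- lower bound of (level - tilt) divided by `a`, `w = n (1 + x)` -/
noncomputable def fV (κ c a w : ℝ) : ℝ :=
  41887 / 10000 * (1 - w / 4) - (2 - a / 3) * w ^ 2 / 16 -
    (1 - w / 4) ^ 2 * ((4 - a) / 2 * (1 - κ * w * a / 4) + c * a ^ 2)

/-- `5 ≤ x ≤ 8` -/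
theorem lv5 {a t : ℝ} (h0 : 4 / 9 ≤ a) (h1 : a ≤ 2 / 3) (t0 : 0 ≤ t) (t1 : t ≤ 1) :
    53 / 100 ≤ a * fV (797 / 1000) (1461 / 2000) a ((13857 / 10000 + 13454 / 10000 * a) * t) := by
  have h2 : 0 ≤ 2 / 3 - a := by linarith
  have h3 : 0 ≤ a - 4 / 9 := by linarith
  have h4 : 0 ≤ 1 - t := by linarith
  have h5 : 0 ≤ (317130309 / 80000) * ((a - 4 / 9) ^ 0 * (2 / 3 - a) ^ 6) * (t ^ 0 * (1 - t) ^ 3) +
      (79451629053057 / 6400000000) * ((a - 4 / 9) ^ 0 * (2 / 3 - a) ^ 6) * (t ^ 1 * (1 - t) ^ 2) +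
      (26777080387117053 / 3200000000000) * ((a - 4 / 9) ^ 0 * (2 / 3 - a) ^ 6) * (t ^ 2 * (1 - t) ^ 1) +
      (3217467823573286533 / 16000000000000000) * ((a - 4 / 9) ^ 0 * (2 / 3 - a) ^ 6) * (t ^ 3 * (1 - t) ^ 0) +
      (8910356319 / 320000) * ((a - 4 / 9) ^ 1 * (2 / 3 - a) ^ 5) * (t ^ 0 * (1 - t) ^ 3) +
      (1121683289162229 / 12800000000) * ((a - 4 / 9) ^ 1 * (2 / 3 - a) ^ 5) * (t ^ 1 * (1 - t) ^ 2) +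
      (385239378267658143 / 6400000000000) * ((a - 4 / 9) ^ 1 * (2 / 3 - a) ^ 5) * (t ^ 2 * (1 - t) ^ 1) +
      (640397336343754802931 / 256000000000000000) * ((a - 4 / 9) ^ 1 * (2 / 3 - a) ^ 5) * (t ^ 3 * (1 - t) ^ 0) +
      (1018470591 / 12800) * ((a - 4 / 9) ^ 2 * (2 / 3 - a) ^ 4) * (t ^ 0 * (1 - t) ^ 3) +
      (3224348032284999 / 12800000000) * ((a - 4 / 9) ^ 2 * (2 / 3 - a) ^ 4) * (t ^ 1 * (1 - t) ^ 2) +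
      (2237340306843622269 / 12800000000000) * ((a - 4 / 9) ^ 2 * (2 / 3 - a) ^ 4) * (t ^ 2 * (1 - t) ^ 1) +
      (227116268136756973629 / 25600000000000000) * ((a - 4 / 9) ^ 2 * (2 / 3 - a) ^ 4) * (t ^ 3 * (1 - t) ^ 0) +
      (152370477 / 1280) * ((a - 4 / 9) ^ 3 * (2 / 3 - a) ^ 3) * (t ^ 0 * (1 - t) ^ 3) +
      (2428735821067323 / 6400000000) * ((a - 4 / 9) ^ 3 * (2 / 3 - a) ^ 3) * (t ^ 1 * (1 - t) ^ 2) +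
      (6770658550666249773 / 25600000000000) * ((a - 4 / 9) ^ 3 * (2 / 3 - a) ^ 3) * (t ^ 2 * (1 - t) ^ 1) +
      (14791868741136822630939 / 1024000000000000000) * ((a - 4 / 9) ^ 3 * (2 / 3 - a) ^ 3) * (t ^ 3 * (1 - t) ^ 0) +
      (25266411 / 256) * ((a - 4 / 9) ^ 4 * (2 / 3 - a) ^ 2) * (t ^ 0 * (1 - t) ^ 3) +
      (1014925845878631 / 3200000000) * ((a - 4 / 9) ^ 4 * (2 / 3 - a) ^ 2) * (t ^ 1 * (1 - t) ^ 2) +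
      (1132093316598680583 / 5120000000000) * ((a - 4 / 9) ^ 4 * (2 / 3 - a) ^ 2) * (t ^ 2 * (1 - t) ^ 1) +
      (12399970760384815530261 / 1024000000000000000) * ((a - 4 / 9) ^ 4 * (2 / 3 - a) ^ 2) * (t ^ 3 * (1 - t) ^ 0) +
      (13794574671 / 320000) * ((a - 4 / 9) ^ 5 * (2 / 3 - a) ^ 1) * (t ^ 0 * (1 - t) ^ 3) +
      (357877414518129 / 2560000000) * ((a - 4 / 9) ^ 5 * (2 / 3 - a) ^ 1) * (t ^ 1 * (1 - t) ^ 2) +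
      (497638625728385151 / 5120000000000) * ((a - 4 / 9) ^ 5 * (2 / 3 - a) ^ 1) * (t ^ 2 * (1 - t) ^ 1) +
      (5190411048153149325069 / 1024000000000000000) * ((a - 4 / 9) ^ 5 * (2 / 3 - a) ^ 1) * (t ^ 3 * (1 - t) ^ 0) +
      (2484250479 / 320000) * ((a - 4 / 9) ^ 6 * (2 / 3 - a) ^ 0) * (t ^ 0 * (1 - t) ^ 3) +
      (325587329981883 / 12800000000) * ((a - 4 / 9) ^ 6 * (2 / 3 - a) ^ 0) * (t ^ 1 * (1 - t) ^ 2) +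
      (450445352601224223 / 25600000000000) * ((a - 4 / 9) ^ 6 * (2 / 3 - a) ^ 0) * (t ^ 2 * (1 - t) ^ 1) +
      (170662836112800904107 / 204800000000000000) * ((a - 4 / 9) ^ 6 * (2 / 3 - a) ^ 0) * (t ^ 3 * (1 - t) ^ 0) := by positivity
  have e : a * fV (797 / 1000) (1461 / 2000) a ((13857 / 10000 + 13454 / 10000 * a) * t) - 53 / 100 = (317130309 / 80000) * ((a - 4 / 9) ^ 0 * (2 / 3 - a) ^ 6) * (t ^ 0 * (1 - t) ^ 3) +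
      (79451629053057 / 6400000000) * ((a - 4 / 9) ^ 0 * (2 / 3 - a) ^ 6) * (t ^ 1 * (1 - t) ^ 2) +
      (26777080387117053 / 3200000000000) * ((a - 4 / 9) ^ 0 * (2 / 3 - a) ^ 6) * (t ^ 2 * (1 - t) ^ 1) +
      (3217467823573286533 / 16000000000000000) * ((a - 4 / 9) ^ 0 * (2 / 3 - a) ^ 6) * (t ^ 3 * (1 - t) ^ 0) +
      (8910356319 / 320000) * ((a - 4 / 9) ^ 1 * (2 / 3 - a) ^ 5) * (t ^ 0 * (1 - t) ^ 3) +
      (1121683289162229 / 12800000000) * ((a - 4 / 9) ^ 1 * (2 / 3 - a) ^ 5) * (t ^ 1 * (1 - t) ^ 2) +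
      (385239378267658143 / 6400000000000) * ((a - 4 / 9) ^ 1 * (2 / 3 - a) ^ 5) * (t ^ 2 * (1 - t) ^ 1) +
      (640397336343754802931 / 256000000000000000) * ((a - 4 / 9) ^ 1 * (2 / 3 - a) ^ 5) * (t ^ 3 * (1 - t) ^ 0) +
      (1018470591 / 12800) * ((a - 4 / 9) ^ 2 * (2 / 3 - a) ^ 4) * (t ^ 0 * (1 - t) ^ 3) +
      (3224348032284999 / 12800000000) * ((a - 4 / 9) ^ 2 * (2 / 3 - a) ^ 4) * (t ^ 1 * (1 - t) ^ 2) +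
      (2237340306843622269 / 12800000000000) * ((a - 4 / 9) ^ 2 * (2 / 3 - a) ^ 4) * (t ^ 2 * (1 - t) ^ 1) +
      (227116268136756973629 / 25600000000000000) * ((a - 4 / 9) ^ 2 * (2 / 3 - a) ^ 4) * (t ^ 3 * (1 - t) ^ 0) +
      (152370477 / 1280) * ((a - 4 / 9) ^ 3 * (2 / 3 - a) ^ 3) * (t ^ 0 * (1 - t) ^ 3) +
      (2428735821067323 / 6400000000) * ((a - 4 / 9) ^ 3 * (2 / 3 - a) ^ 3) * (t ^ 1 * (1 - t) ^ 2) +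
      (6770658550666249773 / 25600000000000) * ((a - 4 / 9) ^ 3 * (2 / 3 - a) ^ 3) * (t ^ 2 * (1 - t) ^ 1) +
      (14791868741136822630939 / 1024000000000000000) * ((a - 4 / 9) ^ 3 * (2 / 3 - a) ^ 3) * (t ^ 3 * (1 - t) ^ 0) +
      (25266411 / 256) * ((a - 4 / 9) ^ 4 * (2 / 3 - a) ^ 2) * (t ^ 0 * (1 - t) ^ 3) +
      (1014925845878631 / 3200000000) * ((a - 4 / 9) ^ 4 * (2 / 3 - a) ^ 2) * (t ^ 1 * (1 - t) ^ 2) +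
      (1132093316598680583 / 5120000000000) * ((a - 4 / 9) ^ 4 * (2 / 3 - a) ^ 2) * (t ^ 2 * (1 - t) ^ 1) +
      (12399970760384815530261 / 1024000000000000000) * ((a - 4 / 9) ^ 4 * (2 / 3 - a) ^ 2) * (t ^ 3 * (1 - t) ^ 0) +
      (13794574671 / 320000) * ((a - 4 / 9) ^ 5 * (2 / 3 - a) ^ 1) * (t ^ 0 * (1 - t) ^ 3) +
      (357877414518129 / 2560000000) * ((a - 4 / 9) ^ 5 * (2 / 3 - a) ^ 1) * (t ^ 1 * (1 - t) ^ 2) +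
      (497638625728385151 / 5120000000000) * ((a - 4 / 9) ^ 5 * (2 / 3 - a) ^ 1) * (t ^ 2 * (1 - t) ^ 1) +
      (5190411048153149325069 / 1024000000000000000) * ((a - 4 / 9) ^ 5 * (2 / 3 - a) ^ 1) * (t ^ 3 * (1 - t) ^ 0) +
      (2484250479 / 320000) * ((a - 4 / 9) ^ 6 * (2 / 3 - a) ^ 0) * (t ^ 0 * (1 - t) ^ 3) +
      (325587329981883 / 12800000000) * ((a - 4 / 9) ^ 6 * (2 / 3 - a) ^ 0) * (t ^ 1 * (1 - t) ^ 2) +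
      (450445352601224223 / 25600000000000) * ((a - 4 / 9) ^ 6 * (2 / 3 - a) ^ 0) * (t ^ 2 * (1 - t) ^ 1) +
      (170662836112800904107 / 204800000000000000) * ((a - 4 / 9) ^ 6 * (2 / 3 - a) ^ 0) * (t ^ 3 * (1 - t) ^ 0) := by
    unfold fV
    ring
  linarith

/-- `8 ≤ x` -/
theorem lv8 {a t : ℝ} (h0 : 0 ≤ a) (h1 : a ≤ 4 / 9) (t0 : 0 ≤ t) (t1 : t ≤ 1) :
    3412 / 1000 ≤ fV (88 / 100) (5485 / 10000) a ((1571 / 1000 + 9272 / 10000 * a) * t) * (4 - 2571 / 1000 * a) := by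
  have h2 : 0 ≤ 4 / 9 - a := by linarith
  have h3 : 0 ≤ a := by linarith
  have h4 : 0 ≤ 1 - t := by linarith
  have h5 : 0 ≤ (7098457437 / 10240000) * (a ^ 0 * (4 / 9 - a) ^ 6) * (t ^ 0 * (1 - t) ^ 3) +
      (83606044622643 / 40960000000) * (a ^ 0 * (4 / 9 - a) ^ 6) * (t ^ 1 * (1 - t) ^ 2) +
      (17228604557619 / 10240000000) * (a ^ 0 * (4 / 9 - a) ^ 6) * (t ^ 2 * (1 - t) ^ 1) +
      (13702203355833 / 40960000000) * (a ^ 0 * (4 / 9 - a) ^ 6) * (t ^ 3 * (1 - t) ^ 0) +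
      (40448950176627 / 10240000000) * (a ^ 1 * (4 / 9 - a) ^ 5) * (t ^ 0 * (1 - t) ^ 3) +
      (478791617409308583 / 40960000000000) * (a ^ 1 * (4 / 9 - a) ^ 5) * (t ^ 1 * (1 - t) ^ 2) +
      (96612291397737189 / 10240000000000) * (a ^ 1 * (4 / 9 - a) ^ 5) * (t ^ 2 * (1 - t) ^ 1) +
      (352303649711437923 / 204800000000000) * (a ^ 1 * (4 / 9 - a) ^ 5) * (t ^ 3 * (1 - t) ^ 0) +
      (18970945869627 / 2048000000) * (a ^ 2 * (4 / 9 - a) ^ 4) * (t ^ 0 * (1 - t) ^ 3) +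
      (5650225948350368343 / 204800000000000) * (a ^ 2 * (4 / 9 - a) ^ 4) * (t ^ 1 * (1 - t) ^ 2) +
      (4450926643009308387 / 204800000000000) * (a ^ 2 * (4 / 9 - a) ^ 4) * (t ^ 2 * (1 - t) ^ 1) +
      (362472483297349679949 / 102400000000000000) * (a ^ 2 * (4 / 9 - a) ^ 4) * (t ^ 3 * (1 - t) ^ 0) +
      (11706304933611 / 1024000000) * (a ^ 3 * (4 / 9 - a) ^ 3) * (t ^ 0 * (1 - t) ^ 3) +
      (3515306678593083711 / 102400000000000) * (a ^ 3 * (4 / 9 - a) ^ 3) * (t ^ 1 * (1 - t) ^ 2) +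
      (53833254568845130827 / 2048000000000000) * (a ^ 3 * (4 / 9 - a) ^ 3) * (t ^ 2 * (1 - t) ^ 1) +
      (1879574149310956185537 / 512000000000000000) * (a ^ 3 * (4 / 9 - a) ^ 3) * (t ^ 3 * (1 - t) ^ 0) +
      (8007341213079 / 1024000000) * (a ^ 4 * (4 / 9 - a) ^ 2) * (t ^ 0 * (1 - t) ^ 3) +
      (2429602976059795539 / 102400000000000) * (a ^ 4 * (4 / 9 - a) ^ 2) * (t ^ 1 * (1 - t) ^ 2) +
      (179888964820061455953 / 10240000000000000) * (a ^ 4 * (4 / 9 - a) ^ 2) * (t ^ 2 * (1 - t) ^ 1) +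
      (5011080417650802010617 / 2560000000000000000) * (a ^ 4 * (4 / 9 - a) ^ 2) * (t ^ 3 * (1 - t) ^ 0) +
      (5744517476931 / 2048000000) * (a ^ 5 * (4 / 9 - a) ^ 1) * (t ^ 0 * (1 - t) ^ 3) +
      (1765866529528728687 / 204800000000000) * (a ^ 5 * (4 / 9 - a) ^ 1) * (t ^ 1 * (1 - t) ^ 2) +
      (313867774815591083553 / 51200000000000000) * (a ^ 5 * (4 / 9 - a) ^ 1) * (t ^ 2 * (1 - t) ^ 1) +
      (5974214666314945076919 / 12800000000000000000) * (a ^ 5 * (4 / 9 - a) ^ 1) * (t ^ 3 * (1 - t) ^ 0) +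
      (4207987981467 / 10240000000) * (a ^ 6 * (4 / 9 - a) ^ 0) * (t ^ 0 * (1 - t) ^ 3) +
      (262975850178264603 / 204800000000000) * (a ^ 6 * (4 / 9 - a) ^ 0) * (t ^ 1 * (1 - t) ^ 2) +
      (44441088384675922713 / 51200000000000000) * (a ^ 6 * (4 / 9 - a) ^ 0) * (t ^ 2 * (1 - t) ^ 1) +
      (168162901155847666419 / 6400000000000000000) * (a ^ 6 * (4 / 9 - a) ^ 0) * (t ^ 3 * (1 - t) ^ 0) := by positivity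
  have e : fV (88 / 100) (5485 / 10000) a ((1571 / 1000 + 9272 / 10000 * a) * t) * (4 - 2571 / 1000 * a) - 3412 / 1000 = (7098457437 / 10240000) * (a ^ 0 * (4 / 9 - a) ^ 6) * (t ^ 0 * (1 - t) ^ 3) +
      (83606044622643 / 40960000000) * (a ^ 0 * (4 / 9 - a) ^ 6) * (t ^ 1 * (1 - t) ^ 2) +
      (17228604557619 / 10240000000) * (a ^ 0 * (4 / 9 - a) ^ 6) * (t ^ 2 * (1 - t) ^ 1) +
      (13702203355833 / 40960000000) * (a ^ 0 * (4 / 9 - a) ^ 6) * (t ^ 3 * (1 - t) ^ 0) +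
      (40448950176627 / 10240000000) * (a ^ 1 * (4 / 9 - a) ^ 5) * (t ^ 0 * (1 - t) ^ 3) +
      (478791617409308583 / 40960000000000) * (a ^ 1 * (4 / 9 - a) ^ 5) * (t ^ 1 * (1 - t) ^ 2) +
      (96612291397737189 / 10240000000000) * (a ^ 1 * (4 / 9 - a) ^ 5) * (t ^ 2 * (1 - t) ^ 1) +
      (352303649711437923 / 204800000000000) * (a ^ 1 * (4 / 9 - a) ^ 5) * (t ^ 3 * (1 - t) ^ 0) +
      (18970945869627 / 2048000000) * (a ^ 2 * (4 / 9 - a) ^ 4) * (t ^ 0 * (1 - t) ^ 3) +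
      (5650225948350368343 / 204800000000000) * (a ^ 2 * (4 / 9 - a) ^ 4) * (t ^ 1 * (1 - t) ^ 2) +
      (4450926643009308387 / 204800000000000) * (a ^ 2 * (4 / 9 - a) ^ 4) * (t ^ 2 * (1 - t) ^ 1) +
      (362472483297349679949 / 102400000000000000) * (a ^ 2 * (4 / 9 - a) ^ 4) * (t ^ 3 * (1 - t) ^ 0) +
      (11706304933611 / 1024000000) * (a ^ 3 * (4 / 9 - a) ^ 3) * (t ^ 0 * (1 - t) ^ 3) +
      (3515306678593083711 / 102400000000000) * (a ^ 3 * (4 / 9 - a) ^ 3) * (t ^ 1 * (1 - t) ^ 2) +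
      (53833254568845130827 / 2048000000000000) * (a ^ 3 * (4 / 9 - a) ^ 3) * (t ^ 2 * (1 - t) ^ 1) +
      (1879574149310956185537 / 512000000000000000) * (a ^ 3 * (4 / 9 - a) ^ 3) * (t ^ 3 * (1 - t) ^ 0) +
      (8007341213079 / 1024000000) * (a ^ 4 * (4 / 9 - a) ^ 2) * (t ^ 0 * (1 - t) ^ 3) +
      (2429602976059795539 / 102400000000000) * (a ^ 4 * (4 / 9 - a) ^ 2) * (t ^ 1 * (1 - t) ^ 2) +
      (179888964820061455953 / 10240000000000000) * (a ^ 4 * (4 / 9 - a) ^ 2) * (t ^ 2 * (1 - t) ^ 1) +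
      (5011080417650802010617 / 2560000000000000000) * (a ^ 4 * (4 / 9 - a) ^ 2) * (t ^ 3 * (1 - t) ^ 0) +
      (5744517476931 / 2048000000) * (a ^ 5 * (4 / 9 - a) ^ 1) * (t ^ 0 * (1 - t) ^ 3) +
      (1765866529528728687 / 204800000000000) * (a ^ 5 * (4 / 9 - a) ^ 1) * (t ^ 1 * (1 - t) ^ 2) +
      (313867774815591083553 / 51200000000000000) * (a ^ 5 * (4 / 9 - a) ^ 1) * (t ^ 2 * (1 - t) ^ 1) +
      (5974214666314945076919 / 12800000000000000000) * (a ^ 5 * (4 / 9 - a) ^ 1) * (t ^ 3 * (1 - t) ^ 0) +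
      (4207987981467 / 10240000000) * (a ^ 6 * (4 / 9 - a) ^ 0) * (t ^ 0 * (1 - t) ^ 3) +
      (262975850178264603 / 204800000000000) * (a ^ 6 * (4 / 9 - a) ^ 0) * (t ^ 1 * (1 - t) ^ 2) +
      (44441088384675922713 / 51200000000000000) * (a ^ 6 * (4 / 9 - a) ^ 0) * (t ^ 2 * (1 - t) ^ 1) +
      (168162901155847666419 / 6400000000000000000) * (a ^ 6 * (4 / 9 - a) ^ 0) * (t ^ 3 * (1 - t) ^ 0) := by
    unfold fV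
    ring
  linarith

/-- `4 ≤ x ≤ 5` -/
theorem lv4 {a t : ℝ} (h0 : 2 / 3 ≤ a) (h1 : a ≤ 4 / 5) (t0 : 0 ≤ t) (t1 : t ≤ 1) :
    451 / 1000 ≤ a * fV (728 / 1000) (8695 / 10000) a ((1145 / 1000 + 17065 / 10000 * a) * t) := by
  have h2 : 0 ≤ 4 / 5 - a := by linarith
  have h3 : 0 ≤ a - 2 / 3 := by linarith
  have h4 : 0 ≤ 1 - t := by linarith
  have h5 : 0 ≤ (44319825 / 256) * ((a - 2 / 3) ^ 0 * (4 / 5 - a) ^ 6) * (t ^ 0 * (1 - t) ^ 3) +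
      (363877713 / 640) * ((a - 2 / 3) ^ 0 * (4 / 5 - a) ^ 6) * (t ^ 1 * (1 - t) ^ 2) +
      (13030604181 / 32000) * ((a - 2 / 3) ^ 0 * (4 / 5 - a) ^ 6) * (t ^ 2 * (1 - t) ^ 1) +
      (1480419829 / 50000) * ((a - 2 / 3) ^ 0 * (4 / 5 - a) ^ 6) * (t ^ 3 * (1 - t) ^ 0) +
      (552444705 / 512) * ((a - 2 / 3) ^ 1 * (4 / 5 - a) ^ 5) * (t ^ 0 * (1 - t) ^ 3) +
      (1461250022013 / 409600) * ((a - 2 / 3) ^ 1 * (4 / 5 - a) ^ 5) * (t ^ 1 * (1 - t) ^ 2) +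
      (12999866839917 / 5120000) * ((a - 2 / 3) ^ 1 * (4 / 5 - a) ^ 5) * (t ^ 2 * (1 - t) ^ 1) +
      (216703819633329 / 1280000000) * ((a - 2 / 3) ^ 1 * (4 / 5 - a) ^ 5) * (t ^ 3 * (1 - t) ^ 0) +
      (1430621595 / 512) * ((a - 2 / 3) ^ 2 * (4 / 5 - a) ^ 4) * (t ^ 0 * (1 - t) ^ 3) +
      (9529558585137 / 1024000) * ((a - 2 / 3) ^ 2 * (4 / 5 - a) ^ 4) * (t ^ 1 * (1 - t) ^ 2) +
      (2694240865001523 / 409600000) * ((a - 2 / 3) ^ 2 * (4 / 5 - a) ^ 4) * (t ^ 2 * (1 - t) ^ 1) +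
      (4043918846194203 / 10240000000) * ((a - 2 / 3) ^ 2 * (4 / 5 - a) ^ 4) * (t ^ 3 * (1 - t) ^ 0) +
      (985322259 / 256) * ((a - 2 / 3) ^ 3 * (4 / 5 - a) ^ 3) * (t ^ 0 * (1 - t) ^ 3) +
      (2646174716487 / 204800) * ((a - 2 / 3) ^ 3 * (4 / 5 - a) ^ 3) * (t ^ 1 * (1 - t) ^ 2) +
      (18563861039215977 / 2048000000) * ((a - 2 / 3) ^ 3 * (4 / 5 - a) ^ 3) * (t ^ 2 * (1 - t) ^ 1) +
      (98024631853879107 / 204800000000) * ((a - 2 / 3) ^ 3 * (4 / 5 - a) ^ 3) * (t ^ 3 * (1 - t) ^ 0) +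
      (380764071 / 128) * ((a - 2 / 3) ^ 4 * (4 / 5 - a) ^ 2) * (t ^ 0 * (1 - t) ^ 3) +
      (2578372115877 / 256000) * ((a - 2 / 3) ^ 4 * (4 / 5 - a) ^ 2) * (t ^ 1 * (1 - t) ^ 2) +
      (35886305532590379 / 5120000000) * ((a - 2 / 3) ^ 4 * (4 / 5 - a) ^ 2) * (t ^ 2 * (1 - t) ^ 1) +
      (3228796562125149 / 10240000000) * ((a - 2 / 3) ^ 4 * (4 / 5 - a) ^ 2) * (t ^ 3 * (1 - t) ^ 0) +
      (626279769 / 512) * ((a - 2 / 3) ^ 5 * (4 / 5 - a) ^ 1) * (t ^ 0 * (1 - t) ^ 3) +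
      (8560382579793 / 2048000) * ((a - 2 / 3) ^ 5 * (4 / 5 - a) ^ 1) * (t ^ 1 * (1 - t) ^ 2) +
      (36914353365871431 / 12800000000) * ((a - 2 / 3) ^ 5 * (4 / 5 - a) ^ 1) * (t ^ 2 * (1 - t) ^ 1) +
      (135069310519842339 / 1280000000000) * ((a - 2 / 3) ^ 5 * (4 / 5 - a) ^ 1) * (t ^ 3 * (1 - t) ^ 0) +
      (107051463 / 512) * ((a - 2 / 3) ^ 6 * (4 / 5 - a) ^ 0) * (t ^ 0 * (1 - t) ^ 3) +
      (738938537919 / 1024000) * ((a - 2 / 3) ^ 6 * (4 / 5 - a) ^ 0) * (t ^ 1 * (1 - t) ^ 2) +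
      (3157559712795123 / 6400000000) * ((a - 2 / 3) ^ 6 * (4 / 5 - a) ^ 0) * (t ^ 2 * (1 - t) ^ 1) +
      (27248233436127657 / 2000000000000) * ((a - 2 / 3) ^ 6 * (4 / 5 - a) ^ 0) * (t ^ 3 * (1 - t) ^ 0) := by positivity
  have e : a * fV (728 / 1000) (8695 / 10000) a ((1145 / 1000 + 17065 / 10000 * a) * t) - 451 / 1000 = (44319825 / 256) * ((a - 2 / 3) ^ 0 * (4 / 5 - a) ^ 6) * (t ^ 0 * (1 - t) ^ 3) +
      (363877713 / 640) * ((a - 2 / 3) ^ 0 * (4 / 5 - a) ^ 6) * (t ^ 1 * (1 - t) ^ 2) +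
      (13030604181 / 32000) * ((a - 2 / 3) ^ 0 * (4 / 5 - a) ^ 6) * (t ^ 2 * (1 - t) ^ 1) +
      (1480419829 / 50000) * ((a - 2 / 3) ^ 0 * (4 / 5 - a) ^ 6) * (t ^ 3 * (1 - t) ^ 0) +
      (552444705 / 512) * ((a - 2 / 3) ^ 1 * (4 / 5 - a) ^ 5) * (t ^ 0 * (1 - t) ^ 3) +
      (1461250022013 / 409600) * ((a - 2 / 3) ^ 1 * (4 / 5 - a) ^ 5) * (t ^ 1 * (1 - t) ^ 2) +
      (12999866839917 / 5120000) * ((a - 2 / 3) ^ 1 * (4 / 5 - a) ^ 5) * (t ^ 2 * (1 - t) ^ 1) +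
      (216703819633329 / 1280000000) * ((a - 2 / 3) ^ 1 * (4 / 5 - a) ^ 5) * (t ^ 3 * (1 - t) ^ 0) +
      (1430621595 / 512) * ((a - 2 / 3) ^ 2 * (4 / 5 - a) ^ 4) * (t ^ 0 * (1 - t) ^ 3) +
      (9529558585137 / 1024000) * ((a - 2 / 3) ^ 2 * (4 / 5 - a) ^ 4) * (t ^ 1 * (1 - t) ^ 2) +
      (2694240865001523 / 409600000) * ((a - 2 / 3) ^ 2 * (4 / 5 - a) ^ 4) * (t ^ 2 * (1 - t) ^ 1) +
      (4043918846194203 / 10240000000) * ((a - 2 / 3) ^ 2 * (4 / 5 - a) ^ 4) * (t ^ 3 * (1 - t) ^ 0) +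
      (985322259 / 256) * ((a - 2 / 3) ^ 3 * (4 / 5 - a) ^ 3) * (t ^ 0 * (1 - t) ^ 3) +
      (2646174716487 / 204800) * ((a - 2 / 3) ^ 3 * (4 / 5 - a) ^ 3) * (t ^ 1 * (1 - t) ^ 2) +
      (18563861039215977 / 2048000000) * ((a - 2 / 3) ^ 3 * (4 / 5 - a) ^ 3) * (t ^ 2 * (1 - t) ^ 1) +
      (98024631853879107 / 204800000000) * ((a - 2 / 3) ^ 3 * (4 / 5 - a) ^ 3) * (t ^ 3 * (1 - t) ^ 0) +
      (380764071 / 128) * ((a - 2 / 3) ^ 4 * (4 / 5 - a) ^ 2) * (t ^ 0 * (1 - t) ^ 3) +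
      (2578372115877 / 256000) * ((a - 2 / 3) ^ 4 * (4 / 5 - a) ^ 2) * (t ^ 1 * (1 - t) ^ 2) +
      (35886305532590379 / 5120000000) * ((a - 2 / 3) ^ 4 * (4 / 5 - a) ^ 2) * (t ^ 2 * (1 - t) ^ 1) +
      (3228796562125149 / 10240000000) * ((a - 2 / 3) ^ 4 * (4 / 5 - a) ^ 2) * (t ^ 3 * (1 - t) ^ 0) +
      (626279769 / 512) * ((a - 2 / 3) ^ 5 * (4 / 5 - a) ^ 1) * (t ^ 0 * (1 - t) ^ 3) +
      (8560382579793 / 2048000) * ((a - 2 / 3) ^ 5 * (4 / 5 - a) ^ 1) * (t ^ 1 * (1 - t) ^ 2) +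
      (36914353365871431 / 12800000000) * ((a - 2 / 3) ^ 5 * (4 / 5 - a) ^ 1) * (t ^ 2 * (1 - t) ^ 1) +
      (135069310519842339 / 1280000000000) * ((a - 2 / 3) ^ 5 * (4 / 5 - a) ^ 1) * (t ^ 3 * (1 - t) ^ 0) +
      (107051463 / 512) * ((a - 2 / 3) ^ 6 * (4 / 5 - a) ^ 0) * (t ^ 0 * (1 - t) ^ 3) +
      (738938537919 / 1024000) * ((a - 2 / 3) ^ 6 * (4 / 5 - a) ^ 0) * (t ^ 1 * (1 - t) ^ 2) +
      (3157559712795123 / 6400000000) * ((a - 2 / 3) ^ 6 * (4 / 5 - a) ^ 0) * (t ^ 2 * (1 - t) ^ 1) +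
      (27248233436127657 / 2000000000000) * ((a - 2 / 3) ^ 6 * (4 / 5 - a) ^ 0) * (t ^ 3 * (1 - t) ^ 0) := by
    unfold fV
    ring
  linarith

/-- `3 ≤ x ≤ 4`, `n = 53/100 t` -/
theorem lv3 {a t : ℝ} (h0 : 4 / 5 ≤ a) (h1 : a ≤ 1) (t0 : 0 ≤ t) (t1 : t ≤ 1) :
    902 / 10000 * (4 - a) * (1 - 7 / 10 * (53 / 100 * t)) ≤ 41887 / 10000 * a * (a - 53 / 100 * t) - (2 - a / 3) * (53 / 100 * t) ^ 2 - (a - 53 / 100 * t) ^ 2 * ((4 - a) / 2 * (1 - 7 / 10 * (53 / 100 * t)) + 1133 / 1000 * a ^ 2) := by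
  have h2 : 0 ≤ 1 - a := by linarith
  have h3 : 0 ≤ a - 4 / 5 := by linarith
  have h4 : 0 ≤ 1 - t := by linarith
  have h5 : 0 ≤ (70629 / 125) * ((a - 4 / 5) ^ 0 * (1 - a) ^ 4) * (t ^ 0 * (1 - t) ^ 3) +
      (848709 / 400) * ((a - 4 / 5) ^ 0 * (1 - a) ^ 4) * (t ^ 1 * (1 - t) ^ 2) +
      (114099659 / 75000) * ((a - 4 / 5) ^ 0 * (1 - a) ^ 4) * (t ^ 2 * (1 - t) ^ 1) +
      (1290041 / 18750) * ((a - 4 / 5) ^ 0 * (1 - a) ^ 4) * (t ^ 3 * (1 - t) ^ 0) +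
      (507819 / 200) * ((a - 4 / 5) ^ 1 * (1 - a) ^ 3) * (t ^ 0 * (1 - t) ^ 3) +
      (47967109 / 5000) * ((a - 4 / 5) ^ 1 * (1 - a) ^ 3) * (t ^ 1 * (1 - t) ^ 2) +
      (2210309167 / 300000) * ((a - 4 / 5) ^ 1 * (1 - a) ^ 3) * (t ^ 2 * (1 - t) ^ 1) +
      (1736910371 / 2400000) * ((a - 4 / 5) ^ 1 * (1 - a) ^ 3) * (t ^ 3 * (1 - t) ^ 0) +
      (1681217 / 400) * ((a - 4 / 5) ^ 2 * (1 - a) ^ 2) * (t ^ 0 * (1 - t) ^ 3) +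
      (160437077 / 10000) * ((a - 4 / 5) ^ 2 * (1 - a) ^ 2) * (t ^ 1 * (1 - t) ^ 2) +
      (5212953723 / 400000) * ((a - 4 / 5) ^ 2 * (1 - a) ^ 2) * (t ^ 2 * (1 - t) ^ 1) +
      (1437969921 / 800000) * ((a - 4 / 5) ^ 2 * (1 - a) ^ 2) * (t ^ 3 * (1 - t) ^ 0) +
      (30333 / 10) * ((a - 4 / 5) ^ 3 * (1 - a) ^ 1) * (t ^ 0 * (1 - t) ^ 3) +
      (58762167 / 5000) * ((a - 4 / 5) ^ 3 * (1 - a) ^ 1) * (t ^ 1 * (1 - t) ^ 2) +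
      (1201231547 / 120000) * ((a - 4 / 5) ^ 3 * (1 - a) ^ 1) * (t ^ 2 * (1 - t) ^ 1) +
      (810453593 / 480000) * ((a - 4 / 5) ^ 3 * (1 - a) ^ 1) * (t ^ 3 * (1 - t) ^ 0) +
      (12851 / 16) * ((a - 4 / 5) ^ 4 * (1 - a) ^ 0) * (t ^ 0 * (1 - t) ^ 3) +
      (397122 / 125) * ((a - 4 / 5) ^ 4 * (1 - a) ^ 0) * (t ^ 1 * (1 - t) ^ 2) +
      (27080141 / 9600) * ((a - 4 / 5) ^ 4 * (1 - a) ^ 0) * (t ^ 2 * (1 - t) ^ 1) +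
      (10459393 / 19200) * ((a - 4 / 5) ^ 4 * (1 - a) ^ 0) * (t ^ 3 * (1 - t) ^ 0) := by positivity
  have e : 41887 / 10000 * a * (a - 53 / 100 * t) - (2 - a / 3) * (53 / 100 * t) ^ 2 - (a - 53 / 100 * t) ^ 2 * ((4 - a) / 2 * (1 - 7 / 10 * (53 / 100 * t)) + 1133 / 1000 * a ^ 2) - 902 / 10000 * (4 - a) * (1 - 7 / 10 * (53 / 100 * t)) = (70629 / 125) * ((a - 4 / 5) ^ 0 * (1 - a) ^ 4) * (t ^ 0 * (1 - t) ^ 3) +
      (848709 / 400) * ((a - 4 / 5) ^ 0 * (1 - a) ^ 4) * (t ^ 1 * (1 - t) ^ 2) +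
      (114099659 / 75000) * ((a - 4 / 5) ^ 0 * (1 - a) ^ 4) * (t ^ 2 * (1 - t) ^ 1) +
      (1290041 / 18750) * ((a - 4 / 5) ^ 0 * (1 - a) ^ 4) * (t ^ 3 * (1 - t) ^ 0) +
      (507819 / 200) * ((a - 4 / 5) ^ 1 * (1 - a) ^ 3) * (t ^ 0 * (1 - t) ^ 3) +
      (47967109 / 5000) * ((a - 4 / 5) ^ 1 * (1 - a) ^ 3) * (t ^ 1 * (1 - t) ^ 2) +
      (2210309167 / 300000) * ((a - 4 / 5) ^ 1 * (1 - a) ^ 3) * (t ^ 2 * (1 - t) ^ 1) +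
      (1736910371 / 2400000) * ((a - 4 / 5) ^ 1 * (1 - a) ^ 3) * (t ^ 3 * (1 - t) ^ 0) +
      (1681217 / 400) * ((a - 4 / 5) ^ 2 * (1 - a) ^ 2) * (t ^ 0 * (1 - t) ^ 3) +
      (160437077 / 10000) * ((a - 4 / 5) ^ 2 * (1 - a) ^ 2) * (t ^ 1 * (1 - t) ^ 2) +
      (5212953723 / 400000) * ((a - 4 / 5) ^ 2 * (1 - a) ^ 2) * (t ^ 2 * (1 - t) ^ 1) +
      (1437969921 / 800000) * ((a - 4 / 5) ^ 2 * (1 - a) ^ 2) * (t ^ 3 * (1 - t) ^ 0) +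
      (30333 / 10) * ((a - 4 / 5) ^ 3 * (1 - a) ^ 1) * (t ^ 0 * (1 - t) ^ 3) +
      (58762167 / 5000) * ((a - 4 / 5) ^ 3 * (1 - a) ^ 1) * (t ^ 1 * (1 - t) ^ 2) +
      (1201231547 / 120000) * ((a - 4 / 5) ^ 3 * (1 - a) ^ 1) * (t ^ 2 * (1 - t) ^ 1) +
      (810453593 / 480000) * ((a - 4 / 5) ^ 3 * (1 - a) ^ 1) * (t ^ 3 * (1 - t) ^ 0) +
      (12851 / 16) * ((a - 4 / 5) ^ 4 * (1 - a) ^ 0) * (t ^ 0 * (1 - t) ^ 3) +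
      (397122 / 125) * ((a - 4 / 5) ^ 4 * (1 - a) ^ 0) * (t ^ 1 * (1 - t) ^ 2) +
      (27080141 / 9600) * ((a - 4 / 5) ^ 4 * (1 - a) ^ 0) * (t ^ 2 * (1 - t) ^ 1) +
      (10459393 / 19200) * ((a - 4 / 5) ^ 4 * (1 - a) ^ 0) * (t ^ 3 * (1 - t) ^ 0) := by
    ring
  linarith

end SokalV3O
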